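import Pool.Agent.H821.BZ.Main3

/-! The rates theorem, conclusion. -/

set_option autoImplicit false
open MeasureTheory Metric Set Filter Topology
open scoped ENNReal Real InnerProductSpace Pointwise

namespace Pool.Agent.H821.BZ

variable {d : ℕ}

/-- all weighted sup norms are bounded on `[0,T)` -/
def Reg (T : ℝ) (f : ℝ → V d → V d → ℝ) : Prop :=
  ∀ N : ℕ, ∃ M : ℝ, ∀ t ∈ Ico 0 T, ∀ x v : V d, f t x v ≤ M * φ N v

lemma φ_anti (N k : ℕ) (v : V d) : φ (N + k) v ≤ φ N v := by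
  unfold φ
  refine inv_anti₀ (by positivity) (pow_le_pow_right₀ ?_ (by omega))
  have := sq_nonneg ‖v‖; linarith

/-- the induction on the energy rate -/
theorem rates_aux (hd : 2 ≤ d) {s K γ : ℝ} (hs0 : 0 < s) (hs1 : s < 1) (hγ0 : 0 ≤ γ) (hγs : γ + 2 * s < 2)
    {b : ℝ → ℝ} (hb : IsAng (((d:ℝ) - 1) / 2 + s) K b) {T : ℝ} {f : ℝ → V d → V d → ℝ} (h : IsSol γ b T f)
    {t₁ : ℝ} (ht₁ : t₁ ∈ Ico 0 T) (hT1 : T - t₁ ≤ 1) {α δ C0 : ℝ} (hα : 0 ≤ α) (hδ : 0 < δ) (hC0 : 0 ≤ C0)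
    (hρ : ∀ t ∈ Ico t₁ T, ∀ x, rho f t x ≤ C0 * (T - t) ^ (-α)) (k : ℕ) :
    ∀ ℓ : ℝ, 0 ≤ ℓ → α + γ * ℓ ≤ 1 - δ → ℓ ≤ δ / 4 + k * (δ / 8) →
      (∃ C1, 0 ≤ C1 ∧ ∀ t ∈ Ico t₁ T, ∀ x, ener f t x ≤ C1 * (T - t) ^ (-(α + 2 * ℓ))) → Reg T f := by
  have hγ2 : γ < 2 := by linarith
  have base : ∀ ℓ : ℝ, 0 ≤ ℓ → α + γ * ℓ ≤ 1 - δ → ℓ ≤ δ / 4 →
      (∃ C1, 0 ≤ C1 ∧ ∀ t ∈ Ico t₁ T, ∀ x, ener f t x ≤ C1 * (T - t) ^ (-(α + 2 * ℓ))) → Reg T f := by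
    intro ℓ hℓ h1 h2 hE N
    obtain ⟨C1, hC1, hE⟩ := hE
    have hN : (d:ℝ) + 6 ≤ 2 * ((N + (d + 6) : ℕ) : ℝ) := by
      push_cast; linarith [(by positivity : (0:ℝ) ≤ d), (by positivity : (0:ℝ) ≤ N)]
    have hγℓ : 0 ≤ γ * ℓ := by positivity
    obtain ⟨K', hK', hb'⟩ := step hd hs0 hs1 hγ0 hγs hb h ht₁ hT1 (ε := 0) (ℓ := ℓ) (α := α) le_rfl
      (by linarith) (by nlinarith) hC0 hC1 hρ hE hN
    obtain ⟨C, hC, hCb⟩ := h.decayφ ht₁ N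
    refine ⟨max K' C, fun t ht x v => ?_⟩
    have hφ := (φ_pos N v).le
    rcases le_total t t₁ with h3 | h3
    · exact (hCb t ⟨ht.1, h3⟩ x v).trans (mul_le_mul_of_nonneg_right (le_max_right _ _) hφ)
    · have h4 := hb' t ⟨h3, ht.2⟩ x v
      rw [neg_zero, Real.rpow_zero, φs_one] at h4
      exact (h4.trans (mul_le_mul_of_nonneg_left (φ_anti N (d + 6) v) hK')).trans
        (mul_le_mul_of_nonneg_right (le_max_left _ _) hφ)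
  induction k with
  | zero => intro ℓ hℓ h1 h2; exact base ℓ hℓ h1 (by simpa using h2)
  | succ k ih =>
    intro ℓ hℓ h1 h2 hE
    by_cases hc : ℓ ≤ δ / 4
    · exact base ℓ hℓ h1 hc hE
    · push Not at hc
      obtain ⟨C1, hC1, hE⟩ := hE
      have h5 : γ * (ℓ - δ / 4) ≤ γ * ℓ := mul_le_mul_of_nonneg_left (by linarith) hγ0
      obtain ⟨C2, hC2, hE2⟩ := step2 hd hs0 hs1 hγ0 hγs hb h ht₁ hT1 (ε := ℓ - δ / 4) (η := δ / 8) (ℓ := ℓ) hα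
        (by linarith) (by positivity) (by linarith) (by nlinarith) hC0 hC1 hρ hE
      refine ih (ℓ - δ / 8) (by linarith) ?_ (by push_cast at h2; linarith) ⟨C2, hC2, ?_⟩
      · have : γ * (ℓ - δ / 8) ≤ γ * ℓ := mul_le_mul_of_nonneg_left (by linarith) hγ0
        linarith
      · intro t ht x
        have := hE2 t ht x
        rwa [show ℓ - δ / 4 + δ / 8 = ℓ - δ / 8 by ring] at this

/-- no implosion below the critical rates -/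
theorem rates (hd : 2 ≤ d) {s K γ : ℝ} (hs0 : 0 < s) (hs1 : s < 1) (hγ0 : 0 ≤ γ) (hγs : γ + 2 * s < 2)
    {b : ℝ → ℝ} (hb : IsAng (((d:ℝ) - 1) / 2 + s) K b) {T : ℝ} (hT : 0 < T) {f : ℝ → V d → V d → ℝ} (h : IsSol γ b T f)
    {α β' C0 : ℝ} (hα : 0 ≤ α) (hαβ : α ≤ β') (hrate : (1 - γ / 2) * α + γ / 2 * β' < 1)
    (hρ : ∀ t ∈ Ico 0 T, ∀ x, rho f t x ≤ C0 * (T - t) ^ (-α))
    (hE : ∀ t ∈ Ico 0 T, ∀ x, ener f t x ≤ C0 * (T - t) ^ (-β')) : Reg T f := by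
  set t₁ := max 0 (T - 1) with ht₁def
  have ht₁ : t₁ ∈ Ico 0 T := ⟨le_max_left _ _, max_lt hT (by linarith)⟩
  have hT1 : T - t₁ ≤ 1 := by have := le_max_right 0 (T - 1); rw [← ht₁def] at this; linarith
  set ℓ := (β' - α) / 2 with hℓ
  set δ := 1 - ((1 - γ / 2) * α + γ / 2 * β') with hδ
  have hδ0 : 0 < δ := by linarith
  have hsub : ∀ t ∈ Ico t₁ T, t ∈ Ico 0 T := fun t ht => ⟨ht₁.1.trans ht.1, ht.2⟩
  obtain ⟨k, hk⟩ := exists_nat_ge ((ℓ - δ / 4) / (δ / 8))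
  rw [div_le_iff₀ (by positivity)] at hk
  refine rates_aux hd hs0 hs1 hγ0 hγs hb h ht₁ hT1 (C0 := |C0|) hα hδ0 (abs_nonneg _) ?_ k ℓ (by rw [hℓ]; linarith)
    (by rw [hℓ, hδ]; linarith) (by linarith) ⟨|C0|, abs_nonneg _, ?_⟩
  · intro t ht x
    have hy : 0 < T - t := by linarith [ht.2]
    exact (hρ t (hsub t ht) x).trans (mul_le_mul_of_nonneg_right (le_abs_self _) (by positivity))
  · intro t ht x
    have hy : 0 < T - t := by linarith [ht.2]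
    have e : α + 2 * ℓ = β' := by rw [hℓ]; ring
    rw [e]
    exact (hE t (hsub t ht) x).trans (mul_le_mul_of_nonneg_right (le_abs_self _) (by positivity))

lemma Reg.hb {γ T : ℝ} {b : ℝ → ℝ} {f : ℝ → V d → V d → ℝ} (h : IsSol γ b T f) (hT : 0 < T) (hr : Reg T f) : HB T f := by
  obtain ⟨M, hM⟩ := hr (d + 3)
  exact HB_of (N := d + 3) (by push_cast; linarith [(by positivity : (0:ℝ) ≤ d)]) h (t₁ := 0) ⟨le_rfl, hT⟩ (M := M) hM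

end Pool.Agent.H821.BZ
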