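import Pool.Agent.H821.BZ.Op

/-! From the gain and loss terms to the collision operator. -/

set_option autoImplicit false
open MeasureTheory Metric Set
open scoped ENNReal Real InnerProductSpace Pointwise

namespace Pool.Agent.H821.BZ

variable {d : ℕ}

lemma T_of_cos_one {u σ : V d} (hσ : ‖σ‖ = 1) (h : ⟪u, σ⟫_ℝ / ‖u‖ = 1) : T σ u = u ∧ T (-σ) u = 0 := by
  have hu : 0 < ‖u‖ := by
    rw [norm_pos_iff]; rintro rfl; simp at h
  rw [div_eq_one_iff_eq hu.ne'] at h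
  have h2 : u = ‖u‖ • σ := by
    have h3 : ‖u - ‖u‖ • σ‖ ^ 2 = 0 := by
      rw [norm_sub_sq_real, norm_smul, inner_smul_right, h, hσ]
      simp; ring
    have h4 : ‖u - ‖u‖ • σ‖ = 0 := by
      exact pow_eq_zero_iff (two_ne_zero) |>.1 h3
    rwa [norm_eq_zero, sub_eq_zero] at h4
  have h5 : T (-σ) u = 0 := by
    unfold T
    rw [smul_neg, ← h2, add_neg_cancel, smul_zero]
  refine ⟨?_, h5⟩
  have := T_add σ u
  rwa [h5, add_zero] at this

/-- the gain integrand -/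
noncomputable def Gi (γ : ℝ) (b : ℝ → ℝ) (ε : ℝ) (f : V d → ℝ) (v : V d) (q : V d × Sp d) : ℝ :=
  kern γ (β0 b ε) (q.2 : V d) q.1 * (f (v + T (q.2 : V d) q.1) * f (v + T (-(q.2 : V d)) q.1))

/-- the loss integrand -/
noncomputable def Li (γ : ℝ) (b : ℝ → ℝ) (ε : ℝ) (f : V d → ℝ) (v : V d) (q : V d × Sp d) : ℝ :=
  kern γ (β0 b ε) (q.2 : V d) q.1 * (f (v + q.1) * f v)

lemma Qcut_eq (γ : ℝ) (b : ℝ → ℝ) {ε : ℝ} (hε : 0 < ε) (f : V d → ℝ) (v : V d) :
    Qcut γ b ε f v = ∫ u : V d, ∫ σ : Sp d, (Gi γ b ε f v (u, σ) - Li γ b ε f v (u, σ)) ∂(sm d) := by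
  unfold Qcut
  rw [← integral_add_left_eq_self _ v]
  refine integral_congr_ae (Filter.Eventually.of_forall fun u => ?_)
  simp only
  refine integral_congr_ae (Filter.Eventually.of_forall fun σ => ?_)
  have hσ : ‖(σ : V d)‖ = 1 := by simp
  simp only [Gi, Li]
  rw [vP_add, vPs_add, cosD_add, sub_add_cancel_left, norm_neg]
  set c := ⟪u, (σ : V d)⟫_ℝ / ‖u‖ with hc
  have hc1 : |c| ≤ 1 := by
    rw [hc, abs_div, abs_norm]
    refine div_le_one_of_le₀ ?_ (norm_nonneg _)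
    have := abs_real_inner_le_norm u (σ : V d)
    rwa [hσ, mul_one] at this
  obtain ⟨hc1a, hc1b⟩ := abs_le.1 hc1
  unfold kern
  rw [← hc]
  unfold β0
  by_cases h1 : c = 1
  · obtain ⟨e1, e2⟩ := T_of_cos_one hσ h1
    rw [e1, e2, h1]
    simp only [add_zero]
    split_ifs <;> ring
  · have h1' : c < 1 := lt_of_le_of_ne hc1b h1
    by_cases h2 : -c ≤ 1 - ε
    · rw [if_pos h2, if_pos ⟨⟨by linarith, h1'⟩, h2⟩]; ring
    · rw [if_neg h2, if_neg (fun h => h2 h.2)]; ring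

lemma measurable_kernS (γ : ℝ) {β : ℝ → ℝ} (hβ : Measurable β) :
    Measurable (fun q : V d × Sp d => kern γ β (q.2 : V d) q.1) :=
  (measurable_fst.norm.pow_const γ).mul (hβ.comp
    ((measurable_fst.inner (measurable_subtype_coe.comp measurable_snd)).div measurable_fst.norm))

lemma measurable_TS : Measurable (fun q : V d × Sp d => T (q.2 : V d) q.1) :=
  measurable_T.comp ((measurable_subtype_coe.comp measurable_snd).prodMk measurable_fst)

lemma measurable_TS' : Measurable (fun q : V d × Sp d => T (-(q.2 : V d)) q.1) :=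
  measurable_T.comp ((measurable_subtype_coe.comp measurable_snd).neg.prodMk measurable_fst)

lemma measurable_Gi (γ : ℝ) {b : ℝ → ℝ} (hb : Measurable b) (ε : ℝ) {f : V d → ℝ} (hf : Measurable f) (v : V d) :
    Measurable (Gi γ b ε f v) := by
  unfold Gi
  have h1 : Measurable (fun q : V d × Sp d => f (v + T (q.2 : V d) q.1)) :=
    hf.comp (measurable_TS.const_add v)
  have h2 : Measurable (fun q : V d × Sp d => f (v + T (-(q.2 : V d)) q.1)) :=
    hf.comp (measurable_TS'.const_add v)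
  exact (measurable_kernS γ (measurable_β0 hb ε)).mul (h1.mul h2)

lemma measurable_Li (γ : ℝ) {b : ℝ → ℝ} (hb : Measurable b) (ε : ℝ) {f : V d → ℝ} (hf : Measurable f) (v : V d) :
    Measurable (Li γ b ε f v) := by
  unfold Li
  have h1 : Measurable (fun q : V d × Sp d => f (v + q.1)) :=
    hf.comp (measurable_fst.const_add v)
  exact (measurable_kernS γ (measurable_β0 hb ε)).mul (h1.mul measurable_const)

lemma gain_symm {γ : ℝ} {b : ℝ → ℝ} {p K : ℝ} (hb : IsAng p K b) (ε : ℝ) {f : V d → ℝ} (hf : Measurable f) (v : V d) :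
    gain γ (β0 b ε) f v = gain γ (βs b ε) f v := by
  have hfT : Measurable (fun q : Sp d × V d => ENNReal.ofReal (f (v + T (q.1 : V d) q.2))) :=
    (hf.comp (measurable_T'.const_add v)).ennreal_ofReal
  have hfT' : Measurable (fun q : Sp d × V d => ENNReal.ofReal (f (v + T (-(q.1 : V d)) q.2))) :=
    (hf.comp (measurable_T''.const_add v)).ennreal_ofReal
  unfold gain
  refine symm_int γ hb ε (F := fun σ u => ENNReal.ofReal (f (v + T (σ : V d) u)) *
      ENNReal.ofReal (f (v + T (-(σ : V d)) u))) (hfT.mul hfT') ?_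
  intro σ u
  simp only [rot_coe, LinearIsometryEquiv.coe_neg, neg_neg]
  rw [mul_comm]

lemma loss_symm {γ : ℝ} {b : ℝ → ℝ} {p K : ℝ} (hb : IsAng p K b) (ε : ℝ) {f : V d → ℝ} (hf : Measurable f) (v : V d) :
    loss γ (β0 b ε) f v = loss γ (βs b ε) f v := by
  have h1 : Measurable (fun q : Sp d × V d => ENNReal.ofReal (f (v + q.2))) :=
    (hf.comp (measurable_snd.const_add v)).ennreal_ofReal
  unfold loss
  refine symm_int γ hb ε (F := fun σ u => ENNReal.ofReal (f (v + u)) * ENNReal.ofReal (f v)) (h1.mul measurable_const) ?_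
  intro σ u; rfl

lemma loss_fin (hd : 2 ≤ d) {γ p K ε : ℝ} {b : ℝ → ℝ} (hp : 0 ≤ p) (hb : IsAng p K b) (hε : 0 < ε)
    {f : V d → ℝ} (hf : Measurable f) (v : V d)
    (hfin : ∫⁻ z : V d, ENNReal.ofReal (‖z‖ ^ γ) * ENNReal.ofReal (f (v + z)) ≠ ⊤) :
    loss γ (β0 b ε) f v ≠ ⊤ := by
  have : Nontrivial (Fin d) := Fin.nontrivial_iff_two_le.2 hd
  have : Nonempty (Fin d) := inferInstance
  have : Nontrivial (V d) := inferInstance
  obtain ⟨i0⟩ : Nonempty (Fin d) := inferInstance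
  set e : V d := EuclideanSpace.single i0 1 with he
  have hen : ‖e‖ = 1 := by simp [he]
  rw [loss_eq (measurable_β0 hb.meas ε) hf v e hen]
  refine ENNReal.mul_ne_top ENNReal.ofReal_ne_top (ENNReal.mul_ne_top ?_ hfin)
  have : BB d (β0 b ε) e ≤ ENNReal.ofReal (|K| * (ε / 2) ^ (-p)) * (sm d) univ := by
    unfold BB
    rw [← lintegral_const]
    exact lintegral_mono fun σ => ENNReal.ofReal_le_ofReal (β0_le hp hb hε _)
  exact ne_top_of_le_ne_top (ENNReal.mul_ne_top ENNReal.ofReal_ne_top (measure_ne_top _ _)) this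

lemma kern_nonneg {γ : ℝ} {b : ℝ → ℝ} {p K : ℝ} (hb : IsAng p K b) (ε : ℝ) (σ u : V d) :
    0 ≤ kern γ (β0 b ε) σ u := mul_nonneg (by positivity) (β0_nonneg hb ε _)

lemma lint_Gi {γ : ℝ} {b : ℝ → ℝ} {p K ε : ℝ} (hb : IsAng p K b) {f : V d → ℝ} (hf : Measurable f)
    (hf0 : ∀ w, 0 ≤ f w) (v : V d) :
    ∫⁻ q, ENNReal.ofReal (Gi γ b ε f v q) ∂(volume.prod (sm d)) = gain γ (β0 b ε) f v := by
  rw [lintegral_prod_symm _ (measurable_Gi γ hb.meas ε hf v).ennreal_ofReal.aemeasurable]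
  unfold gain Gi
  refine lintegral_congr fun σ => lintegral_congr fun u => ?_
  simp only
  rw [ENNReal.ofReal_mul (kern_nonneg hb ε _ _), ENNReal.ofReal_mul (hf0 _)]

lemma lint_Li {γ : ℝ} {b : ℝ → ℝ} {p K ε : ℝ} (hb : IsAng p K b) {f : V d → ℝ} (hf : Measurable f)
    (hf0 : ∀ w, 0 ≤ f w) (v : V d) :
    ∫⁻ q, ENNReal.ofReal (Li γ b ε f v q) ∂(volume.prod (sm d)) = loss γ (β0 b ε) f v := by
  rw [lintegral_prod_symm _ (measurable_Li γ hb.meas ε hf v).ennreal_ofReal.aemeasurable]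
  unfold loss Li
  refine lintegral_congr fun σ => lintegral_congr fun u => ?_
  simp only
  rw [ENNReal.ofReal_mul (kern_nonneg hb ε _ _), ENNReal.ofReal_mul (hf0 _)]

/-- upper bound of the collision operator -/
theorem Qcut_le (hd : 2 ≤ d) {γ p K ε : ℝ} {b : ℝ → ℝ} (hp : 0 ≤ p) (hb : IsAng p K b) (hε : 0 < ε)
    {f : V d → ℝ} (hf : Measurable f) (hf0 : ∀ w, 0 ≤ f w) (v : V d) {R : ℝ≥0∞} (hR : R ≠ ⊤)
    (hest : gain γ (βs b ε) f v ≤ loss γ (βs b ε) f v + R)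
    (hfin : ∫⁻ z : V d, ENNReal.ofReal (‖z‖ ^ γ) * ENNReal.ofReal (f (v + z)) ≠ ⊤) :
    Qcut γ b ε f v ≤ R.toReal := by
  have hgs : gain γ (β0 b ε) f v = gain γ (βs b ε) f v := gain_symm hb ε hf v
  have hls : loss γ (β0 b ε) f v = loss γ (βs b ε) f v := loss_symm hb ε hf v
  have hlfin : loss γ (β0 b ε) f v ≠ ⊤ := loss_fin hd hp hb hε hf v hfin
  have hgfin : gain γ (β0 b ε) f v ≠ ⊤ := by
    rw [hgs]
    refine ne_top_of_le_ne_top ?_ hest
    rw [← hls]
    exact ENNReal.add_ne_top.2 ⟨hlfin, hR⟩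
  have hGm : Measurable (Gi γ b ε f v) := measurable_Gi γ hb.meas ε hf v
  have hLm : Measurable (Li γ b ε f v) := measurable_Li γ hb.meas ε hf v
  have hG0 : ∀ q, 0 ≤ Gi γ b ε f v q := fun q =>
    mul_nonneg (mul_nonneg (by positivity) (β0_nonneg hb ε _)) (mul_nonneg (hf0 _) (hf0 _))
  have hL0 : ∀ q, 0 ≤ Li γ b ε f v q := fun q =>
    mul_nonneg (mul_nonneg (by positivity) (β0_nonneg hb ε _)) (mul_nonneg (hf0 _) (hf0 _))
  have hGl := lint_Gi (γ := γ) (ε := ε) hb hf hf0 v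
  have hLl := lint_Li (γ := γ) (ε := ε) hb hf hf0 v
  have hGi : Integrable (Gi γ b ε f v) (volume.prod (sm d)) := by
    refine ⟨hGm.aestronglyMeasurable, ?_⟩
    rw [hasFiniteIntegral_iff_ofReal (Filter.Eventually.of_forall hG0), hGl]
    exact lt_top_iff_ne_top.2 hgfin
  have hLi : Integrable (Li γ b ε f v) (volume.prod (sm d)) := by
    refine ⟨hLm.aestronglyMeasurable, ?_⟩
    rw [hasFiniteIntegral_iff_ofReal (Filter.Eventually.of_forall hL0), hLl]
    exact lt_top_iff_ne_top.2 hlfin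
  have hF : ∫ u : V d, ∫ σ : Sp d, (Gi γ b ε f v (u, σ) - Li γ b ε f v (u, σ)) ∂(sm d) =
      ∫ q, (Gi γ b ε f v q - Li γ b ε f v q) ∂(volume.prod (sm d)) :=
    (integral_prod (fun q => Gi γ b ε f v q - Li γ b ε f v q) (hGi.sub hLi)).symm
  have hGr : ∫ q, Gi γ b ε f v q ∂(volume.prod (sm d)) = (gain γ (β0 b ε) f v).toReal := by
    rw [integral_eq_lintegral_of_nonneg_ae (Filter.Eventually.of_forall hG0) hGm.aestronglyMeasurable, hGl]
  have hLr : ∫ q, Li γ b ε f v q ∂(volume.prod (sm d)) = (loss γ (β0 b ε) f v).toReal := by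
    rw [integral_eq_lintegral_of_nonneg_ae (Filter.Eventually.of_forall hL0) hLm.aestronglyMeasurable, hLl]
  rw [Qcut_eq γ b hε f v, hF, integral_sub hGi hLi, hGr, hLr]
  have h1 : (gain γ (β0 b ε) f v).toReal ≤ (loss γ (β0 b ε) f v + R).toReal := by
    rw [hgs, hls]
    refine ENNReal.toReal_mono ?_ hest
    rw [← hls]
    exact ENNReal.add_ne_top.2 ⟨hlfin, hR⟩
  rw [ENNReal.toReal_add hlfin hR] at h1
  linarith

end Pool.Agent.H821.BZ
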