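import Pool.Agent.H821.BZ.Hard2
import Pool.Agent.H821.BZ.Op2

/-! All potentials; scaling in velocity. -/

set_option autoImplicit false
open MeasureTheory Metric Set
open scoped ENNReal Real InnerProductSpace Pointwise

namespace Pool.Agent.H821.BZ

variable {d : ℕ}

/-- touching estimate for all potentials -/
theorem est_all (hd : 2 ≤ d) {s K γ a : ℝ} (hs1 : s < 1) (hsa : 2 * s < a) (ha0 : 0 < a) (ha2 : a ≤ 2)
    (hγd : 0 < d + γ) (hγ2 : γ < 2) {N : ℕ} (hN : (d:ℝ) + 6 ≤ 2 * N) :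
    ∃ C : ℝ, 0 ≤ C ∧ ∀ β : ℝ → ℝ, IsKer ((d - 1) / 2 + s) K β → ∀ f : V d → ℝ, Measurable f →
      (∀ w, 0 ≤ f w) → ∀ (m : ℝ) (v : V d), (∀ w, f w ≤ m * φ N w) → f v = m * φ N v →
      gain γ β f v ≤ loss γ β f v + ENNReal.ofReal (C * f v) * mom (min γ 0) (max γ 0 + a) f v := by
  rcases le_total γ 0 with h | h
  · rw [min_eq_left h, max_eq_right h, zero_add]
    exact est hd hs1 hsa ha0 ha2 h hγd (by linarith)
  · rw [min_eq_right h, max_eq_left h]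
    exact est_hard hd hs1 hsa ha0 ha2 h hγ2 hN

lemma lint_scale {μ : ℝ} (hμ : 0 < μ) {g : V d → ℝ≥0∞} (hg : Measurable g) :
    ∫⁻ u : V d, g (μ • u) = ENNReal.ofReal ((μ ^ d)⁻¹) * ∫⁻ u : V d, g u := by
  have h := Measure.map_addHaar_smul (volume : Measure (V d)) hμ.ne'
  have hm : Measurable (fun u : V d => μ • u) := measurable_const_smul μ
  rw [← lintegral_map hg hm, h, lintegral_smul_measure]
  simp only [finrank_euclideanSpace, Fintype.card_fin]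
  rw [abs_of_pos (by positivity)]; rfl

lemma T_smul {μ : ℝ} (hμ : 0 < μ) (σ u : V d) : T σ (μ • u) = μ • T σ u := by
  unfold T
  rw [norm_smul, Real.norm_eq_abs, abs_of_pos hμ]
  module

lemma kern_smul {μ : ℝ} (hμ : 0 < μ) (γ : ℝ) (β : ℝ → ℝ) (σ u : V d) :
    kern γ β σ (μ • u) = μ ^ γ * kern γ β σ u := by
  unfold kern
  rw [norm_smul, Real.norm_eq_abs, abs_of_pos hμ, inner_smul_left, Real.mul_rpow hμ.le (norm_nonneg _)]
  simp only [conj_trivial]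
  rw [mul_div_mul_left _ _ hμ.ne']; ring

lemma coll_scale {μ : ℝ} (hμ : 0 < μ) (γ : ℝ) {β : ℝ → ℝ} {F G : V d → V d → ℝ≥0∞}
    (hm : ∀ σ : Sp d, Measurable (fun u : V d => ENNReal.ofReal (kern γ β σ u) * F (σ : V d) u))
    (hFG : ∀ σ u, G σ u = F σ (μ • u)) :
    ∫⁻ σ : Sp d, (∫⁻ u : V d, ENNReal.ofReal (kern γ β σ u) * F (σ : V d) u) ∂(sm d) =
      ENNReal.ofReal (μ ^ γ) * ENNReal.ofReal (μ ^ d) *
        ∫⁻ σ : Sp d, (∫⁻ u : V d, ENNReal.ofReal (kern γ β σ u) * G (σ : V d) u) ∂(sm d) := by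
  have hc : ENNReal.ofReal (μ ^ γ) * ENNReal.ofReal (μ ^ d) ≠ ⊤ := ENNReal.mul_ne_top ENNReal.ofReal_ne_top ENNReal.ofReal_ne_top
  rw [← lintegral_const_mul' _ _ hc]
  refine lintegral_congr fun σ => ?_
  have h1 := lint_scale (d := d) hμ (hm σ)
  have h2 : ∫⁻ u : V d, ENNReal.ofReal (kern γ β σ (μ • u)) * F (σ : V d) (μ • u) =
      ENNReal.ofReal (μ ^ γ) * ∫⁻ u : V d, ENNReal.ofReal (kern γ β σ u) * G (σ : V d) u := by
    rw [← lintegral_const_mul' _ _ ENNReal.ofReal_ne_top]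
    refine lintegral_congr fun u => ?_
    rw [kern_smul hμ, ENNReal.ofReal_mul (by positivity), hFG, mul_assoc]
  rw [h2] at h1
  have hd0 : ENNReal.ofReal (μ ^ d) * ENNReal.ofReal ((μ ^ d)⁻¹) = 1 := by
    rw [← ENNReal.ofReal_mul (by positivity), mul_inv_cancel₀ (by positivity), ENNReal.ofReal_one]
  calc ∫⁻ u : V d, ENNReal.ofReal (kern γ β σ u) * F (σ : V d) u
      = (ENNReal.ofReal (μ ^ d) * ENNReal.ofReal ((μ ^ d)⁻¹)) * ∫⁻ u : V d, ENNReal.ofReal (kern γ β σ u) * F (σ : V d) u := by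
        rw [hd0, one_mul]
    _ = ENNReal.ofReal (μ ^ d) * (ENNReal.ofReal (μ ^ γ) * ∫⁻ u : V d, ENNReal.ofReal (kern γ β σ u) * G (σ : V d) u) := by
        rw [h1, mul_assoc]
    _ = _ := by ring

/-- the gain term and scaling -/
lemma gain_scale {μ : ℝ} (hμ : 0 < μ) (γ : ℝ) {β : ℝ → ℝ} (hβ : Measurable β) {f : V d → ℝ} (hf : Measurable f) (v : V d) :
    gain γ β f v = ENNReal.ofReal (μ ^ γ) * ENNReal.ofReal (μ ^ d) * gain γ β (fun w => f (μ • w)) (μ⁻¹ • v) := by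
  unfold gain
  have hfT : Measurable (fun q : Sp d × V d => ENNReal.ofReal (f (v + T (q.1 : V d) q.2))) :=
    (hf.comp (measurable_T'.const_add v)).ennreal_ofReal
  have hfT' : Measurable (fun q : Sp d × V d => ENNReal.ofReal (f (v + T (-(q.1 : V d)) q.2))) :=
    (hf.comp (measurable_T''.const_add v)).ennreal_ofReal
  have hbig := (measurable_kern' γ hβ).mul (hfT.mul hfT')
  refine coll_scale hμ γ (F := fun σ u => ENNReal.ofReal (f (v + T σ u)) * ENNReal.ofReal (f (v + T (-σ) u)))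
    (G := fun σ u => ENNReal.ofReal (f (μ • (μ⁻¹ • v + T σ u))) * ENNReal.ofReal (f (μ • (μ⁻¹ • v + T (-σ) u)))) ?_ ?_
  · intro σ
    exact meas_slice (F := fun (σ : Sp d) (u : V d) => ENNReal.ofReal (kern γ β σ u) *
      (ENNReal.ofReal (f (v + T (σ : V d) u)) * ENNReal.ofReal (f (v + T (-(σ : V d)) u)))) hbig σ
  · intro σ u
    rw [T_smul hμ, T_smul hμ, smul_add, smul_add, smul_inv_smul₀ hμ.ne']

/-- the loss term and scaling -/
lemma loss_scale {μ : ℝ} (hμ : 0 < μ) (γ : ℝ) {β : ℝ → ℝ} (hβ : Measurable β) {f : V d → ℝ} (hf : Measurable f) (v : V d) :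
    loss γ β f v = ENNReal.ofReal (μ ^ γ) * ENNReal.ofReal (μ ^ d) * loss γ β (fun w => f (μ • w)) (μ⁻¹ • v) := by
  unfold loss
  have h1 : Measurable (fun q : Sp d × V d => ENNReal.ofReal (f (v + q.2))) :=
    (hf.comp (measurable_snd.const_add v)).ennreal_ofReal
  have hbig : Measurable (fun q : Sp d × V d => ENNReal.ofReal (kern γ β (q.1 : V d) q.2) *
      (ENNReal.ofReal (f (v + q.2)) * ENNReal.ofReal (f v))) :=
    (measurable_kern' γ hβ).mul (h1.mul measurable_const)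
  refine coll_scale hμ γ (F := fun σ u => ENNReal.ofReal (f (v + u)) * ENNReal.ofReal (f v))
    (G := fun σ u => ENNReal.ofReal (f (μ • (μ⁻¹ • v + u))) * ENNReal.ofReal (f (μ • (μ⁻¹ • v)))) ?_ ?_
  · intro σ
    exact meas_slice (F := fun (σ : Sp d) (u : V d) => ENNReal.ofReal (kern γ β σ u) *
      (ENNReal.ofReal (f (v + u)) * ENNReal.ofReal (f v))) hbig σ
  · intro σ u
    rw [smul_add, smul_inv_smul₀ hμ.ne']

/-- the scaled moment -/
noncomputable def momS (γ g a μ : ℝ) (f : V d → ℝ) (v : V d) : ℝ≥0∞ :=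
  ∫⁻ w : V d, ENNReal.ofReal (f w * (μ ^ γ * ((‖w - v‖ / μ) ^ g + (1 + ‖w‖ / μ) ^ a)))

lemma momS_eq {μ : ℝ} (hμ : 0 < μ) (γ g a : ℝ) {f : V d → ℝ} (hf : Measurable f) (v : V d) :
    momS γ g a μ f v = ENNReal.ofReal (μ ^ γ) * ENNReal.ofReal (μ ^ d) * mom g a (fun w => f (μ • w)) (μ⁻¹ • v) := by
  have hm : Measurable (fun w : V d => ENNReal.ofReal (f w * ((‖w - v‖ / μ) ^ g + (1 + ‖w‖ / μ) ^ a))) := by
    refine (hf.mul ?_).ennreal_ofReal
    fun_prop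
  have h1 := lint_scale (d := d) hμ hm
  have h2 : mom g a (fun w => f (μ • w)) (μ⁻¹ • v) =
      ∫⁻ w : V d, ENNReal.ofReal (f (μ • w) * ((‖μ • w - v‖ / μ) ^ g + (1 + ‖μ • w‖ / μ) ^ a)) := by
    unfold mom
    refine lintegral_congr fun w => ?_
    have e1 : ‖μ • w - v‖ / μ = ‖w - μ⁻¹ • v‖ := by
      have : μ • w - v = μ • (w - μ⁻¹ • v) := by rw [smul_sub, smul_inv_smul₀ hμ.ne']
      rw [this, norm_smul, Real.norm_eq_abs, abs_of_pos hμ]; field_simp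
    have e2 : ‖μ • w‖ / μ = ‖w‖ := by
      rw [norm_smul, Real.norm_eq_abs, abs_of_pos hμ]; field_simp
    rw [e1, e2]
  have h3 : momS γ g a μ f v = ENNReal.ofReal (μ ^ γ) *
      ∫⁻ w : V d, ENNReal.ofReal (f w * ((‖w - v‖ / μ) ^ g + (1 + ‖w‖ / μ) ^ a)) := by
    unfold momS
    rw [← lintegral_const_mul' _ _ ENNReal.ofReal_ne_top]
    refine lintegral_congr fun w => ?_
    rw [← ENNReal.ofReal_mul (by positivity)]; congr 1; ring
  have hd0 : ENNReal.ofReal (μ ^ d) * ENNReal.ofReal ((μ ^ d)⁻¹) = 1 := by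
    rw [← ENNReal.ofReal_mul (by positivity), mul_inv_cancel₀ (by positivity), ENNReal.ofReal_one]
  rw [h3, h2, h1, mul_assoc, ← mul_assoc (ENNReal.ofReal (μ ^ d)), hd0, one_mul]

/-- touching estimate with scaled weights -/
theorem est_scaled {p K γ g a C : ℝ} {N : ℕ}
    (hest : ∀ β : ℝ → ℝ, IsKer p K β → ∀ f : V d → ℝ, Measurable f →
      (∀ w, 0 ≤ f w) → ∀ (m : ℝ) (v : V d), (∀ w, f w ≤ m * φ N w) → f v = m * φ N v →
      gain γ β f v ≤ loss γ β f v + ENNReal.ofReal (C * f v) * mom g a f v)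
    {β : ℝ → ℝ} (hβ : IsKer p K β) {f : V d → ℝ} (hf : Measurable f) (hf0 : ∀ w, 0 ≤ f w) {m μ : ℝ} (hμ : 0 < μ) (v : V d)
    (hle : ∀ w, f w ≤ m * φ N (μ⁻¹ • w)) (hv : f v = m * φ N (μ⁻¹ • v)) :
    gain γ β f v ≤ loss γ β f v + ENNReal.ofReal (C * f v) * momS γ g a μ f v := by
  have hfs : Measurable (fun w : V d => f (μ • w)) := hf.comp (measurable_const_smul μ)
  have h := hest β hβ (fun w => f (μ • w)) hfs (fun w => hf0 _) m (μ⁻¹ • v)
    (fun w => by have := hle (μ • w); rwa [inv_smul_smul₀ hμ.ne'] at this) (by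
      rw [smul_inv_smul₀ hμ.ne']; exact hv)
  rw [smul_inv_smul₀ hμ.ne'] at h
  rw [gain_scale hμ γ hβ.meas hf v, loss_scale hμ γ hβ.meas hf v, momS_eq hμ γ g a hf v]
  calc ENNReal.ofReal (μ ^ γ) * ENNReal.ofReal (μ ^ d) * gain γ β (fun w => f (μ • w)) (μ⁻¹ • v)
      ≤ ENNReal.ofReal (μ ^ γ) * ENNReal.ofReal (μ ^ d) * (loss γ β (fun w => f (μ • w)) (μ⁻¹ • v) +
          ENNReal.ofReal (C * f v) * mom g a (fun w => f (μ • w)) (μ⁻¹ • v)) := mul_le_mul' le_rfl h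
    _ = _ := by ring

end Pool.Agent.H821.BZ
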