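import Pool.Agent.H821.BZ.Main
import Pool.Agent.H821.BZ.Bar2
import Pool.Agent.H821.BZ.Scale

/-! Growth estimates with weights of variable scale, all potentials. -/

set_option autoImplicit false
open MeasureTheory Metric Set Filter Topology
open scoped ENNReal Real InnerProductSpace Pointwise

namespace Pool.Agent.H821.BZ

variable {d : ℕ}

/-- uniform moment bound -/
theorem momB_all (hd : 2 ≤ d) {g a : ℝ} (hg : g ≤ 0) (hgd : 0 < d + g) (ha4 : a ≤ 4) {N : ℕ}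
    (hN : (d:ℝ) + 6 ≤ 2 * N) : MomB d g a N := by
  have : Nontrivial (Fin d) := Fin.nontrivial_iff_two_le.2 hd
  have : Nonempty (Fin d) := inferInstance
  have : Nontrivial (V d) := inferInstance
  have hd0 : (0:ℝ) ≤ d := by positivity
  obtain ⟨n, rfl⟩ : ∃ n, N = n + 1 + 1 := by
    rcases N with _ | _ | n
    · exfalso; push_cast at hN; linarith
    · exfalso; push_cast at hN; linarith
    · exact ⟨n, rfl⟩
  have hn : (d:ℝ) < 2 * n := by push_cast at hN; linarith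
  have hφi := integrable_φ (d := d) hn
  have hgi := integrable_norm_rpow_exp (d := d) (q := g) (b := 1) hgd one_pos
  set P := ∫ w : V d, φ n w with hP
  set W := ∫ u : V d, ‖u‖ ^ g * Real.exp (-1 * ‖u‖ ^ 2) with hW
  have hP0 : 0 ≤ P := integral_nonneg fun w => (φ_pos n w).le
  have hW0 : 0 ≤ W := integral_nonneg fun w => by positivity
  refine ⟨Real.exp 1 * W + 5 * P, by positivity, fun f m hm hf v => ?_⟩
  have hgv : Integrable (fun w : V d => ‖w - v‖ ^ g * Real.exp (-1 * ‖w - v‖ ^ 2)) :=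
    hgi.comp_sub_right v
  have hint : Integrable (fun w : V d => m * (Real.exp 1 * (‖w - v‖ ^ g * Real.exp (-1 * ‖w - v‖ ^ 2)) + 5 * φ n w)) :=
    ((hgv.const_mul _).add (hφi.const_mul _)).const_mul _
  have hval : ∫ w : V d, m * (Real.exp 1 * (‖w - v‖ ^ g * Real.exp (-1 * ‖w - v‖ ^ 2)) + 5 * φ n w) =
      (Real.exp 1 * W + 5 * P) * m := by
    rw [integral_const_mul, integral_add (hgv.const_mul _) (hφi.const_mul _), integral_const_mul, integral_const_mul,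
      integral_sub_right_eq_self (fun u : V d => ‖u‖ ^ g * Real.exp (-1 * ‖u‖ ^ 2)) v]
    ring
  rw [← hval, ofReal_integral_eq_lintegral_ofReal hint (Filter.Eventually.of_forall fun w => by
    have := (φ_pos n w).le
    simp only [Pi.zero_apply]; positivity)]
  unfold mom
  refine lintegral_mono fun w => ENNReal.ofReal_le_ofReal ?_
  have h1 : 0 ≤ ‖w - v‖ ^ g := by positivity
  have h2 : 0 ≤ (1 + ‖w‖) ^ a := by positivity
  have hw := norm_nonneg w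
  have h3 : (1 + ‖w‖) ^ a ≤ 4 * (1 + ‖w‖ ^ 2) ^ 2 := by
    calc (1 + ‖w‖) ^ a ≤ (1 + ‖w‖) ^ (4:ℝ) := Real.rpow_le_rpow_of_exponent_le (by linarith) ha4
      _ = ((1 + ‖w‖) ^ 2) ^ 2 := by
        rw [← pow_mul, show ((4:ℝ)) = ((4:ℕ):ℝ) by norm_num, Real.rpow_natCast]
      _ ≤ (2 * (1 + ‖w‖ ^ 2)) ^ 2 := pow_le_pow_left₀ (by positivity) (by nlinarith [sq_nonneg (1 - ‖w‖)]) 2
      _ = _ := by ring
  have h4 := φ_succ n w
  have h4' := φ_succ (n + 1) w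
  have h5 := φ_pos (n + 1 + 1) w
  have h5' := φ_pos n w
  have h5'' := φ_pos (n + 1) w
  have h6 := φ_le_one (n + 1 + 1) w
  have h44 : φ (n + 1 + 1) w * (1 + ‖w‖ ^ 2) ^ 2 = φ n w := by
    rw [← h4, ← h4']; ring
  have h7 : φ (n + 1 + 1) w ≤ φ n w := by
    rw [← h44]
    exact le_mul_of_one_le_right h5.le (one_le_pow₀ (by nlinarith [sq_nonneg ‖w‖]))
  have h8 : φ (n + 1 + 1) w * ‖w - v‖ ^ g ≤ Real.exp 1 * (‖w - v‖ ^ g * Real.exp (-1 * ‖w - v‖ ^ 2)) + φ n w := by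
    rcases le_total ‖w - v‖ 1 with h | h
    · have h9 : 1 ≤ Real.exp 1 * Real.exp (-1 * ‖w - v‖ ^ 2) := by
        rw [← Real.exp_add]
        exact Real.one_le_exp (by nlinarith [norm_nonneg (w - v)])
      have h10 : ‖w - v‖ ^ g ≤ ‖w - v‖ ^ g * (Real.exp 1 * Real.exp (-1 * ‖w - v‖ ^ 2)) :=
        le_mul_of_one_le_right h1 h9
      nlinarith [mul_le_mul_of_nonneg_right h6 h1]
    · have h9 : ‖w - v‖ ^ g ≤ 1 := Real.rpow_le_one_of_one_le_of_nonpos h hg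
      have h10 : 0 ≤ Real.exp 1 * (‖w - v‖ ^ g * Real.exp (-1 * ‖w - v‖ ^ 2)) := by positivity
      nlinarith [mul_le_mul_of_nonneg_left h9 h5.le]
  have h11 : φ (n + 1 + 1) w * (1 + ‖w‖) ^ a ≤ 4 * φ n w := by
    calc φ (n + 1 + 1) w * (1 + ‖w‖) ^ a ≤ φ (n + 1 + 1) w * (4 * (1 + ‖w‖ ^ 2) ^ 2) := mul_le_mul_of_nonneg_left h3 h5.le
      _ = 4 * (φ (n + 1 + 1) w * (1 + ‖w‖ ^ 2) ^ 2) := by ring
      _ = 4 * φ n w := by rw [h44]
  calc f w * (‖w - v‖ ^ g + (1 + ‖w‖) ^ a) ≤ (m * φ (n + 1 + 1) w) * (‖w - v‖ ^ g + (1 + ‖w‖) ^ a) :=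
        mul_le_mul_of_nonneg_right (hf w) (by positivity)
    _ = m * (φ (n + 1 + 1) w * ‖w - v‖ ^ g + φ (n + 1 + 1) w * (1 + ‖w‖) ^ a) := by ring
    _ ≤ _ := mul_le_mul_of_nonneg_left (by linarith) hm

/-- the weight of scale `μ` -/
noncomputable def φs (N : ℕ) (μ : ℝ) (v : V d) : ℝ := φ N (μ⁻¹ • v)

lemma φs_pos (N : ℕ) (μ : ℝ) (v : V d) : 0 < φs N μ v := φ_pos _ _

lemma φs_eq (N : ℕ) {μ : ℝ} (hμ : 0 < μ) (v : V d) : φs N μ v = ((1 + ‖v‖ ^ 2 / μ ^ 2) ^ N)⁻¹ := by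
  unfold φs φ
  rw [norm_smul, norm_inv, Real.norm_eq_abs, abs_of_pos hμ, mul_pow, inv_pow, inv_mul_eq_div]

lemma φs_mono (N : ℕ) {μ μ' : ℝ} (hμ : 0 < μ) (h : μ ≤ μ') (v : V d) : φs N μ v ≤ φs N μ' v := by
  rw [φs_eq N hμ, φs_eq N (hμ.trans_le h)]
  gcongr

lemma φs_one (N : ℕ) (v : V d) : φs N 1 v = φ N v := by unfold φs; simp

lemma φs_cont (N : ℕ) {t₁ T : ℝ} {μ : ℝ → ℝ} (hμ : ContinuousOn μ (Ico t₁ T)) (hpos : ∀ t ∈ Ico t₁ T, 0 < μ t) :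
    ContinuousOn (fun p : ℝ × V d => φs N (μ p.1) p.2) (Ico t₁ T ×ˢ univ) := by
  have h1 : ContinuousOn (fun p : ℝ × V d => (μ p.1)⁻¹ • p.2) (Ico t₁ T ×ˢ univ) := by
    have hsnd : ContinuousOn (Prod.snd : ℝ × V d → V d) (Ico t₁ T ×ˢ (univ : Set (V d))) := continuousOn_snd
    have hfst : ContinuousOn (Prod.fst : ℝ × V d → ℝ) (Ico t₁ T ×ˢ (univ : Set (V d))) := continuousOn_fst
    have h0 : ContinuousOn (fun p : ℝ × V d => μ p.1) (Ico t₁ T ×ˢ (univ : Set (V d))) :=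
      hμ.comp hfst (fun p hp => hp.1)
    exact (h0.inv₀ fun p hp => (hpos p.1 hp.1).ne').smul hsnd
  exact (continuous_φ N).comp_continuousOn h1

/-- comparison of the scaled and unscaled moments -/
lemma momS_le {γ g a μ : ℝ} (hg : g ≤ 0) (ha : 0 ≤ a) (hμ : 1 ≤ μ) {f : V d → ℝ} (hf0 : ∀ w, 0 ≤ f w) (v : V d) :
    momS γ g a μ f v ≤ ENNReal.ofReal (μ ^ (γ - g)) * mom g a f v := by
  unfold momS mom
  rw [← lintegral_const_mul' _ _ ENNReal.ofReal_ne_top]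
  refine lintegral_mono fun w => ?_
  have hμ0 : 0 < μ := by linarith
  rw [← ENNReal.ofReal_mul (by positivity)]
  refine ENNReal.ofReal_le_ofReal ?_
  have h1 : (‖w - v‖ / μ) ^ g = μ ^ (-g) * ‖w - v‖ ^ g := by
    rw [Real.div_rpow (norm_nonneg _) hμ0.le, Real.rpow_neg hμ0.le]; field_simp
  have h2 : (1 + ‖w‖ / μ) ^ a ≤ μ ^ (-g) * (1 + ‖w‖) ^ a := by
    have h3 : (1 + ‖w‖ / μ) ^ a ≤ (1 + ‖w‖) ^ a := by
      refine Real.rpow_le_rpow (by positivity) ?_ ha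
      have := div_le_self (norm_nonneg w) hμ; linarith
    have h4 : 1 ≤ μ ^ (-g) := Real.one_le_rpow hμ (by linarith)
    have h5 : 0 ≤ (1 + ‖w‖) ^ a := by positivity
    nlinarith
  have h6 : 0 ≤ f w * μ ^ γ := mul_nonneg (hf0 w) (by positivity)
  calc f w * (μ ^ γ * ((‖w - v‖ / μ) ^ g + (1 + ‖w‖ / μ) ^ a))
      = (f w * μ ^ γ) * ((‖w - v‖ / μ) ^ g + (1 + ‖w‖ / μ) ^ a) := by ring
    _ ≤ (f w * μ ^ γ) * (μ ^ (-g) * ‖w - v‖ ^ g + μ ^ (-g) * (1 + ‖w‖) ^ a) := by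
        rw [h1]
        exact mul_le_mul_of_nonneg_left (by linarith) h6
    _ = μ ^ (γ - g) * (f w * (‖w - v‖ ^ g + (1 + ‖w‖) ^ a)) := by
        rw [sub_eq_add_neg γ g, Real.rpow_add hμ0]; ring

lemma momS_one (γ g a : ℝ) (f : V d → ℝ) (v : V d) : momS γ g a 1 f v = mom g a f v := by
  unfold momS mom
  simp

/-- finiteness of the relative moment -/
lemma rel_fin {γ a : ℝ} (ha : 0 ≤ a) {f : V d → ℝ} (hf0 : ∀ w, 0 ≤ f w) (v : V d)
    (h : mom (min γ 0) (max γ 0 + a) f v ≠ ⊤) :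
    ∫⁻ z : V d, ENNReal.ofReal (‖z‖ ^ γ) * ENNReal.ofReal (f (v + z)) ≠ ⊤ := by
  rcases le_total γ 0 with hγ | hγ
  · rw [min_eq_left hγ, max_eq_right hγ] at h
    exact ne_top_of_le_ne_top h (rel_le_mom γ _ hf0 v)
  · rw [min_eq_right hγ, max_eq_left hγ] at h
    refine ne_top_of_le_ne_top (ENNReal.mul_ne_top (ENNReal.ofReal_ne_top (r := (1 + ‖v‖) ^ γ)) h) ?_
    rw [mom_shift, ← lintegral_const_mul' _ _ ENNReal.ofReal_ne_top]
    refine lintegral_mono fun z => ?_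
    rw [← ENNReal.ofReal_mul (by positivity), ← ENNReal.ofReal_mul (by positivity)]
    refine ENNReal.ofReal_le_ofReal ?_
    have hv := norm_nonneg v
    have hw := norm_nonneg (v + z)
    have h1 : ‖z‖ ≤ (1 + ‖v‖) * (1 + ‖v + z‖) := by
      have : ‖z‖ ≤ ‖v + z‖ + ‖v‖ := by
        have := norm_sub_le (v + z) v; rwa [add_sub_cancel_left] at this
      nlinarith [mul_nonneg hv hw]
    have h2 : ‖z‖ ^ γ ≤ (1 + ‖v‖) ^ γ * (1 + ‖v + z‖) ^ γ := by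
      rw [← Real.mul_rpow (by positivity) (by positivity)]
      exact Real.rpow_le_rpow (norm_nonneg z) h1 hγ
    have h3 : (1 + ‖v + z‖) ^ γ ≤ (1 + ‖v + z‖) ^ (γ + a) :=
      Real.rpow_le_rpow_of_exponent_le (by linarith) (by linarith)
    have h4 := hf0 (v + z)
    have h5 : 0 ≤ ‖z‖ ^ (0:ℝ) := by positivity
    calc ‖z‖ ^ γ * f (v + z) ≤ ((1 + ‖v‖) ^ γ * (1 + ‖v + z‖) ^ (γ + a)) * f (v + z) := by
          refine mul_le_mul_of_nonneg_right (h2.trans ?_) h4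
          exact mul_le_mul_of_nonneg_left h3 (by positivity)
      _ = (1 + ‖v‖) ^ γ * (f (v + z) * (1 + ‖v + z‖) ^ (γ + a)) := by ring
      _ ≤ (1 + ‖v‖) ^ γ * (f (v + z) * (‖z‖ ^ (0:ℝ) + (1 + ‖v + z‖) ^ (γ + a))) := by
          exact mul_le_mul_of_nonneg_left (mul_le_mul_of_nonneg_left (le_add_of_nonneg_left h5) h4) (by positivity)

/-- the equation at a touching point, all potentials and scales -/
theorem touchS (hd : 2 ≤ d) {s K γ a : ℝ} (hs0 : 0 < s) (hs1 : s < 1) (hsa : 2 * s < a) (ha2 : a ≤ 2)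
    (hγd : 0 < d + γ) (hγ2 : γ < 2) {N : ℕ} (hN : (d:ℝ) + 6 ≤ 2 * N) :
    ∃ C : ℝ, 0 ≤ C ∧ ∀ b : ℝ → ℝ, IsAng ((d - 1) / 2 + s) K b → ∀ (T : ℝ) (f : ℝ → V d → V d → ℝ),
      IsSol γ b T f → ∀ t ∈ Ioo 0 T, ∀ (x v : V d) (m μ : ℝ), 1 ≤ μ → (∀ w, f t x w ≤ m * φs N μ w) →
      f t x v = m * φs N μ v →
      fderiv ℝ (fun p : ℝ × V d => f p.1 p.2 v) (t, x) (1, v) ≤
        C * f t x v * (momS γ (min γ 0) (max γ 0 + a) μ (f t x) v).toReal := by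
  have hd2 : (2:ℝ) ≤ d := by exact_mod_cast hd
  have hp : 0 ≤ ((d:ℝ) - 1) / 2 + s := by linarith
  have ha0 : 0 < a := by linarith
  obtain ⟨C, hC, hest⟩ := est_all (K := 2 * (|K| * 2 ^ (((d:ℝ) - 1) / 2 + s))) hd hs1 hsa ha0 ha2 hγd hγ2 hN
  have hMB : MomB d (min γ 0) (max γ 0 + a) N := momB_all hd (min_le_right _ _)
    (by rcases le_total γ 0 with h | h
        · rw [min_eq_left h]; exact hγd
        · rw [min_eq_right h]; linarith)
    (by have : max γ 0 ≤ 2 := max_le hγ2.le (by norm_num)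
        linarith) hN
  obtain ⟨K1, hK1, hmom⟩ := hMB
  refine ⟨C, hC, fun b hb T f hf t ht x v m μ hμ hle hv => ?_⟩
  have hμ0 : 0 < μ := by linarith
  have htI : t ∈ Ico 0 T := ⟨ht.1.le, ht.2⟩
  have hfm := hf.measurable htI x
  have hf0 : ∀ w, 0 ≤ f t x w := hf.nonneg t htI x
  obtain ⟨m', hm', hmle⟩ := hf.decayφ htI N
  have hmt : mom (min γ 0) (max γ 0 + a) (f t x) v ≠ ⊤ :=
    ne_top_of_le_ne_top ENNReal.ofReal_ne_top (hmom (f t x) m' hm' (hmle t ⟨htI.1, le_rfl⟩ x) v)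
  have ha' : 0 ≤ max γ 0 + a := by have := le_max_right γ 0; linarith
  have hmS : momS γ (min γ 0) (max γ 0 + a) μ (f t x) v ≠ ⊤ :=
    ne_top_of_le_ne_top (ENNReal.mul_ne_top ENNReal.ofReal_ne_top hmt) (momS_le (min_le_right _ _) ha' hμ hf0 v)
  have hR : ENNReal.ofReal (C * f t x v) * momS γ (min γ 0) (max γ 0 + a) μ (f t x) v ≠ ⊤ :=
    ENNReal.mul_ne_top ENNReal.ofReal_ne_top hmS
  have hval : (ENNReal.ofReal (C * f t x v) * momS γ (min γ 0) (max γ 0 + a) μ (f t x) v).toReal =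
      C * f t x v * (momS γ (min γ 0) (max γ 0 + a) μ (f t x) v).toReal := by
    rw [ENNReal.toReal_mul, ENNReal.toReal_ofReal (mul_nonneg hC (hf0 v))]
  rw [← hval]
  refine le_of_tendsto (hf.eqn t ht x v) ?_
  filter_upwards [self_mem_nhdsWithin] with ε hε
  exact Qcut_le hd hp hb hε hfm hf0 v hR (est_scaled hest (isKer_βs hp hb hε) hfm hf0 hμ0 v hle hv)
    (rel_fin ha0.le hf0 v hmt)

end Pool.Agent.H821.BZ
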