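import Pool.Agent.H821.BZ.Main4

/-! Localisation of the rates theorem. -/

set_option autoImplicit false
open MeasureTheory Metric Set Filter Topology
open scoped ENNReal Real InnerProductSpace Pointwise

namespace Pool.Agent.H821.BZ

variable {d : ℕ}

/-- bounds on a compact time interval -/
lemma IsSol.bdd {γ T : ℝ} {b : ℝ → ℝ} {f : ℝ → V d → V d → ℝ} (h : IsSol γ b T f) {t₂ : ℝ} (ht₂ : t₂ ∈ Ico 0 T) :
    ∃ M, 0 ≤ M ∧ ∀ t ∈ Icc 0 t₂, ∀ x, rho f t x ≤ M ∧ ener f t x ≤ M := by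
  obtain ⟨P, hP, hPb⟩ := hydro_le (d := d) (N := d + 3) (by push_cast; linarith [(by positivity : (0:ℝ) ≤ d)])
  obtain ⟨C, hC, hCb⟩ := h.decayφ ht₂ (d + 3)
  exact ⟨P * C, by positivity, fun t ht x => hPb (f t x) C hC (h.nonneg t ⟨ht.1, ht.2.trans_lt ht₂.2⟩ x) (hCb t ht x)⟩

/-- change of the exponent -/
lemma rpow_exp_le {y T A p q : ℝ} (hy : 0 < y) (hyT : y ≤ T) (hpq : p ≤ q) :
    A * y ^ (-p) ≤ |A| * T ^ (q - p) * y ^ (-q) := by
  have h1 : y ^ (-p) = y ^ (q - p) * y ^ (-q) := by rw [← Real.rpow_add hy]; congr 1; ring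
  have h2 : y ^ (q - p) ≤ T ^ (q - p) := Real.rpow_le_rpow hy.le hyT (by linarith)
  have h3 : 0 ≤ y ^ (-q) := by positivity
  calc A * y ^ (-p) ≤ |A| * y ^ (-p) := mul_le_mul_of_nonneg_right (le_abs_self A) (by positivity)
    _ = |A| * y ^ (q - p) * y ^ (-q) := by rw [h1]; ring
    _ ≤ |A| * T ^ (q - p) * y ^ (-q) := by gcongr

lemma const_le {y T B q : ℝ} (hy : 0 < y) (hyT : y ≤ T) (hq : 0 ≤ q) : B ≤ |B| * T ^ q * y ^ (-q) := by
  have := rpow_exp_le (A := B) (p := 0) hy hyT hq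
  rwa [neg_zero, Real.rpow_zero, mul_one, sub_zero] at this

/-- rates theorem, with all exponents of the energy -/
theorem rates' (hd : 2 ≤ d) {s K γ : ℝ} (hs0 : 0 < s) (hs1 : s < 1) (hγ0 : 0 ≤ γ) (hγs : γ + 2 * s < 2)
    {b : ℝ → ℝ} (hb : IsAng (((d:ℝ) - 1) / 2 + s) K b) {T : ℝ} (hT : 0 < T) {f : ℝ → V d → V d → ℝ} (h : IsSol γ b T f)
    {α β' A : ℝ} (hα : 0 ≤ α) (hα1 : α < 1) (hrate : (1 - γ / 2) * α + γ / 2 * β' < 1)
    (hb' : ∀ t ∈ Ico 0 T, ∀ x, rho f t x ≤ A * (T - t) ^ (-α) ∧ ener f t x ≤ A * (T - t) ^ (-β')) : Reg T f := by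
  set q := max α β' with hq
  have hq1 : α ≤ q := le_max_left _ _
  have hq2 : β' ≤ q := le_max_right _ _
  have hr : (1 - γ / 2) * α + γ / 2 * q < 1 := by
    rcases max_cases α β' with ⟨h1, _⟩ | ⟨h1, _⟩
    · rw [hq, h1]; linarith
    · rw [hq, h1]; exact hrate
  set C0 := max |A| (|A| * T ^ (q - β')) with hC0
  refine rates hd hs0 hs1 hγ0 hγs hb hT h (α := α) (β' := q) (C0 := C0) hα hq1 hr ?_ ?_
  · intro t ht x
    have hy : 0 < T - t := by linarith [ht.2]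
    refine (hb' t ht x).1.trans (mul_le_mul_of_nonneg_right ((le_abs_self A).trans (le_max_left _ _)) (by positivity))
  · intro t ht x
    have hy : 0 < T - t := by linarith [ht.2]
    refine ((hb' t ht x).2.trans (rpow_exp_le hy (by linarith [ht.1]) hq2)).trans
      (mul_le_mul_of_nonneg_right (le_max_right _ _) (by positivity))

/-- localised rates theorem: `U` is any set of positions outside of which the densities are bounded -/
theorem rates_loc (hd : 2 ≤ d) {s K γ : ℝ} (hs0 : 0 < s) (hs1 : s < 1) (hγ0 : 0 ≤ γ) (hγs : γ + 2 * s < 2)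
    {b : ℝ → ℝ} (hb : IsAng (((d:ℝ) - 1) / 2 + s) K b) {T : ℝ} (hT : 0 < T) {f : ℝ → V d → V d → ℝ} (h : IsSol γ b T f)
    {α β' A : ℝ} (hα : 0 ≤ α) (hα1 : α < 1) (hrate : (1 - γ / 2) * α + γ / 2 * β' < 1)
    {U : V d → Prop} {B : ℝ} (hU : ∀ t ∈ Ico 0 T, ∀ x, ¬ U x → rho f t x ≤ B ∧ ener f t x ≤ B)
    {T' : ℝ} (hT' : T' ∈ Ico 0 T)
    (hb' : ∀ t ∈ Ico T' T, ∀ x, U x → rho f t x ≤ A * (T - t) ^ (-α) ∧ ener f t x ≤ A * (T - t) ^ (-β')) :
    Reg T f := by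
  obtain ⟨M, hM, hMb⟩ := h.bdd hT'
  set q := max α β' with hq
  have hq1 : α ≤ q := le_max_left _ _
  have hq2 : β' ≤ q := le_max_right _ _
  have hq0 : 0 ≤ q := hα.trans hq1
  have hr : (1 - γ / 2) * α + γ / 2 * q < 1 := by
    rcases max_cases α β' with ⟨h1, _⟩ | ⟨h1, _⟩
    · rw [hq, h1]; linarith
    · rw [hq, h1]; exact hrate
  set B' := max |B| M with hB'
  have hB'0 : 0 ≤ B' := le_max_of_le_right hM
  set C0 := |A| + |A| * T ^ (q - β') + B' * T ^ α + B' * T ^ q with hC0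
  have c1 : 0 ≤ |A| := abs_nonneg A
  have c2 : 0 ≤ |A| * T ^ (q - β') := by positivity
  have c3 : 0 ≤ B' * T ^ α := by positivity
  have c4 : 0 ≤ B' * T ^ q := by positivity
  -- the two kinds of bounds
  have k1 : ∀ t ∈ Ico 0 T, ∀ z : ℝ, z ≤ B' → z ≤ C0 * (T - t) ^ (-α) := fun t ht z hz => by
    have hy : 0 < T - t := by linarith [ht.2]
    have h1 := const_le (B := B') (q := α) hy (by linarith [ht.1] : T - t ≤ T) hα
    rw [abs_of_nonneg hB'0] at h1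
    exact (hz.trans h1).trans (mul_le_mul_of_nonneg_right (by linarith) (by positivity))
  have k2 : ∀ t ∈ Ico 0 T, ∀ z : ℝ, z ≤ B' → z ≤ C0 * (T - t) ^ (-q) := fun t ht z hz => by
    have hy : 0 < T - t := by linarith [ht.2]
    have h1 := const_le (B := B') (q := q) hy (by linarith [ht.1] : T - t ≤ T) hq0
    rw [abs_of_nonneg hB'0] at h1
    exact (hz.trans h1).trans (mul_le_mul_of_nonneg_right (by linarith) (by positivity))
  have key : ∀ t ∈ Ico 0 T, ∀ x, (rho f t x ≤ B' ∧ ener f t x ≤ B') ∨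
      (rho f t x ≤ A * (T - t) ^ (-α) ∧ ener f t x ≤ A * (T - t) ^ (-β')) := fun t ht x => by
    rcases le_total t T' with h1 | h1
    · left
      have := hMb t ⟨ht.1, h1⟩ x
      exact ⟨this.1.trans (le_max_right _ _), this.2.trans (le_max_right _ _)⟩
    · by_cases hx : U x
      · right; exact hb' t ⟨h1, ht.2⟩ x hx
      · left
        have := hU t ht x hx
        exact ⟨this.1.trans ((le_abs_self B).trans (le_max_left _ _)),
          this.2.trans ((le_abs_self B).trans (le_max_left _ _))⟩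
  refine rates hd hs0 hs1 hγ0 hγs hb hT h (α := α) (β' := q) (C0 := C0) hα hq1 hr ?_ ?_
  · intro t ht x
    have hy : 0 < T - t := by linarith [ht.2]
    rcases key t ht x with h1 | h1
    · exact k1 t ht _ h1.1
    · exact h1.1.trans (mul_le_mul_of_nonneg_right (by linarith [le_abs_self A]) (by positivity))
  · intro t ht x
    have hy : 0 < T - t := by linarith [ht.2]
    rcases key t ht x with h1 | h1
    · exact k2 t ht _ h1.2
    · refine (h1.2.trans (rpow_exp_le (T := T) hy (by linarith [ht.1]) hq2)).trans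
        (mul_le_mul_of_nonneg_right (by linarith) (by positivity))

lemma φ_upper (N : ℕ) (v : V d) : φ N v ≤ 2 ^ N * ((1 + ‖v‖) ^ N)⁻¹ := by
  unfold φ
  have h0 := norm_nonneg v
  have h1 : (1 + ‖v‖) ≤ 2 * (1 + ‖v‖ ^ 2) := by nlinarith [sq_nonneg (‖v‖ - 1)]
  have h2 : (1 + ‖v‖) ^ N ≤ 2 ^ N * (1 + ‖v‖ ^ 2) ^ N := by
    rw [← mul_pow]; exact pow_le_pow_left₀ (by positivity) h1 N
  have h3 : 0 < (1 + ‖v‖ ^ 2) ^ N := by positivity
  have h4 : 0 < (1 + ‖v‖) ^ N := by positivity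
  rw [← div_eq_mul_inv, inv_eq_one_div, div_le_div_iff₀ h3 h4]
  linarith

lemma Reg.poly {T : ℝ} {f : ℝ → V d → V d → ℝ} (h : Reg T f) (N : ℕ) :
    ∃ M : ℝ, 0 ≤ M ∧ ∀ t ∈ Ico 0 T, ∀ x v : V d, f t x v ≤ M * ((1 + ‖v‖) ^ N)⁻¹ := by
  obtain ⟨M, hM⟩ := h N
  refine ⟨|M| * 2 ^ N, by positivity, fun t ht x v => (hM t ht x v).trans ?_⟩
  calc M * φ N v ≤ |M| * φ N v := mul_le_mul_of_nonneg_right (le_abs_self M) (φ_pos N v).le
    _ ≤ |M| * (2 ^ N * ((1 + ‖v‖) ^ N)⁻¹) := mul_le_mul_of_nonneg_left (φ_upper N v) (abs_nonneg M)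
    _ = _ := by ring

end Pool.Agent.H821.BZ
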