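import Pool.Agent.H821.BZ.Phi

/-! The first touching time. -/

set_option autoImplicit false
open MeasureTheory Metric Set Filter Topology
open scoped ENNReal Real InnerProductSpace Pointwise

namespace Pool.Agent.H821.BZ

variable {d : ℕ}

/-- integer vectors -/
noncomputable def zv (n : Fin d → ℤ) : V d := WithLp.toLp 2 (fun i => (n i : ℝ))

lemma exists_fund (x : V d) : ∃ n : Fin d → ℤ, x + zv n ∈ closedBall (0 : V d) d := by
  refine ⟨fun i => -⌊x i⌋, ?_⟩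
  rw [mem_closedBall, dist_zero_right]
  have h1 : ‖x + zv (fun i => -⌊x i⌋)‖ ^ 2 ≤ d := by
    rw [EuclideanSpace.norm_sq_eq]
    calc ∑ i, ‖(x + zv (fun i => -⌊x i⌋)) i‖ ^ 2 ≤ ∑ _i : Fin d, (1:ℝ) := by
          refine Finset.sum_le_sum fun i _ => ?_
          have : (x + zv (fun i => -⌊x i⌋)) i = Int.fract (x i) := by
            rw [PiLp.add_apply]
            change x.ofLp i + ((-⌊x.ofLp i⌋ : ℤ) : ℝ) = Int.fract (x.ofLp i)
            have h := Int.self_sub_floor (x.ofLp i)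
            push_cast
            linarith
          rw [this, Real.norm_eq_abs, sq_abs]
          have h0 := Int.fract_nonneg (x i)
          have h1 := (Int.fract_lt_one (x i)).le
          nlinarith
      _ = d := by simp
  rcases Nat.eq_zero_or_pos d with hd | hd
  · subst hd
    have : ‖x + zv (fun i => -⌊x i⌋)‖ ^ 2 ≤ 0 := by simpa using h1
    have h2 : ‖x + zv (fun i => -⌊x i⌋)‖ = 0 := by
      have := le_antisymm this (sq_nonneg _)
      exact (pow_eq_zero_iff two_ne_zero).1 this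
    rw [h2]; positivity
  · have h2 : (1:ℝ) ≤ d := by exact_mod_cast hd
    refine (sq_le_sq₀ (norm_nonneg _) (by positivity)).1 (h1.trans ?_)
    nlinarith

lemma φ_lower (N : ℕ) (v : V d) : ((1 + ‖v‖) ^ (2 * N))⁻¹ ≤ φ N v := by
  unfold φ
  have hv := norm_nonneg v
  rw [pow_mul]
  refine inv_anti₀ (by positivity) (pow_le_pow_left₀ (by positivity) (by nlinarith) N)

/-- the barrier lemma -/
theorem barrier {T t₁ : ℝ} {f : ℝ → V d → V d → ℝ} {N : ℕ} {M : ℝ → ℝ}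
    (hper : ∀ t ∈ Ico 0 T, ∀ (n : Fin d → ℤ) (x v : V d), f t (x + zv n) v = f t x v)
    (hcont : ContinuousOn (fun p : ℝ × V d × V d => f p.1 p.2.1 p.2.2) (Ico 0 T ×ˢ univ))
    (hdec : ∀ t₂ ∈ Ico 0 T, ∀ q : ℕ, ∃ C, ∀ t ∈ Icc 0 t₂, ∀ x v : V d, f t x v ≤ C * ((1 + ‖v‖) ^ q)⁻¹)
    (hdiff : ∀ t ∈ Ioo 0 T, ∀ x v : V d, DifferentiableAt ℝ (fun p : ℝ × V d => f p.1 p.2 v) (t, x))
    (ht₁ : 0 ≤ t₁) (hM : ContinuousOn M (Ico t₁ T)) (hMpos : ∀ t ∈ Ico t₁ T, 0 < M t)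
    (hinit : ∀ x v, f t₁ x v < M t₁ * φ N v)
    (hbar : ∀ t₀ ∈ Ioo t₁ T, ∀ x₀ v₀, (∀ x v, f t₀ x v ≤ M t₀ * φ N v) → f t₀ x₀ v₀ = M t₀ * φ N v₀ →
      ∃ κ : ℝ, fderiv ℝ (fun p : ℝ × V d => f p.1 p.2 v₀) (t₀, x₀) (1, v₀) < κ * φ N v₀ ∧
        ∀ᶠ t in 𝓝[<] t₀, κ * (t₀ - t) ≤ M t₀ - M t) :
    ∀ t ∈ Ico t₁ T, ∀ x v, f t x v < M t * φ N v := by
  intro t₂ ht₂ x₂ v₂
  by_contra hcon
  push Not at hcon
  have hsub : Icc t₁ t₂ ⊆ Ico 0 T := fun t ht => ⟨ht₁.trans ht.1, ht.2.trans_lt ht₂.2⟩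
  have hsub' : Icc t₁ t₂ ⊆ Ico t₁ T := fun t ht => ⟨ht.1, ht.2.trans_lt ht₂.2⟩
  obtain ⟨C, hC⟩ := hdec t₂ ⟨ht₁.trans ht₂.1, ht₂.2⟩ (2 * N + 1)
  -- lower bound of M
  obtain ⟨tm, htm, hmin⟩ := isCompact_Icc.exists_isMinOn (nonempty_Icc.2 ht₂.1) (hM.mono hsub')
  set c0 := M tm with hc0
  have hc0pos : 0 < c0 := hMpos tm (hsub' htm)
  have hc0le : ∀ t ∈ Icc t₁ t₂, c0 ≤ M t := fun t ht => hmin ht
  set R := |C| / c0 with hR
  have hRpos : 0 ≤ R := by positivity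
  have hfar : ∀ t ∈ Icc t₁ t₂, ∀ x v : V d, M t * φ N v ≤ f t x v → v ∈ closedBall (0 : V d) R := by
    intro t ht x v h
    rw [mem_closedBall, dist_zero_right]
    by_contra hlt
    push Not at hlt
    have hv := norm_nonneg v
    have h1 := hC t ⟨ht₁.trans ht.1, ht.2⟩ x v
    have h2 : c0 * ((1 + ‖v‖) ^ (2 * N))⁻¹ ≤ M t * φ N v :=
      mul_le_mul (hc0le t ht) (φ_lower N v) (by positivity) (hc0pos.le.trans (hc0le t ht))
    have h3 : c0 * ((1 + ‖v‖) ^ (2 * N))⁻¹ ≤ |C| * ((1 + ‖v‖) ^ (2 * N + 1))⁻¹ :=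
      h2.trans (h.trans (h1.trans (mul_le_mul_of_nonneg_right (le_abs_self C) (by positivity))))
    have h4 : c0 * (1 + ‖v‖) ≤ |C| := by
      have h5 : 0 < (1 + ‖v‖) ^ (2 * N + 1) := by positivity
      have h6 := mul_le_mul_of_nonneg_right h3 h5.le
      have e1 : c0 * ((1 + ‖v‖) ^ (2 * N))⁻¹ * (1 + ‖v‖) ^ (2 * N + 1) = c0 * (1 + ‖v‖) := by
        rw [pow_succ]; field_simp
      have e2 : |C| * ((1 + ‖v‖) ^ (2 * N + 1))⁻¹ * (1 + ‖v‖) ^ (2 * N + 1) = |C| := by field_simp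
      rwa [e1, e2] at h6
    have h5 : |C| < c0 * ‖v‖ := by
      rw [hR, div_lt_iff₀ hc0pos] at hlt; linarith
    nlinarith
  -- the compact set
  set Kc : Set (ℝ × V d × V d) := Icc t₁ t₂ ×ˢ (closedBall (0 : V d) d ×ˢ closedBall (0 : V d) R) with hKc
  have hKcomp : IsCompact Kc := isCompact_Icc.prod ((isCompact_closedBall _ _).prod (isCompact_closedBall _ _))
  set g : ℝ × V d × V d → ℝ := fun p => f p.1 p.2.1 p.2.2 - M p.1 * φ N p.2.2 with hg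
  have hgcont : ContinuousOn g Kc := by
    refine ContinuousOn.sub (hcont.mono fun p hp => ⟨hsub hp.1, mem_univ _⟩) ?_
    refine ContinuousOn.mul ((hM.mono hsub').comp continuousOn_fst fun p hp => hp.1) ?_
    exact ((continuous_φ N).comp (continuous_snd.comp continuous_snd)).continuousOn
  set S : Set (ℝ × V d × V d) := Kc ∩ g ⁻¹' Ici 0 with hS
  have hScl : IsClosed S := hgcont.preimage_isClosed_of_isClosed hKcomp.isClosed isClosed_Ici
  have hScomp : IsCompact S := hKcomp.of_isClosed_subset hScl inter_subset_left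
  have hSmem : ∀ t ∈ Icc t₁ t₂, ∀ x v : V d, M t * φ N v ≤ f t x v → ∃ x', (t, x', v) ∈ S := by
    intro t ht x v h
    obtain ⟨n, hn⟩ := exists_fund x
    refine ⟨x + zv n, ⟨ht, hn, hfar t ht x v h⟩, ?_⟩
    simp only [hg, mem_preimage, mem_Ici, hper t (hsub ht) n x v]
    linarith
  obtain ⟨x₂', h₂⟩ := hSmem t₂ ⟨ht₂.1, le_rfl⟩ x₂ v₂ hcon
  obtain ⟨⟨t₀, x₀, v₀⟩, h₀, hmin₀⟩ := hScomp.exists_isMinOn ⟨_, h₂⟩ continuousOn_fst
  have ht₀ : t₀ ∈ Icc t₁ t₂ := h₀.1.1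
  have hge : M t₀ * φ N v₀ ≤ f t₀ x₀ v₀ := by
    have := h₀.2
    simp only [hg, mem_preimage, mem_Ici] at this
    linarith
  have ht₀1 : t₁ < t₀ := by
    rcases ht₀.1.eq_or_lt with h | h
    · exfalso
      rw [← h] at hge
      exact absurd (hinit x₀ v₀) (not_lt.2 hge)
    · exact h
  have hbefore : ∀ t ∈ Ico t₁ t₀, ∀ x v, f t x v < M t * φ N v := by
    intro t ht x v
    by_contra h
    push Not at h
    obtain ⟨x', hx'⟩ := hSmem t ⟨ht.1, ht.2.le.trans ht₀.2⟩ x v h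
    have : t₀ ≤ t := hmin₀ hx'
    exact absurd ht.2 (not_lt.2 this)
  have ht₀T : t₀ ∈ Ico 0 T := hsub ht₀
  have hcurve : ∀ x v : V d, ContinuousWithinAt (fun t => f t x v) (Ico 0 T) t₀ := by
    intro x v
    have h1 := hcont (t₀, x, v) ⟨ht₀T, mem_univ _⟩
    exact h1.comp (f := fun t => (t, x, v)) (s := Ico 0 T)
      ((continuous_id.prodMk continuous_const).continuousWithinAt) (fun t ht => ⟨ht, mem_univ _⟩)
  have hnebot : (𝓝[<] t₀).NeBot := inferInstance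
  have hIco : Ico t₁ t₀ ∈ 𝓝[<] t₀ := Ico_mem_nhdsLT ht₀1
  have hlele : 𝓝[<] t₀ ≤ 𝓝[Ico 0 T] t₀ := by
    refine le_inf inf_le_left ?_
    rw [le_principal_iff]
    exact mem_of_superset hIco fun t ht => ⟨ht₁.trans ht.1, ht.2.trans ht₀T.2⟩
  have hlele' : 𝓝[<] t₀ ≤ 𝓝[Ico t₁ T] t₀ := by
    refine le_inf inf_le_left ?_
    rw [le_principal_iff]
    exact mem_of_superset hIco fun t ht => ⟨ht.1, ht.2.trans ht₀T.2⟩
  have hMt : Tendsto M (𝓝[<] t₀) (𝓝 (M t₀)) := (hM t₀ (hsub' ht₀)).mono_left hlele'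
  have hall : ∀ x v, f t₀ x v ≤ M t₀ * φ N v := by
    intro x v
    refine le_of_tendsto_of_tendsto ((hcurve x v).mono_left hlele) (hMt.mul_const (φ N v)) ?_
    filter_upwards [hIco] with t ht using (hbefore t ht x v).le
  have heq : f t₀ x₀ v₀ = M t₀ * φ N v₀ := le_antisymm (hall x₀ v₀) hge
  have ht₀o : t₀ ∈ Ioo t₁ T := ⟨ht₀1, ht₀T.2⟩
  obtain ⟨κ, hκ1, hκ2⟩ := hbar t₀ ht₀o x₀ v₀ hall heq
  have hdf := (hdiff t₀ ⟨ht₁.trans_lt ht₀1, ht₀T.2⟩ x₀ v₀).hasFDerivAt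
  set D := fderiv ℝ (fun p : ℝ × V d => f p.1 p.2 v₀) (t₀, x₀) (1, v₀) with hD
  set ℓ : ℝ → ℝ × V d := fun t => (t, x₀ + (t - t₀) • v₀) with hℓ
  have hℓ0 : ℓ t₀ = (t₀, x₀) := by simp [hℓ]
  have hℓd : HasDerivAt ℓ (1, v₀) t₀ := by
    refine HasDerivAt.prodMk (hasDerivAt_id t₀) ?_
    have h1 : HasDerivAt (fun t : ℝ => t - t₀) 1 t₀ := (hasDerivAt_id t₀).sub_const t₀
    have h2 := (h1.smul_const v₀).const_add x₀
    simpa using h2
  have hgd : HasDerivAt (fun t => f t (x₀ + (t - t₀) • v₀) v₀) D t₀ := by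
    have hdf' : HasFDerivAt (fun p : ℝ × V d => f p.1 p.2 v₀)
        (fderiv ℝ (fun p : ℝ × V d => f p.1 p.2 v₀) (t₀, x₀)) (ℓ t₀) := by rw [hℓ0]; exact hdf
    exact hdf'.comp_hasDerivAt t₀ hℓd
  have hslope := (hasDerivAt_iff_tendsto_slope.1 hgd).mono_left (nhdsWithin_mono t₀ (s := Iio t₀) fun t ht => by
    simp only [mem_compl_iff, mem_singleton_iff]; exact ne_of_lt ht)
  have hfin : κ * φ N v₀ ≤ D := by
    refine ge_of_tendsto hslope ?_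
    filter_upwards [hIco, hκ2] with t ht hκt
    have hlt : t < t₀ := ht.2
    rw [slope_def_field]
    have h1 := hbefore t ht (x₀ + (t - t₀) • v₀) v₀
    have h2 : f t₀ (x₀ + (t₀ - t₀) • v₀) v₀ = M t₀ * φ N v₀ := by
      rw [sub_self, zero_smul, add_zero, heq]
    rw [h2]
    have h3 : 0 < t₀ - t := by linarith
    have h4 := φ_pos N v₀
    rw [← neg_div_neg_eq, neg_sub, neg_sub, le_div_iff₀ h3]
    nlinarith [mul_le_mul_of_nonneg_right hκt h4.le]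
  exact absurd hκ1 (not_lt.2 hfin)

end Pool.Agent.H821.BZ
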