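import Pool.Agent.H821.BZ.Est2

/-! The weights at large velocities, when the partner is slow. -/

set_option autoImplicit false
open MeasureTheory Metric Set
open scoped ENNReal Real InnerProductSpace Pointwise

namespace Pool.Agent.H821.BZ

variable {d : ℕ}

lemma one_add_pow_le_exp {x : ℝ} (hx : 0 ≤ x) (k : ℕ) : (1 + x) ^ k ≤ Real.exp (k * x) := by
  rw [Real.exp_nat_mul]
  exact pow_le_pow_left₀ (by linarith) (by linarith [Real.add_one_le_exp x]) k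

lemma slow_A {δ : ℝ} (hδ : 0 < δ) (hδ2 : δ ≤ 1/12) {v w z : V d} (hv : 1 / δ ≤ ‖v‖) (hw : ‖w‖ ≤ δ * ‖v‖)
    (hz : v + z = w) : (1 + ‖v‖ ^ 2) * (1 - 2 * δ) ≤ ‖z‖ ^ 2 := by
  have hv0 : 0 < ‖v‖ := lt_of_lt_of_le (by positivity) hv
  have h1 : 1 ≤ δ * ‖v‖ := by rw [div_le_iff₀ hδ] at hv; linarith
  have h2 : 1 ≤ δ ^ 2 * ‖v‖ ^ 2 := by nlinarith
  have h3 : ‖v‖ ≤ ‖w‖ + ‖z‖ := by
    have : v = w - z := by rw [← hz]; abel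
    calc ‖v‖ = ‖w - z‖ := by rw [← this]
      _ ≤ ‖w‖ + ‖z‖ := norm_sub_le _ _
  have h4 : (1 - δ) * ‖v‖ ≤ ‖z‖ := by linarith
  have h5 : ((1 - δ) * ‖v‖) ^ 2 ≤ ‖z‖ ^ 2 := pow_le_pow_left₀ (mul_nonneg (by linarith) hv0.le) h4 2
  have h6 : (1 + ‖v‖ ^ 2) * (1 - 2 * δ) ≤ (1 + δ ^ 2) * ‖v‖ ^ 2 * (1 - 2 * δ) :=
    mul_le_mul_of_nonneg_right (by nlinarith) (by linarith)
  have h7 : (1 + δ ^ 2) * (1 - 2 * δ) ≤ (1 - δ) ^ 2 := by nlinarith [pow_pos hδ 3]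
  nlinarith [mul_le_mul_of_nonneg_right h7 (sq_nonneg ‖v‖)]

lemma alg1 {A δ Z H : ℝ} (hA : 0 < A) (hH : 0 ≤ H) (hδ : 0 < δ) (hδ2 : δ ≤ 1/12) (h : A * (1 - 2 * δ) ≤ Z) :
    A / (A + H) ≤ Z / (Z + H) * (1 + 4 * δ * (H / (A + H))) := by
  have hZ : 0 < Z := lt_of_lt_of_le (mul_pos hA (by linarith)) h
  have hB : 0 < A + H := by positivity
  have e1 : 1 + 4 * δ * (H / (A + H)) = (A + H + 4 * δ * H) / (A + H) := by field_simp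
  rw [e1, div_mul_div_comm, div_le_div_iff₀ hB (by positivity)]
  have h1 : 1 ≤ (1 - 2 * δ) * (1 + 4 * δ) := by nlinarith
  have h10 : A ≤ Z * (1 + 4 * δ) := by
    calc A = A * 1 := (mul_one A).symm
      _ ≤ A * ((1 - 2 * δ) * (1 + 4 * δ)) := mul_le_mul_of_nonneg_left h1 hA.le
      _ = A * (1 - 2 * δ) * (1 + 4 * δ) := by ring
      _ ≤ Z * (1 + 4 * δ) := mul_le_mul_of_nonneg_right h (by linarith)
  have h9 : A * (Z + H) ≤ Z * (A + H + 4 * δ * H) := by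
    have := mul_le_mul_of_nonneg_right h10 hH
    calc A * (Z + H) = A * Z + A * H := by ring
      _ ≤ A * Z + Z * (1 + 4 * δ) * H := by linarith
      _ = Z * (A + H + 4 * δ * H) := by ring
  calc A * ((Z + H) * (A + H)) = A * (Z + H) * (A + H) := by ring
    _ ≤ Z * (A + H + 4 * δ * H) * (A + H) := mul_le_mul_of_nonneg_right h9 hB.le

lemma alg2 {C δ ξ Q : ℝ} (hC : 0 ≤ C) (hξ : 0 ≤ ξ) (hQ : Q ≤ 4 * δ ^ 2 * ξ) (h : 16 * C * δ ^ 2 ≤ 1) :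
    C * Q ≤ ξ / 4 := by
  calc C * Q ≤ C * (4 * δ ^ 2 * ξ) := mul_le_mul_of_nonneg_left hQ hC
    _ = (16 * C * δ ^ 2) * (ξ / 4) := by ring
    _ ≤ 1 * (ξ / 4) := mul_le_mul_of_nonneg_right h (by positivity)
    _ = ξ / 4 := one_mul _

lemma alg3 {k δ ξ : ℝ} (hξ : 0 ≤ ξ) (hδ : 0 < δ) (h : 16 * (k + 2) * δ ≤ 1) :
    k * (4 * δ * ξ) ≤ ξ / 4 := by
  calc k * (4 * δ * ξ) ≤ (k + 2) * (4 * δ * ξ) := mul_le_mul_of_nonneg_right (by linarith) (by positivity)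
    _ = (16 * (k + 2) * δ) * (ξ / 4) := by ring
    _ ≤ 1 * (ξ / 4) := mul_le_mul_of_nonneg_right h (by positivity)
    _ = ξ / 4 := one_mul _

lemma alg4 {δ V2 H I A : ℝ} (hA : A = 1 + V2) (hV : 0 ≤ V2) (hH : 0 ≤ H) (hI : I ^ 2 ≤ δ ^ 2 * (V2 * H)) :
    (2 * I / (A + H)) ^ 2 ≤ 4 * δ ^ 2 * (H / (A + H)) := by
  have hB : 0 < A + H := by rw [hA]; positivity
  rw [div_pow, mul_pow, div_le_iff₀ (by positivity)]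
  have e : 4 * δ ^ 2 * (H / (A + H)) * (A + H) ^ 2 = 4 * (δ ^ 2 * H) * (A + H) := by field_simp
  rw [e]
  have h2 : 0 ≤ δ ^ 2 * H := by positivity
  calc 2 ^ 2 * I ^ 2 ≤ 2 ^ 2 * (δ ^ 2 * (V2 * H)) := by linarith
    _ = 4 * (δ ^ 2 * H) * V2 := by ring
    _ ≤ 4 * (δ ^ 2 * H) * (A + H) := mul_le_mul_of_nonneg_left (by rw [hA]; linarith) (by positivity)

lemma bulk1 {k : ℕ} {C : ℝ} (hC : 0 ≤ C) (hT : ∀ y : ℝ, |y| ≤ 1/4 → ((1 + y) ^ (k + 1))⁻¹ ≤ 1 - ((k + 1 : ℕ) : ℝ) * y + C * y ^ 2)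
    {δ : ℝ} (hδ : 0 < δ) (hδ2 : δ ≤ 1/12) (hδk : 16 * ((k:ℝ) + 2) * δ ≤ 1) (hδC : 16 * C * δ ^ 2 ≤ 1) :
    ∀ v z h : V d, ⟪z, h⟫_ℝ = 0 → 1 / δ ≤ ‖v‖ → ‖v + z‖ ≤ δ * ‖v‖ →
      ψ (k + 1) v h + ψ (k + 1) v (-h) ≤ 2 * φ (k + 1) v * (‖z‖ ^ 2 / (‖z‖ ^ 2 + ‖h‖ ^ 2)) ^ k := by
  intro v z h hzh hv hw
  have hA2 := slow_A hδ hδ2 hv hw rfl
  have hvh : ⟪v, h⟫_ℝ = ⟪v + z, h⟫_ℝ := by rw [inner_add_left, hzh, add_zero]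
  have hcs : |⟪v, h⟫_ℝ| ≤ δ * ‖v‖ * ‖h‖ := by
    rw [hvh]
    exact (abs_real_inner_le_norm _ _).trans (mul_le_mul_of_nonneg_right hw (norm_nonneg _))
  have hsq : ⟪v, h⟫_ℝ ^ 2 ≤ δ ^ 2 * (‖v‖ ^ 2 * ‖h‖ ^ 2) := by
    rw [← sq_abs]
    calc |⟪v, h⟫_ℝ| ^ 2 ≤ (δ * ‖v‖ * ‖h‖) ^ 2 := pow_le_pow_left₀ (abs_nonneg _) hcs 2
      _ = _ := by ring
  clear hcs hvh hw hv
  set A := 1 + ‖v‖ ^ 2 with hA
  have hA0 : 0 < A := by positivity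
  have hB0 : 0 < A + ‖h‖ ^ 2 := by positivity
  set q := 2 * ⟪v, h⟫_ℝ / (A + ‖h‖ ^ 2) with hq
  set ξ := ‖h‖ ^ 2 / (A + ‖h‖ ^ 2) with hξ
  have hξ0 : 0 ≤ ξ := by positivity
  have hq2 : q ^ 2 ≤ 4 * δ ^ 2 * ξ := alg4 hA (sq_nonneg _) (sq_nonneg _) hsq
  have hξ1 : ξ ≤ 1 := by
    rw [hξ, div_le_one hB0]; linarith
  have hq1 : |q| ≤ 1/4 := by
    apply abs_le_of_sq_le_sq _ (by norm_num)
    have h1 : 4 * δ ^ 2 * ξ ≤ 4 * δ ^ 2 * 1 := mul_le_mul_of_nonneg_left hξ1 (by positivity)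
    have h2 : δ ^ 2 ≤ (1/12) ^ 2 := pow_le_pow_left₀ hδ.le hδ2 2
    linarith
  have one : ∀ (g : V d) (y : ℝ), |y| ≤ 1/4 → y = 2 * ⟪v, g⟫_ℝ / (A + ‖h‖ ^ 2) → ‖g‖ = ‖h‖ →
      ψ (k + 1) v g ≤ ((A + ‖h‖ ^ 2) ^ (k + 1))⁻¹ * ((1 + y) ^ (k + 1))⁻¹ := by
    intro g y hy1 hy hg
    have hy1' := (abs_le.1 hy1).1
    have hpos : 0 < 1 + y := by linarith
    unfold ψ
    split_ifs
    · unfold φ
      rw [← mul_inv, ← mul_pow]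
      have : (A + ‖h‖ ^ 2) * (1 + y) = 1 + ‖v + g‖ ^ 2 := by
        rw [norm_add_sq', hy, hg, mul_add, mul_div_cancel₀ _ hB0.ne', hA]; ring
      rw [this]
    · positivity
  have h1 := one h q hq1 hq rfl
  have h2 := one (-h) (-q) (by rwa [abs_neg]) (by rw [hq, inner_neg_right]; ring) (norm_neg h)
  have h3 := hT q hq1
  have h4 := hT (-q) (by rwa [abs_neg])
  have h8 : A / (A + ‖h‖ ^ 2) ≤ ‖z‖ ^ 2 / (‖z‖ ^ 2 + ‖h‖ ^ 2) * (1 + 4 * δ * ξ) :=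
    alg1 hA0 (sq_nonneg _) hδ hδ2 hA2
  have h6 : 1 + C * q ^ 2 ≤ Real.exp (ξ / 4) := by
    have h7 : C * q ^ 2 ≤ ξ / 4 := alg2 hC hξ0 hq2 hδC
    linarith [Real.add_one_le_exp (ξ / 4)]
  have h6' : 0 ≤ 1 + C * q ^ 2 := by positivity
  have h12 : A / (A + ‖h‖ ^ 2) ≤ Real.exp (-ξ) := by
    have e : A / (A + ‖h‖ ^ 2) = 1 - ξ := by rw [hξ]; field_simp; ring
    rw [e]
    have := Real.add_one_le_exp (-ξ); linarith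
  have hk4 := alg3 hξ0 hδ hδk
  have e13 : ((A + ‖h‖ ^ 2) ^ (k + 1))⁻¹ = φ (k + 1) v * ((A / (A + ‖h‖ ^ 2)) ^ k * (A / (A + ‖h‖ ^ 2))) := by
    unfold φ
    rw [← hA, ← pow_succ, div_pow]; field_simp
  have hφ := φ_pos (k + 1) v
  set θ := ‖z‖ ^ 2 / (‖z‖ ^ 2 + ‖h‖ ^ 2) with hθ
  have hθ0 : 0 ≤ θ := by positivity
  set R := A / (A + ‖h‖ ^ 2) with hR
  have hR0 : 0 ≤ R := by positivity
  set Bi := ((A + ‖h‖ ^ 2) ^ (k + 1))⁻¹ with hBi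
  have hBp : 0 ≤ Bi := by positivity
  clear_value θ R Bi q ξ A
  have h5 : ψ (k + 1) v h + ψ (k + 1) v (-h) ≤ Bi * (2 * (1 + C * q ^ 2)) := by
    have h14 : ((1 + q) ^ (k + 1))⁻¹ + ((1 + -q) ^ (k + 1))⁻¹ ≤ 2 * (1 + C * q ^ 2) := by linarith
    calc ψ (k + 1) v h + ψ (k + 1) v (-h) ≤ Bi * ((1 + q) ^ (k + 1))⁻¹ + Bi * ((1 + -q) ^ (k + 1))⁻¹ := add_le_add h1 h2
      _ = Bi * (((1 + q) ^ (k + 1))⁻¹ + ((1 + -q) ^ (k + 1))⁻¹) := by ring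
      _ ≤ _ := mul_le_mul_of_nonneg_left h14 hBp
  have h11 : R ^ k ≤ θ ^ k * Real.exp (ξ / 4) := by
    calc R ^ k ≤ (θ * (1 + 4 * δ * ξ)) ^ k := pow_le_pow_left₀ hR0 h8 k
      _ = θ ^ k * (1 + 4 * δ * ξ) ^ k := mul_pow _ _ _
      _ ≤ θ ^ k * Real.exp (k * (4 * δ * ξ)) :=
          mul_le_mul_of_nonneg_left (one_add_pow_le_exp (by positivity) k) (by positivity)
      _ ≤ θ ^ k * Real.exp (ξ / 4) :=
          mul_le_mul_of_nonneg_left (Real.exp_le_exp.2 hk4) (by positivity)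
  calc ψ (k + 1) v h + ψ (k + 1) v (-h) ≤ Bi * (2 * (1 + C * q ^ 2)) := h5
    _ = φ (k + 1) v * (R ^ k * R) * (2 * (1 + C * q ^ 2)) := by rw [e13]
    _ ≤ φ (k + 1) v * ((θ ^ k * Real.exp (ξ / 4)) * Real.exp (-ξ)) * (2 * Real.exp (ξ / 4)) := by
        gcongr
    _ = 2 * φ (k + 1) v * θ ^ k * (Real.exp (ξ / 4) * Real.exp (-ξ) * Real.exp (ξ / 4)) := by ring
    _ ≤ 2 * φ (k + 1) v * θ ^ k * 1 := by
        refine mul_le_mul_of_nonneg_left ?_ (by positivity)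
        rw [← Real.exp_add, ← Real.exp_add]
        exact Real.exp_le_one_iff.2 (by linarith)
    _ = 2 * φ (k + 1) v * θ ^ k := mul_one _

lemma bulk2 {k : ℕ} {δ : ℝ} (hδ : 0 < δ) (hδ2 : δ ≤ 1/12) (hδk : 16 * ((k:ℝ) + 2) * δ ≤ 1) :
    ∀ v z h : V d, ⟪z, h⟫_ℝ = 0 → 1 / δ ≤ ‖v‖ → ‖v + h‖ ≤ δ * ‖v‖ → ‖h‖ ≤ ‖z‖ →
      φ (k + 1) (v + z) ≤ φ (k + 1) v * (‖h‖ ^ 2 / (‖z‖ ^ 2 + ‖h‖ ^ 2)) ^ k := by
  intro v z h hzh hv hw hhz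
  have hv0 : 0 < ‖v‖ := lt_of_lt_of_le (by positivity) hv
  have hA2 := slow_A hδ hδ2 hv hw rfl
  set A := 1 + ‖v‖ ^ 2 with hA
  have hA0 : 0 < A := by positivity
  have hh0 : 0 < ‖h‖ ^ 2 := lt_of_lt_of_le (mul_pos hA0 (by linarith)) hA2
  have hvz : ⟪v, z⟫_ℝ = ⟪v + h, z⟫_ℝ := by rw [inner_add_left, real_inner_comm z h, hzh, add_zero]
  have hcs : |⟪v, z⟫_ℝ| ≤ δ * ‖v‖ * ‖z‖ := by
    rw [hvz]
    exact (abs_real_inner_le_norm _ _).trans (mul_le_mul_of_nonneg_right hw (norm_nonneg _))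
  have hlow : (1 - δ) * (A + ‖z‖ ^ 2) ≤ 1 + ‖v + z‖ ^ 2 := by
    rw [norm_add_sq', hA]
    have h1 := (abs_le.1 hcs).1
    have h2 : 2 * (‖v‖ * ‖z‖) ≤ ‖v‖ ^ 2 + ‖z‖ ^ 2 := by nlinarith [sq_nonneg (‖v‖ - ‖z‖)]
    nlinarith [mul_le_mul_of_nonneg_left h2 hδ.le]
  set θ := ‖h‖ ^ 2 / (‖z‖ ^ 2 + ‖h‖ ^ 2) with hθ
  have hθ0 : 0 ≤ θ := by positivity
  have hθ1 : θ ≤ 1/2 := by
    rw [hθ, div_le_iff₀ (by positivity)]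
    have : ‖h‖ ^ 2 ≤ ‖z‖ ^ 2 := pow_le_pow_left₀ (norm_nonneg _) hhz 2
    linarith
  have hr : A / (1 + ‖v + z‖ ^ 2) ≤ θ * (1 + 4 * δ) := by
    calc A / (1 + ‖v + z‖ ^ 2) ≤ A / ((1 - δ) * (A + ‖z‖ ^ 2)) := by
          refine div_le_div_of_nonneg_left hA0.le (mul_pos (by linarith) (by positivity)) hlow
      _ ≤ θ * (1 + 4 * δ) := by
          have h1 : 0 < 1 - δ := by linarith
          rw [hθ, div_mul_eq_mul_div, div_le_div_iff₀ (by positivity) (by positivity)]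
          have h2 : 1 ≤ (1 - 2 * δ) * ((1 - δ) * (1 + 4 * δ)) := by nlinarith [pow_pos hδ 2, pow_pos hδ 3]
          have h3 : A * (‖z‖ ^ 2 + ‖h‖ ^ 2) ≤ (‖h‖ ^ 2 * (A + ‖z‖ ^ 2)) * ((1 - δ) * (1 + 4 * δ)) := by
            have h4 : 0 ≤ (1 - δ) * (1 + 4 * δ) := by positivity
            have h5 : A * (1 - 2 * δ) * (‖z‖ ^ 2 + ‖h‖ ^ 2) ≤ ‖h‖ ^ 2 * (A + ‖z‖ ^ 2) := by
              nlinarith [mul_le_mul_of_nonneg_right hA2 (sq_nonneg ‖z‖), mul_pos hA0 hh0]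
            have h6 := mul_le_mul_of_nonneg_right h5 h4
            have h7 : 0 ≤ A * (‖z‖ ^ 2 + ‖h‖ ^ 2) := by positivity
            nlinarith [mul_le_mul_of_nonneg_left h2 h7]
          linarith
  have hk2 : (1 + 4 * δ) ^ (k + 1) ≤ 2 := by
    refine (one_add_pow_le_exp (by positivity) (k + 1)).trans ?_
    have h1 : ((k + 1 : ℕ) : ℝ) * (4 * δ) ≤ 1/4 := by push_cast; nlinarith
    have h2 : Real.exp (1/4) ≤ 2 := by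
      have h3 : 1 - 1/4 ≤ Real.exp (-(1/4)) := by
        have := Real.add_one_le_exp (-(1/4 : ℝ)); linarith
      rw [Real.exp_neg] at h3
      have h4 : 0 < Real.exp (1/4) := Real.exp_pos _
      rw [le_inv_comm₀ (by norm_num) h4] at h3
      refine h3.trans (by norm_num)
    exact (Real.exp_le_exp.2 h1).trans h2
  have e : φ (k + 1) (v + z) = φ (k + 1) v * (A / (1 + ‖v + z‖ ^ 2)) ^ (k + 1) := by
    unfold φ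
    rw [← hA, div_pow]; field_simp
  have hφ := φ_pos (k + 1) v
  rw [e]
  refine mul_le_mul_of_nonneg_left ?_ hφ.le
  calc (A / (1 + ‖v + z‖ ^ 2)) ^ (k + 1) ≤ (θ * (1 + 4 * δ)) ^ (k + 1) := pow_le_pow_left₀ (by positivity) hr _
    _ = θ ^ k * (θ * (1 + 4 * δ) ^ (k + 1)) := by rw [mul_pow]; ring
    _ ≤ θ ^ k * 1 := by
        refine mul_le_mul_of_nonneg_left ?_ (by positivity)
        nlinarith
    _ = θ ^ k := mul_one _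

theorem bulk (k : ℕ) : ∃ δ : ℝ, 0 < δ ∧ δ ≤ 1/12 ∧
    (∀ v z h : V d, ⟪z, h⟫_ℝ = 0 → 1 / δ ≤ ‖v‖ → ‖v + z‖ ≤ δ * ‖v‖ →
      ψ (k + 1) v h + ψ (k + 1) v (-h) ≤ 2 * φ (k + 1) v * (‖z‖ ^ 2 / (‖z‖ ^ 2 + ‖h‖ ^ 2)) ^ k) ∧
    (∀ v z h : V d, ⟪z, h⟫_ℝ = 0 → 1 / δ ≤ ‖v‖ → ‖v + h‖ ≤ δ * ‖v‖ → ‖h‖ ≤ ‖z‖ →
      φ (k + 1) (v + z) ≤ φ (k + 1) v * (‖h‖ ^ 2 / (‖z‖ ^ 2 + ‖h‖ ^ 2)) ^ k) := by
  obtain ⟨C, hC, hT⟩ := taylor (k + 1)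
  set δ : ℝ := 1 / (16 * ((k + 2) * (C + 1))) with hδdef
  have hk : (0:ℝ) ≤ k := by positivity
  have hden : 0 < 16 * (((k:ℝ) + 2) * (C + 1)) := by positivity
  have hδ : 0 < δ := by positivity
  have hprod : δ * (16 * (((k:ℝ) + 2) * (C + 1))) = 1 := by rw [hδdef]; field_simp
  have hbig : (k:ℝ) + 2 ≤ ((k:ℝ) + 2) * (C + 1) := by nlinarith
  have hδk : 16 * ((k:ℝ) + 2) * δ ≤ 1 := by
    rw [← hprod]; nlinarith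
  have hδ2 : δ ≤ 1/12 := by nlinarith
  have hδC : 16 * C * δ ^ 2 ≤ 1 := by
    have h1 : C ≤ ((k:ℝ) + 2) * (C + 1) := by nlinarith [mul_nonneg hk hC]
    have h2 : 16 * C * δ ≤ 1 := by rw [← hprod]; nlinarith
    nlinarith
  exact ⟨δ, hδ, hδ2, bulk1 hC hT hδ hδ2 hδk hδC, bulk2 hδ hδ2 hδk⟩

end Pool.Agent.H821.BZ
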