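import Pool.Agent.H821.BZ.Zon

/-! The change of variables `u ↦ (u + |u| σ) / 2`. -/

set_option autoImplicit false
open MeasureTheory Metric Set
open scoped ENNReal Real InnerProductSpace Pointwise

namespace Pool.Agent.H821.BZ

variable {d : ℕ}

/-- the map `u ↦ (u + |u| σ) / 2` -/
noncomputable def T (σ u : V d) : V d := (1/2:ℝ) • (u + ‖u‖ • σ)

/-- its inverse on the half space -/
noncomputable def U (σ z : V d) : V d := (2:ℝ) • z - (‖z‖ ^ 2 / ⟪z, σ⟫_ℝ) • σ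

lemma measurable_T : Measurable (fun p : V d × V d => T p.1 p.2) := by
  unfold T; fun_prop

lemma T_add (σ u : V d) : T σ u + T (-σ) u = u := by
  unfold T; rw [← smul_add]; simp only [smul_neg]
  rw [show u + ‖u‖ • σ + (u + -(‖u‖ • σ)) = (2:ℝ) • u by rw [two_smul]; abel, smul_smul]; norm_num

section
variable {σ : V d} (hσ : ‖σ‖ = 1)
include hσ

lemma inner_T (u : V d) : ⟪T σ u, σ⟫_ℝ = (‖u‖ + ⟪u, σ⟫_ℝ) / 2 := by
  unfold T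
  rw [inner_smul_left, inner_add_left, inner_smul_left, real_inner_self_eq_norm_sq, hσ]
  simp; ring

lemma norm_T_sq (u : V d) : ‖T σ u‖ ^ 2 = ‖u‖ * (‖u‖ + ⟪u, σ⟫_ℝ) / 2 := by
  unfold T
  rw [norm_smul, mul_pow, norm_add_sq_real, inner_smul_right, norm_smul, hσ]
  simp; ring

lemma inner_T_T (u : V d) : ⟪T σ u, T (-σ) u⟫_ℝ = 0 := by
  unfold T
  simp only [inner_smul_left, inner_smul_right, inner_add_left, inner_add_right, inner_neg_right, smul_neg,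
    real_inner_self_eq_norm_sq, hσ]
  simp [real_inner_comm]
  ring

lemma norm_U {z : V d} (hz : 0 < ⟪z, σ⟫_ℝ) : ‖U σ z‖ = ‖z‖ ^ 2 / ⟪z, σ⟫_ℝ := by
  have h : ‖U σ z‖ ^ 2 = (‖z‖ ^ 2 / ⟪z, σ⟫_ℝ) ^ 2 := by
    unfold U
    rw [norm_sub_sq_real, norm_smul, norm_smul, inner_smul_left, inner_smul_right, hσ]
    simp only [Real.norm_eq_abs, abs_two, mul_pow, sq_abs, conj_trivial, mul_one]
    field_simp; ring
  exact (pow_left_inj₀ (norm_nonneg _) (by positivity) two_ne_zero).1 h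

lemma inner_U (z : V d) : ⟪U σ z, σ⟫_ℝ = 2 * ⟪z, σ⟫_ℝ - ‖z‖ ^ 2 / ⟪z, σ⟫_ℝ := by
  unfold U
  rw [inner_sub_left, inner_smul_left, inner_smul_left, real_inner_self_eq_norm_sq, hσ]
  simp

lemma T_U {z : V d} (hz : 0 < ⟪z, σ⟫_ℝ) : T σ (U σ z) = z := by
  unfold T
  rw [norm_U hσ hz]; unfold U
  rw [sub_add_cancel, smul_smul]; norm_num

lemma U_T {u : V d} (hu : 0 < ‖u‖ + ⟪u, σ⟫_ℝ) : U σ (T σ u) = u := by
  unfold U
  rw [norm_T_sq hσ, inner_T hσ]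
  have : ‖u‖ * (‖u‖ + ⟪u, σ⟫_ℝ) / 2 / ((‖u‖ + ⟪u, σ⟫_ℝ) / 2) = ‖u‖ := by field_simp
  rw [this]; unfold T
  rw [smul_smul]; norm_num

lemma cos_U {z : V d} (hz : 0 < ⟪z, σ⟫_ℝ) :
    ⟪U σ z, σ⟫_ℝ / ‖U σ z‖ = 2 * (⟪z, σ⟫_ℝ / ‖z‖) ^ 2 - 1 := by
  rw [norm_U hσ hz, inner_U hσ]
  have hz0 : ‖z‖ ≠ 0 := by
    intro h; rw [norm_eq_zero] at h; rw [h, inner_zero_left] at hz; exact lt_irrefl _ hz
  field_simp

omit hσ in
lemma hasFDerivAt_T {u : V d} (hu : u ≠ 0) :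
    HasFDerivAt (T σ) ((1/2:ℝ) • (ContinuousLinearMap.id ℝ (V d) +
      (‖u‖⁻¹ • innerSL ℝ u).smulRight σ)) u := by
  have hn : HasFDerivAt (fun y : V d => ‖y‖) (‖u‖⁻¹ • innerSL ℝ u) u := by
    have h := (hasStrictFDerivAt_norm_sq u).hasFDerivAt.sqrt (by positivity)
    have h2 : (fun y : V d => √(‖y‖ ^ 2)) = fun y => ‖y‖ := by
      funext y; exact Real.sqrt_sq (norm_nonneg _)
    rw [h2] at h
    convert! h using 1
    rw [Real.sqrt_sq (norm_nonneg _), ← Nat.cast_smul_eq_nsmul ℝ, smul_smul]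
    congr 1
    have : ‖u‖ ≠ 0 := norm_ne_zero_iff.2 hu
    push_cast
    field_simp
  have h3 := ((hasFDerivAt_id u).add (hn.smul_const σ)).const_smul (1/2:ℝ)
  exact h3

omit hσ in
lemma det_T (u : V d) : ((1/2:ℝ) • (ContinuousLinearMap.id ℝ (V d) +
      (‖u‖⁻¹ • innerSL ℝ u).smulRight σ) : V d →L[ℝ] V d).det = (1/2) ^ d * (1 + ⟪u, σ⟫_ℝ / ‖u‖) := by
  have h1 : (((1/2:ℝ) • (ContinuousLinearMap.id ℝ (V d) +
      (‖u‖⁻¹ • innerSL ℝ u).smulRight σ) : V d →L[ℝ] V d) : V d →ₗ[ℝ] V d) =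
      (1/2:ℝ) • LinearMap.transvection ((‖u‖⁻¹ • innerSL ℝ u : V d →L[ℝ] ℝ) : V d →ₗ[ℝ] ℝ) σ := by
    ext x i
    simp [LinearMap.transvection.apply]
  rw [ContinuousLinearMap.det, h1, LinearMap.det_smul, LinearMap.transvection.det]
  simp [div_eq_inv_mul]

/-- change of variables, first form -/
theorem cv1 (Φ : V d → ℝ≥0∞) :
    ∫⁻ z in {z : V d | 0 < ⟪z, σ⟫_ℝ}, Φ z =
      ∫⁻ u in {u : V d | 0 < ‖u‖ + ⟪u, σ⟫_ℝ}, ENNReal.ofReal ((1/2) ^ d * (1 + ⟪u, σ⟫_ℝ / ‖u‖)) * Φ (T σ u) := by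
  have hs : MeasurableSet {u : V d | 0 < ‖u‖ + ⟪u, σ⟫_ℝ} :=
    measurableSet_lt measurable_const (by fun_prop)
  have himg : T σ '' {u : V d | 0 < ‖u‖ + ⟪u, σ⟫_ℝ} = {z : V d | 0 < ⟪z, σ⟫_ℝ} := by
    ext z
    constructor
    · rintro ⟨u, hu, rfl⟩
      simp only [mem_ofPred_eq] at hu ⊢
      rw [inner_T hσ]; linarith
    · intro hz
      simp only [mem_ofPred_eq] at hz
      refine ⟨U σ z, ?_, T_U hσ hz⟩
      simp only [mem_ofPred_eq]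
      rw [norm_U hσ hz, inner_U hσ]; linarith
  have hinj : InjOn (T σ) {u : V d | 0 < ‖u‖ + ⟪u, σ⟫_ℝ} := by
    intro u hu w hw h
    rw [← U_T hσ hu, h, U_T hσ hw]
  have hne : ∀ u ∈ {u : V d | 0 < ‖u‖ + ⟪u, σ⟫_ℝ}, u ≠ 0 := by
    rintro u hu rfl
    simp at hu
  rw [← himg, lintegral_image_eq_lintegral_abs_det_fderiv_mul volume hs
    (fun u hu => (hasFDerivAt_T (hne u hu)).hasFDerivWithinAt) hinj]
  refine setLIntegral_congr_fun hs fun u hu => ?_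
  simp only
  rw [det_T, abs_of_nonneg]
  have hu' : 0 < ‖u‖ := norm_pos_iff.2 (hne u hu)
  have h1 : 0 ≤ 1 + ⟪u, σ⟫_ℝ / ‖u‖ := by
    have : 1 + ⟪u, σ⟫_ℝ / ‖u‖ = (‖u‖ + ⟪u, σ⟫_ℝ) / ‖u‖ := by field_simp
    rw [this]; have := hu; simp only [mem_ofPred_eq] at this; positivity
  positivity

/-- change of variables, second form -/
theorem cv2 (Ψ : V d → ℝ≥0∞) :
    ∫⁻ u in {u : V d | 0 < ‖u‖ + ⟪u, σ⟫_ℝ}, Ψ u =
      ∫⁻ z in {z : V d | 0 < ⟪z, σ⟫_ℝ}, ENNReal.ofReal (2 ^ d / 2 * (‖z‖ / ⟪z, σ⟫_ℝ) ^ 2) * Ψ (U σ z) := by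
  rw [cv1 hσ]
  have hs : MeasurableSet {u : V d | 0 < ‖u‖ + ⟪u, σ⟫_ℝ} :=
    measurableSet_lt measurable_const (by fun_prop)
  refine setLIntegral_congr_fun hs fun u hu => ?_
  simp only [mem_ofPred_eq] at hu
  rw [U_T hσ hu, ← mul_assoc, ← ENNReal.ofReal_mul]
  · have hu0 : u ≠ 0 := by rintro rfl; simp at hu
    have hu' : 0 < ‖u‖ := norm_pos_iff.2 hu0
    have : (1 / 2) ^ d * (1 + ⟪u, σ⟫_ℝ / ‖u‖) * (2 ^ d / 2 * (‖T σ u‖ / ⟪T σ u, σ⟫_ℝ) ^ 2) = 1 := by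
      rw [div_pow (‖T σ u‖), norm_T_sq hσ, inner_T hσ, div_pow (1:ℝ) 2 d, one_pow]
      field_simp
    rw [this]; simp
  · have hu0 : u ≠ 0 := by rintro rfl; simp at hu
    have hu' : 0 < ‖u‖ := norm_pos_iff.2 hu0
    have : 1 + ⟪u, σ⟫_ℝ / ‖u‖ = (‖u‖ + ⟪u, σ⟫_ℝ) / ‖u‖ := by field_simp
    rw [this]; positivity
end

end Pool.Agent.H821.BZ
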