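import Pool.Agent.H821.BZ.CV

/-! The cancellation lemma. -/

set_option autoImplicit false
open MeasureTheory Metric Set
open scoped ENNReal Real InnerProductSpace Pointwise

namespace Pool.Agent.H821.BZ

variable {d : ℕ}

/-- truncated and symmetrised angular kernels -/
structure IsKer (p K : ℝ) (β : ℝ → ℝ) : Prop where
  meas : Measurable β
  nonneg : ∀ c, 0 ≤ β c
  supp : ∀ c, β c ≠ 0 → 0 ≤ c ∧ c < 1
  bound : ∀ c, 0 ≤ c → c < 1 → β c ≤ K * (1 - c) ^ (-p)
  bdd : ∃ M, ∀ c, β c ≤ M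

/-- the kernel in the new variable -/
noncomputable def kk (d : ℕ) (γ : ℝ) (β : ℝ → ℝ) (τ : ℝ) : ℝ :=
  if 0 < τ then 2 ^ d / 2 * τ ^ (-2 - γ) * β (2 * τ ^ 2 - 1) else 0

/-- the other post-collisional velocity in the new variable -/
noncomputable def hh (σ z : V d) : V d := z - (‖z‖ ^ 2 / ⟪z, σ⟫_ℝ) • σ

lemma measurable_kk {γ : ℝ} {β : ℝ → ℝ} (hβ : Measurable β) : Measurable (kk d γ β) := by
  unfold kk
  refine Measurable.ite measurableSet_Ioi ?_ measurable_const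
  have h1 : Measurable (fun τ : ℝ => β (2 * τ ^ 2 - 1)) := hβ.comp (by fun_prop)
  fun_prop

lemma kk_nonneg {γ : ℝ} {β : ℝ → ℝ} (hβ : ∀ c, 0 ≤ β c) (τ : ℝ) : 0 ≤ kk d γ β τ := by
  unfold kk
  split_ifs with h
  · have := hβ (2 * τ ^ 2 - 1); positivity
  · exact le_refl _

lemma measurable_kernel {γ : ℝ} {β : ℝ → ℝ} (hβ : Measurable β) :
    Measurable (fun p : V d × V d => ‖p.1‖ ^ γ * β (⟪p.1, p.2⟫_ℝ / ‖p.1‖)) := by
  have h1 : Measurable (fun p : V d × V d => β (⟪p.1, p.2⟫_ℝ / ‖p.1‖)) :=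
    hβ.comp ((measurable_fst.inner measurable_snd).div measurable_fst.norm)
  exact (measurable_fst.norm.pow_const γ).mul h1

lemma measurable_hh : Measurable (fun p : V d × V d => hh p.2 p.1) := by
  unfold hh
  have : Measurable (fun p : V d × V d => ⟪p.1, p.2⟫_ℝ) := measurable_fst.inner measurable_snd
  exact measurable_fst.sub (((measurable_fst.norm.pow_const 2).div this).smul measurable_snd)

/-- the change of variables for the collision kernel -/
theorem master [Nontrivial (V d)] {σ : V d} (hσ : ‖σ‖ = 1) {β : ℝ → ℝ} (hβ : β (-1) = 0)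
    (γ : ℝ) (Θ : V d → V d → ℝ≥0∞) :
    ∫⁻ u : V d, ENNReal.ofReal (‖u‖ ^ γ * β (⟪u, σ⟫_ℝ / ‖u‖)) * Θ (T σ u) (T (-σ) u) =
      ∫⁻ z : V d, ENNReal.ofReal (‖z‖ ^ γ * kk d γ β (⟪z, σ⟫_ℝ / ‖z‖)) * Θ z (hh σ z) := by
  have hs : MeasurableSet {u : V d | 0 < ‖u‖ + ⟪u, σ⟫_ℝ} :=
    measurableSet_lt measurable_const (by fun_prop)
  have hs2 : MeasurableSet {z : V d | 0 < ⟪z, σ⟫_ℝ} :=
    measurableSet_lt measurable_const (by fun_prop)
  have hae0 : ∀ᵐ u : V d, u ≠ 0 := by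
    rw [ae_iff]; simp
  calc ∫⁻ u : V d, ENNReal.ofReal (‖u‖ ^ γ * β (⟪u, σ⟫_ℝ / ‖u‖)) * Θ (T σ u) (T (-σ) u)
      = ∫⁻ u in {u : V d | 0 < ‖u‖ + ⟪u, σ⟫_ℝ},
          ENNReal.ofReal (‖u‖ ^ γ * β (⟪u, σ⟫_ℝ / ‖u‖)) * Θ (T σ u) (T (-σ) u) := by
        rw [← lintegral_indicator hs]
        refine lintegral_congr_ae (hae0.mono fun u hu => ?_)
        simp only [indicator, mem_ofPred_eq]
        split_ifs with h
        · rfl
        · have hu' : 0 < ‖u‖ := norm_pos_iff.2 hu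
          have h1 : |⟪u, σ⟫_ℝ| ≤ ‖u‖ * ‖σ‖ := abs_real_inner_le_norm u σ
          rw [hσ, mul_one] at h1
          have h2 : ⟪u, σ⟫_ℝ / ‖u‖ = -1 := by
            rw [div_eq_iff hu'.ne']
            have := neg_abs_le ⟪u, σ⟫_ℝ
            push Not at h
            linarith
          rw [h2, hβ]; simp
    _ = ∫⁻ z in {z : V d | 0 < ⟪z, σ⟫_ℝ}, ENNReal.ofReal (2 ^ d / 2 * (‖z‖ / ⟪z, σ⟫_ℝ) ^ 2) *
          (ENNReal.ofReal (‖U σ z‖ ^ γ * β (⟪U σ z, σ⟫_ℝ / ‖U σ z‖)) * Θ (T σ (U σ z)) (T (-σ) (U σ z))) :=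
        cv2 hσ (fun u => ENNReal.ofReal (‖u‖ ^ γ * β (⟪u, σ⟫_ℝ / ‖u‖)) * Θ (T σ u) (T (-σ) u))
    _ = ∫⁻ z in {z : V d | 0 < ⟪z, σ⟫_ℝ},
          ENNReal.ofReal (‖z‖ ^ γ * kk d γ β (⟪z, σ⟫_ℝ / ‖z‖)) * Θ z (hh σ z) := by
        refine setLIntegral_congr_fun hs2 fun z hz => ?_
        simp only [mem_ofPred_eq] at hz
        have hz0 : 0 < ‖z‖ := by
          rw [norm_pos_iff]; rintro rfl; simp at hz
        have e1 : T (-σ) (U σ z) = hh σ z := by
          have h := T_add σ (U σ z)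
          rw [T_U hσ hz] at h
          rw [eq_sub_of_add_eq' h]
          unfold U hh
          rw [two_smul]; abel

        rw [T_U hσ hz, e1, ← mul_assoc, ← ENNReal.ofReal_mul (by positivity), cos_U hσ hz, norm_U hσ hz]
        congr 2
        have hτ : 0 < ⟪z, σ⟫_ℝ / ‖z‖ := by positivity
        unfold kk
        rw [if_pos hτ]
        have e2 : ‖z‖ ^ 2 / ⟪z, σ⟫_ℝ = ‖z‖ * (⟪z, σ⟫_ℝ / ‖z‖)⁻¹ := by
          rw [inv_div]; ring
        rw [e2, Real.mul_rpow hz0.le (by positivity), show (-2 - γ : ℝ) = -2 + -γ by ring,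
          Real.rpow_add hτ, Real.inv_rpow hτ.le, Real.rpow_neg hτ.le γ]
        have e3 : (⟪z, σ⟫_ℝ / ‖z‖) ^ (-2:ℝ) = (‖z‖ / ⟪z, σ⟫_ℝ) ^ 2 := by
          rw [Real.rpow_neg hτ.le, ← inv_div ‖z‖ ⟪z, σ⟫_ℝ]
          rw [show ((2:ℝ)) = ((2:ℕ):ℝ) by norm_num, Real.rpow_natCast, inv_pow, inv_inv]
        rw [e3]; ring
    _ = ∫⁻ z : V d, ENNReal.ofReal (‖z‖ ^ γ * kk d γ β (⟪z, σ⟫_ℝ / ‖z‖)) * Θ z (hh σ z) := by
        rw [← lintegral_indicator hs2]
        refine lintegral_congr_ae (hae0.mono fun z hz => ?_)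
        simp only [indicator, mem_ofPred_eq]
        split_ifs with h
        · rfl
        · have : ¬ 0 < ⟪z, σ⟫_ℝ / ‖z‖ := by
            intro h'
            have := norm_pos_iff.2 hz
            exact h (by rwa [lt_div_iff₀ this, zero_mul] at h')
          simp [kk, this]

/-- first moments of the angular kernels are bounded -/
theorem ker_moment (hd : 2 ≤ d) {s a K : ℝ} (hsa : 2 * s < a) :
    ∃ C : ℝ≥0∞, C ≠ ⊤ ∧ ∀ β : ℝ → ℝ, IsKer ((d - 1) / 2 + s) K β → ∀ e : V d, ‖e‖ = 1 →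
      ∫⁻ σ : Sp d, ENNReal.ofReal (β ⟪e, (σ : V d)⟫_ℝ * (1 - ⟪e, (σ : V d)⟫_ℝ) ^ (a / 2)) ∂(sm d) ≤ C := by
  set κ : ℝ := max 0 ((d - 1) / 2 + s - a / 2) with hκ
  have hd1 : (0:ℝ) < d - 1 := by
    have : (2:ℝ) ≤ d := by exact_mod_cast hd
    linarith
  have hκ0 : 0 ≤ κ := le_max_left _ _
  have hκ2 : 2 * κ < d - 1 := by
    rw [hκ, mul_max_of_nonneg _ _ (by norm_num : (0:ℝ) ≤ 2)]
    refine max_lt (by linarith) (by linarith)
  obtain ⟨C, hC, h⟩ := zonal_finite hd hκ0 hκ2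
  refine ⟨ENNReal.ofReal K * C, ENNReal.mul_ne_top ENNReal.ofReal_ne_top hC, fun β hβ e he => ?_⟩
  refine le_trans ?_ (mul_le_mul_right (h e he) _)
  rw [← lintegral_const_mul]
  · refine lintegral_mono fun σ => ?_
    set c := ⟪e, (σ : V d)⟫_ℝ with hc
    by_cases h0 : β c = 0
    · simp [h0]
    · obtain ⟨hc0, hc1⟩ := hβ.supp c h0
      rw [if_pos hc0]
      have hb := hβ.bound c hc0 hc1
      have h1c : 0 < 1 - c := by linarith
      have hK : 0 ≤ K := by
        by_contra hK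
        push Not at hK
        have : 0 < (1 - c) ^ (-((d - 1) / 2 + s)) := by positivity
        have h2 := hβ.nonneg c
        have h3 : 0 < β c := lt_of_le_of_ne h2 (Ne.symm h0)
        nlinarith
      rw [← ENNReal.ofReal_mul hK]
      refine ENNReal.ofReal_le_ofReal ?_
      calc β c * (1 - c) ^ (a / 2) ≤ K * (1 - c) ^ (-((d - 1) / 2 + s)) * (1 - c) ^ (a / 2) := by gcongr
        _ = K * (1 - c) ^ (-((d - 1) / 2 + s) + a / 2) := by rw [mul_assoc, ← Real.rpow_add h1c]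
        _ ≤ K * (1 - c) ^ (-κ) := by
            refine mul_le_mul_of_nonneg_left ?_ hK
            refine Real.rpow_le_rpow_of_exponent_ge h1c (by linarith) ?_
            have := le_max_right 0 ((d - 1) / 2 + s - a / 2)
            rw [← hκ] at this; linarith
  · refine Measurable.ite ?_ ?_ measurable_const
    · exact measurableSet_le measurable_const (by fun_prop)
    · fun_prop

/-- `A` -/
noncomputable def AA (d : ℕ) (γ : ℝ) (β : ℝ → ℝ) (e : V d) : ℝ≥0∞ :=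
  ∫⁻ σ : Sp d, ENNReal.ofReal (kk d γ β ⟪e, (σ : V d)⟫_ℝ) ∂(sm d)

/-- `B` -/
noncomputable def BB (d : ℕ) (β : ℝ → ℝ) (e : V d) : ℝ≥0∞ :=
  ∫⁻ σ : Sp d, ENNReal.ofReal (β ⟪e, (σ : V d)⟫_ℝ) ∂(sm d)

lemma cos_eq (u w : V d) : ⟪u, w⟫_ℝ / ‖u‖ = ⟪‖u‖⁻¹ • u, w⟫_ℝ := by
  rw [inner_smul_left]; simp [div_eq_inv_mul]

/-- separation of variables -/
lemma sep [Nontrivial (V d)] {G : V d → ℝ≥0∞} (hG : Measurable G) {g : ℝ → ℝ≥0∞} (hg : Measurable g)
    (e : V d) (he : ‖e‖ = 1) :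
    ∫⁻ σ : Sp d, (∫⁻ u : V d, G u * g (⟪u, (σ : V d)⟫_ℝ / ‖u‖)) ∂(sm d) =
      (∫⁻ u : V d, G u) * ∫⁻ σ : Sp d, g ⟪e, (σ : V d)⟫_ℝ ∂(sm d) := by
  have hae0 : ∀ᵐ u : V d, u ≠ 0 := by
    rw [ae_iff]; simp
  have hm2 : Measurable (fun p : Sp d × V d => G p.2 * g (⟪p.2, (p.1 : V d)⟫_ℝ / ‖p.2‖)) :=
    (hG.comp measurable_snd).mul (hg.comp
      ((measurable_snd.inner (measurable_subtype_coe.comp measurable_fst)).div measurable_snd.norm))
  rw [lintegral_lintegral_swap hm2.aemeasurable, ← lintegral_mul_const _ hG]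
  refine lintegral_congr_ae (hae0.mono fun u hu => ?_)
  have hn : ‖(‖u‖⁻¹ • u)‖ = 1 := by
    rw [norm_smul, norm_inv, norm_norm, inv_mul_cancel₀ (norm_ne_zero_iff.2 hu)]
  have hm : Measurable (fun σ : Sp d => g (⟪u, (σ : V d)⟫_ℝ / ‖u‖)) := hg.comp (by fun_prop)
  simp only
  rw [lintegral_const_mul (G u) hm]
  congr 1
  simp_rw [cos_eq]
  exact zonal_eq _ e hn he hg

lemma integrable_norm_rpow_exp [Nontrivial (V d)] {q b : ℝ} (hq : 0 < d + q) (hb : 0 < b) :
    Integrable (fun u : V d => ‖u‖ ^ q * Real.exp (-b * ‖u‖ ^ 2)) := by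
  refine (integrable_fun_norm_addHaar (E := V d) (F := ℝ) volume
    (f := fun y => y ^ q * Real.exp (-b * y ^ 2))).2 ?_
  have hdpos : 0 < d := by
    rcases Nat.eq_zero_or_pos d with h | h
    · subst h; exact absurd (inferInstance : Subsingleton (V 0)) (not_subsingleton _)
    · exact h
  have h := integrableOn_rpow_mul_exp_neg_mul_sq (b := b) hb (s := (d - 1 : ℝ) + q) (by linarith)
  refine h.congr_fun (fun y hy => ?_) measurableSet_Ioi
  have hy' : 0 < y := hy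
  simp only [smul_eq_mul, finrank_euclideanSpace, Fintype.card_fin]
  rw [Real.rpow_add hy', ← mul_assoc]
  congr 2
  rw [← Real.rpow_natCast, Nat.cast_sub hdpos]; simp

/-- cancellation lemma for the angular kernels -/
theorem cancel (hd : 2 ≤ d) {s K γ : ℝ} (hs1 : s < 1) (hγ : 0 < d + γ) :
    ∃ C : ℝ≥0∞, C ≠ ⊤ ∧ ∀ β : ℝ → ℝ, IsKer ((d - 1) / 2 + s) K β → ∀ e : V d, ‖e‖ = 1 →
      AA d γ β e ≤ BB d β e + C := by
  have : Nontrivial (Fin d) := Fin.nontrivial_iff_two_le.2 hd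
  have : Nonempty (Fin d) := inferInstance
  have : Nontrivial (V d) := inferInstance
  obtain ⟨C1, hC1, h1⟩ := ker_moment (K := K) hd (s := s) (a := 2) (by linarith)
  set G : V d → ℝ≥0∞ := fun u => ENNReal.ofReal (‖u‖ ^ γ * Real.exp (-1 * ‖u‖ ^ 2)) with hG
  have hGm : Measurable G := by rw [hG]; fun_prop
  set W := ∫⁻ u : V d, G u with hW
  set G' : V d → ℝ≥0∞ := fun u => ENNReal.ofReal (‖u‖ ^ (γ + 2) * Real.exp (-(1/2) * ‖u‖ ^ 2)) with hG'
  have hGm' : Measurable G' := by rw [hG']; fun_prop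
  set W' := ∫⁻ u : V d, G' u with hW'
  have hWtop : W ≠ ⊤ :=
    ne_top_of_le_ne_top (integrable_norm_rpow_exp (d := d) (q := γ) hγ one_pos).2.ne
      (lintegral_mono fun u => Real.ofReal_le_enorm _)
  have hWtop' : W' ≠ ⊤ :=
    ne_top_of_le_ne_top (integrable_norm_rpow_exp (d := d) (q := γ + 2) (b := 1/2) (by linarith) (by norm_num)).2.ne
      (lintegral_mono fun u => Real.ofReal_le_enorm _)
  have hW0 : W ≠ 0 := by
    rw [hW, Ne, lintegral_eq_zero_iff hGm]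
    intro h
    have hae0 : ∀ᵐ u : V d, u ≠ 0 := by
      rw [ae_iff]; simp
    have h2 : ∀ᵐ u : V d, False := by
      filter_upwards [h, hae0] with u hu hu0
      have h3 : 0 < ‖u‖ := norm_pos_iff.2 hu0
      have : (0:ℝ≥0∞) < G u := by
        rw [hG]; simp only [ENNReal.ofReal_pos]; positivity
      simp only [Pi.zero_apply] at hu
      rw [hu] at this; exact lt_irrefl _ this
    rw [Filter.eventually_false_iff_eq_bot, ae_eq_bot] at h2
    exact NeZero.ne _ h2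
  refine ⟨C1 * W' / W, ENNReal.div_ne_top (ENNReal.mul_ne_top hC1 hWtop') hW0, fun β hβ e he => ?_⟩
  have hβ1 : β (-1) = 0 := by
    by_contra h
    have := (hβ.supp _ h).1; norm_num at this
  have hkm : Measurable (fun τ => ENNReal.ofReal (kk d γ β τ)) := (measurable_kk hβ.meas).ennreal_ofReal
  have hbm : Measurable (fun τ => ENNReal.ofReal (β τ)) := hβ.meas.ennreal_ofReal
  have hbm2 : Measurable (fun τ => ENNReal.ofReal (β τ * (1 - τ) ^ ((2:ℝ) / 2))) := by
    have := hβ.meas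
    fun_prop
  -- the integral computed in two ways
  have eA : ∫⁻ σ : Sp d, (∫⁻ u : V d, ENNReal.ofReal (‖u‖ ^ γ * β (⟪u, (σ : V d)⟫_ℝ / ‖u‖)) *
      ENNReal.ofReal (Real.exp (-1 * ‖T (σ : V d) u‖ ^ 2))) ∂(sm d) = W * AA d γ β e := by
    unfold AA
    rw [hW, ← sep hGm hkm e he]
    refine lintegral_congr fun σ => ?_
    rw [master (by simp) hβ1 γ (fun z _ => ENNReal.ofReal (Real.exp (-1 * ‖z‖ ^ 2)))]
    refine lintegral_congr fun z => ?_
    simp only [hG]
    rw [← ENNReal.ofReal_mul (mul_nonneg (by positivity) (kk_nonneg hβ.nonneg _)),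
      ← ENNReal.ofReal_mul (by positivity)]
    congr 1; ring
  have eB : ∫⁻ σ : Sp d, (∫⁻ u : V d, ENNReal.ofReal (‖u‖ ^ γ * β (⟪u, (σ : V d)⟫_ℝ / ‖u‖)) *
      ENNReal.ofReal (Real.exp (-1 * ‖T (σ : V d) u‖ ^ 2))) ∂(sm d) ≤ W * BB d β e + W' * C1 := by
    calc _ ≤ ∫⁻ σ : Sp d, (∫⁻ u : V d, (G u * ENNReal.ofReal (β (⟪u, (σ : V d)⟫_ℝ / ‖u‖)) +
            G' u * ENNReal.ofReal (β (⟪u, (σ : V d)⟫_ℝ / ‖u‖) * (1 - ⟪u, (σ : V d)⟫_ℝ / ‖u‖) ^ ((2:ℝ) / 2)))) ∂(sm d) := by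
          refine lintegral_mono fun σ => lintegral_mono fun u => ?_
          set c := ⟪u, (σ : V d)⟫_ℝ / ‖u‖ with hc
          by_cases h0 : β c = 0
          · simp [h0]
          · obtain ⟨hc0, hc1⟩ := hβ.supp c h0
            have hu0 : 0 < ‖u‖ ∨ u = 0 := by
              rcases eq_or_ne u 0 with h | h
              · exact Or.inr h
              · exact Or.inl (norm_pos_iff.2 h)
            rcases hu0 with hu | hu
            · have hT : ‖T (σ : V d) u‖ ^ 2 = ‖u‖ ^ 2 * (1 + c) / 2 := by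
                rw [norm_T_sq (by simp), hc]; field_simp
              have hn := hβ.nonneg c
              simp only [hG, hG']
              rw [← ENNReal.ofReal_mul (by positivity), ← ENNReal.ofReal_mul (by positivity),
                ← ENNReal.ofReal_mul (by positivity), ← ENNReal.ofReal_add (by positivity) (by
                  have : 0 ≤ 1 - c := by linarith
                  positivity)]
              refine ENNReal.ofReal_le_ofReal ?_
              rw [hT]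
              have e1 : Real.exp (-1 * (‖u‖ ^ 2 * (1 + c) / 2)) ≤ Real.exp (-1 * ‖u‖ ^ 2) +
                  ‖u‖ ^ 2 * (1 - c) * Real.exp (-(1/2) * ‖u‖ ^ 2) := by
                have h3 : Real.exp (-1 * ‖u‖ ^ 2) = Real.exp (-1 * (‖u‖ ^ 2 * (1 + c) / 2)) *
                    Real.exp (-(‖u‖ ^ 2 * (1 - c) / 2)) := by
                  rw [← Real.exp_add]; congr 1; ring
                have h4 : 1 - ‖u‖ ^ 2 * (1 - c) / 2 ≤ Real.exp (-(‖u‖ ^ 2 * (1 - c) / 2)) := by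
                  have := Real.add_one_le_exp (-(‖u‖ ^ 2 * (1 - c) / 2)); linarith
                have h5 : Real.exp (-1 * (‖u‖ ^ 2 * (1 + c) / 2)) ≤ Real.exp (-(1/2) * ‖u‖ ^ 2) := by
                  rw [Real.exp_le_exp]; nlinarith [sq_nonneg ‖u‖]
                have h6 : 0 < Real.exp (-1 * (‖u‖ ^ 2 * (1 + c) / 2)) := Real.exp_pos _
                have h7 : 0 ≤ ‖u‖ ^ 2 * (1 - c) := by
                  have : 0 ≤ 1 - c := by linarith
                  positivity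
                rw [h3]
                nlinarith [mul_le_mul_of_nonneg_left h4 h6.le, mul_le_mul_of_nonneg_left h5 h7,
                  mul_nonneg h7 (Real.exp_pos (-(1/2) * ‖u‖ ^ 2)).le]
              rw [Real.rpow_add hu, show ((2:ℝ)/2) = 1 by norm_num, Real.rpow_one]
              have e2 : ‖u‖ ^ (2:ℝ) = ‖u‖ ^ 2 := by norm_cast
              rw [e2]
              have := mul_le_mul_of_nonneg_left e1 (mul_nonneg (by positivity : 0 ≤ ‖u‖ ^ γ) hn)
              linarith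
            · subst hu
              simp only [hG, hG']
              rw [← ENNReal.ofReal_mul (mul_nonneg (by positivity) (hβ.nonneg _)),
                ← ENNReal.ofReal_mul (by positivity)]
              refine le_add_right (le_of_eq ?_)
              congr 1
              simp [T]
      _ = W * BB d β e + W' * ∫⁻ σ : Sp d, ENNReal.ofReal (β ⟪e, (σ : V d)⟫_ℝ * (1 - ⟪e, (σ : V d)⟫_ℝ) ^ ((2:ℝ) / 2)) ∂(sm d) := by
          unfold BB
          rw [hW, hW', ← sep hGm hbm e he, ← sep hGm' hbm2 e he, ← lintegral_add_left]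
          · refine lintegral_congr fun σ => ?_
            rw [lintegral_add_left]
            exact hGm.mul (hbm.comp (by fun_prop))
          · refine Measurable.lintegral_prod_right' (f := fun p : Sp d × V d => G p.2 * ENNReal.ofReal (β (⟪p.2, (p.1 : V d)⟫_ℝ / ‖p.2‖))) ?_
            exact (hGm.comp measurable_snd).mul (hbm.comp
              ((measurable_snd.inner (measurable_subtype_coe.comp measurable_fst)).div measurable_snd.norm))
      _ ≤ W * BB d β e + W' * C1 := by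
          gcongr
          exact h1 β hβ e he
  rw [eA] at eB
  have h3 : AA d γ β e ≤ (W * BB d β e + W' * C1) / W := by
    rw [ENNReal.le_div_iff_mul_le (Or.inl hW0) (Or.inl hWtop)]
    rwa [mul_comm]
  refine h3.trans (le_of_eq ?_)
  rw [ENNReal.add_div, mul_comm W (BB d β e), ENNReal.mul_div_cancel_right hW0 hWtop, mul_comm W' C1]

end Pool.Agent.H821.BZ
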