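import Pool.Agent.H821.BZ.Phi

/-! The estimate of the collision operator at a touching point. -/

set_option autoImplicit false
open MeasureTheory Metric Set
open scoped ENNReal Real InnerProductSpace Pointwise

namespace Pool.Agent.H821.BZ

variable {d : ℕ}

lemma IsKer.K_nonneg {p K : ℝ} {β : ℝ → ℝ} (hβ : IsKer p K β) {c : ℝ} (h0 : β c ≠ 0) : 0 ≤ K := by
  obtain ⟨hc0, hc1⟩ := hβ.supp c h0
  have hb := hβ.bound c hc0 hc1
  have h1c : 0 < 1 - c := by linarith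
  by_contra hK
  push Not at hK
  have : 0 < (1 - c) ^ (-p) := by positivity
  have h2 := hβ.nonneg c
  have h3 : 0 < β c := lt_of_le_of_ne h2 (Ne.symm h0)
  nlinarith

lemma kk_pos {p K γ : ℝ} {β : ℝ → ℝ} (hβ : IsKer p K β) (hγ : γ ≤ 2) {τ : ℝ} (h : kk d γ β τ ≠ 0) :
    0 < τ ∧ 1/2 ≤ τ ^ 2 ∧ τ ^ 2 < 1 ∧ kk d γ β τ ≤ 2 * 2 ^ d * β (2 * τ ^ 2 - 1) := by
  unfold kk at h ⊢
  by_cases hτ : 0 < τ
  · rw [if_pos hτ] at h ⊢
    have h0 : β (2 * τ ^ 2 - 1) ≠ 0 := right_ne_zero_of_mul h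
    obtain ⟨h1, h2⟩ := hβ.supp _ h0
    refine ⟨hτ, by linarith, by linarith, ?_⟩
    have hτ1 : τ ≤ 1 := by
      by_contra hlt; push Not at hlt; nlinarith
    have h3 : τ ^ (-2 - γ) ≤ 4 := by
      have : τ ^ (-2 - γ) ≤ τ ^ (-4:ℝ) := Real.rpow_le_rpow_of_exponent_ge hτ hτ1 (by linarith)
      refine this.trans ?_
      rw [Real.rpow_neg hτ.le, show ((4:ℝ)) = ((4:ℕ):ℝ) by norm_num, Real.rpow_natCast]
      rw [inv_le_comm₀ (by positivity) (by norm_num)]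
      push_cast
      nlinarith
    have h4 := hβ.nonneg (2 * τ ^ 2 - 1)
    calc 2 ^ d / 2 * τ ^ (-2 - γ) * β (2 * τ ^ 2 - 1) ≤ 2 ^ d / 2 * 4 * β (2 * τ ^ 2 - 1) := by gcongr
      _ = 2 * 2 ^ d * β (2 * τ ^ 2 - 1) := by ring
  · rw [if_neg hτ] at h; exact absurd rfl h

/-- first moments of the kernels in the new variable -/
theorem kk_moment (hd : 2 ≤ d) {s a K γ : ℝ} (hsa : 2 * s < a) (hγ : γ ≤ 2) :
    ∃ C : ℝ≥0∞, C ≠ ⊤ ∧ ∀ β : ℝ → ℝ, IsKer ((d - 1) / 2 + s) K β → ∀ e : V d, ‖e‖ = 1 →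
      ∫⁻ σ : Sp d, ENNReal.ofReal (kk d γ β ⟪e, (σ : V d)⟫_ℝ * (2 - 2 * ⟪e, (σ : V d)⟫_ℝ ^ 2) ^ (a / 2)) ∂(sm d) ≤ C := by
  set κ : ℝ := max 0 ((d - 1) / 2 + s - a / 2) with hκ
  have hd1 : (0:ℝ) < d - 1 := by
    have : (2:ℝ) ≤ d := by exact_mod_cast hd
    linarith
  have hκ0 : 0 ≤ κ := le_max_left _ _
  have hκ2 : 2 * κ < d - 1 := by
    rw [hκ, mul_max_of_nonneg _ _ (by norm_num : (0:ℝ) ≤ 2)]
    refine max_lt (by linarith) (by linarith)
  obtain ⟨C, hC, h⟩ := zonal_finite hd hκ0 hκ2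
  refine ⟨ENNReal.ofReal (2 * 2 ^ d * K) * C, ENNReal.mul_ne_top ENNReal.ofReal_ne_top hC, fun β hβ e he => ?_⟩
  refine le_trans ?_ (mul_le_mul_right (h e he) _)
  rw [← lintegral_const_mul]
  · refine lintegral_mono fun σ => ?_
    set τ := ⟪e, (σ : V d)⟫_ℝ with hτ
    by_cases h0 : kk d γ β τ = 0
    · simp [h0]
    · obtain ⟨h1, h2, h3, h4⟩ := kk_pos hβ hγ h0
      rw [if_pos h1.le]
      have hτ1 : τ < 1 := by
        by_contra hlt; push Not at hlt; nlinarith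
      have h1c : 0 < 2 - 2 * τ ^ 2 := by linarith
      have hb0 : β (2 * τ ^ 2 - 1) ≠ 0 := by
        unfold kk at h0; rw [if_pos h1] at h0; exact right_ne_zero_of_mul h0
      have hK := hβ.K_nonneg hb0
      have hb := hβ.bound (2 * τ ^ 2 - 1) (by linarith) (by linarith)
      rw [show 1 - (2 * τ ^ 2 - 1) = 2 - 2 * τ ^ 2 by ring] at hb
      rw [← ENNReal.ofReal_mul (by positivity)]
      refine ENNReal.ofReal_le_ofReal ?_
      calc kk d γ β τ * (2 - 2 * τ ^ 2) ^ (a / 2)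
          ≤ (2 * 2 ^ d * (K * (2 - 2 * τ ^ 2) ^ (-((d - 1) / 2 + s)))) * (2 - 2 * τ ^ 2) ^ (a / 2) := by
            refine mul_le_mul_of_nonneg_right (h4.trans ?_) (by positivity)
            exact mul_le_mul_of_nonneg_left hb (by positivity)
        _ = 2 * 2 ^ d * K * (2 - 2 * τ ^ 2) ^ (-((d - 1) / 2 + s) + a / 2) := by
            rw [Real.rpow_add h1c]; ring
        _ ≤ 2 * 2 ^ d * K * (2 - 2 * τ ^ 2) ^ (-κ) := by
            refine mul_le_mul_of_nonneg_left ?_ (by positivity)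
            refine Real.rpow_le_rpow_of_exponent_ge h1c (by linarith) ?_
            have := le_max_right 0 ((d - 1) / 2 + s - a / 2)
            rw [← hκ] at this; linarith
        _ ≤ 2 * 2 ^ d * K * (1 - τ) ^ (-κ) := by
            refine mul_le_mul_of_nonneg_left ?_ (by positivity)
            refine Real.rpow_le_rpow_of_nonpos (by linarith) (by nlinarith) (by linarith)
  · refine Measurable.ite ?_ ?_ measurable_const
    · exact measurableSet_le measurable_const (by fun_prop)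
    · fun_prop

lemma measurable_kern (γ : ℝ) {β : ℝ → ℝ} (hβ : Measurable β) :
    Measurable (fun p : Sp d × V d => ‖p.2‖ ^ γ * β (⟪p.2, (p.1 : V d)⟫_ℝ / ‖p.2‖)) :=
  (measurable_snd.norm.pow_const γ).mul (hβ.comp
    ((measurable_snd.inner (measurable_subtype_coe.comp measurable_fst)).div measurable_snd.norm))

lemma measurable_hh' : Measurable (fun p : Sp d × V d => hh (p.1 : V d) p.2) :=
  measurable_hh.comp (measurable_snd.prodMk (measurable_subtype_coe.comp measurable_fst))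

lemma measurable_T' : Measurable (fun p : Sp d × V d => T (p.1 : V d) p.2) :=
  measurable_T.comp ((measurable_subtype_coe.comp measurable_fst).prodMk measurable_snd)

lemma measurable_T'' : Measurable (fun p : Sp d × V d => T (-(p.1 : V d)) p.2) :=
  measurable_T.comp ((measurable_subtype_coe.comp measurable_fst).neg.prodMk measurable_snd)

lemma norm_hh_sq {σ z : V d} (hσ : ‖σ‖ = 1) (hz : 0 < ⟪z, σ⟫_ℝ) :
    ‖hh σ z‖ ^ 2 = ‖z‖ ^ 2 * (1 - (⟪z, σ⟫_ℝ / ‖z‖) ^ 2) / (⟪z, σ⟫_ℝ / ‖z‖) ^ 2 := by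
  have hz0 : 0 < ‖z‖ := by
    rw [norm_pos_iff]; rintro rfl; simp at hz
  unfold hh
  rw [norm_sub_sq_real, norm_smul, inner_smul_right, hσ]
  simp only [Real.norm_eq_abs, sq_abs, mul_one]
  field_simp; ring

lemma inner_hh {σ z : V d} (hz : 0 < ⟪z, σ⟫_ℝ) : ⟪hh σ z, z⟫_ℝ = 0 := by
  unfold hh
  rw [inner_sub_left, inner_smul_left, real_inner_self_eq_norm_sq, real_inner_comm z σ]
  simp only [conj_trivial]
  field_simp; ring

/-- reflecting `σ` in the line of `z` changes the sign of `hh` -/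
lemma hh_reflect {z σ : V d} (hz : z ≠ 0) (hs : ⟪z, σ⟫_ℝ ≠ 0) :
    hh ((ℝ ∙ z).reflection σ) z = - hh σ z ∧ ⟪z, (ℝ ∙ z).reflection σ⟫_ℝ = ⟪z, σ⟫_ℝ := by
  have hz0 : ‖z‖ ≠ 0 := norm_ne_zero_iff.2 hz
  have h0 : (ℝ ∙ z).reflection σ = (2 * ⟪z, σ⟫_ℝ / ‖z‖ ^ 2) • z - σ := by
    rw [Submodule.reflection_singleton_apply, ← Nat.cast_smul_eq_nsmul ℝ, smul_smul]
    congr 2
    simp; ring
  have h1 : ⟪z, (ℝ ∙ z).reflection σ⟫_ℝ = ⟪z, σ⟫_ℝ := by
    rw [h0, inner_sub_right, inner_smul_right, real_inner_self_eq_norm_sq]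
    field_simp; ring
  refine ⟨?_, h1⟩
  unfold hh
  rw [h1, h0, smul_sub, smul_smul]
  have : ‖z‖ ^ 2 / ⟪z, σ⟫_ℝ * (2 * ⟪z, σ⟫_ℝ / ‖z‖ ^ 2) = 2 := by
    field_simp
  rw [this, two_smul]; abel

end Pool.Agent.H821.BZ
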