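import Pool.Agent.H821.BZ.Est

/-! The estimate of the collision operator at a touching point, second part. -/

set_option autoImplicit false
open MeasureTheory Metric Set
open scoped ENNReal Real InnerProductSpace Pointwise

namespace Pool.Agent.H821.BZ

variable {d : ℕ}

open Classical in
/-- the weight on the good set -/
noncomputable def ψ (N : ℕ) (v h : V d) : ℝ := if χ v h then φ N (v + h) else 0

open Classical in
lemma measurable_ψ (N : ℕ) (v : V d) : Measurable (ψ N v) := by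
  unfold ψ
  refine Measurable.ite ?_ ((continuous_φ N).measurable.comp (measurable_const.add measurable_id)) measurable_const
  unfold χ
  exact (MeasurableSet.const _).union (measurableSet_le measurable_const
    ((measurable_const.add measurable_id).norm.pow_const 2))

lemma ψ_nonneg (N : ℕ) (v h : V d) : 0 ≤ ψ N v h := by
  unfold ψ; split_ifs
  · exact (φ_pos _ _).le
  · exact le_refl _

/-- the reflection trick -/
lemma inner_bound {p K γ a m : ℝ} (ha0 : 0 < a) (ha2 : a ≤ 2) (hγ : γ ≤ 2) (hm : 0 ≤ m) {N : ℕ} {Cs : ℝ}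
    (hCs : 0 ≤ Cs) (hsec : ∀ v h : V d, ψ N v h + ψ N v (-h) ≤
      φ N v * (2 + Cs * min 1 (‖h‖ ^ 2 / (1 + ‖v‖ ^ 2))))
    {β : ℝ → ℝ} (hβ : IsKer p K β) (v z : V d) (hz : z ≠ 0) {D : ℝ≥0∞}
    (hD : ∫⁻ σ : Sp d, ENNReal.ofReal (kk d γ β ⟪‖z‖⁻¹ • z, (σ : V d)⟫_ℝ *
      (2 - 2 * ⟪‖z‖⁻¹ • z, (σ : V d)⟫_ℝ ^ 2) ^ (a / 2)) ∂(sm d) ≤ D) :
    ∫⁻ σ : Sp d, ENNReal.ofReal (kk d γ β (⟪z, (σ : V d)⟫_ℝ / ‖z‖)) * ENNReal.ofReal (m * ψ N v (hh (σ : V d) z)) ∂(sm d)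
      ≤ ENNReal.ofReal (m * φ N v) * (AA d γ β (‖z‖⁻¹ • z) +
        ENNReal.ofReal (Cs * (‖z‖ ^ 2 / (1 + ‖v‖ ^ 2)) ^ (a / 2)) * D) := by
  have hz0 : 0 < ‖z‖ := norm_pos_iff.2 hz
  have hφ := φ_pos N v
  have hcoe : Measurable (fun σ : Sp d => (σ : V d)) := measurable_subtype_coe
  have hkm : Measurable (fun σ : Sp d => ENNReal.ofReal (kk d γ β (⟪z, (σ : V d)⟫_ℝ / ‖z‖))) :=
    ((measurable_kk hβ.meas).comp ((measurable_const.inner hcoe).div_const _)).ennreal_ofReal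
  have hhm : Measurable (fun σ : Sp d => hh (σ : V d) z) :=
    measurable_hh.comp (measurable_const.prodMk hcoe)
  have hpm : Measurable (fun σ : Sp d => ENNReal.ofReal (m * ψ N v (hh (σ : V d) z))) :=
    (((measurable_ψ N v).comp hhm).const_mul m).ennreal_ofReal
  have hkpm : Measurable (fun σ : Sp d => ENNReal.ofReal (kk d γ β (⟪z, (σ : V d)⟫_ℝ / ‖z‖)) *
      ENNReal.ofReal (m * ψ N v (hh (σ : V d) z))) := hkm.mul hpm
  set I := ∫⁻ σ : Sp d, ENNReal.ofReal (kk d γ β (⟪z, (σ : V d)⟫_ℝ / ‖z‖)) *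
    ENNReal.ofReal (m * ψ N v (hh (σ : V d) z)) ∂(sm d) with hI
  have hI' : I = ∫⁻ σ : Sp d, ENNReal.ofReal (kk d γ β (⟪z, (σ : V d)⟫_ℝ / ‖z‖)) *
    ENNReal.ofReal (m * ψ N v (-(hh (σ : V d) z))) ∂(sm d) := by
    rw [hI, ← lintegral_rot ((ℝ ∙ z).reflection) hkpm]
    refine lintegral_congr fun σ => ?_
    rw [rot_coe]
    by_cases hs : ⟪z, (σ : V d)⟫_ℝ = 0
    · have h1 : ⟪z, (ℝ ∙ z).reflection (σ : V d)⟫_ℝ = 0 := by
        have h0 : (ℝ ∙ z).reflection (σ : V d) = (2 * ⟪z, (σ : V d)⟫_ℝ / ‖z‖ ^ 2) • z - (σ : V d) := by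
          rw [Submodule.reflection_singleton_apply, ← Nat.cast_smul_eq_nsmul ℝ, smul_smul]
          congr 2
          simp; ring
        rw [h0, hs]; simp [hs]
      rw [h1, hs]; simp [kk]
    · obtain ⟨h1, h2⟩ := hh_reflect hz hs
      rw [h2, h1]
  have h2I : 2 * I ≤ 2 * (ENNReal.ofReal (m * φ N v) * (AA d γ β (‖z‖⁻¹ • z) +
        ENNReal.ofReal (Cs * (‖z‖ ^ 2 / (1 + ‖v‖ ^ 2)) ^ (a / 2)) * D)) := by
    calc 2 * I = I + I := two_mul I
      _ = ∫⁻ σ : Sp d, (ENNReal.ofReal (kk d γ β (⟪z, (σ : V d)⟫_ℝ / ‖z‖)) * ENNReal.ofReal (m * ψ N v (hh (σ : V d) z)) +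
            ENNReal.ofReal (kk d γ β (⟪z, (σ : V d)⟫_ℝ / ‖z‖)) * ENNReal.ofReal (m * ψ N v (-(hh (σ : V d) z)))) ∂(sm d) := by
          rw [lintegral_add_left hkpm, ← hI, ← hI']
      _ ≤ ∫⁻ σ : Sp d, (ENNReal.ofReal (m * φ N v) * (2 * ENNReal.ofReal (kk d γ β ⟪‖z‖⁻¹ • z, (σ : V d)⟫_ℝ) +
            ENNReal.ofReal (Cs * (‖z‖ ^ 2 / (1 + ‖v‖ ^ 2)) ^ (a / 2)) *
            ENNReal.ofReal (kk d γ β ⟪‖z‖⁻¹ • z, (σ : V d)⟫_ℝ * (2 - 2 * ⟪‖z‖⁻¹ • z, (σ : V d)⟫_ℝ ^ 2) ^ (a / 2)))) ∂(sm d) := by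
          refine lintegral_mono fun σ => ?_
          rw [cos_eq]
          set τ := ⟪‖z‖⁻¹ • z, (σ : V d)⟫_ℝ with hτ
          by_cases h0 : kk d γ β τ = 0
          · simp [h0]
          · obtain ⟨h1, h2, h3, h4⟩ := kk_pos hβ hγ h0
            have hk0 : 0 ≤ kk d γ β τ := kk_nonneg hβ.nonneg _
            have h5 : 0 < 2 - 2 * τ ^ 2 := by linarith
            have e2 : 2 * ENNReal.ofReal (kk d γ β τ) = ENNReal.ofReal (2 * kk d γ β τ) := by
              rw [ENNReal.ofReal_mul (by norm_num)]; simp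
            rw [← mul_add, ← ENNReal.ofReal_add (mul_nonneg hm (ψ_nonneg _ _ _)) (mul_nonneg hm (ψ_nonneg _ _ _)),
              ← ENNReal.ofReal_mul hk0, ← ENNReal.ofReal_mul (by positivity), e2,
              ← ENNReal.ofReal_add (by positivity) (by positivity), ← ENNReal.ofReal_mul (by positivity)]
            refine ENNReal.ofReal_le_ofReal ?_
            have hs := hsec v (hh (σ : V d) z)
            have hzs : 0 < ⟪z, (σ : V d)⟫_ℝ := by
              rw [hτ, ← cos_eq] at h1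
              rwa [lt_div_iff₀ hz0, zero_mul] at h1
            have hn : ‖hh (σ : V d) z‖ ^ 2 ≤ ‖z‖ ^ 2 * (2 - 2 * τ ^ 2) := by
              rw [norm_hh_sq (by simp) hzs, cos_eq, ← hτ, div_le_iff₀ (by positivity)]
              have : 0 ≤ ‖z‖ ^ 2 * (1 - τ ^ 2) := by
                have : 0 ≤ 1 - τ ^ 2 := by linarith
                positivity
              nlinarith
            have hmin : min 1 (‖hh (σ : V d) z‖ ^ 2 / (1 + ‖v‖ ^ 2)) ≤
                (‖z‖ ^ 2 / (1 + ‖v‖ ^ 2)) ^ (a / 2) * (2 - 2 * τ ^ 2) ^ (a / 2) := by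
              rw [← Real.mul_rpow (by positivity) h5.le]
              set X := ‖z‖ ^ 2 / (1 + ‖v‖ ^ 2) * (2 - 2 * τ ^ 2) with hX
              have hX0 : 0 ≤ X := by positivity
              have h6 : ‖hh (σ : V d) z‖ ^ 2 / (1 + ‖v‖ ^ 2) ≤ X := by
                rw [hX, div_mul_eq_mul_div]; gcongr
              refine (min_le_min_left 1 h6).trans ?_
              rcases le_total X 1 with h | h
              · rw [min_eq_right h]
                calc X = X ^ (1:ℝ) := (Real.rpow_one X).symm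
                  _ ≤ X ^ (a / 2) := by
                    rcases hX0.eq_or_lt with h0 | h0
                    · rw [← h0, Real.zero_rpow (by norm_num), Real.zero_rpow (by positivity)]
                    · exact Real.rpow_le_rpow_of_exponent_ge h0 h (by linarith)
              · rw [min_eq_left h]
                exact Real.one_le_rpow h (by positivity)
            calc kk d γ β τ * (m * ψ N v (hh (σ : V d) z) + m * ψ N v (-hh (σ : V d) z))
                = kk d γ β τ * m * (ψ N v (hh (σ : V d) z) + ψ N v (-hh (σ : V d) z)) := by ring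
              _ ≤ kk d γ β τ * m * (φ N v * (2 + Cs * ((‖z‖ ^ 2 / (1 + ‖v‖ ^ 2)) ^ (a / 2) * (2 - 2 * τ ^ 2) ^ (a / 2)))) := by
                  refine mul_le_mul_of_nonneg_left (hs.trans ?_) (by positivity)
                  gcongr
              _ = _ := by ring
      _ = ENNReal.ofReal (m * φ N v) * (2 * AA d γ β (‖z‖⁻¹ • z) +
            ENNReal.ofReal (Cs * (‖z‖ ^ 2 / (1 + ‖v‖ ^ 2)) ^ (a / 2)) *
            ∫⁻ σ : Sp d, ENNReal.ofReal (kk d γ β ⟪‖z‖⁻¹ • z, (σ : V d)⟫_ℝ * (2 - 2 * ⟪‖z‖⁻¹ • z, (σ : V d)⟫_ℝ ^ 2) ^ (a / 2)) ∂(sm d)) := by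
          have hm1 : Measurable (fun σ : Sp d => ENNReal.ofReal (kk d γ β ⟪‖z‖⁻¹ • z, (σ : V d)⟫_ℝ)) :=
            ((measurable_kk hβ.meas).comp (measurable_const.inner hcoe)).ennreal_ofReal
          have hm2 : Measurable (fun σ : Sp d => ENNReal.ofReal (kk d γ β ⟪‖z‖⁻¹ • z, (σ : V d)⟫_ℝ *
              (2 - 2 * ⟪‖z‖⁻¹ • z, (σ : V d)⟫_ℝ ^ 2) ^ (a / 2))) := by
            refine Measurable.ennreal_ofReal (((measurable_kk hβ.meas).comp (measurable_const.inner hcoe)).mul ?_)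
            fun_prop
          have hm3 : Measurable (fun σ : Sp d => (2 * ENNReal.ofReal (kk d γ β ⟪‖z‖⁻¹ • z, (σ : V d)⟫_ℝ) +
              ENNReal.ofReal (Cs * (‖z‖ ^ 2 / (1 + ‖v‖ ^ 2)) ^ (a / 2)) *
              ENNReal.ofReal (kk d γ β ⟪‖z‖⁻¹ • z, (σ : V d)⟫_ℝ * (2 - 2 * ⟪‖z‖⁻¹ • z, (σ : V d)⟫_ℝ ^ 2) ^ (a / 2)))) :=
            (hm1.const_mul 2).add (hm2.const_mul _)
          rw [lintegral_const_mul _ hm3, lintegral_add_left (hm1.const_mul 2), lintegral_const_mul _ hm1, lintegral_const_mul _ hm2]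
          rfl
      _ ≤ ENNReal.ofReal (m * φ N v) * (2 * AA d γ β (‖z‖⁻¹ • z) +
            2 * (ENNReal.ofReal (Cs * (‖z‖ ^ 2 / (1 + ‖v‖ ^ 2)) ^ (a / 2)) * D)) := by
          refine mul_le_mul' le_rfl (add_le_add le_rfl ((mul_le_mul' le_rfl hD).trans ?_))
          rw [two_mul]; exact le_add_self
      _ = _ := by rw [← mul_add, mul_left_comm]
  exact (ENNReal.mul_le_mul_iff_right (by norm_num) (by norm_num)).1 h2I

end Pool.Agent.H821.BZ
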