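import Pool.Agent.H821.BZ.Est2

/-! The estimate of the collision operator at a touching point, third part. -/

set_option autoImplicit false
open MeasureTheory Metric Set
open scoped ENNReal Real InnerProductSpace Pointwise

namespace Pool.Agent.H821.BZ

variable {d : ℕ}

/-- collision kernel in the variables relative velocity, direction -/
noncomputable def kern (γ : ℝ) (β : ℝ → ℝ) (σ u : V d) : ℝ := ‖u‖ ^ γ * β (⟪u, σ⟫_ℝ / ‖u‖)

/-- gain -/
noncomputable def gain (γ : ℝ) (β : ℝ → ℝ) (f : V d → ℝ) (v : V d) : ℝ≥0∞ :=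
  ∫⁻ σ : Sp d, (∫⁻ u : V d, ENNReal.ofReal (kern γ β σ u) *
    (ENNReal.ofReal (f (v + T (σ : V d) u)) * ENNReal.ofReal (f (v + T (-(σ : V d)) u)))) ∂(sm d)

/-- loss -/
noncomputable def loss (γ : ℝ) (β : ℝ → ℝ) (f : V d → ℝ) (v : V d) : ℝ≥0∞ :=
  ∫⁻ σ : Sp d, (∫⁻ u : V d, ENNReal.ofReal (kern γ β σ u) *
    (ENNReal.ofReal (f (v + u)) * ENNReal.ofReal (f v))) ∂(sm d)

/-- the moment which controls the growth -/
noncomputable def mom (γ a : ℝ) (f : V d → ℝ) (v : V d) : ℝ≥0∞ :=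
  ∫⁻ w : V d, ENNReal.ofReal (f w * (‖w - v‖ ^ γ + (1 + ‖w‖) ^ a))

lemma mom_shift (γ a : ℝ) (f : V d → ℝ) (v : V d) :
    mom γ a f v = ∫⁻ z : V d, ENNReal.ofReal (f (v + z) * (‖z‖ ^ γ + (1 + ‖v + z‖) ^ a)) := by
  unfold mom
  rw [← lintegral_add_left_eq_self (fun w => ENNReal.ofReal (f w * (‖w - v‖ ^ γ + (1 + ‖w‖) ^ a))) v]
  simp

lemma mom_pt {γ a : ℝ} (hγ : γ ≤ 0) (ha0 : 0 < a) (ha2 : a ≤ 2) (v z : V d) :
    ‖z‖ ^ γ * (‖z‖ ^ 2 / (1 + ‖v‖ ^ 2)) ^ (a / 2) ≤ 2 * (‖z‖ ^ γ + (1 + ‖v + z‖) ^ a) := by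
  have hv : 0 ≤ ‖v‖ := norm_nonneg v
  have hz : 0 ≤ ‖z‖ := norm_nonneg z
  have hw : 0 ≤ ‖v + z‖ := norm_nonneg _
  have h1 : 0 ≤ ‖z‖ ^ γ := by positivity
  have h2 : 0 ≤ (1 + ‖v + z‖) ^ a := by positivity
  rcases le_total ‖z‖ 1 with h | h
  · have h3 : (‖z‖ ^ 2 / (1 + ‖v‖ ^ 2)) ^ (a / 2) ≤ 1 := by
      refine Real.rpow_le_one (by positivity) ?_ (by positivity)
      rw [div_le_one (by positivity)]; nlinarith
    nlinarith [mul_le_mul_of_nonneg_left h3 h1]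
  · have h3 : ‖z‖ ^ γ ≤ 1 := Real.rpow_le_one_of_one_le_of_nonpos h hγ
    have h4 : ‖z‖ ≤ ‖v + z‖ + ‖v‖ := by
      have := norm_sub_le (v + z) v; rwa [add_sub_cancel_left] at this
    have h5 : ‖z‖ ^ 2 / (1 + ‖v‖ ^ 2) ≤ 2 * (1 + ‖v + z‖) ^ 2 := by
      rw [div_le_iff₀ (by positivity)]
      have h6 : ‖z‖ ≤ (1 + ‖v + z‖) * (1 + ‖v‖) := by nlinarith [mul_nonneg hw hv]
      have h7 : ‖z‖ ^ 2 ≤ ((1 + ‖v + z‖) * (1 + ‖v‖)) ^ 2 := pow_le_pow_left₀ hz h6 2
      have h8 : (1 + ‖v‖) ^ 2 ≤ 2 * (1 + ‖v‖ ^ 2) := by nlinarith [sq_nonneg (1 - ‖v‖)]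
      nlinarith [mul_le_mul_of_nonneg_left h8 (sq_nonneg (1 + ‖v + z‖))]
    have h6 : (‖z‖ ^ 2 / (1 + ‖v‖ ^ 2)) ^ (a / 2) ≤ 2 * (1 + ‖v + z‖) ^ a := by
      calc (‖z‖ ^ 2 / (1 + ‖v‖ ^ 2)) ^ (a / 2) ≤ (2 * (1 + ‖v + z‖) ^ 2) ^ (a / 2) :=
            Real.rpow_le_rpow (by positivity) h5 (by positivity)
        _ = 2 ^ (a / 2) * (1 + ‖v + z‖) ^ a := by
            rw [Real.mul_rpow (by norm_num) (by positivity), ← Real.rpow_natCast, ← Real.rpow_mul (by positivity)]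
            congr 2; push_cast; ring
        _ ≤ 2 ^ (1:ℝ) * (1 + ‖v + z‖) ^ a := by
            gcongr
            · norm_num
            · linarith
        _ = 2 * (1 + ‖v + z‖) ^ a := by rw [Real.rpow_one]
    have h7 : 0 ≤ (‖z‖ ^ 2 / (1 + ‖v‖ ^ 2)) ^ (a / 2) := by positivity
    nlinarith [mul_le_mul_of_nonneg_right h3 h7]

lemma measurable_kern' (γ : ℝ) {β : ℝ → ℝ} (hβ : Measurable β) :
    Measurable (fun p : Sp d × V d => ENNReal.ofReal (kern γ β (p.1 : V d) p.2)) :=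
  (measurable_kern γ hβ).ennreal_ofReal

/-- the loss term in closed form -/
lemma loss_eq [Nontrivial (V d)] {γ : ℝ} {β : ℝ → ℝ} (hβm : Measurable β)
    {f : V d → ℝ} (hf : Measurable f) (v e : V d) (he : ‖e‖ = 1) :
    loss γ β f v = ENNReal.ofReal (f v) * (BB d β e * ∫⁻ z : V d, ENNReal.ofReal (‖z‖ ^ γ) * ENNReal.ofReal (f (v + z))) := by
  unfold loss BB
  have hG : Measurable (fun z : V d => ENNReal.ofReal (‖z‖ ^ γ) * ENNReal.ofReal (f (v + z))) :=
    (measurable_norm.pow_const γ).ennreal_ofReal.mul ((hf.comp (measurable_const.add measurable_id)).ennreal_ofReal)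
  have hg : Measurable (fun c => ENNReal.ofReal (β c)) := hβm.ennreal_ofReal
  have h := sep hG hg e he
  rw [mul_comm (∫⁻ σ : Sp d, _ ∂(sm d)), ← h, ← lintegral_const_mul]
  · refine lintegral_congr fun σ => ?_
    rw [← lintegral_const_mul]
    · refine lintegral_congr fun u => ?_
      unfold kern
      rw [ENNReal.ofReal_mul (by positivity)]
      ring
    · exact hG.mul (hg.comp (by fun_prop))
  · refine Measurable.lintegral_prod_right' (f := fun p : Sp d × V d =>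
      ENNReal.ofReal (‖p.2‖ ^ γ) * ENNReal.ofReal (f (v + p.2)) * ENNReal.ofReal (β (⟪p.2, (p.1 : V d)⟫_ℝ / ‖p.2‖))) ?_
    exact (hG.comp measurable_snd).mul (hg.comp
      ((measurable_snd.inner (measurable_subtype_coe.comp measurable_fst)).div measurable_snd.norm))

/-- bound of the main part of the gain term -/
lemma T1_bound [Nontrivial (V d)] {p K γ a m : ℝ} (ha0 : 0 < a) (ha2 : a ≤ 2) (hγ : γ ≤ 0) (hm : 0 ≤ m) {N : ℕ} {Cs : ℝ}
    (hCs : 0 ≤ Cs) (hsec : ∀ v h : V d, ψ N v h + ψ N v (-h) ≤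
      φ N v * (2 + Cs * min 1 (‖h‖ ^ 2 / (1 + ‖v‖ ^ 2))))
    {β : ℝ → ℝ} (hβ : IsKer p K β) {f : V d → ℝ} (hf : Measurable f) (hf0 : ∀ w, 0 ≤ f w) (v e : V d) (he : ‖e‖ = 1)
    {C0 D : ℝ≥0∞}
    (hA : ∀ e : V d, ‖e‖ = 1 → AA d γ β e ≤ BB d β e + C0)
    (hD : ∀ e : V d, ‖e‖ = 1 → ∫⁻ σ : Sp d, ENNReal.ofReal (kk d γ β ⟪e, (σ : V d)⟫_ℝ *
      (2 - 2 * ⟪e, (σ : V d)⟫_ℝ ^ 2) ^ (a / 2)) ∂(sm d) ≤ D) :
    ∫⁻ σ : Sp d, (∫⁻ u : V d, ENNReal.ofReal (kern γ β σ u) *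
      (ENNReal.ofReal (f (v + T (σ : V d) u)) * ENNReal.ofReal (m * ψ N v (T (-(σ : V d)) u)))) ∂(sm d) ≤
    ENNReal.ofReal (m * φ N v) * (BB d β e * ∫⁻ z : V d, ENNReal.ofReal (‖z‖ ^ γ) * ENNReal.ofReal (f (v + z))) +
    ENNReal.ofReal (m * φ N v) * ((C0 + ENNReal.ofReal (2 * Cs) * D) * mom γ a f v) := by
  have hβ1 : β (-1) = 0 := by
    by_contra h
    have := (hβ.supp _ h).1; norm_num at this
  have hkm := measurable_kk (d := d) (γ := γ) hβ.meas
  have hae0 : ∀ᵐ u : V d, u ≠ 0 := by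
    rw [ae_iff]; simp
  have hfm : Measurable (fun p : Sp d × V d => ENNReal.ofReal (f (v + p.2))) :=
    (hf.comp (measurable_const.add measurable_snd)).ennreal_ofReal
  have hGm : Measurable (fun z : V d => ENNReal.ofReal (‖z‖ ^ γ) * ENNReal.ofReal (f (v + z))) :=
    (measurable_norm.pow_const γ).ennreal_ofReal.mul ((hf.comp (measurable_const.add measurable_id)).ennreal_ofReal)
  have hbig : Measurable (fun p : Sp d × V d => ENNReal.ofReal (‖p.2‖ ^ γ * kk d γ β (⟪p.2, (p.1 : V d)⟫_ℝ / ‖p.2‖)) *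
      (ENNReal.ofReal (f (v + p.2)) * ENNReal.ofReal (m * ψ N v (hh (p.1 : V d) p.2)))) :=
    (measurable_kern γ hkm).ennreal_ofReal.mul
      (hfm.mul (((measurable_ψ N v).comp measurable_hh').const_mul m).ennreal_ofReal)
  calc _ = ∫⁻ σ : Sp d, (∫⁻ z : V d, ENNReal.ofReal (‖z‖ ^ γ * kk d γ β (⟪z, (σ : V d)⟫_ℝ / ‖z‖)) *
      (ENNReal.ofReal (f (v + z)) * ENNReal.ofReal (m * ψ N v (hh (σ : V d) z)))) ∂(sm d) := by
        refine lintegral_congr fun σ => ?_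
        exact master (by simp) hβ1 γ (fun z h => ENNReal.ofReal (f (v + z)) * ENNReal.ofReal (m * ψ N v h))
    _ = ∫⁻ z : V d, ∫⁻ σ : Sp d, ENNReal.ofReal (‖z‖ ^ γ * kk d γ β (⟪z, (σ : V d)⟫_ℝ / ‖z‖)) *
      (ENNReal.ofReal (f (v + z)) * ENNReal.ofReal (m * ψ N v (hh (σ : V d) z))) ∂(sm d) :=
        lintegral_lintegral_swap hbig.aemeasurable
    _ ≤ ∫⁻ z : V d, (ENNReal.ofReal (m * φ N v) * BB d β e * (ENNReal.ofReal (‖z‖ ^ γ) * ENNReal.ofReal (f (v + z))) +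
          ENNReal.ofReal (m * φ N v) * (C0 + ENNReal.ofReal (2 * Cs) * D) *
            ENNReal.ofReal (f (v + z) * (‖z‖ ^ γ + (1 + ‖v + z‖) ^ a))) := by
        refine lintegral_mono_ae (hae0.mono fun z hz => ?_)
        have hn : ‖(‖z‖⁻¹ • z)‖ = 1 := by
          rw [norm_smul, norm_inv, norm_norm, inv_mul_cancel₀ (norm_ne_zero_iff.2 hz)]
        have hib := inner_bound ha0 ha2 (by linarith : γ ≤ 2) hm hCs hsec hβ v z hz (hD _ hn)
        have hAe : AA d γ β (‖z‖⁻¹ • z) ≤ BB d β e + C0 := by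
          refine (hA _ hn).trans (le_of_eq ?_)
          congr 1
          exact zonal_eq _ e hn he hβ.meas.ennreal_ofReal
        have hm1 : Measurable (fun σ : Sp d => ENNReal.ofReal (kk d γ β (⟪z, (σ : V d)⟫_ℝ / ‖z‖)) *
            ENNReal.ofReal (m * ψ N v (hh (σ : V d) z))) := by
          have hcoe : Measurable (fun σ : Sp d => (σ : V d)) := measurable_subtype_coe
          have q1 : Measurable (fun σ : Sp d => ENNReal.ofReal (kk d γ β (⟪z, (σ : V d)⟫_ℝ / ‖z‖))) :=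
            (hkm.comp ((measurable_const.inner hcoe).div_const _)).ennreal_ofReal
          have q2 : Measurable (fun σ : Sp d => hh (σ : V d) z) := measurable_hh.comp (measurable_const.prodMk hcoe)
          have q3 : Measurable (fun σ : Sp d => ENNReal.ofReal (m * ψ N v (hh (σ : V d) z))) :=
            (((measurable_ψ N v).comp q2).const_mul m).ennreal_ofReal
          exact q1.mul q3
        calc _ = (ENNReal.ofReal (‖z‖ ^ γ) * ENNReal.ofReal (f (v + z))) *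
              ∫⁻ σ : Sp d, ENNReal.ofReal (kk d γ β (⟪z, (σ : V d)⟫_ℝ / ‖z‖)) * ENNReal.ofReal (m * ψ N v (hh (σ : V d) z)) ∂(sm d) := by
              rw [← lintegral_const_mul _ hm1]
              refine lintegral_congr fun σ => ?_
              rw [ENNReal.ofReal_mul (by positivity)]; ring
          _ ≤ (ENNReal.ofReal (‖z‖ ^ γ) * ENNReal.ofReal (f (v + z))) *
              (ENNReal.ofReal (m * φ N v) * ((BB d β e + C0) +
                ENNReal.ofReal (Cs * (‖z‖ ^ 2 / (1 + ‖v‖ ^ 2)) ^ (a / 2)) * D)) := by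
              refine mul_le_mul' le_rfl (hib.trans ?_)
              gcongr
          _ = ENNReal.ofReal (m * φ N v) * BB d β e * (ENNReal.ofReal (‖z‖ ^ γ) * ENNReal.ofReal (f (v + z))) +
              ENNReal.ofReal (m * φ N v) * (C0 * (ENNReal.ofReal (‖z‖ ^ γ) * ENNReal.ofReal (f (v + z))) +
                D * (ENNReal.ofReal (‖z‖ ^ γ) * ENNReal.ofReal (f (v + z)) * ENNReal.ofReal (Cs * (‖z‖ ^ 2 / (1 + ‖v‖ ^ 2)) ^ (a / 2)))) := by
              ring
          _ ≤ _ := by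
              have hX : 0 ≤ f (v + z) * (‖z‖ ^ γ + (1 + ‖v + z‖) ^ a) := by
                have := hf0 (v + z); positivity
              have e1 : ENNReal.ofReal (‖z‖ ^ γ) * ENNReal.ofReal (f (v + z)) ≤
                  ENNReal.ofReal (f (v + z) * (‖z‖ ^ γ + (1 + ‖v + z‖) ^ a)) := by
                rw [← ENNReal.ofReal_mul (by positivity)]
                refine ENNReal.ofReal_le_ofReal ?_
                have h1 := hf0 (v + z)
                have h2 : 0 ≤ (1 + ‖v + z‖) ^ a := by positivity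
                nlinarith [mul_nonneg h1 h2]
              have e2 : ENNReal.ofReal (‖z‖ ^ γ) * ENNReal.ofReal (f (v + z)) * ENNReal.ofReal (Cs * (‖z‖ ^ 2 / (1 + ‖v‖ ^ 2)) ^ (a / 2)) ≤
                  ENNReal.ofReal (2 * Cs) * ENNReal.ofReal (f (v + z) * (‖z‖ ^ γ + (1 + ‖v + z‖) ^ a)) := by
                rw [← ENNReal.ofReal_mul (by positivity), ← ENNReal.ofReal_mul (mul_nonneg (by positivity) (hf0 _)),
                  ← ENNReal.ofReal_mul (by positivity)]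
                refine ENNReal.ofReal_le_ofReal ?_
                have h3 := mom_pt hγ ha0 ha2 v z
                have h4 : 0 ≤ f (v + z) * Cs := mul_nonneg (hf0 _) hCs
                nlinarith [mul_le_mul_of_nonneg_left h3 h4]
              rw [mul_assoc (ENNReal.ofReal (m * φ N v)) (C0 + _)]
              refine add_le_add le_rfl (mul_le_mul' le_rfl ?_)
              calc _ ≤ C0 * ENNReal.ofReal (f (v + z) * (‖z‖ ^ γ + (1 + ‖v + z‖) ^ a)) +
                    D * (ENNReal.ofReal (2 * Cs) * ENNReal.ofReal (f (v + z) * (‖z‖ ^ γ + (1 + ‖v + z‖) ^ a))) := by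
                      gcongr
                _ = _ := by ring
    _ = _ := by
        rw [lintegral_add_left (hGm.const_mul _), lintegral_const_mul _ hGm, lintegral_const_mul, ← mom_shift]
        · ring
        · have h1 : Measurable (fun z : V d => f (v + z)) := hf.comp (measurable_const.add measurable_id)
          refine (h1.mul ?_).ennreal_ofReal
          fun_prop

end Pool.Agent.H821.BZ
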