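import Pool.Agent.H821.BZ.Est3

/-! The estimate of the collision operator at a touching point, fourth part. -/

set_option autoImplicit false
open MeasureTheory Metric Set
open scoped ENNReal Real InnerProductSpace Pointwise

namespace Pool.Agent.H821.BZ

variable {d : ℕ}

open Classical in
/-- the remaining part of the integrand -/
noncomputable def Θ2 (N : ℕ) (m : ℝ) (f : V d → ℝ) (v z h : V d) : ℝ≥0∞ :=
  if χ v h then 0 else ENNReal.ofReal (m * φ N (v + z)) * ENNReal.ofReal (f (v + h))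

lemma pt2 {p K γ m : ℝ} {N : ℕ} (hp : p + 1 ≤ N) (hγ : γ ≤ 0) (hm : 0 ≤ m)
    {β : ℝ → ℝ} (hβ : IsKer p K β) {f : V d → ℝ} (hf0 : ∀ w, 0 ≤ f w) (v : V d)
    {σ : V d} (hσ : ‖σ‖ = 1) (h : V d) :
    ENNReal.ofReal (‖h‖ ^ γ * kk d γ (fun c => β (-c)) (⟪h, σ⟫_ℝ / ‖h‖)) * Θ2 N m f v (hh σ h) h ≤
      ENNReal.ofReal (m * φ N v) * (ENNReal.ofReal ((1/4) ^ γ * (2 ^ d * K) * 256 ^ N) * ENNReal.ofReal (f (v + h))) := by
  unfold Θ2
  split_ifs with hχ
  · simp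
  set τ := ⟪h, σ⟫_ℝ / ‖h‖ with hτdef
  by_cases h0 : kk d γ (fun c => β (-c)) τ = 0
  · rw [h0]; simp
  have hτ : 0 < τ := by
    by_contra hτ
    exact h0 (by unfold kk; rw [if_neg hτ])
  have hkk : kk d γ (fun c => β (-c)) τ = 2 ^ d / 2 * τ ^ (-2 - γ) * β (1 - 2 * τ ^ 2) := by
    unfold kk; rw [if_pos hτ]; congr 2; ring_nf
  have hb0 : β (1 - 2 * τ ^ 2) ≠ 0 := by
    rw [hkk] at h0; exact right_ne_zero_of_mul h0
  obtain ⟨hc0, hc1⟩ := hβ.supp _ hb0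
  have hK := hβ.K_nonneg hb0
  have hb := hβ.bound _ hc0 hc1
  rw [show 1 - (1 - 2 * τ ^ 2) = 2 * τ ^ 2 by ring] at hb
  have hh0 : 0 < ‖h‖ := by
    rw [norm_pos_iff]; rintro rfl
    rw [hτdef] at hτ; simp at hτ
  have hin : 0 < ⟪h, σ⟫_ℝ := by
    rw [hτdef, lt_div_iff₀ hh0, zero_mul] at hτ; exact hτ
  have hτ2 : τ ^ 2 ≤ 1/2 := by linarith
  have hnz : ‖hh σ h‖ ^ 2 = ‖h‖ ^ 2 * (1 - τ ^ 2) / τ ^ 2 := norm_hh_sq hσ hin
  have hz : hh σ h ≠ 0 := by
    rw [← norm_pos_iff]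
    by_contra hlt
    have : ‖hh σ h‖ = 0 := le_antisymm (not_lt.1 hlt) (norm_nonneg _)
    rw [this] at hnz
    have : 0 < ‖h‖ ^ 2 * (1 - τ ^ 2) / τ ^ 2 := by
      have : 0 < 1 - τ ^ 2 := by linarith
      positivity
    rw [← hnz] at this; norm_num at this
  obtain ⟨hr1, hr2⟩ := regionII N v (hh σ h) h (inner_hh hin) hz hχ
  have hratio : ‖h‖ ^ 2 / ‖hh σ h‖ ^ 2 ≤ 2 * τ ^ 2 := by
    have h1 : 0 < 1 - τ ^ 2 := by linarith
    rw [hnz, div_le_iff₀ (by positivity)]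
    have : 2 * τ ^ 2 * (‖h‖ ^ 2 * (1 - τ ^ 2) / τ ^ 2) = 2 * (1 - τ ^ 2) * ‖h‖ ^ 2 := by
      field_simp
    rw [this]
    nlinarith [sq_nonneg ‖h‖, mul_nonneg (sq_nonneg ‖h‖) (by linarith : (0:ℝ) ≤ 1/2 - τ ^ 2)]
  have hφ := φ_pos N v
  have hfh := hf0 (v + h)
  have hγh : ‖h‖ ^ γ ≤ (1/4) ^ γ := Real.rpow_le_rpow_of_nonpos (by norm_num) hr2 hγ
  have hτ1 : τ ≤ 1 := by nlinarith
  have hkey : τ ^ (-2 - γ) * (2 * τ ^ 2) ^ (-p) * (2 * τ ^ 2) ^ N ≤ 2 := by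
    have h2 : (0:ℝ) < 2 * τ ^ 2 := by positivity
    have e1 : (2 * τ ^ 2) ^ (-p) * (2 * τ ^ 2) ^ N = (2 * τ ^ 2) * (2 * τ ^ 2) ^ ((N:ℝ) - p - 1) := by
      rw [← Real.rpow_natCast (2 * τ ^ 2) N, ← Real.rpow_add h2]
      nth_rewrite 2 [← Real.rpow_one (2 * τ ^ 2)]
      rw [← Real.rpow_add h2]; congr 1; ring
    have e2 : (2 * τ ^ 2) ^ ((N:ℝ) - p - 1) ≤ 1 := Real.rpow_le_one h2.le (by linarith) (by linarith)
    have e3 : τ ^ (-2 - γ) = τ ^ (-γ) * (τ ^ 2)⁻¹ := by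
      rw [show (-2 - γ : ℝ) = -γ + -2 by ring, Real.rpow_add hτ, Real.rpow_neg hτ.le 2]
      norm_num
    have e4 : τ ^ (-γ) ≤ 1 := Real.rpow_le_one hτ.le hτ1 (by linarith)
    rw [mul_assoc, e1, e3]
    have e5 : τ ^ (-γ) * (τ ^ 2)⁻¹ * (2 * τ ^ 2 * (2 * τ ^ 2) ^ ((N:ℝ) - p - 1)) =
      2 * (τ ^ (-γ) * (2 * τ ^ 2) ^ ((N:ℝ) - p - 1)) := by field_simp
    rw [e5]
    have := mul_le_mul e4 e2 (by positivity) (by norm_num)
    linarith
  rw [hkk, ← ENNReal.ofReal_mul (mul_nonneg hm (φ_pos _ _).le), ← ENNReal.ofReal_mul (mul_nonneg (by positivity)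
    (mul_nonneg (by positivity) (hβ.nonneg _))), ← ENNReal.ofReal_mul (by positivity), ← ENNReal.ofReal_mul (by positivity)]
  refine ENNReal.ofReal_le_ofReal ?_
  calc ‖h‖ ^ γ * (2 ^ d / 2 * τ ^ (-2 - γ) * β (1 - 2 * τ ^ 2)) * (m * φ N (v + hh σ h) * f (v + h))
      ≤ (1/4) ^ γ * (2 ^ d / 2 * τ ^ (-2 - γ) * (K * (2 * τ ^ 2) ^ (-p))) *
          (m * (256 ^ N * φ N v * (2 * τ ^ 2) ^ N) * f (v + h)) := by
        have h1 := hβ.nonneg (1 - 2 * τ ^ 2)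
        have h2 : φ N (v + hh σ h) ≤ 256 ^ N * φ N v * (2 * τ ^ 2) ^ N := by
          refine hr1.trans ?_
          gcongr
        have h3 := (φ_pos N (v + hh σ h)).le
        gcongr
    _ = (m * φ N v) * ((1/4) ^ γ * (2 ^ d / 2 * K) * 256 ^ N * f (v + h)) *
          (τ ^ (-2 - γ) * (2 * τ ^ 2) ^ (-p) * (2 * τ ^ 2) ^ N) := by ring
    _ ≤ (m * φ N v) * ((1/4) ^ γ * (2 ^ d / 2 * K) * 256 ^ N * f (v + h)) * 2 := by
        refine mul_le_mul_of_nonneg_left hkey (by positivity)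
    _ = _ := by ring

lemma measurable_Θ2 {N : ℕ} {m : ℝ} {f : V d → ℝ} (hf : Measurable f) (v : V d) :
    Measurable (fun p : V d × V d => Θ2 N m f v p.1 p.2) := by
  classical
  unfold Θ2
  refine Measurable.ite ?_ measurable_const ?_
  · unfold χ
    exact (MeasurableSet.const _).union (measurableSet_le measurable_const
      ((measurable_const.add measurable_snd).norm.pow_const 2))
  · have h1 : Measurable (fun p : V d × V d => ENNReal.ofReal (m * φ N (v + p.1))) :=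
      (((continuous_φ N).measurable.comp (measurable_const.add measurable_fst)).const_mul m).ennreal_ofReal
    have h2 : Measurable (fun p : V d × V d => ENNReal.ofReal (f (v + p.2))) :=
      (hf.comp (measurable_const.add measurable_snd)).ennreal_ofReal
    exact h1.mul h2

lemma lint_le_mom {γ a : ℝ} (ha : 0 ≤ a) {f : V d → ℝ} (hf0 : ∀ w, 0 ≤ f w) (v : V d) :
    ∫⁻ h : V d, ENNReal.ofReal (f (v + h)) ≤ mom γ a f v := by
  rw [mom_shift]
  refine lintegral_mono fun z => ENNReal.ofReal_le_ofReal ?_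
  have h1 : 1 ≤ (1 + ‖v + z‖) ^ a := Real.one_le_rpow (by linarith [norm_nonneg (v + z)]) ha
  have h2 : 0 ≤ ‖z‖ ^ γ := by positivity
  have h3 := hf0 (v + z)
  nlinarith [mul_nonneg h3 h2]

lemma meas_comp2 {α : Type*} [MeasurableSpace α] {F : V d → V d → ℝ≥0∞} (hF : Measurable (fun p : V d × V d => F p.1 p.2))
    {A B : α → V d} (hA : Measurable A) (hB : Measurable B) : Measurable (fun x => F (A x) (B x)) :=
  hF.comp (hA.prodMk hB)

/-- bound of the remaining part of the gain term -/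
lemma T2_bound [Nontrivial (V d)] {p K γ a m : ℝ} {N : ℕ} (hp : p + 1 ≤ N) (ha : 0 ≤ a) (hγ : γ ≤ 0) (hm : 0 ≤ m)
    {β : ℝ → ℝ} (hβ : IsKer p K β) {f : V d → ℝ} (hf : Measurable f) (hf0 : ∀ w, 0 ≤ f w) (v : V d) :
    ∫⁻ σ : Sp d, (∫⁻ u : V d, ENNReal.ofReal (kern γ β σ u) *
      Θ2 N m f v (T (σ : V d) u) (T (-(σ : V d)) u)) ∂(sm d) ≤
    ENNReal.ofReal (m * φ N v) *
      ((ENNReal.ofReal ((1/4) ^ γ * (2 ^ d * K) * 256 ^ N) * (sm d) univ) * mom γ a f v) := by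
  have hβ1 : β 1 = 0 := by
    by_contra h
    have := (hβ.supp _ h).2; exact lt_irrefl _ this
  have hm0 : Measurable (fun σ : Sp d => ∫⁻ u : V d, ENNReal.ofReal (kern γ β σ u) *
      Θ2 N m f v (T (σ : V d) u) (T (-(σ : V d)) u)) := by
    have h2 : Measurable (fun p : Sp d × V d => Θ2 N m f v (T (p.1 : V d) p.2) (T (-(p.1 : V d)) p.2)) :=
      meas_comp2 (measurable_Θ2 (N := N) (m := m) hf v) measurable_T' measurable_T''
    have h3 : Measurable (fun p : Sp d × V d => ENNReal.ofReal (kern γ β p.1 p.2) *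
      Θ2 N m f v (T (p.1 : V d) p.2) (T (-(p.1 : V d)) p.2)) := (measurable_kern' γ hβ.meas).mul h2
    exact h3.lintegral_prod_right'
  rw [← lintegral_rot (LinearIsometryEquiv.neg ℝ) hm0]
  calc _ = ∫⁻ σ : Sp d, (∫⁻ h : V d, ENNReal.ofReal (‖h‖ ^ γ * kk d γ (fun c => β (-c)) (⟪h, (σ : V d)⟫_ℝ / ‖h‖)) *
        Θ2 N m f v (hh (σ : V d) h) h) ∂(sm d) := by
        refine lintegral_congr fun σ => ?_
        rw [← master (by simp) (by simpa using hβ1) γ (fun z h => Θ2 N m f v h z)]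
        refine lintegral_congr fun u => ?_
        rw [rot_coe]
        simp only [LinearIsometryEquiv.coe_neg, neg_neg]
        unfold kern
        rw [inner_neg_right, neg_div]
    _ ≤ ∫⁻ σ : Sp d, (∫⁻ h : V d, ENNReal.ofReal (m * φ N v) *
          (ENNReal.ofReal ((1/4) ^ γ * (2 ^ d * K) * 256 ^ N) * ENNReal.ofReal (f (v + h)))) ∂(sm d) :=
        lintegral_mono fun σ => lintegral_mono fun h => pt2 hp hγ hm hβ hf0 v (by simp) h
    _ = ENNReal.ofReal (m * φ N v) * ((ENNReal.ofReal ((1/4) ^ γ * (2 ^ d * K) * 256 ^ N) * (sm d) univ) *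
          ∫⁻ h : V d, ENNReal.ofReal (f (v + h))) := by
        have hfm : Measurable (fun h : V d => ENNReal.ofReal (f (v + h))) :=
          (hf.comp (measurable_const.add measurable_id)).ennreal_ofReal
        rw [lintegral_const, lintegral_const_mul _ (hfm.const_mul _), lintegral_const_mul _ hfm]
        ring
    _ ≤ _ := by
        gcongr
        exact lint_le_mom ha hf0 v

end Pool.Agent.H821.BZ
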