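import Pool.Agent.H821.BZ.Est4

/-! The estimate of the collision operator at a touching point, final form. -/

set_option autoImplicit false
open MeasureTheory Metric Set
open scoped ENNReal Real InnerProductSpace Pointwise

namespace Pool.Agent.H821.BZ

variable {d : ℕ}

lemma meas_slice {F : Sp d → V d → ℝ≥0∞} (hF : Measurable (fun p : Sp d × V d => F p.1 p.2)) (σ : Sp d) :
    Measurable (fun u => F σ u) :=
  hF.comp (measurable_const.prodMk measurable_id)

/-- the collision operator at a point where `f` touches `m (1+|v|²)^{-N}` from below -/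
theorem est (hd : 2 ≤ d) {s K γ a : ℝ} (hs1 : s < 1) (hsa : 2 * s < a) (ha0 : 0 < a) (ha2 : a ≤ 2)
    (hγ : γ ≤ 0) (hγd : 0 < d + γ) {N : ℕ} (hN : (d:ℝ) + 3 ≤ 2 * N) :
    ∃ C : ℝ, 0 ≤ C ∧ ∀ β : ℝ → ℝ, IsKer ((d - 1) / 2 + s) K β → ∀ f : V d → ℝ, Measurable f →
      (∀ w, 0 ≤ f w) → ∀ (m : ℝ) (v : V d), (∀ w, f w ≤ m * φ N w) → f v = m * φ N v →
      gain γ β f v ≤ loss γ β f v + ENNReal.ofReal (C * f v) * mom γ a f v := by
  have : Nontrivial (Fin d) := Fin.nontrivial_iff_two_le.2 hd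
  have : Nonempty (Fin d) := inferInstance
  have : Nontrivial (V d) := inferInstance
  obtain ⟨i0⟩ : Nonempty (Fin d) := inferInstance
  set e : V d := EuclideanSpace.single i0 1 with he
  have hen : ‖e‖ = 1 := by simp [he]
  obtain ⟨C0, hC0, hA⟩ := cancel (K := K) (γ := γ) hd hs1 hγd
  obtain ⟨D, hD, hDD⟩ := kk_moment (K := K) (γ := γ) hd hsa (by linarith)
  obtain ⟨Cs, hCs, hsec⟩ := secdiff (d := d) N
  set C2 : ℝ≥0∞ := ENNReal.ofReal ((1/4) ^ γ * (2 ^ d * K) * 256 ^ N) * (sm d) univ with hC2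
  set Ct : ℝ≥0∞ := (C0 + ENNReal.ofReal (2 * Cs) * D) + C2 with hCt
  have hCtop : Ct ≠ ⊤ := by
    rw [hCt, hC2]
    exact ENNReal.add_ne_top.2 ⟨ENNReal.add_ne_top.2 ⟨hC0, ENNReal.mul_ne_top ENNReal.ofReal_ne_top hD⟩,
      ENNReal.mul_ne_top ENNReal.ofReal_ne_top (measure_ne_top _ _)⟩
  refine ⟨Ct.toReal, ENNReal.toReal_nonneg, fun β hβ f hf hf0 m v hle hv => ?_⟩
  have hφv := φ_pos N v
  have hm : 0 ≤ m := by
    have := hf0 v; rw [hv] at this
    exact nonneg_of_mul_nonneg_left this hφv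
  have hT1 := T1_bound (d := d) ha0 ha2 hγ hm hCs (N := N) (fun v h => by
    have := hsec v h
    unfold ψ; convert this using 2) hβ hf hf0 v e hen (hA β hβ) (hDD β hβ)
  have hT2 := T2_bound (d := d) (a := a) (γ := γ) (m := m) (N := N) (p := (d - 1) / 2 + s) (K := K)
    (by linarith) ha0.le hγ hm hβ hf hf0 v
  have hmeas1 : Measurable (fun p : Sp d × V d => ENNReal.ofReal (kern γ β p.1 p.2) *
      (ENNReal.ofReal (f (v + T (p.1 : V d) p.2)) * ENNReal.ofReal (m * ψ N v (T (-(p.1 : V d)) p.2)))) := by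
    have h1 : Measurable (fun p : Sp d × V d => ENNReal.ofReal (f (v + T (p.1 : V d) p.2))) :=
      (hf.comp (measurable_const.add measurable_T')).ennreal_ofReal
    have h2 : Measurable (fun p : Sp d × V d => ENNReal.ofReal (m * ψ N v (T (-(p.1 : V d)) p.2))) :=
      (((measurable_ψ N v).comp measurable_T'').const_mul m).ennreal_ofReal
    exact (measurable_kern' γ hβ.meas).mul (h1.mul h2)
  have hsplit : gain γ β f v ≤
      ∫⁻ σ : Sp d, (∫⁻ u : V d, ENNReal.ofReal (kern γ β σ u) *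
        (ENNReal.ofReal (f (v + T (σ : V d) u)) * ENNReal.ofReal (m * ψ N v (T (-(σ : V d)) u)))) ∂(sm d) +
      ∫⁻ σ : Sp d, (∫⁻ u : V d, ENNReal.ofReal (kern γ β σ u) *
        Θ2 N m f v (T (σ : V d) u) (T (-(σ : V d)) u)) ∂(sm d) := by
    rw [← lintegral_add_left hmeas1.lintegral_prod_right']
    unfold gain
    refine lintegral_mono fun σ => ?_
    have hmσ : Measurable (fun u : V d => ENNReal.ofReal (kern γ β σ u) *
      (ENNReal.ofReal (f (v + T (σ : V d) u)) * ENNReal.ofReal (m * ψ N v (T (-(σ : V d)) u)))) :=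
      meas_slice (F := fun (σ : Sp d) (u : V d) => ENNReal.ofReal (kern γ β σ u) *
        (ENNReal.ofReal (f (v + T (σ : V d) u)) * ENNReal.ofReal (m * ψ N v (T (-(σ : V d)) u)))) hmeas1 σ
    simp only
    rw [← lintegral_add_left hmσ]
    refine lintegral_mono fun u => ?_
    simp only
    rw [← mul_add]
    refine mul_le_mul' le_rfl ?_
    unfold ψ Θ2
    split_ifs with hχ
    · rw [add_zero]
      exact mul_le_mul' le_rfl (ENNReal.ofReal_le_ofReal (hle _))
    · rw [mul_zero, ENNReal.ofReal_zero, mul_zero, zero_add]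
      exact mul_le_mul' (ENNReal.ofReal_le_ofReal (hle _)) le_rfl
  refine hsplit.trans ((add_le_add hT1 hT2).trans (le_of_eq ?_))
  rw [loss_eq hβ.meas hf v e hen, ← hv, ENNReal.ofReal_mul ENNReal.toReal_nonneg, ENNReal.ofReal_toReal hCtop, hCt]
  ring

/-- the collision operator at a maximum point of `f` -/
theorem est0 (hd : 2 ≤ d) {s K γ : ℝ} (hs1 : s < 1) (hγd : 0 < d + γ) :
    ∃ C : ℝ, 0 ≤ C ∧ ∀ β : ℝ → ℝ, IsKer ((d - 1) / 2 + s) K β → ∀ f : V d → ℝ, Measurable f →
      (∀ w, 0 ≤ f w) → ∀ (v : V d), (∀ w, f w ≤ f v) →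
      gain γ β f v ≤ loss γ β f v + ENNReal.ofReal (C * f v) * ∫⁻ w : V d, ENNReal.ofReal (f w * ‖w - v‖ ^ γ) := by
  have : Nontrivial (Fin d) := Fin.nontrivial_iff_two_le.2 hd
  have : Nonempty (Fin d) := inferInstance
  have : Nontrivial (V d) := inferInstance
  obtain ⟨i0⟩ : Nonempty (Fin d) := inferInstance
  set e : V d := EuclideanSpace.single i0 1 with he
  have hen : ‖e‖ = 1 := by simp [he]
  obtain ⟨C0, hC0, hA⟩ := cancel (K := K) (γ := γ) hd hs1 hγd
  refine ⟨C0.toReal, ENNReal.toReal_nonneg, fun β hβ f hf hf0 v hle => ?_⟩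
  have hβ1 : β (-1) = 0 := by
    by_contra h
    have := (hβ.supp _ h).1; norm_num at this
  have hkm := (measurable_kk (d := d) (γ := γ) hβ.meas).ennreal_ofReal
  have hG : Measurable (fun z : V d => ENNReal.ofReal (‖z‖ ^ γ) * ENNReal.ofReal (f (v + z))) :=
    (measurable_norm.pow_const γ).ennreal_ofReal.mul ((hf.comp (measurable_const.add measurable_id)).ennreal_ofReal)
  have hmom : ∫⁻ w : V d, ENNReal.ofReal (f w * ‖w - v‖ ^ γ) =
      ∫⁻ z : V d, ENNReal.ofReal (‖z‖ ^ γ) * ENNReal.ofReal (f (v + z)) := by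
    rw [← lintegral_add_left_eq_self (fun w => ENNReal.ofReal (f w * ‖w - v‖ ^ γ)) v]
    refine lintegral_congr fun z => ?_
    rw [← ENNReal.ofReal_mul (by positivity), add_sub_cancel_left, mul_comm]
  calc gain γ β f v ≤ ∫⁻ σ : Sp d, (∫⁻ u : V d, ENNReal.ofReal (kern γ β σ u) *
        (ENNReal.ofReal (f (v + T (σ : V d) u)) * ENNReal.ofReal (f v))) ∂(sm d) := by
        unfold gain
        refine lintegral_mono fun σ => lintegral_mono fun u => ?_
        exact mul_le_mul' le_rfl (mul_le_mul' le_rfl (ENNReal.ofReal_le_ofReal (hle _)))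
    _ = ∫⁻ σ : Sp d, (∫⁻ z : V d, ENNReal.ofReal (‖z‖ ^ γ * kk d γ β (⟪z, (σ : V d)⟫_ℝ / ‖z‖)) *
        (ENNReal.ofReal (f (v + z)) * ENNReal.ofReal (f v))) ∂(sm d) := by
        refine lintegral_congr fun σ => ?_
        exact master (by simp) hβ1 γ (fun z _ => ENNReal.ofReal (f (v + z)) * ENNReal.ofReal (f v))
    _ = ENNReal.ofReal (f v) * ((∫⁻ z : V d, ENNReal.ofReal (‖z‖ ^ γ) * ENNReal.ofReal (f (v + z))) * AA d γ β e) := by
        unfold AA
        rw [← sep hG hkm e hen, ← lintegral_const_mul]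
        · refine lintegral_congr fun σ => ?_
          rw [← lintegral_const_mul]
          · refine lintegral_congr fun z => ?_
            rw [ENNReal.ofReal_mul (by positivity)]; ring
          · exact hG.mul (hkm.comp (by fun_prop))
        · refine Measurable.lintegral_prod_right' (f := fun p : Sp d × V d =>
            ENNReal.ofReal (‖p.2‖ ^ γ) * ENNReal.ofReal (f (v + p.2)) * ENNReal.ofReal (kk d γ β (⟪p.2, (p.1 : V d)⟫_ℝ / ‖p.2‖))) ?_
          exact (hG.comp measurable_snd).mul (hkm.comp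
            ((measurable_snd.inner (measurable_subtype_coe.comp measurable_fst)).div measurable_snd.norm))
    _ ≤ ENNReal.ofReal (f v) * ((∫⁻ z : V d, ENNReal.ofReal (‖z‖ ^ γ) * ENNReal.ofReal (f (v + z))) * (BB d β e + C0)) := by
        gcongr
        exact hA β hβ e hen
    _ = _ := by
        rw [loss_eq hβ.meas hf v e hen, hmom, ENNReal.ofReal_mul ENNReal.toReal_nonneg, ENNReal.ofReal_toReal hC0]
        ring

end Pool.Agent.H821.BZ
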