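import Pool.Agent.H821.BZ.Sol

/-! Growth estimates. -/

set_option autoImplicit false
open MeasureTheory Metric Set Filter Topology
open scoped ENNReal Real InnerProductSpace Pointwise

namespace Pool.Agent.H821.BZ

variable {d : ℕ}

/-- the primitive -/
noncomputable def JJ (Λ : ℝ → ℝ≥0∞) (t₁ t : ℝ) : ℝ := (∫⁻ τ in Ico t₁ t, Λ τ).toReal

section J
variable {Λ : ℝ → ℝ≥0∞} {t₁ T : ℝ}
  (hL : ∀ t₂ ∈ Ico t₁ T, ∃ L : ℝ, 0 ≤ L ∧ ∀ t ∈ Icc t₁ t₂, Λ t ≤ ENNReal.ofReal L)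
include hL

lemma int_le {t₂ : ℝ} (ht₂ : t₂ ∈ Ico t₁ T) : ∃ L : ℝ, 0 ≤ L ∧ ∀ a b, t₁ ≤ a → a ≤ b → b ≤ t₂ →
    ∫⁻ τ in Ico a b, Λ τ ≤ ENNReal.ofReal (L * (b - a)) := by
  obtain ⟨L, hL0, hLb⟩ := hL t₂ ht₂
  refine ⟨L, hL0, fun a b ha hab hb => ?_⟩
  calc ∫⁻ τ in Ico a b, Λ τ ≤ ∫⁻ τ in Ico a b, ENNReal.ofReal L :=
        setLIntegral_mono' measurableSet_Ico fun τ hτ => hLb τ ⟨ha.trans hτ.1, hτ.2.le.trans hb⟩
    _ = ENNReal.ofReal (L * (b - a)) := by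
        rw [setLIntegral_const, Real.volume_Ico, ENNReal.ofReal_mul hL0]

lemma int_ne_top {a b : ℝ} (ha : t₁ ≤ a) (hab : a ≤ b) (hb : b < T) : ∫⁻ τ in Ico a b, Λ τ ≠ ⊤ := by
  obtain ⟨L, _, h⟩ := int_le hL (t₂ := b) ⟨ha.trans hab, hb⟩
  exact ne_top_of_le_ne_top ENNReal.ofReal_ne_top (h a b ha hab le_rfl)

lemma JJ_add {a b : ℝ} (ha : t₁ ≤ a) (hab : a ≤ b) (hb : b < T) :
    JJ Λ t₁ b = JJ Λ t₁ a + (∫⁻ τ in Ico a b, Λ τ).toReal := by
  unfold JJ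
  rw [← ENNReal.toReal_add (int_ne_top hL le_rfl ha (hab.trans_lt hb)) (int_ne_top hL ha hab hb),
    ← lintegral_union measurableSet_Ico, Ico_union_Ico_eq_Ico ha hab]
  exact Set.disjoint_left.2 fun x hx hx' => absurd hx.2 (not_lt.2 hx'.1)

lemma JJ_mono {a b : ℝ} (ha : t₁ ≤ a) (hab : a ≤ b) (hb : b < T) : JJ Λ t₁ a ≤ JJ Λ t₁ b := by
  rw [JJ_add hL ha hab hb]
  linarith [(ENNReal.toReal_nonneg : 0 ≤ (∫⁻ τ in Ico a b, Λ τ).toReal)]

lemma JJ_cont : ContinuousOn (JJ Λ t₁) (Ico t₁ T) := by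
  intro t ht
  obtain ⟨t₂, ht₂⟩ := exists_between ht.2
  obtain ⟨L, hL0, hLb⟩ := int_le hL (t₂ := t₂) ⟨ht.1.trans ht₂.1.le, ht₂.2⟩
  have hlip : ∀ a ∈ Icc t₁ t₂, ∀ b ∈ Icc t₁ t₂, a ≤ b → |JJ Λ t₁ b - JJ Λ t₁ a| ≤ L * |b - a| := by
    intro a ha b hb hab
    rw [JJ_add hL ha.1 hab (hb.2.trans_lt ht₂.2), add_sub_cancel_left, abs_of_nonneg ENNReal.toReal_nonneg,
      abs_of_nonneg (by linarith : 0 ≤ b - a)]
    exact ENNReal.toReal_le_of_le_ofReal (mul_nonneg hL0 (by linarith)) (hLb a b ha.1 hab hb.2)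
  have h1 : ContinuousWithinAt (JJ Λ t₁) (Icc t₁ t₂) t := by
    have hcl : ContinuousOn (JJ Λ t₁) (Icc t₁ t₂) := by
      have : LipschitzOnWith (Real.toNNReal L) (JJ Λ t₁) (Icc t₁ t₂) := by
        refine LipschitzOnWith.of_dist_le_mul fun a ha b hb => ?_
        rw [Real.dist_eq, Real.dist_eq, Real.coe_toNNReal _ hL0]
        rcases le_total a b with h | h
        · rw [abs_sub_comm, abs_sub_comm a b]; exact hlip a ha b hb h
        · exact hlip b hb a ha h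
      exact this.continuousOn
    exact hcl t ⟨ht.1, ht₂.1.le⟩
  refine h1.mono_of_mem_nhdsWithin ?_
  have h2 : Iio t₂ ∈ 𝓝 t := Iio_mem_nhds ht₂.1
  filter_upwards [self_mem_nhdsWithin, mem_nhdsWithin_of_mem_nhds h2] with τ hτ1 hτ2
  exact ⟨hτ1.1, (mem_Iio.1 hτ2).le⟩

lemma JJ_lower {m : ℝ → ℝ≥0∞} (hm : ∀ t, m t ≤ Λ t) {t₀ : ℝ} (ht₀ : t₀ ∈ Ioo t₁ T)
    (hmt : Tendsto m (𝓝[<] t₀) (𝓝 (m t₀))) {l : ℝ} (hl : l < (m t₀).toReal) :
    ∀ᶠ t in 𝓝[<] t₀, l * (t₀ - t) ≤ JJ Λ t₁ t₀ - JJ Λ t₁ t := by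
  rcases lt_or_ge l 0 with hneg | hpos
  · filter_upwards [Ico_mem_nhdsLT ht₀.1] with t ht
    have := JJ_mono hL ht.1 ht.2.le ht₀.2
    nlinarith [ht.2]
  · have h1 : ENNReal.ofReal l < m t₀ := by
      rw [ENNReal.ofReal_lt_iff_lt_toReal hpos]
      · exact hl
      · intro h
        rw [h] at hl; simp at hl; linarith
    have h2 := hmt.eventually (lt_mem_nhds h1)
    obtain ⟨u, hu, hu2⟩ := (mem_nhdsLT_iff_exists_Ioo_subset' ht₀.1).1 h2
    have hu' : u < t₀ := hu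
    filter_upwards [Ioo_mem_nhdsLT (max_lt hu' ht₀.1)] with t ht
    have ht1 : t₁ ≤ t := (le_max_right u t₁).trans ht.1.le
    have htu : u < t := (le_max_left u t₁).trans_lt ht.1
    rw [JJ_add hL ht1 ht.2.le ht₀.2, add_sub_cancel_left]
    have h3 : ENNReal.ofReal (l * (t₀ - t)) ≤ ∫⁻ τ in Ico t t₀, Λ τ := by
      calc ENNReal.ofReal (l * (t₀ - t)) = ∫⁻ τ in Ico t t₀, ENNReal.ofReal l := by
            rw [setLIntegral_const, Real.volume_Ico, ENNReal.ofReal_mul hpos]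
        _ ≤ ∫⁻ τ in Ico t t₀, Λ τ := setLIntegral_mono' measurableSet_Ico fun τ hτ =>
            (le_of_lt (hu2 ⟨htu.trans_le hτ.1, hτ.2⟩)).trans (hm τ)
    have h4 := ENNReal.toReal_mono (int_ne_top hL ht1 ht.2.le ht₀.2) h3
    rwa [ENNReal.toReal_ofReal (mul_nonneg hpos (by linarith [ht.2]))] at h4
end J

/-- abstract growth estimate -/
theorem growth {γ T : ℝ} {b : ℝ → ℝ} {f : ℝ → V d → V d → ℝ} (h : IsSol γ b T f) {N : ℕ} {C : ℝ} (hC : 0 ≤ C)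
    {t₁ : ℝ} (ht₁ : t₁ ∈ Ico 0 T) {J : ℝ → ℝ} (hJc : ContinuousOn J (Ico t₁ T)) (hJ1 : J t₁ = 0)
    {μ : ℝ → V d → V d → ℝ} (hμ : ∀ t x v, 0 ≤ μ t x v)
    (htouch : ∀ t ∈ Ioo t₁ T, ∀ (x v : V d) (m : ℝ), (∀ w, f t x w ≤ m * φ N w) → f t x v = m * φ N v →
      fderiv ℝ (fun p : ℝ × V d => f p.1 p.2 v) (t, x) (1, v) ≤ C * f t x v * μ t x v)
    (hJ : ∀ t₀ ∈ Ioo t₁ T, ∀ x v, ∀ l < μ t₀ x v, ∀ᶠ t in 𝓝[<] t₀, l * (t₀ - t) ≤ J t₀ - J t)
    {A : ℝ} (hA : ∀ x v, f t₁ x v ≤ A * φ N v) :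
    ∀ t ∈ Ico t₁ T, ∀ x v, f t x v ≤ A * Real.exp (C * J t) * φ N v := by
  intro t ht x v
  have hA0 : 0 ≤ A := by
    have h1 := (h.nonneg t₁ ht₁ 0 0).trans (hA 0 0)
    exact nonneg_of_mul_nonneg_left h1 (φ_pos N 0)
  have key : ∀ δ : ℝ, 0 < δ → f t x v ≤ (A + δ) * Real.exp (C * J t + δ * (t - t₁)) * φ N v := by
    intro δ hδ
    refine (barrier (M := fun t => (A + δ) * Real.exp (C * J t + δ * (t - t₁))) h.periodic h.cont h.decay h.diff ht₁.1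
      ?_ ?_ ?_ ?_ t ht x v).le
    · refine ContinuousOn.mul continuousOn_const (Real.continuous_exp.comp_continuousOn ?_)
      exact (hJc.const_mul C).add (by fun_prop)
    · intro τ _; positivity
    · intro x v
      simp only [hJ1, sub_self, mul_zero, add_zero, Real.exp_zero, mul_one]
      have := φ_pos N v
      nlinarith [hA x v]
    · intro t₀ ht₀ x₀ v₀ hle heq
      set M : ℝ → ℝ := fun t => (A + δ) * Real.exp (C * J t + δ * (t - t₁)) with hM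
      have hM0 : 0 < M t₀ := by rw [hM]; positivity
      have hφ := φ_pos N v₀
      set m0 := μ t₀ x₀ v₀ with hm0
      have hm00 : 0 ≤ m0 := hμ _ _ _
      have ht₀' : t₀ ∈ Ioo 0 T := ⟨ht₁.1.trans_lt ht₀.1, ht₀.2⟩
      have hD := htouch t₀ ht₀ x₀ v₀ (M t₀) (fun w => hle x₀ w) heq
      refine ⟨M t₀ * (C * m0 + δ / 2), ?_, ?_⟩
      · refine hD.trans_lt ?_
        rw [heq]
        have : 0 < M t₀ * φ N v₀ * (δ / 2) := by positivity
        have e : M t₀ * (C * m0 + δ / 2) * φ N v₀ = C * (M t₀ * φ N v₀) * m0 + M t₀ * φ N v₀ * (δ / 2) := by ring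
        rw [e]; linarith
      · set l := m0 - δ / (4 * (C + 1)) with hl
        have hlm : l < m0 := by rw [hl]; have : 0 < δ / (4 * (C + 1)) := by positivity
                                linarith
        have hCl : C * m0 + 3 * δ / 4 ≤ C * l + δ := by
          rw [hl]
          have h1 : C * (δ / (4 * (C + 1))) ≤ δ / 4 := by
            rw [mul_div_assoc', div_le_div_iff₀ (by positivity) (by norm_num)]
            nlinarith
          nlinarith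
        have hMc : ContinuousWithinAt M (Ico t₁ T) t₀ := by
          refine ContinuousWithinAt.mul continuousWithinAt_const ?_
          refine (Real.continuous_exp.continuousAt).comp_continuousWithinAt ?_
          exact ((hJc t₀ ⟨ht₀.1.le, ht₀.2⟩).const_mul C).add (by fun_prop)
        have hlele : 𝓝[<] t₀ ≤ 𝓝[Ico t₁ T] t₀ := by
          refine le_inf inf_le_left ?_
          rw [le_principal_iff]
          exact mem_of_superset (Ico_mem_nhdsLT ht₀.1) fun t ht => ⟨ht.1, ht.2.trans ht₀.2⟩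
        have hMt : Tendsto M (𝓝[<] t₀) (𝓝 (M t₀)) := hMc.mono_left hlele
        have hlt : M t₀ * (C * m0 + δ / 2) < M t₀ * (C * m0 + 3 * δ / 4) :=
          mul_lt_mul_of_pos_left (by linarith) hM0
        have hev := (hMt.mul_const (C * m0 + 3 * δ / 4)).eventually (lt_mem_nhds hlt)
        filter_upwards [hJ t₀ ht₀ x₀ v₀ l hlm, Ico_mem_nhdsLT ht₀.1, hev] with t h1 h2 h3
        have hty : 0 < t₀ - t := by linarith [h2.2]
        have hMt0 : 0 < M t := by rw [hM]; positivity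
        set y := C * (J t₀ - J t) + δ * (t₀ - t) with hy
        have hyl : (C * m0 + 3 * δ / 4) * (t₀ - t) ≤ y := by
          rw [hy]
          nlinarith [mul_le_mul_of_nonneg_left h1 hC, mul_le_mul_of_nonneg_right hCl hty.le]
        have hMr : M t₀ = M t * Real.exp y := by
          rw [hM, hy]; simp only
          rw [mul_assoc (A + δ), ← Real.exp_add]; congr 2; ring
        have hey := Real.add_one_le_exp y
        have hgap : M t * y ≤ M t₀ - M t := by rw [hMr]; nlinarith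
        have h4 : M t * ((C * m0 + 3 * δ / 4) * (t₀ - t)) ≤ M t * y := mul_le_mul_of_nonneg_left hyl hMt0.le
        nlinarith [mul_le_mul_of_nonneg_right h3.le hty.le]
  have hlim : Tendsto (fun δ : ℝ => (A + δ) * Real.exp (C * J t + δ * (t - t₁)) * φ N v) (𝓝[>] 0)
      (𝓝 ((A + 0) * Real.exp (C * J t + 0 * (t - t₁)) * φ N v)) := by
    refine tendsto_nhdsWithin_of_tendsto_nhds (Continuous.tendsto ?_ 0)
    fun_prop
  rw [add_zero, zero_mul, add_zero] at hlim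
  refine ge_of_tendsto hlim ?_
  filter_upwards [self_mem_nhdsWithin] with δ hδ using key δ hδ

end Pool.Agent.H821.BZ
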