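import Pool.Agent.H821.BZ.Povz
import Pool.Agent.H821.BZ.Bulk

/-! The estimate at a touching point for hard potentials. -/

set_option autoImplicit false
open MeasureTheory Metric Set
open scoped ENNReal Real InnerProductSpace Pointwise

namespace Pool.Agent.H821.BZ

variable {d : ℕ}

/-- contribution of the fast outgoing velocity -/
noncomputable def I1 (γ : ℝ) (β : ℝ → ℝ) (N : ℕ) (m : ℝ) (v z : V d) : ℝ≥0∞ :=
  ∫⁻ σ : Sp d, ENNReal.ofReal (kk d γ β (⟪z, (σ : V d)⟫_ℝ / ‖z‖)) * ENNReal.ofReal (m * ψ N v (hh (σ : V d) z)) ∂(sm d)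

open Classical in
/-- the weight on the bad set -/
noncomputable def ω (N : ℕ) (v z h : V d) : ℝ := if χ v h then 0 else φ N (v + z)

lemma ω_nonneg (N : ℕ) (v z h : V d) : 0 ≤ ω N v z h := by
  unfold ω; split_ifs
  · exact le_refl _
  · exact (φ_pos _ _).le

open Classical in
lemma measurable_ω (N : ℕ) (v h : V d) : Measurable (fun z => ω N v z h) := by
  unfold ω
  refine Measurable.ite (MeasurableSet.const _) measurable_const ?_
  exact (continuous_φ N).measurable.comp (measurable_const.add measurable_id)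

/-- contribution of the slow outgoing velocity -/
noncomputable def I2 (γ : ℝ) (β : ℝ → ℝ) (N : ℕ) (m : ℝ) (v h : V d) : ℝ≥0∞ :=
  ∫⁻ σ : Sp d, ENNReal.ofReal (kk d γ (fun c => β (-c)) (⟪h, (σ : V d)⟫_ℝ / ‖h‖)) *
    ENNReal.ofReal (m * ω N v (hh (σ : V d) h) h) ∂(sm d)

lemma tau_ratio {σ z : V d} (hσ : ‖σ‖ = 1) (h : 0 < ⟪z, σ⟫_ℝ / ‖z‖) :
    ‖z‖ ^ 2 / (‖z‖ ^ 2 + ‖hh σ z‖ ^ 2) = (⟪z, σ⟫_ℝ / ‖z‖) ^ 2 ∧ 0 < ⟪z, σ⟫_ℝ ∧ 0 < ‖z‖ := by
  have hz0 : 0 < ‖z‖ := by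
    rw [norm_pos_iff]; rintro rfl; simp at h
  have hin : 0 < ⟪z, σ⟫_ℝ := by
    rw [lt_div_iff₀ hz0, zero_mul] at h; exact h
  have hn := norm_hh_sq hσ hin
  refine ⟨?_, hin, hz0⟩
  set τ := ⟪z, σ⟫_ℝ / ‖z‖ with hτ
  rw [hn]; field_simp; ring

lemma refl_int {γ m : ℝ} {β : ℝ → ℝ} (hβ : Measurable β) (N : ℕ) (v z : V d) (hz : z ≠ 0) :
    I1 γ β N m v z = ∫⁻ σ : Sp d, ENNReal.ofReal (kk d γ β (⟪z, (σ : V d)⟫_ℝ / ‖z‖)) *
      ENNReal.ofReal (m * ψ N v (-(hh (σ : V d) z))) ∂(sm d) := by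
  have hcoe : Measurable (fun σ : Sp d => (σ : V d)) := measurable_subtype_coe
  have hkm : Measurable (fun σ : Sp d => ENNReal.ofReal (kk d γ β (⟪z, (σ : V d)⟫_ℝ / ‖z‖))) :=
    ((measurable_kk hβ).comp ((measurable_const.inner hcoe).div_const _)).ennreal_ofReal
  have hhm : Measurable (fun σ : Sp d => hh (σ : V d) z) :=
    measurable_hh.comp (measurable_const.prodMk hcoe)
  have hpm : Measurable (fun σ : Sp d => ENNReal.ofReal (m * ψ N v (hh (σ : V d) z))) :=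
    (((measurable_ψ N v).comp hhm).const_mul m).ennreal_ofReal
  have hkpm : Measurable (fun σ : Sp d => ENNReal.ofReal (kk d γ β (⟪z, (σ : V d)⟫_ℝ / ‖z‖)) *
      ENNReal.ofReal (m * ψ N v (hh (σ : V d) z))) := hkm.mul hpm
  unfold I1
  rw [← lintegral_rot ((ℝ ∙ z).reflection) hkpm]
  refine lintegral_congr fun σ => ?_
  rw [rot_coe]
  by_cases hs : ⟪z, (σ : V d)⟫_ℝ = 0
  · have h1 : ⟪z, (ℝ ∙ z).reflection (σ : V d)⟫_ℝ = 0 := by
      have h0 : (ℝ ∙ z).reflection (σ : V d) = (2 * ⟪z, (σ : V d)⟫_ℝ / ‖z‖ ^ 2) • z - (σ : V d) := by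
        rw [Submodule.reflection_singleton_apply, ← Nat.cast_smul_eq_nsmul ℝ, smul_smul]
        congr 2
        simp; ring
      rw [h0, hs]; simp [hs]
    rw [h1, hs]; simp [kk]
  · obtain ⟨h1, h2⟩ := hh_reflect hz hs
    rw [h2, h1]

/-- slow partner, fast outgoing velocity -/
lemma I1_bulk {p K γ m δ : ℝ} {β : ℝ → ℝ} (hβ : IsKer p K β) (hm : 0 ≤ m) {k : ℕ} (v z : V d) (hz : z ≠ 0)
    (hb : ∀ h : V d, ⟪z, h⟫_ℝ = 0 → 1 / δ ≤ ‖v‖ → ‖v + z‖ ≤ δ * ‖v‖ →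
      ψ (k + 1) v h + ψ (k + 1) v (-h) ≤ 2 * φ (k + 1) v * (‖z‖ ^ 2 / (‖z‖ ^ 2 + ‖h‖ ^ 2)) ^ k)
    (hv : 1 / δ ≤ ‖v‖) (hw : ‖v + z‖ ≤ δ * ‖v‖) :
    I1 γ β (k + 1) m v z ≤ ENNReal.ofReal (m * φ (k + 1) v) * PP d γ β k (‖z‖⁻¹ • z) := by
  have hcoe : Measurable (fun σ : Sp d => (σ : V d)) := measurable_subtype_coe
  have hkm : Measurable (fun σ : Sp d => ENNReal.ofReal (kk d γ β (⟪z, (σ : V d)⟫_ℝ / ‖z‖))) :=
    ((measurable_kk hβ.meas).comp ((measurable_const.inner hcoe).div_const _)).ennreal_ofReal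
  have hhm : Measurable (fun σ : Sp d => hh (σ : V d) z) :=
    measurable_hh.comp (measurable_const.prodMk hcoe)
  have hpm : Measurable (fun σ : Sp d => ENNReal.ofReal (m * ψ (k + 1) v (hh (σ : V d) z))) :=
    (((measurable_ψ (k + 1) v).comp hhm).const_mul m).ennreal_ofReal
  have hkpm : Measurable (fun σ : Sp d => ENNReal.ofReal (kk d γ β (⟪z, (σ : V d)⟫_ℝ / ‖z‖)) *
      ENNReal.ofReal (m * ψ (k + 1) v (hh (σ : V d) z))) := hkm.mul hpm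
  have h2I : 2 * I1 γ β (k + 1) m v z ≤ 2 * (ENNReal.ofReal (m * φ (k + 1) v) * PP d γ β k (‖z‖⁻¹ • z)) := by
    calc 2 * I1 γ β (k + 1) m v z = I1 γ β (k + 1) m v z + I1 γ β (k + 1) m v z := two_mul _
      _ = ∫⁻ σ : Sp d, (ENNReal.ofReal (kk d γ β (⟪z, (σ : V d)⟫_ℝ / ‖z‖)) * ENNReal.ofReal (m * ψ (k + 1) v (hh (σ : V d) z)) +
            ENNReal.ofReal (kk d γ β (⟪z, (σ : V d)⟫_ℝ / ‖z‖)) * ENNReal.ofReal (m * ψ (k + 1) v (-(hh (σ : V d) z)))) ∂(sm d) := by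
          rw [lintegral_add_left hkpm, ← refl_int hβ.meas (k + 1) v z hz]
          rfl
      _ ≤ ∫⁻ σ : Sp d, (2 * ENNReal.ofReal (m * φ (k + 1) v)) *
            ENNReal.ofReal (kk d γ β ⟪‖z‖⁻¹ • z, (σ : V d)⟫_ℝ * (⟪‖z‖⁻¹ • z, (σ : V d)⟫_ℝ ^ 2) ^ k) ∂(sm d) := by
          refine lintegral_mono fun σ => ?_
          rw [cos_eq]
          set τ := ⟪‖z‖⁻¹ • z, (σ : V d)⟫_ℝ with hτ
          by_cases h0 : kk d γ β τ = 0
          · simp [h0]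
          · have hτ0 : 0 < τ := by
              by_contra h; apply h0; unfold kk; rw [if_neg h]
            have hk0 : 0 ≤ kk d γ β τ := kk_nonneg hβ.nonneg _
            have hτ0' : 0 < ⟪z, (σ : V d)⟫_ℝ / ‖z‖ := by rw [cos_eq]; exact hτ0
            obtain ⟨hr, hin, hz0⟩ := tau_ratio (σ := (σ : V d)) (by simp) hτ0'
            rw [cos_eq, ← hτ] at hr
            have hs := hb (hh (σ : V d) z) (by rw [real_inner_comm]; exact inner_hh hin) hv hw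
            rw [hr] at hs
            have e2 : 2 * ENNReal.ofReal (m * φ (k + 1) v) = ENNReal.ofReal (2 * (m * φ (k + 1) v)) := by
              rw [ENNReal.ofReal_mul (p := 2) (by norm_num), ENNReal.ofReal_ofNat]
            have hφ := φ_pos (k + 1) v
            rw [← mul_add, ← ENNReal.ofReal_add (mul_nonneg hm (ψ_nonneg _ _ _)) (mul_nonneg hm (ψ_nonneg _ _ _)),
              ← ENNReal.ofReal_mul hk0, e2, ← ENNReal.ofReal_mul (by positivity)]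
            refine ENNReal.ofReal_le_ofReal ?_
            calc kk d γ β τ * (m * ψ (k + 1) v (hh (σ : V d) z) + m * ψ (k + 1) v (-hh (σ : V d) z))
                = kk d γ β τ * m * (ψ (k + 1) v (hh (σ : V d) z) + ψ (k + 1) v (-hh (σ : V d) z)) := by ring
              _ ≤ kk d γ β τ * m * (2 * φ (k + 1) v * (τ ^ 2) ^ k) := mul_le_mul_of_nonneg_left hs (by positivity)
              _ = _ := by ring
      _ = 2 * (ENNReal.ofReal (m * φ (k + 1) v) * PP d γ β k (‖z‖⁻¹ • z)) := by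
          unfold PP
          rw [lintegral_const_mul, mul_assoc]
          refine Measurable.ennreal_ofReal ?_
          have hi : Measurable (fun σ : Sp d => ⟪‖z‖⁻¹ • z, (σ : V d)⟫_ℝ) := measurable_const.inner hcoe
          exact ((measurable_kk hβ.meas).comp hi).mul ((hi.pow_const 2).pow_const k)
  exact (ENNReal.mul_le_mul_iff_right (by norm_num) (by norm_num)).1 h2I

lemma kk'_info {p K γ : ℝ} {β : ℝ → ℝ} (hβ : IsKer p K β) {τ : ℝ} (h0 : kk d γ (fun c => β (-c)) τ ≠ 0) :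
    0 < τ ∧ τ ^ 2 ≤ 1/2 ∧ 0 ≤ K ∧ kk d γ (fun c => β (-c)) τ ≤ 2 ^ d / 2 * τ ^ (-2 - γ) * (K * (2 * τ ^ 2) ^ (-p)) := by
  have hτ : 0 < τ := by
    by_contra hτ
    exact h0 (by unfold kk; rw [if_neg hτ])
  have hkk : kk d γ (fun c => β (-c)) τ = 2 ^ d / 2 * τ ^ (-2 - γ) * β (1 - 2 * τ ^ 2) := by
    unfold kk; rw [if_pos hτ]; congr 2; ring_nf
  have hb0 : β (1 - 2 * τ ^ 2) ≠ 0 := by
    rw [hkk] at h0; exact right_ne_zero_of_mul h0
  obtain ⟨hc0, hc1⟩ := hβ.supp _ hb0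
  have hb := hβ.bound _ hc0 hc1
  rw [show 1 - (1 - 2 * τ ^ 2) = 2 * τ ^ 2 by ring] at hb
  refine ⟨hτ, by linarith, hβ.K_nonneg hb0, ?_⟩
  rw [hkk]
  exact mul_le_mul_of_nonneg_left hb (by positivity)

/-- slow partner, slow outgoing velocity -/
lemma I2_bulk {p K γ m δ : ℝ} {β : ℝ → ℝ} (hβ : IsKer p K β) (hm : 0 ≤ m) {k : ℕ} (v h : V d)
    (hb : ∀ z : V d, ⟪z, h⟫_ℝ = 0 → 1 / δ ≤ ‖v‖ → ‖v + h‖ ≤ δ * ‖v‖ → ‖h‖ ≤ ‖z‖ →
      φ (k + 1) (v + z) ≤ φ (k + 1) v * (‖h‖ ^ 2 / (‖z‖ ^ 2 + ‖h‖ ^ 2)) ^ k)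
    (hv : 1 / δ ≤ ‖v‖) (hw : ‖v + h‖ ≤ δ * ‖v‖) :
    I2 γ β (k + 1) m v h ≤ ENNReal.ofReal (m * φ (k + 1) v) * PP d γ (fun c => β (-c)) k (‖h‖⁻¹ • h) := by
  have hcoe : Measurable (fun σ : Sp d => (σ : V d)) := measurable_subtype_coe
  unfold I2 PP
  rw [← lintegral_const_mul]
  · refine lintegral_mono fun σ => ?_
    rw [cos_eq]
    set τ := ⟪‖h‖⁻¹ • h, (σ : V d)⟫_ℝ with hτ
    by_cases h0 : kk d γ (fun c => β (-c)) τ = 0
    · simp [h0]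
    · obtain ⟨hτ0, hτ2, hK, _⟩ := kk'_info hβ h0
      have hk0 : 0 ≤ kk d γ (fun c => β (-c)) τ := kk_nonneg (fun c => hβ.nonneg _) _
      have hτ0' : 0 < ⟪h, (σ : V d)⟫_ℝ / ‖h‖ := by rw [cos_eq]; exact hτ0
      obtain ⟨hr, hin, hh0⟩ := tau_ratio (σ := (σ : V d)) (by simp) hτ0'
      have hn := norm_hh_sq (σ := (σ : V d)) (by simp) hin
      rw [cos_eq, ← hτ] at hr hn
      have hle : ‖h‖ ≤ ‖hh (σ : V d) h‖ := by
        refine (sq_le_sq₀ (norm_nonneg _) (norm_nonneg _)).1 ?_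
        rw [hn, le_div_iff₀ (by positivity)]
        exact mul_le_mul_of_nonneg_left (by linarith) (sq_nonneg _)
      have hs := hb (hh (σ : V d) h) (inner_hh hin) hv hw hle
      rw [add_comm (‖hh (σ : V d) h‖ ^ 2), hr] at hs
      have hφ := φ_pos (k + 1) v
      rw [← ENNReal.ofReal_mul hk0, ← ENNReal.ofReal_mul (by positivity)]
      refine ENNReal.ofReal_le_ofReal ?_
      have h1 : ω (k + 1) v (hh (σ : V d) h) h ≤ φ (k + 1) v * (τ ^ 2) ^ k := by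
        unfold ω
        split_ifs
        · positivity
        · exact hs
      calc kk d γ (fun c => β (-c)) τ * (m * ω (k + 1) v (hh (σ : V d) h) h)
          ≤ kk d γ (fun c => β (-c)) τ * (m * (φ (k + 1) v * (τ ^ 2) ^ k)) := by gcongr
        _ = _ := by ring
  · refine Measurable.ennreal_ofReal ?_
    have hi : Measurable (fun σ : Sp d => ⟪‖h‖⁻¹ • h, (σ : V d)⟫_ℝ) := measurable_const.inner hcoe
    have hbm : Measurable (fun c => β (-c)) := hβ.meas.comp measurable_neg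
    exact ((measurable_kk hbm).comp hi).mul ((hi.pow_const 2).pow_const k)

/-- slow outgoing velocity, crude bound -/
lemma I2_crude {p K γ m : ℝ} {β : ℝ → ℝ} (hβ : IsKer p K β) (hm : 0 ≤ m) {N : ℕ} (hγ : γ ≤ 2) (hp : p + 2 ≤ N) (v h : V d) :
    I2 γ β N m v h ≤ ENNReal.ofReal (m * φ N v) * (ENNReal.ofReal (2 * 2 ^ d * K * 256 ^ N) * (sm d) univ) := by
  unfold I2
  rw [← mul_assoc, ← lintegral_const]
  refine lintegral_mono fun σ => ?_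
  rw [cos_eq]
  set τ := ⟪‖h‖⁻¹ • h, (σ : V d)⟫_ℝ with hτ
  by_cases h0 : kk d γ (fun c => β (-c)) τ = 0
  · simp [h0]
  · obtain ⟨hτ0, hτ2, hK, hkb⟩ := kk'_info hβ h0
    have hk0 : 0 ≤ kk d γ (fun c => β (-c)) τ := kk_nonneg (fun c => hβ.nonneg _) _
    have hτ0' : 0 < ⟪h, (σ : V d)⟫_ℝ / ‖h‖ := by rw [cos_eq]; exact hτ0
    obtain ⟨_, hin, hh0⟩ := tau_ratio (σ := (σ : V d)) (by simp) hτ0'
    have hnz := norm_hh_sq (σ := (σ : V d)) (by simp) hin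
    rw [cos_eq, ← hτ] at hnz
    have hφ := φ_pos N v
    rw [← ENNReal.ofReal_mul hk0, ← ENNReal.ofReal_mul (by positivity)]
    refine ENNReal.ofReal_le_ofReal ?_
    unfold ω
    split_ifs with hχ
    · rw [mul_zero, mul_zero]; positivity
    · have hz : hh (σ : V d) h ≠ 0 := by
        rw [← norm_pos_iff]
        by_contra hlt
        have h1 : ‖hh (σ : V d) h‖ = 0 := le_antisymm (not_lt.1 hlt) (norm_nonneg _)
        rw [h1] at hnz
        have h2 : 0 < ‖h‖ ^ 2 * (1 - τ ^ 2) / τ ^ 2 := by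
          have : 0 < 1 - τ ^ 2 := by linarith
          positivity
        rw [← hnz] at h2; norm_num at h2
      obtain ⟨hr1, hr2⟩ := regionII N v (hh (σ : V d) h) h (inner_hh hin) hz hχ
      have hratio : ‖h‖ ^ 2 / ‖hh (σ : V d) h‖ ^ 2 ≤ 2 * τ ^ 2 := by
        have h1 : 0 < 1 - τ ^ 2 := by linarith
        rw [hnz, div_le_iff₀ (by positivity)]
        have : 2 * τ ^ 2 * (‖h‖ ^ 2 * (1 - τ ^ 2) / τ ^ 2) = 2 * (1 - τ ^ 2) * ‖h‖ ^ 2 := by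
          field_simp
        rw [this]
        nlinarith [sq_nonneg ‖h‖, mul_nonneg (sq_nonneg ‖h‖) (by linarith : (0:ℝ) ≤ 1/2 - τ ^ 2)]
      have hτ1 : τ ≤ 1 := by nlinarith
      have hkey : τ ^ (-2 - γ) * (2 * τ ^ 2) ^ (-p) * (2 * τ ^ 2) ^ N ≤ 4 := by
        have h2 : (0:ℝ) < 2 * τ ^ 2 := by positivity
        have e1 : (2 * τ ^ 2) ^ (-p) * (2 * τ ^ 2) ^ N = (2 * τ ^ 2) ^ 2 * (2 * τ ^ 2) ^ ((N:ℝ) - p - 2) := by
          rw [← Real.rpow_natCast (2 * τ ^ 2) N, ← Real.rpow_natCast (2 * τ ^ 2) 2, ← Real.rpow_add h2, ← Real.rpow_add h2]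
          congr 1; push_cast; ring
        have e2 : (2 * τ ^ 2) ^ ((N:ℝ) - p - 2) ≤ 1 := Real.rpow_le_one h2.le (by linarith) (by linarith)
        have e3 : τ ^ (-2 - γ) ≤ (τ ^ 4)⁻¹ := by
          have : τ ^ (-2 - γ) ≤ τ ^ (-4:ℝ) := Real.rpow_le_rpow_of_exponent_ge hτ0 hτ1 (by linarith)
          refine this.trans (le_of_eq ?_)
          rw [Real.rpow_neg hτ0.le, show ((4:ℝ)) = ((4:ℕ):ℝ) by norm_num, Real.rpow_natCast]
        rw [mul_assoc, e1]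
        calc τ ^ (-2 - γ) * ((2 * τ ^ 2) ^ 2 * (2 * τ ^ 2) ^ ((N:ℝ) - p - 2))
            ≤ (τ ^ 4)⁻¹ * ((2 * τ ^ 2) ^ 2 * 1) := by gcongr
          _ = 4 := by field_simp; norm_num
      have h2 : φ N (v + hh (σ : V d) h) ≤ 256 ^ N * φ N v * (2 * τ ^ 2) ^ N := by
        refine hr1.trans ?_
        gcongr
      have h3 := (φ_pos N (v + hh (σ : V d) h)).le
      calc kk d γ (fun c => β (-c)) τ * (m * φ N (v + hh (σ : V d) h))
          ≤ (2 ^ d / 2 * τ ^ (-2 - γ) * (K * (2 * τ ^ 2) ^ (-p))) * (m * (256 ^ N * φ N v * (2 * τ ^ 2) ^ N)) := by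
            gcongr
        _ = (m * φ N v) * (2 ^ d / 2 * K * 256 ^ N) * (τ ^ (-2 - γ) * (2 * τ ^ 2) ^ (-p) * (2 * τ ^ 2) ^ N) := by ring
        _ ≤ (m * φ N v) * (2 ^ d / 2 * K * 256 ^ N) * 4 := mul_le_mul_of_nonneg_left hkey (by positivity)
        _ = _ := by ring

end Pool.Agent.H821.BZ
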