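import Pool.Agent.H821.BZ.Hard

/-! The estimate at a touching point for hard potentials, final form. -/

set_option autoImplicit false
open MeasureTheory Metric Set
open scoped ENNReal Real InnerProductSpace Pointwise

namespace Pool.Agent.H821.BZ

variable {d : ℕ}

lemma measurable_I1 {γ m : ℝ} {β : ℝ → ℝ} (hβ : Measurable β) (N : ℕ) (v : V d) :
    Measurable (fun q : V d × Sp d => ENNReal.ofReal (kk d γ β (⟪q.1, (q.2 : V d)⟫_ℝ / ‖q.1‖)) *
      ENNReal.ofReal (m * ψ N v (hh (q.2 : V d) q.1))) := by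
  have hi : Measurable (fun q : V d × Sp d => ⟪q.1, (q.2 : V d)⟫_ℝ / ‖q.1‖) :=
    (measurable_fst.inner (measurable_subtype_coe.comp measurable_snd)).div measurable_fst.norm
  have h1 : Measurable (fun q : V d × Sp d => kk d γ β (⟪q.1, (q.2 : V d)⟫_ℝ / ‖q.1‖)) := (measurable_kk hβ).comp hi
  have h2 : Measurable (fun q : V d × Sp d => hh (q.2 : V d) q.1) :=
    measurable_hh.comp (measurable_fst.prodMk (measurable_subtype_coe.comp measurable_snd))
  have h3 : Measurable (fun q : V d × Sp d => m * ψ N v (hh (q.2 : V d) q.1)) :=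
    ((measurable_ψ N v).comp h2).const_mul m
  exact h1.ennreal_ofReal.mul h3.ennreal_ofReal

open Classical in
lemma measurable_ω2 (N : ℕ) (v : V d) : Measurable (fun q : V d × V d => ω N v q.1 q.2) := by
  unfold ω
  refine Measurable.ite ?_ measurable_const ?_
  · unfold χ
    exact (MeasurableSet.const _).union (measurableSet_le measurable_const
      ((measurable_const.add measurable_snd).norm.pow_const 2))
  · exact (continuous_φ N).measurable.comp (measurable_const.add measurable_fst)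

lemma meas_comp2r {α : Type*} [MeasurableSpace α] {F : V d → V d → ℝ} (hF : Measurable (fun p : V d × V d => F p.1 p.2))
    {A B : α → V d} (hA : Measurable A) (hB : Measurable B) : Measurable (fun x => F (A x) (B x)) :=
  hF.comp (hA.prodMk hB)

lemma measurable_I2 {γ m : ℝ} {β : ℝ → ℝ} (hβ : Measurable β) (N : ℕ) (v : V d) :
    Measurable (fun q : V d × Sp d => ENNReal.ofReal (kk d γ (fun c => β (-c)) (⟪q.1, (q.2 : V d)⟫_ℝ / ‖q.1‖)) *
      ENNReal.ofReal (m * ω N v (hh (q.2 : V d) q.1) q.1)) := by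
  have hi : Measurable (fun q : V d × Sp d => ⟪q.1, (q.2 : V d)⟫_ℝ / ‖q.1‖) :=
    (measurable_fst.inner (measurable_subtype_coe.comp measurable_snd)).div measurable_fst.norm
  have hbm : Measurable (fun c => β (-c)) := hβ.comp measurable_neg
  have h1 : Measurable (fun q : V d × Sp d => kk d γ (fun c => β (-c)) (⟪q.1, (q.2 : V d)⟫_ℝ / ‖q.1‖)) := (measurable_kk hbm).comp hi
  have h2 : Measurable (fun q : V d × Sp d => hh (q.2 : V d) q.1) :=
    measurable_hh.comp (measurable_fst.prodMk (measurable_subtype_coe.comp measurable_snd))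
  have h3 : Measurable (fun q : V d × Sp d => m * ω N v (hh (q.2 : V d) q.1) q.1) :=
    (meas_comp2r (F := fun z h => ω N v z h) (measurable_ω2 N v) h2 measurable_fst).const_mul m
  exact h1.ennreal_ofReal.mul h3.ennreal_ofReal

lemma meas_swp {F : V d → Sp d → ℝ≥0∞} (hF : Measurable (fun q : V d × Sp d => F q.1 q.2)) :
    Measurable (fun q : Sp d × V d => F q.2 q.1) := hF.comp measurable_swap

lemma meas_slice2 {F : V d → Sp d → ℝ≥0∞} (hF : Measurable (fun q : V d × Sp d => F q.1 q.2)) (z : V d) :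
    Measurable (fun σ => F z σ) := hF.comp (measurable_const.prodMk measurable_id)

/-- first integrand -/
noncomputable def F1 (γ : ℝ) (β : ℝ → ℝ) (N : ℕ) (m : ℝ) (v z : V d) (σ : Sp d) : ℝ≥0∞ :=
  ENNReal.ofReal (kk d γ β (⟪z, (σ : V d)⟫_ℝ / ‖z‖)) * ENNReal.ofReal (m * ψ N v (hh (σ : V d) z))

/-- second integrand -/
noncomputable def F2 (γ : ℝ) (β : ℝ → ℝ) (N : ℕ) (m : ℝ) (v z : V d) (σ : Sp d) : ℝ≥0∞ :=
  ENNReal.ofReal (kk d γ (fun c => β (-c)) (⟪z, (σ : V d)⟫_ℝ / ‖z‖)) * ENNReal.ofReal (m * ω N v (hh (σ : V d) z) z)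

lemma measurable_F1 {γ m : ℝ} {β : ℝ → ℝ} (hβ : Measurable β) (N : ℕ) (v : V d) :
    Measurable (fun q : V d × Sp d => F1 γ β N m v q.1 q.2) := measurable_I1 hβ N v

lemma measurable_F2 {γ m : ℝ} {β : ℝ → ℝ} (hβ : Measurable β) (N : ℕ) (v : V d) :
    Measurable (fun q : V d × Sp d => F2 γ β N m v q.1 q.2) := measurable_I2 hβ N v

/-- exchanging the integrals -/
lemma swap_int {G : V d → ℝ≥0∞} (hG : Measurable G) {F : V d → Sp d → ℝ≥0∞}
    (hF : Measurable (fun q : V d × Sp d => F q.1 q.2)) :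
    ∫⁻ σ : Sp d, (∫⁻ z : V d, G z * F z σ) ∂(sm d) = ∫⁻ z : V d, G z * ∫⁻ σ : Sp d, F z σ ∂(sm d) := by
  have h1 : Measurable (fun q : Sp d × V d => G q.2 * F q.2 q.1) := (hG.comp measurable_snd).mul (meas_swp hF)
  rw [lintegral_lintegral_swap h1.aemeasurable]
  refine lintegral_congr fun z => ?_
  exact lintegral_const_mul _ (meas_slice2 hF z)

/-- the gain term is bounded by the two contributions -/
lemma gain_le [Nontrivial (V d)] {p K γ m : ℝ} {N : ℕ} {β : ℝ → ℝ} (hβ : IsKer p K β) {f : V d → ℝ} (hf : Measurable f)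
    (v : V d) (hle : ∀ w, f w ≤ m * φ N w) :
    gain γ β f v ≤ ∫⁻ z : V d, ENNReal.ofReal (‖z‖ ^ γ) * ENNReal.ofReal (f (v + z)) * (I1 γ β N m v z + I2 γ β N m v z) := by
  have hβ1 : β (-1) = 0 := by
    by_contra h
    have := (hβ.supp _ h).1; norm_num at this
  have hβ2 : β 1 = 0 := by
    by_contra h
    have := (hβ.supp _ h).2; exact lt_irrefl _ this
  have hbm : Measurable (fun c => β (-c)) := hβ.meas.comp measurable_neg
  -- the two parts
  have hmeas1 : Measurable (fun p : Sp d × V d => ENNReal.ofReal (kern γ β p.1 p.2) *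
      (ENNReal.ofReal (f (v + T (p.1 : V d) p.2)) * ENNReal.ofReal (m * ψ N v (T (-(p.1 : V d)) p.2)))) := by
    have h1 : Measurable (fun p : Sp d × V d => ENNReal.ofReal (f (v + T (p.1 : V d) p.2))) :=
      (hf.comp (measurable_const.add measurable_T')).ennreal_ofReal
    have h2 : Measurable (fun p : Sp d × V d => ENNReal.ofReal (m * ψ N v (T (-(p.1 : V d)) p.2))) :=
      (((measurable_ψ N v).comp measurable_T'').const_mul m).ennreal_ofReal
    exact (measurable_kern' γ hβ.meas).mul (h1.mul h2)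
  have hmeas2 : Measurable (fun p : Sp d × V d => ENNReal.ofReal (kern γ β p.1 p.2) *
      (ENNReal.ofReal (m * ω N v (T (p.1 : V d) p.2) (T (-(p.1 : V d)) p.2)) * ENNReal.ofReal (f (v + T (-(p.1 : V d)) p.2)))) := by
    have h1 : Measurable (fun p : Sp d × V d => ENNReal.ofReal (f (v + T (-(p.1 : V d)) p.2))) :=
      (hf.comp (measurable_const.add measurable_T'')).ennreal_ofReal
    have h2 : Measurable (fun p : Sp d × V d => ENNReal.ofReal (m * ω N v (T (p.1 : V d) p.2) (T (-(p.1 : V d)) p.2))) :=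
      ((meas_comp2r (F := fun z h => ω N v z h) (measurable_ω2 N v) measurable_T' measurable_T'').const_mul m).ennreal_ofReal
    exact (measurable_kern' γ hβ.meas).mul (h2.mul h1)
  have hsplit : gain γ β f v ≤
      ∫⁻ σ : Sp d, (∫⁻ u : V d, ENNReal.ofReal (kern γ β σ u) *
        (ENNReal.ofReal (f (v + T (σ : V d) u)) * ENNReal.ofReal (m * ψ N v (T (-(σ : V d)) u)))) ∂(sm d) +
      ∫⁻ σ : Sp d, (∫⁻ u : V d, ENNReal.ofReal (kern γ β σ u) *
        (ENNReal.ofReal (m * ω N v (T (σ : V d) u) (T (-(σ : V d)) u)) * ENNReal.ofReal (f (v + T (-(σ : V d)) u)))) ∂(sm d) := by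
    rw [← lintegral_add_left hmeas1.lintegral_prod_right']
    unfold gain
    refine lintegral_mono fun σ => ?_
    have hmσ : Measurable (fun u : V d => ENNReal.ofReal (kern γ β σ u) *
      (ENNReal.ofReal (f (v + T (σ : V d) u)) * ENNReal.ofReal (m * ψ N v (T (-(σ : V d)) u)))) :=
      meas_slice (F := fun (σ : Sp d) (u : V d) => ENNReal.ofReal (kern γ β σ u) *
        (ENNReal.ofReal (f (v + T (σ : V d) u)) * ENNReal.ofReal (m * ψ N v (T (-(σ : V d)) u)))) hmeas1 σ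
    simp only
    rw [← lintegral_add_left hmσ]
    refine lintegral_mono fun u => ?_
    simp only
    rw [← mul_add]
    refine mul_le_mul' le_rfl ?_
    unfold ψ ω
    split_ifs with hχ
    · rw [mul_zero, ENNReal.ofReal_zero, zero_mul, add_zero]
      exact mul_le_mul' le_rfl (ENNReal.ofReal_le_ofReal (hle _))
    · rw [mul_zero, ENNReal.ofReal_zero, mul_zero, zero_add]
      exact mul_le_mul' (ENNReal.ofReal_le_ofReal (hle _)) le_rfl
  refine hsplit.trans ?_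
  have hGm : Measurable (fun z : V d => ENNReal.ofReal (‖z‖ ^ γ) * ENNReal.ofReal (f (v + z))) :=
    (measurable_norm.pow_const γ).ennreal_ofReal.mul ((hf.comp (measurable_const.add measurable_id)).ennreal_ofReal)
  have hI1m : Measurable (fun z : V d => I1 γ β N m v z) :=
    (measurable_I1 (γ := γ) (m := m) hβ.meas N v).lintegral_prod_right'
  -- first part
  have e1 : ∫⁻ σ : Sp d, (∫⁻ u : V d, ENNReal.ofReal (kern γ β σ u) *
        (ENNReal.ofReal (f (v + T (σ : V d) u)) * ENNReal.ofReal (m * ψ N v (T (-(σ : V d)) u)))) ∂(sm d) =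
      ∫⁻ z : V d, ENNReal.ofReal (‖z‖ ^ γ) * ENNReal.ofReal (f (v + z)) * I1 γ β N m v z := by
    refine Eq.trans (lintegral_congr fun σ => ?_) (swap_int hGm (measurable_F1 (γ := γ) (m := m) hβ.meas N v))
    refine (master (by simp) hβ1 γ (fun z h => ENNReal.ofReal (f (v + z)) * ENNReal.ofReal (m * ψ N v h))).trans ?_
    refine lintegral_congr fun z => ?_
    rw [ENNReal.ofReal_mul (by positivity)]; ring
  have e2 : ∫⁻ σ : Sp d, (∫⁻ u : V d, ENNReal.ofReal (kern γ β σ u) *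
        (ENNReal.ofReal (m * ω N v (T (σ : V d) u) (T (-(σ : V d)) u)) * ENNReal.ofReal (f (v + T (-(σ : V d)) u)))) ∂(sm d) =
      ∫⁻ z : V d, ENNReal.ofReal (‖z‖ ^ γ) * ENNReal.ofReal (f (v + z)) * I2 γ β N m v z := by
    rw [← lintegral_rot (LinearIsometryEquiv.neg ℝ) hmeas2.lintegral_prod_right']
    refine Eq.trans (lintegral_congr fun σ => ?_) (swap_int hGm (measurable_F2 (γ := γ) (m := m) hβ.meas N v))
    have hmas := master (σ := (σ : V d)) (by simp) (β := fun c => β (-c)) (by simpa using hβ2) γ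
      (fun h z => ENNReal.ofReal (m * ω N v z h) * ENNReal.ofReal (f (v + h)))
    refine Eq.trans (lintegral_congr fun u => ?_) (hmas.trans (lintegral_congr fun z => ?_))
    · simp only [rot_coe, LinearIsometryEquiv.coe_neg, neg_neg]
      unfold kern
      rw [inner_neg_right, neg_div]
    · rw [ENNReal.ofReal_mul (by positivity)]; ring
  have hprod : Measurable (fun z : V d => ENNReal.ofReal (‖z‖ ^ γ) * ENNReal.ofReal (f (v + z)) * I1 γ β N m v z) :=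
    hGm.mul hI1m
  rw [e1, e2, ← lintegral_add_left hprod]
  refine le_of_eq (lintegral_congr fun z => ?_)
  rw [mul_add]

/-- the estimate for one relative position -/
lemma per_z (hd : 2 ≤ d) {p K γ a m δ Cs : ℝ} {n : ℕ} {β : ℝ → ℝ} (hβ : IsKer p K β)
    (hγ0 : 0 ≤ γ) (hγ2 : γ ≤ 2) (hn : d + γ < 2 * n) (hp : p + 2 ≤ n + 2) (ha0 : 0 < a) (ha2 : a ≤ 2) (hm : 0 ≤ m) (hCs : 0 ≤ Cs)
    (hδ : 0 < δ)
    (hb1 : ∀ v z h : V d, ⟪z, h⟫_ℝ = 0 → 1 / δ ≤ ‖v‖ → ‖v + z‖ ≤ δ * ‖v‖ →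
      ψ (n + 1 + 1) v h + ψ (n + 1 + 1) v (-h) ≤ 2 * φ (n + 1 + 1) v * (‖z‖ ^ 2 / (‖z‖ ^ 2 + ‖h‖ ^ 2)) ^ (n + 1))
    (hb2 : ∀ v z h : V d, ⟪z, h⟫_ℝ = 0 → 1 / δ ≤ ‖v‖ → ‖v + h‖ ≤ δ * ‖v‖ → ‖h‖ ≤ ‖z‖ →
      φ (n + 1 + 1) (v + z) ≤ φ (n + 1 + 1) v * (‖h‖ ^ 2 / (‖z‖ ^ 2 + ‖h‖ ^ 2)) ^ (n + 1))
    (hsec : ∀ v h : V d, ψ (n + 1 + 1) v h + ψ (n + 1 + 1) v (-h) ≤
      φ (n + 1 + 1) v * (2 + Cs * min 1 (‖h‖ ^ 2 / (1 + ‖v‖ ^ 2))))
    {C0 D : ℝ≥0∞} {e : V d} (he : ‖e‖ = 1)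
    (hA : ∀ e : V d, ‖e‖ = 1 → AA d γ β e ≤ BB d β e + C0)
    (hD : ∀ e : V d, ‖e‖ = 1 → ∫⁻ σ : Sp d, ENNReal.ofReal (kk d γ β ⟪e, (σ : V d)⟫_ℝ *
      (2 - 2 * ⟪e, (σ : V d)⟫_ℝ ^ 2) ^ (a / 2)) ∂(sm d) ≤ D)
    (v z : V d) (hz : z ≠ 0) {F : ℝ} (hF : 0 ≤ F) :
    ENNReal.ofReal (‖z‖ ^ γ) * ENNReal.ofReal F * (I1 γ β (n + 1 + 1) m v z + I2 γ β (n + 1 + 1) m v z) ≤
      ENNReal.ofReal (m * φ (n + 1 + 1) v) * BB d β e * (ENNReal.ofReal (‖z‖ ^ γ) * ENNReal.ofReal F) +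
      ENNReal.ofReal (m * φ (n + 1 + 1) v) * (ENNReal.ofReal ((1 + 1 / δ) ^ 4) *
        (C0 + ENNReal.ofReal Cs * D + ENNReal.ofReal (2 * 2 ^ d * K * 256 ^ (n + 1 + 1)) * (sm d) univ)) *
        ENNReal.ofReal (F * (1 + ‖v + z‖) ^ (γ + a)) := by
  have hn1 : ‖(‖z‖⁻¹ • z)‖ = 1 := by
    rw [norm_smul, norm_inv, norm_norm, inv_mul_cancel₀ (norm_ne_zero_iff.2 hz)]
  have hBe : BB d β (‖z‖⁻¹ • z) = BB d β e := zonal_eq _ e hn1 he hβ.meas.ennreal_ofReal
  by_cases hbk : 1 / δ ≤ ‖v‖ ∧ ‖v + z‖ ≤ δ * ‖v‖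
  · obtain ⟨hv, hw⟩ := hbk
    have h1 := I1_bulk (γ := γ) hβ hm v z hz (hb1 v z) hv hw
    have h2 := I2_bulk (γ := γ) hβ hm v z (fun y => hb2 v y z) hv hw
    have h3 := povz hd hβ hγ0 hn (‖z‖⁻¹ • z) hn1
    refine le_add_right ?_
    calc ENNReal.ofReal (‖z‖ ^ γ) * ENNReal.ofReal F * (I1 γ β (n + 1 + 1) m v z + I2 γ β (n + 1 + 1) m v z)
        ≤ ENNReal.ofReal (‖z‖ ^ γ) * ENNReal.ofReal F * (ENNReal.ofReal (m * φ (n + 1 + 1) v) * BB d β e) := by
          refine mul_le_mul' le_rfl ((add_le_add h1 h2).trans ?_)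
          rw [← mul_add, ← hBe]
          exact mul_le_mul' le_rfl h3
      _ = _ := by ring
  · set L : ℝ := 1 + 1 / δ with hL
    have hL1 : 1 ≤ L := by rw [hL]; have : 0 < 1 / δ := by positivity
                           linarith
    have hw0 : 0 ≤ ‖v + z‖ := norm_nonneg _
    have hzL : ‖z‖ ≤ L * (1 + ‖v + z‖) := by
      have h1 : ‖z‖ ≤ ‖v + z‖ + ‖v‖ := by
        have := norm_sub_le (v + z) v; rwa [add_sub_cancel_left] at this
      have h2 : ‖v‖ ≤ 1 / δ * (1 + ‖v + z‖) := by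
        rw [not_and_or] at hbk
        rcases hbk with h | h
        · push Not at h
          have : 0 < 1 / δ := by positivity
          nlinarith [mul_nonneg this.le hw0]
        · push Not at h
          have : ‖v‖ ≤ 1 / δ * ‖v + z‖ := by
            rw [one_div, ← div_eq_inv_mul, le_div_iff₀ hδ]; linarith
          have h3 : 0 < 1 / δ := by positivity
          linarith
      rw [hL]; nlinarith
    have hz0 : 0 ≤ ‖z‖ := norm_nonneg z
    have hpow : ∀ x : ℝ, 0 ≤ x → x ≤ 2 → ‖z‖ ^ x ≤ L ^ 2 * (1 + ‖v + z‖) ^ x := by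
      intro x hx0 hx2
      calc ‖z‖ ^ x ≤ (L * (1 + ‖v + z‖)) ^ x := Real.rpow_le_rpow hz0 hzL hx0
        _ = L ^ x * (1 + ‖v + z‖) ^ x := Real.mul_rpow (by positivity) (by positivity)
        _ ≤ L ^ (2:ℝ) * (1 + ‖v + z‖) ^ x := by
            refine mul_le_mul_of_nonneg_right ?_ (by positivity)
            exact Real.rpow_le_rpow_of_exponent_le hL1 hx2
        _ = L ^ 2 * (1 + ‖v + z‖) ^ x := by norm_cast
    have hg := hpow γ hγ0 hγ2
    have hga := hpow a ha0.le ha2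
    have hratio : (‖z‖ ^ 2 / (1 + ‖v‖ ^ 2)) ^ (a / 2) ≤ L ^ 2 * (1 + ‖v + z‖) ^ a := by
      refine le_trans ?_ hga
      calc (‖z‖ ^ 2 / (1 + ‖v‖ ^ 2)) ^ (a / 2) ≤ (‖z‖ ^ 2) ^ (a / 2) := by
            refine Real.rpow_le_rpow (by positivity) ?_ (by positivity)
            exact div_le_self (by positivity) (by nlinarith [sq_nonneg ‖v‖])
        _ = ‖z‖ ^ a := by
            rw [← Real.rpow_natCast ‖z‖ 2, ← Real.rpow_mul hz0]; congr 1; push_cast; ring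
    have h1w : 1 ≤ 1 + ‖v + z‖ := by linarith
    have ha1 : 1 ≤ (1 + ‖v + z‖) ^ a := Real.one_le_rpow h1w ha0.le
    have hL4 : L ^ 2 ≤ L ^ 4 := pow_le_pow_right₀ hL1 (by norm_num)
    have hwγ : 0 ≤ (1 + ‖v + z‖) ^ γ := by positivity
    -- real inequalities
    have r1 : ‖z‖ ^ γ * F ≤ L ^ 4 * (F * (1 + ‖v + z‖) ^ (γ + a)) := by
      rw [Real.rpow_add (by linarith)]
      calc ‖z‖ ^ γ * F ≤ L ^ 2 * (1 + ‖v + z‖) ^ γ * F := mul_le_mul_of_nonneg_right hg hF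
        _ ≤ L ^ 4 * (1 + ‖v + z‖) ^ γ * F := by gcongr
        _ = L ^ 4 * (F * ((1 + ‖v + z‖) ^ γ * 1)) := by ring
        _ ≤ L ^ 4 * (F * ((1 + ‖v + z‖) ^ γ * (1 + ‖v + z‖) ^ a)) := by gcongr
    have r2 : ‖z‖ ^ γ * F * (Cs * (‖z‖ ^ 2 / (1 + ‖v‖ ^ 2)) ^ (a / 2)) ≤ Cs * (L ^ 4 * (F * (1 + ‖v + z‖) ^ (γ + a))) := by
      rw [Real.rpow_add (by linarith)]
      calc ‖z‖ ^ γ * F * (Cs * (‖z‖ ^ 2 / (1 + ‖v‖ ^ 2)) ^ (a / 2))
          ≤ (L ^ 2 * (1 + ‖v + z‖) ^ γ) * F * (Cs * (L ^ 2 * (1 + ‖v + z‖) ^ a)) := by gcongr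
        _ = _ := by ring
    set Y := ENNReal.ofReal (F * (1 + ‖v + z‖) ^ (γ + a)) with hY
    have s1 : ENNReal.ofReal (‖z‖ ^ γ) * ENNReal.ofReal F ≤ ENNReal.ofReal (L ^ 4) * Y := by
      rw [hY, ← ENNReal.ofReal_mul (by positivity), ← ENNReal.ofReal_mul (by positivity)]
      exact ENNReal.ofReal_le_ofReal r1
    have s2 : ENNReal.ofReal (‖z‖ ^ γ) * ENNReal.ofReal F * ENNReal.ofReal (Cs * (‖z‖ ^ 2 / (1 + ‖v‖ ^ 2)) ^ (a / 2)) ≤
        ENNReal.ofReal Cs * (ENNReal.ofReal (L ^ 4) * Y) := by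
      rw [hY, ← ENNReal.ofReal_mul (by positivity), ← ENNReal.ofReal_mul (by positivity), ← ENNReal.ofReal_mul (by positivity),
        ← ENNReal.ofReal_mul (by positivity)]
      exact ENNReal.ofReal_le_ofReal r2
    have hib : I1 γ β (n + 1 + 1) m v z ≤ ENNReal.ofReal (m * φ (n + 1 + 1) v) * (AA d γ β (‖z‖⁻¹ • z) +
        ENNReal.ofReal (Cs * (‖z‖ ^ 2 / (1 + ‖v‖ ^ 2)) ^ (a / 2)) * D) :=
      inner_bound ha0 ha2 hγ2 hm hCs hsec hβ v z hz (hD _ hn1)
    have hic := I2_crude (γ := γ) hβ hm hγ2 (N := n + 1 + 1) (by push_cast; linarith) v z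
    have hAe : AA d γ β (‖z‖⁻¹ • z) ≤ BB d β e + C0 := (hA _ hn1).trans (by rw [hBe])
    set Φ := ENNReal.ofReal (m * φ (n + 1 + 1) v) with hΦ
    set C2 := ENNReal.ofReal (2 * 2 ^ d * K * 256 ^ (n + 1 + 1)) * (sm d) univ with hC2
    set G := ENNReal.ofReal (‖z‖ ^ γ) * ENNReal.ofReal F with hG
    calc G * (I1 γ β (n + 1 + 1) m v z + I2 γ β (n + 1 + 1) m v z)
        ≤ G * (Φ * ((BB d β e + C0) + ENNReal.ofReal (Cs * (‖z‖ ^ 2 / (1 + ‖v‖ ^ 2)) ^ (a / 2)) * D) + Φ * C2) := by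
          refine mul_le_mul' le_rfl (add_le_add (hib.trans ?_) hic)
          gcongr
      _ = Φ * BB d β e * G + Φ * (C0 * G + (G * ENNReal.ofReal (Cs * (‖z‖ ^ 2 / (1 + ‖v‖ ^ 2)) ^ (a / 2))) * D + C2 * G) := by ring
      _ ≤ Φ * BB d β e * G + Φ * (C0 * (ENNReal.ofReal (L ^ 4) * Y) + (ENNReal.ofReal Cs * (ENNReal.ofReal (L ^ 4) * Y)) * D +
            C2 * (ENNReal.ofReal (L ^ 4) * Y)) := by gcongr
      _ = _ := by ring

/-- the collision operator at a point where `f` touches `m (1+|v|²)^{-N}` from below, hard potentials -/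
theorem est_hard (hd : 2 ≤ d) {s K γ a : ℝ} (hs1 : s < 1) (hsa : 2 * s < a) (ha0 : 0 < a) (ha2 : a ≤ 2)
    (hγ0 : 0 ≤ γ) (hγ2 : γ < 2) {N : ℕ} (hN : (d:ℝ) + 6 ≤ 2 * N) :
    ∃ C : ℝ, 0 ≤ C ∧ ∀ β : ℝ → ℝ, IsKer ((d - 1) / 2 + s) K β → ∀ f : V d → ℝ, Measurable f →
      (∀ w, 0 ≤ f w) → ∀ (m : ℝ) (v : V d), (∀ w, f w ≤ m * φ N w) → f v = m * φ N v →
      gain γ β f v ≤ loss γ β f v + ENNReal.ofReal (C * f v) * mom 0 (γ + a) f v := by
  have : Nontrivial (Fin d) := Fin.nontrivial_iff_two_le.2 hd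
  have : Nonempty (Fin d) := inferInstance
  have : Nontrivial (V d) := inferInstance
  obtain ⟨i0⟩ : Nonempty (Fin d) := inferInstance
  have hd0 : (0:ℝ) ≤ d := by positivity
  obtain ⟨n, rfl⟩ : ∃ n, N = n + 1 + 1 := by
    rcases N with _ | _ | n
    · exfalso; push_cast at hN; linarith
    · exfalso; push_cast at hN; linarith
    · exact ⟨n, rfl⟩
  have hn : d + γ < 2 * n := by push_cast at hN; linarith
  set e : V d := EuclideanSpace.single i0 1 with he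
  have hen : ‖e‖ = 1 := by simp [he]
  have hd2 : (2:ℝ) ≤ d := by exact_mod_cast hd
  obtain ⟨C0, hC0, hA⟩ := cancel (K := K) (γ := γ) hd hs1 (by linarith)
  obtain ⟨D, hD, hDD⟩ := kk_moment (K := K) (γ := γ) hd hsa (by linarith)
  obtain ⟨Cs, hCs, hsec⟩ := secdiff (d := d) (n + 1 + 1)
  obtain ⟨δ, hδ, hδ2, hb1, hb2⟩ := bulk (d := d) (n + 1)
  set Ct : ℝ≥0∞ := ENNReal.ofReal ((1 + 1 / δ) ^ 4) *
        (C0 + ENNReal.ofReal Cs * D + ENNReal.ofReal (2 * 2 ^ d * K * 256 ^ (n + 1 + 1)) * (sm d) univ) with hCt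
  have hCtop : Ct ≠ ⊤ := by
    rw [hCt]
    exact ENNReal.mul_ne_top ENNReal.ofReal_ne_top (ENNReal.add_ne_top.2
      ⟨ENNReal.add_ne_top.2 ⟨hC0, ENNReal.mul_ne_top ENNReal.ofReal_ne_top hD⟩,
      ENNReal.mul_ne_top ENNReal.ofReal_ne_top (measure_ne_top _ _)⟩)
  refine ⟨Ct.toReal, ENNReal.toReal_nonneg, fun β hβ f hf hf0 m v hle hv => ?_⟩
  have hφv := φ_pos (n + 1 + 1) v
  have hm : 0 ≤ m := by
    have := hf0 v; rw [hv] at this
    exact nonneg_of_mul_nonneg_left this hφv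
  have hae0 : ∀ᵐ u : V d, u ≠ 0 := by
    rw [ae_iff]; simp
  have hGm : Measurable (fun z : V d => ENNReal.ofReal (‖z‖ ^ γ) * ENNReal.ofReal (f (v + z))) :=
    (measurable_norm.pow_const γ).ennreal_ofReal.mul ((hf.comp (measurable_const.add measurable_id)).ennreal_ofReal)
  have hfz : Measurable (fun z : V d => f (v + z)) := hf.comp (measurable_const.add measurable_id)
  have hYm : Measurable (fun z : V d => ENNReal.ofReal (f (v + z) * (1 + ‖v + z‖) ^ (γ + a))) := by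
    refine (hfz.mul ?_).ennreal_ofReal
    fun_prop
  have hsec' : ∀ v h : V d, ψ (n + 1 + 1) v h + ψ (n + 1 + 1) v (-h) ≤
      φ (n + 1 + 1) v * (2 + Cs * min 1 (‖h‖ ^ 2 / (1 + ‖v‖ ^ 2))) := fun v h => by
    have := hsec v h
    unfold ψ; convert this using 2
  calc gain γ β f v ≤ ∫⁻ z : V d, ENNReal.ofReal (‖z‖ ^ γ) * ENNReal.ofReal (f (v + z)) *
        (I1 γ β (n + 1 + 1) m v z + I2 γ β (n + 1 + 1) m v z) := gain_le hβ hf v hle
    _ ≤ ∫⁻ z : V d, (ENNReal.ofReal (m * φ (n + 1 + 1) v) * BB d β e * (ENNReal.ofReal (‖z‖ ^ γ) * ENNReal.ofReal (f (v + z))) +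
          ENNReal.ofReal (m * φ (n + 1 + 1) v) * Ct * ENNReal.ofReal (f (v + z) * (1 + ‖v + z‖) ^ (γ + a))) := by
        refine lintegral_mono_ae (hae0.mono fun z hz => ?_)
        exact per_z hd hβ hγ0 hγ2.le hn (by push_cast at hN; linarith) ha0 ha2 hm hCs hδ hb1 hb2 hsec' hen
          (hA β hβ) (hDD β hβ) v z hz (hf0 _)
    _ = ENNReal.ofReal (m * φ (n + 1 + 1) v) * BB d β e * (∫⁻ z : V d, ENNReal.ofReal (‖z‖ ^ γ) * ENNReal.ofReal (f (v + z))) +
          ENNReal.ofReal (m * φ (n + 1 + 1) v) * Ct * ∫⁻ z : V d, ENNReal.ofReal (f (v + z) * (1 + ‖v + z‖) ^ (γ + a)) := by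
        rw [lintegral_add_left (hGm.const_mul _), lintegral_const_mul _ hGm, lintegral_const_mul _ hYm]
    _ ≤ ENNReal.ofReal (m * φ (n + 1 + 1) v) * BB d β e * (∫⁻ z : V d, ENNReal.ofReal (‖z‖ ^ γ) * ENNReal.ofReal (f (v + z))) +
          ENNReal.ofReal (m * φ (n + 1 + 1) v) * Ct * mom 0 (γ + a) f v := by
        refine add_le_add le_rfl (mul_le_mul' le_rfl ?_)
        rw [mom_shift]
        refine lintegral_mono fun z => ENNReal.ofReal_le_ofReal ?_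
        have h1 := hf0 (v + z)
        rw [Real.rpow_zero]; nlinarith
    _ = _ := by
        rw [loss_eq hβ.meas hf v e hen, ← hv, ENNReal.ofReal_mul ENNReal.toReal_nonneg, ENNReal.ofReal_toReal hCtop]
        ring

end Pool.Agent.H821.BZ
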