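import Pool.Agent.H821.BZ.Grow

/-! Assembly. -/

set_option autoImplicit false
open MeasureTheory Metric Set Filter Topology
open scoped ENNReal Real InnerProductSpace Pointwise

namespace Pool.Agent.H821.BZ

variable {d : ℕ}

/-- largest moment at time `t` -/
noncomputable def Lam (g a : ℝ) (f : ℝ → V d → V d → ℝ) (t : ℝ) : ℝ≥0∞ := ⨆ x : V d, ⨆ v : V d, mom g a (f t x) v

/-- mass density -/
noncomputable def rho (f : ℝ → V d → V d → ℝ) (t : ℝ) (x : V d) : ℝ := ∫ v, f t x v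

/-- energy density -/
noncomputable def ener (f : ℝ → V d → V d → ℝ) (t : ℝ) (x : V d) : ℝ := ∫ v, f t x v * ‖v‖ ^ 2

/-- mass and energy densities are bounded on `[0,T)` -/
def HB (T : ℝ) (f : ℝ → V d → V d → ℝ) : Prop :=
  ∃ M, ∀ t ∈ Ico 0 T, ∀ x, rho f t x ≤ M ∧ ener f t x ≤ M

/-- moments are bounded by weights -/
def MomB (d : ℕ) (g a : ℝ) (N : ℕ) : Prop := ∃ K1 : ℝ, 0 ≤ K1 ∧ ∀ (f : V d → ℝ) (m : ℝ), 0 ≤ m →
  (∀ w, f w ≤ m * φ N w) → ∀ v, mom g a f v ≤ ENNReal.ofReal (K1 * m)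

section
variable {γ T g a : ℝ} {b : ℝ → ℝ} {f : ℝ → V d → V d → ℝ}

lemma Lam_bdd {N : ℕ} (hm : MomB d g a N) (h : IsSol γ b T f) {t₂ : ℝ} (ht₂ : t₂ ∈ Ico 0 T) :
    ∃ L : ℝ, 0 ≤ L ∧ ∀ t ∈ Icc 0 t₂, Lam g a f t ≤ ENNReal.ofReal L := by
  obtain ⟨K1, hK1, hmom⟩ := hm
  obtain ⟨C, hC, hCb⟩ := h.decayφ ht₂ N
  exact ⟨K1 * C, mul_nonneg hK1 hC, fun t ht => iSup_le fun x => iSup_le fun v => hmom (f t x) C hC (hCb t ht x) v⟩

/-- the moments are continuous from the left -/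
lemma mom_left' {N : ℕ} (hm : MomB d g a N) (h : IsSol γ b T f) {t₀ : ℝ} (ht₀ : t₀ ∈ Ioo 0 T) (x v : V d) :
    Tendsto (fun t => mom g a (f t x) v) (𝓝[<] t₀) (𝓝 (mom g a (f t₀ x) v)) := by
  obtain ⟨K1, hK1, hmom⟩ := hm
  obtain ⟨m, hm, hmle⟩ := h.decayφ (t₂ := t₀) ⟨ht₀.1.le, ht₀.2⟩ N
  have hIco : Ico 0 t₀ ∈ 𝓝[<] t₀ := Ico_mem_nhdsLT ht₀.1
  unfold mom
  refine tendsto_lintegral_filter_of_dominated_convergence
    (fun w => ENNReal.ofReal ((m * φ N w) * (‖w - v‖ ^ g + (1 + ‖w‖) ^ a))) ?_ ?_ ?_ ?_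
  · filter_upwards [hIco] with t ht
    refine (Measurable.mul (h.measurable ⟨ht.1, ht.2.trans ht₀.2⟩ x) ?_).ennreal_ofReal
    fun_prop
  · filter_upwards [hIco] with t ht
    refine Eventually.of_forall fun w => ENNReal.ofReal_le_ofReal ?_
    exact mul_le_mul_of_nonneg_right (hmle t ⟨ht.1, ht.2.le⟩ x w) (by positivity)
  · exact ne_top_of_le_ne_top ENNReal.ofReal_ne_top (hmom (fun w => m * φ N w) m hm (fun w => le_rfl) v)
  · refine Eventually.of_forall fun w => ?_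
    exact ENNReal.tendsto_ofReal ((h.timecont ht₀ x w).mul_const _)

/-- the estimate at touching points, for one solution -/
def TouchB (C g a : ℝ) (N : ℕ) (T : ℝ) (f : ℝ → V d → V d → ℝ) : Prop :=
  ∀ t ∈ Ioo 0 T, ∀ (x v : V d) (m : ℝ), (∀ w, f t x w ≤ m * φ N w) → f t x v = m * φ N v →
      fderiv ℝ (fun p : ℝ × V d => f p.1 p.2 v) (t, x) (1, v) ≤ C * f t x v * (mom g a (f t x) v).toReal

theorem growth_main {N : ℕ} (hm : MomB d g a N) (h : IsSol γ b T f) {C : ℝ} (hC : 0 ≤ C) (ht : TouchB C g a N T f)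
    {t₁ : ℝ} (ht₁ : t₁ ∈ Ico 0 T) {A : ℝ} (hA : ∀ x v, f t₁ x v ≤ A * φ N v) :
    ∀ t ∈ Ico t₁ T, ∀ x v, f t x v ≤ A * Real.exp (C * (∫⁻ τ in Ico t₁ t, Lam g a f τ).toReal) * φ N v := by
  have hL : ∀ t₂ ∈ Ico t₁ T, ∃ L : ℝ, 0 ≤ L ∧ ∀ t ∈ Icc t₁ t₂, Lam g a f t ≤ ENNReal.ofReal L := fun t₂ ht₂ => by
    obtain ⟨L, hL0, hLb⟩ := Lam_bdd hm h (t₂ := t₂) ⟨ht₁.1.trans ht₂.1, ht₂.2⟩
    exact ⟨L, hL0, fun t ht => hLb t ⟨ht₁.1.trans ht.1, ht.2⟩⟩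
  refine growth (J := JJ (Lam g a f) t₁) (μ := fun t x v => (mom g a (f t x) v).toReal) h hC ht₁ (JJ_cont hL) ?_
    (fun _ _ _ => ENNReal.toReal_nonneg) ?_ ?_ hA
  · unfold JJ; simp
  · intro t ht' x v m hle hv
    exact ht t ⟨ht₁.1.trans_lt ht'.1, ht'.2⟩ x v m hle hv
  · intro t₀ ht₀ x v l hl
    exact JJ_lower hL (m := fun t => mom g a (f t x) v) (fun t => le_iSup₂_of_le x v le_rfl) ht₀
      (mom_left' hm h ⟨ht₁.1.trans_lt ht₀.1, ht₀.2⟩ x v) hl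

/-- a weighted bound near `T` gives hydrodynamic bounds -/
lemma HB_of {N : ℕ} (hN : (d:ℝ) + 3 ≤ 2 * N) (h : IsSol γ b T f) {t₁ : ℝ} (ht₁ : t₁ ∈ Ico 0 T) {M : ℝ}
    (hM : ∀ t ∈ Ico t₁ T, ∀ x v, f t x v ≤ M * φ N v) : HB T f := by
  obtain ⟨P, hP, hPb⟩ := hydro_le (d := d) hN
  obtain ⟨C, hC, hCb⟩ := h.decayφ ht₁ N
  have hM0 : 0 ≤ M := by
    have h1 := (h.nonneg t₁ ht₁ 0 0).trans (hM t₁ ⟨le_rfl, ht₁.2⟩ 0 0)
    exact nonneg_of_mul_nonneg_left h1 (φ_pos N 0)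
  refine ⟨P * max M C, fun t ht x => ?_⟩
  refine hPb (f t x) (max M C) (le_max_of_le_left hM0) (h.nonneg t ht x) fun w => ?_
  rcases le_total t t₁ with h1 | h1
  · exact (hCb t ⟨ht.1, h1⟩ x w).trans (mul_le_mul_of_nonneg_right (le_max_right _ _) (φ_pos N w).le)
  · exact (hM t ⟨h1, ht.2⟩ x w).trans (mul_le_mul_of_nonneg_right (le_max_left _ _) (φ_pos N w).le)

theorem HB_of_int {N : ℕ} (hN : (d:ℝ) + 3 ≤ 2 * N) (hm : MomB d g a N) (h : IsSol γ b T f) {C : ℝ} (hC : 0 ≤ C)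
    (ht : TouchB C g a N T f) (hT : 0 < T) (hint : ∫⁻ τ in Ico 0 T, Lam g a f τ ≠ ⊤) : HB T f := by
  obtain ⟨A, hA, hAb⟩ := h.decayφ (t₂ := 0) ⟨le_rfl, hT⟩ N
  have hg := growth_main hm h hC ht (t₁ := 0) ⟨le_rfl, hT⟩ (A := A) (fun x v => hAb 0 ⟨le_rfl, le_rfl⟩ x v)
  refine HB_of hN h (t₁ := 0) ⟨le_rfl, hT⟩ (M := A * Real.exp (C * (∫⁻ τ in Ico 0 T, Lam g a f τ).toReal))
    fun t ht x v => (hg t ht x v).trans ?_
  have hφ := (φ_pos N v).le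
  have h1 : (∫⁻ τ in Ico 0 t, Lam g a f τ).toReal ≤ (∫⁻ τ in Ico 0 T, Lam g a f τ).toReal :=
    ENNReal.toReal_mono hint (lintegral_mono_set (Ico_subset_Ico_right ht.2.le))
  gcongr

/-- rate of blow-up -/
theorem rate {N : ℕ} (hN : (d:ℝ) + 3 ≤ 2 * N) {K1 : ℝ} (hK1 : 0 ≤ K1)
    (hm : ∀ (f : V d → ℝ) (m : ℝ), 0 ≤ m → (∀ w, f w ≤ m * φ N w) → ∀ v, mom g a f v ≤ ENNReal.ofReal (K1 * m))
    (h : IsSol γ b T f) {C : ℝ} (hC : 0 ≤ C) (ht : TouchB C g a N T f) (hHB : ¬ HB T f)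
    {t₁ : ℝ} (ht₁ : t₁ ∈ Ico 0 T) {A : ℝ} (hA : ∀ x v, f t₁ x v ≤ A * φ N v) :
    1 / (2 * (C * K1 + 1) * (T - t₁)) ≤ A := by
  by_contra hcon
  push Not at hcon
  apply hHB
  have hA0 : 0 ≤ A := by
    have h1 := (h.nonneg t₁ ht₁ 0 0).trans (hA 0 0)
    exact nonneg_of_mul_nonneg_left h1 (φ_pos N 0)
  obtain ⟨m1, hm1, hm2⟩ := exists_between hcon
  have hm10 : 0 < m1 := hA0.trans_lt hm1
  set K2 := 2 * (C * K1 + 1) with hK2
  have hK2pos : 0 < K2 := by positivity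
  have hTt : 0 < T - t₁ := by linarith [ht₁.2]
  have hgap : K2 * (T - t₁) < 1 / m1 := by
    rw [lt_div_iff₀ (by positivity)] at hm2
    rw [lt_div_iff₀ hm10]; linarith
  set D : ℝ → ℝ := fun t => 1 / m1 - K2 * (t - t₁) with hD
  have hDpos : ∀ t ∈ Icc t₁ T, 0 < D t := fun t ht => by
    simp only [hD]
    have : K2 * (t - t₁) ≤ K2 * (T - t₁) := mul_le_mul_of_nonneg_left (by linarith [ht.2]) hK2pos.le
    linarith
  have hDc : Continuous D := by rw [hD]; fun_prop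
  have hbar := barrier (N := N) (t₁ := t₁) (M := fun t => (D t)⁻¹) h.periodic h.cont h.decay h.diff ht₁.1
    (hDc.continuousOn.inv₀ fun t ht => (hDpos t ⟨ht.1, ht.2.le⟩).ne')
    (fun t ht => inv_pos.2 (hDpos t ⟨ht.1, ht.2.le⟩))
    (fun x v => by
      have : (D t₁)⁻¹ = m1 := by simp [hD]
      simp only [this]
      have := φ_pos N v
      nlinarith [hA x v])
    (fun t₀ ht₀ x₀ v₀ hle heq => by
      have ht₀' : t₀ ∈ Ioo 0 T := ⟨ht₁.1.trans_lt ht₀.1, ht₀.2⟩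
      have hD0 := hDpos t₀ ⟨ht₀.1.le, ht₀.2.le⟩
      set M0 := (D t₀)⁻¹ with hM0
      have hM0pos : 0 < M0 := inv_pos.2 hD0
      have hφ := φ_pos N v₀
      have h1 := ht t₀ ht₀' x₀ v₀ M0 (fun w => hle x₀ w) heq
      have h2 : (mom g a (f t₀ x₀) v₀).toReal ≤ K1 * M0 := by
        refine ENNReal.toReal_le_of_le_ofReal (by positivity) (hm (f t₀ x₀) M0 hM0pos.le (fun w => hle x₀ w) v₀)
      refine ⟨M0 ^ 2 * (C * K1 + 1), ?_, ?_⟩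
      · refine h1.trans_lt ?_
        rw [heq]
        have h3 : C * (M0 * φ N v₀) * (mom g a (f t₀ x₀) v₀).toReal ≤ C * (M0 * φ N v₀) * (K1 * M0) :=
          mul_le_mul_of_nonneg_left h2 (by positivity)
        have h4 : 0 < M0 ^ 2 * φ N v₀ := by positivity
        nlinarith
      · have hDt : Tendsto (fun t => (D t)⁻¹) (𝓝[<] t₀) (𝓝 M0) :=
          (hDc.continuousAt.inv₀ hD0.ne').tendsto.mono_left nhdsWithin_le_nhds
        filter_upwards [hDt.eventually (lt_mem_nhds (show M0 / 2 < M0 by linarith)), Ico_mem_nhdsLT ht₀.1] with t h3 h4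
        have hDtpos := hDpos t ⟨h4.1, (h4.2.trans ht₀.2).le⟩
        have h5 : M0 - (D t)⁻¹ = M0 * (D t)⁻¹ * (K2 * (t₀ - t)) := by
          rw [hM0]
          have e : D t - D t₀ = K2 * (t₀ - t) := by simp only [hD]; ring
          rw [← e]; field_simp
        rw [h5, hK2]
        have h6 : 0 ≤ t₀ - t := by linarith [h4.2]
        have h7 : 0 ≤ C * K1 + 1 := by positivity
        have h8 : 0 ≤ M0 * ((C * K1 + 1) * (t₀ - t)) := by positivity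
        nlinarith [mul_le_mul_of_nonneg_right h3.le h8])
  refine HB_of hN h ht₁ (M := (D T)⁻¹) fun t ht x v => (hbar t ht x v).le.trans ?_
  have h1 := hDpos T ⟨ht₁.2.le, le_rfl⟩
  have h2 : D T ≤ D t := by
    simp only [hD]
    have : K2 * (t - t₁) ≤ K2 * (T - t₁) := mul_le_mul_of_nonneg_left (by linarith [ht.2]) hK2pos.le
    linarith
  exact mul_le_mul_of_nonneg_right (inv_anti₀ h1 h2) (φ_pos N v).le

end

end Pool.Agent.H821.BZ
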