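import Pool.Agent.H821.BZ.Grow2

/-! The rates theorem. -/

set_option autoImplicit false
open MeasureTheory Metric Set Filter Topology
open scoped ENNReal Real InnerProductSpace Pointwise

namespace Pool.Agent.H821.BZ

variable {d : ℕ}

/-- the touching estimate for one solution and all scales `≥ 1` -/
def TouchAll (C γ a : ℝ) (N : ℕ) (T : ℝ) (f : ℝ → V d → V d → ℝ) : Prop :=
  ∀ t ∈ Ioo 0 T, ∀ (x v : V d) (m μ : ℝ), 1 ≤ μ → (∀ w, f t x w ≤ m * φs N μ w) →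
      f t x v = m * φs N μ v →
      fderiv ℝ (fun p : ℝ × V d => f p.1 p.2 v) (t, x) (1, v) ≤
        C * f t x v * (momS γ (min γ 0) (max γ 0 + a) μ (f t x) v).toReal

/-- growth with variable scale -/
theorem growth_LS [Nontrivial (V d)] {γ a T : ℝ} {b : ℝ → ℝ} {f : ℝ → V d → V d → ℝ} {N : ℕ} (ha : 0 ≤ a)
    (hMB : MomB d (min γ 0) (max γ 0 + a) N) (h : IsSol γ b T f) {C : ℝ} (hC : 0 ≤ C)
    (ht : TouchAll C γ a N T f) {t₁ : ℝ} (ht₁ : t₁ ∈ Ico 0 T) {μ : ℝ → ℝ} (hμc : ContinuousOn μ (Ico t₁ T))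
    (hμm : MonotoneOn μ (Ico t₁ T)) (hμ1 : ∀ t ∈ Ico t₁ T, 1 ≤ μ t) {A : ℝ} (hA : ∀ x v, f t₁ x v ≤ A * φs N (μ t₁) v) :
    ∀ t ∈ Ico t₁ T, ∀ x v, f t x v ≤ A * Real.exp (C * (∫⁻ τ in Ico t₁ t, LS γ a μ f τ).toReal) * φs N (μ t) v := by
  have hL := LS_bdd ha hMB h ht₁ hμm hμ1
  refine growthS (J := JJ (LS γ a μ f) t₁) (q := fun t x v => (momS γ (min γ 0) (max γ 0 + a) (μ t) (f t x) v).toReal)
    h hC ht₁ hμc hμm hμ1 (JJ_cont hL) (by unfold JJ; simp) (fun _ _ => ENNReal.toReal_nonneg)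
    (fun _ _ _ => ENNReal.toReal_nonneg) ?_ ?_ hA
  · intro t ht' x v m hle hv
    exact ht t ⟨ht₁.1.trans_lt ht'.1, ht'.2⟩ x v m (μ t) (hμ1 t ⟨ht'.1.le, ht'.2⟩) hle hv
  · intro t₀ ht₀ x v l hl
    exact JJ_lower hL (m := fun t => momS γ (min γ 0) (max γ 0 + a) (μ t) (f t x) v) (fun t => le_iSup₂_of_le x v le_rfl) ht₀
      (momS_left ha hMB h ht₁ hμc hμm hμ1 ht₀ x v) hl

lemma int_rpow {T t₁ κ : ℝ} (hκ : κ < 1) (ht : t₁ ≤ T) :
    ∫⁻ τ in Ico t₁ T, ENNReal.ofReal ((T - τ) ^ (-κ)) ≠ ⊤ := by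
  have h1 : IntervalIntegrable (fun x : ℝ => x ^ (-κ)) volume (T - t₁) 0 :=
    intervalIntegral.intervalIntegrable_rpow' (by linarith)
  have h2 := h1.comp_sub_left T
  simp only [sub_sub_cancel, sub_zero] at h2
  have h3 := (intervalIntegrable_iff_integrableOn_Ico_of_le ht).1 h2
  exact h3.lintegral_lt_top.ne

lemma IsSol.integrable {γ T : ℝ} {b : ℝ → ℝ} {f : ℝ → V d → V d → ℝ} (h : IsSol γ b T f) {t : ℝ} (ht : t ∈ Ico 0 T) (x : V d) :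
    Integrable (f t x) ∧ Integrable (fun w => f t x w * ‖w‖ ^ 2) := by
  have hn : (d:ℝ) < 2 * ((d + 1 : ℕ) : ℝ) := by push_cast; linarith [(by positivity : (0:ℝ) ≤ d)]
  have hφi := integrable_φ (d := d) hn
  obtain ⟨m, hm, hmle⟩ := h.decayφ ht (d + 1 + 1)
  have hfm := h.measurable ht x
  have hf0 := h.nonneg t ht x
  have key : ∀ w, f t x w * (1 + ‖w‖ ^ 2) ≤ m * φ (d + 1) w := fun w => by
    rw [← φ_succ (d + 1) w, ← mul_assoc]
    exact mul_le_mul_of_nonneg_right (hmle t ⟨ht.1, le_rfl⟩ x w) (by positivity)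
  constructor
  · refine Integrable.mono' (hφi.const_mul m) hfm.aestronglyMeasurable (Eventually.of_forall fun w => ?_)
    rw [Real.norm_eq_abs, abs_of_nonneg (hf0 w)]
    have := key w
    have h1 := mul_nonneg (hf0 w) (sq_nonneg ‖w‖)
    linarith
  · refine Integrable.mono' (hφi.const_mul m) ?_ (Eventually.of_forall fun w => ?_)
    · exact (hfm.mul (measurable_norm.pow_const 2)).aestronglyMeasurable
    · have h1 := mul_nonneg (hf0 w) (sq_nonneg ‖w‖)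
      rw [Real.norm_eq_abs, abs_of_nonneg h1]
      have := key w
      have h2 := hf0 w
      linarith

/-- the scaled moment of order two -/
lemma momS_two {γ μ : ℝ} (hμ : 0 < μ) {f : V d → ℝ} (hf0 : ∀ w, 0 ≤ f w) (hf1 : Integrable f)
    (hf2 : Integrable (fun w => f w * ‖w‖ ^ 2)) (v : V d) :
    momS γ 0 2 μ f v ≤ ENNReal.ofReal (μ ^ γ * (3 * ∫ w, f w) + 2 * (μ ^ γ * (μ ^ 2)⁻¹) * ∫ w, f w * ‖w‖ ^ 2) := by
  have hint : Integrable (fun w : V d => 3 * μ ^ γ * f w + 2 * (μ ^ γ * (μ ^ 2)⁻¹) * (f w * ‖w‖ ^ 2)) :=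
    (hf1.const_mul _).add (hf2.const_mul _)
  have hval : ∫ w : V d, (3 * μ ^ γ * f w + 2 * (μ ^ γ * (μ ^ 2)⁻¹) * (f w * ‖w‖ ^ 2)) =
      μ ^ γ * (3 * ∫ w, f w) + 2 * (μ ^ γ * (μ ^ 2)⁻¹) * ∫ w, f w * ‖w‖ ^ 2 := by
    rw [integral_add (hf1.const_mul _) (hf2.const_mul _), integral_const_mul, integral_const_mul]; ring
  rw [← hval, ofReal_integral_eq_lintegral_ofReal hint (Filter.Eventually.of_forall fun w => by
    have := hf0 w
    simp only [Pi.zero_apply]; positivity)]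
  unfold momS
  refine lintegral_mono fun w => ENNReal.ofReal_le_ofReal ?_
  have hw := norm_nonneg w
  have h0 := hf0 w
  have h1 : (1 + ‖w‖ / μ) ^ (2:ℝ) ≤ 2 + 2 * ((μ ^ 2)⁻¹ * ‖w‖ ^ 2) := by
    have e1 : (1 + ‖w‖ / μ) ^ (2:ℝ) = (1 + ‖w‖ / μ) ^ 2 := by norm_cast
    have e2 : (μ ^ 2)⁻¹ * ‖w‖ ^ 2 = (‖w‖ / μ) ^ 2 := by rw [div_pow]; field_simp
    rw [e1, e2]
    nlinarith [sq_nonneg (1 - ‖w‖ / μ)]
  rw [Real.rpow_zero]
  have h2 : 0 ≤ f w * μ ^ γ := by positivity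
  nlinarith [mul_le_mul_of_nonneg_left h1 h2]

end Pool.Agent.H821.BZ
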