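import Pool.Agent.H821.BZ.Main2

/-! The rates theorem. -/

set_option autoImplicit false
open MeasureTheory Metric Set Filter Topology
open scoped ENNReal Real InnerProductSpace Pointwise

namespace Pool.Agent.H821.BZ

variable {d : ℕ}

/-- energy bound from a scaled weight -/
lemma tail {n N' : ℕ} (hn : (d:ℝ) < 2 * n) {f : V d → ℝ} (hf0 : ∀ w, 0 ≤ f w) (hf1 : Integrable f)
    {R μ Kf : ℝ} (hR : 1 ≤ R) (hμ : 0 < μ) (hK : 0 ≤ Kf) (hle : ∀ w, f w ≤ Kf * φs (n + 1 + N') μ w) :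
    ∫ w, f w * ‖w‖ ^ 2 ≤ R ^ 2 * (∫ w, f w) + Kf * 2 ^ n * (μ ^ 2) ^ (n + 1 + N') * ((R ^ 2) ^ N')⁻¹ * ∫ w : V d, φ n w := by
  have hφi := integrable_φ (d := d) hn
  have hint : Integrable (fun w : V d => R ^ 2 * f w + Kf * 2 ^ n * (μ ^ 2) ^ (n + 1 + N') * ((R ^ 2) ^ N')⁻¹ * φ n w) :=
    (hf1.const_mul _).add (hφi.const_mul _)
  have hval : ∫ w : V d, (R ^ 2 * f w + Kf * 2 ^ n * (μ ^ 2) ^ (n + 1 + N') * ((R ^ 2) ^ N')⁻¹ * φ n w) =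
      R ^ 2 * (∫ w, f w) + Kf * 2 ^ n * (μ ^ 2) ^ (n + 1 + N') * ((R ^ 2) ^ N')⁻¹ * ∫ w : V d, φ n w := by
    rw [integral_add (hf1.const_mul _) (hφi.const_mul _), integral_const_mul, integral_const_mul]
  rw [← hval]
  refine integral_mono_of_nonneg (Filter.Eventually.of_forall fun w => mul_nonneg (hf0 w) (sq_nonneg _)) hint
    (Filter.Eventually.of_forall fun w => ?_)
  simp only
  have hR0 : 0 < R := by linarith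
  have hφ := φ_pos n w
  have hw := norm_nonneg w
  rcases le_total ‖w‖ R with h | h
  · have h1 : ‖w‖ ^ 2 ≤ R ^ 2 := pow_le_pow_left₀ hw h 2
    have h2 := mul_le_mul_of_nonneg_left h1 (hf0 w)
    have h3 : 0 ≤ Kf * 2 ^ n * (μ ^ 2) ^ (n + 1 + N') * ((R ^ 2) ^ N')⁻¹ * φ n w := by positivity
    linarith
  · have hw1 : 1 ≤ ‖w‖ := hR.trans h
    have hw0 : 0 < ‖w‖ := by linarith
    have h0 : 0 ≤ R ^ 2 * f w := mul_nonneg (by positivity) (hf0 w)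
    have h1 : φs (n + 1 + N') μ w ≤ (μ ^ 2) ^ (n + 1 + N') * ((‖w‖ ^ 2) ^ (n + 1 + N'))⁻¹ := by
      rw [φs_eq _ hμ]
      calc ((1 + ‖w‖ ^ 2 / μ ^ 2) ^ (n + 1 + N'))⁻¹ ≤ ((‖w‖ ^ 2 / μ ^ 2) ^ (n + 1 + N'))⁻¹ := by
            gcongr; linarith
        _ = _ := by rw [div_pow, inv_div]; rfl
    have h2 : ((‖w‖ ^ 2) ^ (n + 1 + N'))⁻¹ * ‖w‖ ^ 2 = ((‖w‖ ^ 2) ^ n)⁻¹ * ((‖w‖ ^ 2) ^ N')⁻¹ := by
      rw [pow_add, pow_add, pow_one]; field_simp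
    have h3 : ((‖w‖ ^ 2) ^ n)⁻¹ ≤ 2 ^ n * φ n w := by
      unfold φ
      have h4 : (1 + ‖w‖ ^ 2) / 2 ≤ ‖w‖ ^ 2 := by nlinarith
      calc ((‖w‖ ^ 2) ^ n)⁻¹ ≤ (((1 + ‖w‖ ^ 2) / 2) ^ n)⁻¹ := by gcongr
        _ = 2 ^ n * ((1 + ‖w‖ ^ 2) ^ n)⁻¹ := by rw [div_pow, inv_div]; rfl
    have h5 : ((‖w‖ ^ 2) ^ N')⁻¹ ≤ ((R ^ 2) ^ N')⁻¹ := by gcongr
    have h6 : f w * ‖w‖ ^ 2 ≤ Kf * 2 ^ n * (μ ^ 2) ^ (n + 1 + N') * ((R ^ 2) ^ N')⁻¹ * φ n w := by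
      calc f w * ‖w‖ ^ 2 ≤ (Kf * ((μ ^ 2) ^ (n + 1 + N') * ((‖w‖ ^ 2) ^ (n + 1 + N'))⁻¹)) * ‖w‖ ^ 2 :=
            mul_le_mul_of_nonneg_right ((hle w).trans (mul_le_mul_of_nonneg_left h1 hK)) (sq_nonneg _)
        _ = Kf * (μ ^ 2) ^ (n + 1 + N') * (((‖w‖ ^ 2) ^ (n + 1 + N'))⁻¹ * ‖w‖ ^ 2) := by ring
        _ = Kf * (μ ^ 2) ^ (n + 1 + N') * (((‖w‖ ^ 2) ^ n)⁻¹ * ((‖w‖ ^ 2) ^ N')⁻¹) := by rw [h2]
        _ ≤ Kf * (μ ^ 2) ^ (n + 1 + N') * ((2 ^ n * φ n w) * ((R ^ 2) ^ N')⁻¹) := by gcongr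
        _ = _ := by ring
    linarith

lemma pow_rpow {y e : ℝ} (hy : 0 < y) (n : ℕ) : (y ^ e) ^ n = y ^ (e * n) := by
  rw [← Real.rpow_natCast, ← Real.rpow_mul hy.le]

/-- one step: bound by a scaled weight -/
theorem step (hd : 2 ≤ d) {s K γ : ℝ} (hs0 : 0 < s) (hs1 : s < 1) (hγ0 : 0 ≤ γ) (hγs : γ + 2 * s < 2)
    {b : ℝ → ℝ} (hb : IsAng (((d:ℝ) - 1) / 2 + s) K b) {T : ℝ} {f : ℝ → V d → V d → ℝ} (h : IsSol γ b T f)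
    {t₁ : ℝ} (ht₁ : t₁ ∈ Ico 0 T) (hT1 : T - t₁ ≤ 1) {α ℓ ε C0 C1 : ℝ}
    (hε : 0 ≤ ε) (h1 : α + γ * ε < 1) (h2 : α + 2 * ℓ - (2 - γ) * ε < 1)
    (hC0 : 0 ≤ C0) (hC1 : 0 ≤ C1)
    (hρ : ∀ t ∈ Ico t₁ T, ∀ x, rho f t x ≤ C0 * (T - t) ^ (-α))
    (hE : ∀ t ∈ Ico t₁ T, ∀ x, ener f t x ≤ C1 * (T - t) ^ (-(α + 2 * ℓ)))
    {N : ℕ} (hN : (d:ℝ) + 6 ≤ 2 * N) :
    ∃ K', 0 ≤ K' ∧ ∀ t ∈ Ico t₁ T, ∀ x v, f t x v ≤ K' * φs N ((T - t) ^ (-ε)) v := by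
  have : Nontrivial (Fin d) := Fin.nontrivial_iff_two_le.2 hd
  have : Nonempty (Fin d) := inferInstance
  have : Nontrivial (V d) := inferInstance
  have hd2 : (2:ℝ) ≤ d := by exact_mod_cast hd
  have hmin : min γ 0 = 0 := min_eq_right hγ0
  have hmax : max γ 0 + (2 - γ) = 2 := by rw [max_eq_left hγ0]; ring
  obtain ⟨C, hC, htouch⟩ := touchS (K := K) hd hs0 hs1 (a := 2 - γ) (by linarith) (by linarith) (by linarith)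
    (by linarith : γ < 2) hN
  have hT := htouch b hb T f h
  have hMB : MomB d (min γ 0) (max γ 0 + (2 - γ)) N := by
    rw [hmin, hmax]
    exact momB_all hd le_rfl (by linarith) (by norm_num) hN
  set μ : ℝ → ℝ := fun t => (T - t) ^ (-ε) with hμ
  have hpos : ∀ t ∈ Ico t₁ T, 0 < T - t := fun t ht => by linarith [ht.2]
  have hle1 : ∀ t ∈ Ico t₁ T, T - t ≤ 1 := fun t ht => by linarith [ht.1]
  have hμc : ContinuousOn μ (Ico t₁ T) := by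
    rw [hμ]
    refine ContinuousOn.rpow_const (by fun_prop) fun t ht => Or.inl (hpos t ht).ne'
  have hμm : MonotoneOn μ (Ico t₁ T) := by
    intro t ht t' ht' htt
    simp only [hμ]
    exact Real.rpow_le_rpow_of_nonpos (hpos t' ht') (by linarith) (by linarith)
  have hμ1 : ∀ t ∈ Ico t₁ T, 1 ≤ μ t := fun t ht => by
    simp only [hμ]
    exact Real.one_le_rpow_of_pos_of_le_one_of_nonpos (hpos t ht) (hle1 t ht) (by linarith)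
  obtain ⟨A, hA, hAb⟩ := h.decayφ ht₁ N
  have hA' : ∀ x v, f t₁ x v ≤ A * φs N (μ t₁) v := fun x v => by
    refine (hAb t₁ ⟨ht₁.1, le_rfl⟩ x v).trans (mul_le_mul_of_nonneg_left ?_ hA)
    rw [← φs_one]
    exact φs_mono N one_pos (hμ1 t₁ ⟨le_rfl, ht₁.2⟩) v
  have hg := growth_LS (by linarith : 0 ≤ 2 - γ) hMB h hC hT ht₁ hμc hμm hμ1 hA'
  -- the bound of the moments
  set κ := max (α + γ * ε) (α + 2 * ℓ - (2 - γ) * ε) with hκ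
  have hκ1 : κ < 1 := max_lt h1 h2
  have hLS : ∀ t ∈ Ico t₁ T, LS γ (2 - γ) μ f t ≤ ENNReal.ofReal (3 * C0 + 2 * C1) * ENNReal.ofReal ((T - t) ^ (-κ)) := by
    intro t ht
    have ht0 : t ∈ Ico 0 T := ⟨ht₁.1.trans ht.1, ht.2⟩
    refine iSup_le fun x => iSup_le fun v => ?_
    rw [hmin, hmax]
    obtain ⟨i1, i2⟩ := h.integrable ht0 x
    have hy := hpos t ht
    have hy1 := hle1 t ht
    have hμt : 0 < μ t := lt_of_lt_of_le one_pos (hμ1 t ht)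
    refine (momS_two hμt (h.nonneg t ht0 x) i1 i2 v).trans ?_
    rw [← ENNReal.ofReal_mul (by positivity)]
    refine ENNReal.ofReal_le_ofReal ?_
    have e1 : μ t ^ γ = (T - t) ^ (-(γ * ε)) := by
      simp only [hμ]; rw [← Real.rpow_mul hy.le]; congr 1; ring
    have e2 : (μ t ^ 2)⁻¹ = (T - t) ^ (2 * ε) := by
      simp only [hμ]
      rw [pow_rpow hy, ← Real.rpow_neg hy.le]; congr 1; push_cast; ring
    have hr := hρ t ht x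
    have he := hE t ht x
    unfold rho at hr
    unfold ener at he
    rw [e1, e2]
    have p1 : 0 ≤ (T - t) ^ (-(γ * ε)) := by positivity
    have p2 : 0 ≤ (T - t) ^ (2 * ε) := by positivity
    have b1 : (T - t) ^ (-(γ * ε)) * (T - t) ^ (-α) ≤ (T - t) ^ (-κ) := by
      rw [← Real.rpow_add hy]
      refine Real.rpow_le_rpow_of_exponent_ge hy hy1 ?_
      have := le_max_left (α + γ * ε) (α + 2 * ℓ - (2 - γ) * ε)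
      linarith
    have b2 : ((T - t) ^ (-(γ * ε)) * (T - t) ^ (2 * ε)) * (T - t) ^ (-(α + 2 * ℓ)) ≤ (T - t) ^ (-κ) := by
      rw [← Real.rpow_add hy, ← Real.rpow_add hy]
      refine Real.rpow_le_rpow_of_exponent_ge hy hy1 ?_
      have := le_max_right (α + γ * ε) (α + 2 * ℓ - (2 - γ) * ε)
      nlinarith
    calc (T - t) ^ (-(γ * ε)) * (3 * ∫ w, f t x w) + 2 * ((T - t) ^ (-(γ * ε)) * (T - t) ^ (2 * ε)) * ∫ w, f t x w * ‖w‖ ^ 2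
        ≤ (T - t) ^ (-(γ * ε)) * (3 * (C0 * (T - t) ^ (-α))) +
            2 * ((T - t) ^ (-(γ * ε)) * (T - t) ^ (2 * ε)) * (C1 * (T - t) ^ (-(α + 2 * ℓ))) := by gcongr
      _ = 3 * C0 * ((T - t) ^ (-(γ * ε)) * (T - t) ^ (-α)) +
            2 * C1 * (((T - t) ^ (-(γ * ε)) * (T - t) ^ (2 * ε)) * (T - t) ^ (-(α + 2 * ℓ))) := by ring
      _ ≤ 3 * C0 * (T - t) ^ (-κ) + 2 * C1 * (T - t) ^ (-κ) := by gcongr
      _ = (3 * C0 + 2 * C1) * (T - t) ^ (-κ) := by ring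
  set Tot := ENNReal.ofReal (3 * C0 + 2 * C1) * ∫⁻ τ in Ico t₁ T, ENNReal.ofReal ((T - τ) ^ (-κ)) with hTot
  have hTtop : Tot ≠ ⊤ := ENNReal.mul_ne_top ENNReal.ofReal_ne_top (int_rpow hκ1 ht₁.2.le)
  refine ⟨A * Real.exp (C * Tot.toReal), by positivity, fun t ht x v => (hg t ht x v).trans ?_⟩
  have hle : (∫⁻ τ in Ico t₁ t, LS γ (2 - γ) μ f τ).toReal ≤ Tot.toReal := by
    refine ENNReal.toReal_mono hTtop ?_
    calc ∫⁻ τ in Ico t₁ t, LS γ (2 - γ) μ f τ ≤ ∫⁻ τ in Ico t₁ T, LS γ (2 - γ) μ f τ :=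
          lintegral_mono_set (Ico_subset_Ico_right ht.2.le)
      _ ≤ ∫⁻ τ in Ico t₁ T, ENNReal.ofReal (3 * C0 + 2 * C1) * ENNReal.ofReal ((T - τ) ^ (-κ)) :=
          setLIntegral_mono' measurableSet_Ico hLS
      _ = Tot := by rw [lintegral_const_mul' _ _ ENNReal.ofReal_ne_top]
  have hφ := (φs_pos N (μ t) v).le
  gcongr

/-- one step: improved energy rate -/
theorem step2 (hd : 2 ≤ d) {s K γ : ℝ} (hs0 : 0 < s) (hs1 : s < 1) (hγ0 : 0 ≤ γ) (hγs : γ + 2 * s < 2)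
    {b : ℝ → ℝ} (hb : IsAng (((d:ℝ) - 1) / 2 + s) K b) {T : ℝ} {f : ℝ → V d → V d → ℝ} (h : IsSol γ b T f)
    {t₁ : ℝ} (ht₁ : t₁ ∈ Ico 0 T) (hT1 : T - t₁ ≤ 1) {α ℓ ε η C0 C1 : ℝ} (hα : 0 ≤ α)
    (hε : 0 ≤ ε) (hη : 0 < η) (h1 : α + γ * ε < 1) (h2 : α + 2 * ℓ - (2 - γ) * ε < 1)
    (hC0 : 0 ≤ C0) (hC1 : 0 ≤ C1)
    (hρ : ∀ t ∈ Ico t₁ T, ∀ x, rho f t x ≤ C0 * (T - t) ^ (-α))
    (hE : ∀ t ∈ Ico t₁ T, ∀ x, ener f t x ≤ C1 * (T - t) ^ (-(α + 2 * ℓ))) :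
    ∃ C2, 0 ≤ C2 ∧ ∀ t ∈ Ico t₁ T, ∀ x, ener f t x ≤ C2 * (T - t) ^ (-(α + 2 * (ε + η))) := by
  have hd0 : (0:ℝ) ≤ d := by positivity
  set n := d + 3 with hn
  have hn2 : (d:ℝ) < 2 * (n : ℝ) := by rw [hn]; push_cast; linarith
  obtain ⟨N', hN'⟩ := exists_nat_ge ((n + 1) * ε / η)
  have hN'η : ((n:ℝ) + 1) * ε ≤ N' * η := by rwa [div_le_iff₀ hη] at hN'
  have hNN : (d:ℝ) + 6 ≤ 2 * ((n + 1 + N' : ℕ) : ℝ) := by
    have : (0:ℝ) ≤ N' := by positivity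
    rw [hn]; push_cast; linarith
  obtain ⟨K', hK', hb'⟩ := step hd hs0 hs1 hγ0 hγs hb h ht₁ hT1 hε h1 h2 hC0 hC1 hρ hE hNN
  set P := ∫ w : V d, φ n w with hP
  have hP0 : 0 ≤ P := integral_nonneg fun w => (φ_pos n w).le
  refine ⟨C0 + K' * 2 ^ n * P, by positivity, fun t ht x => ?_⟩
  have ht0 : t ∈ Ico 0 T := ⟨ht₁.1.trans ht.1, ht.2⟩
  have hy : 0 < T - t := by linarith [ht.2]
  have hy1 : T - t ≤ 1 := by linarith [ht.1]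
  obtain ⟨i1, i2⟩ := h.integrable ht0 x
  have hR1 : 1 ≤ (T - t) ^ (-(ε + η)) := Real.one_le_rpow_of_pos_of_le_one_of_nonpos hy hy1 (by linarith)
  have htl := tail (n := n) (N' := N') hn2 (h.nonneg t ht0 x) i1 hR1 (by positivity : 0 < (T - t) ^ (-ε)) hK' (hb' t ht x)
  have hr := hρ t ht x
  unfold rho at hr
  unfold ener
  refine htl.trans ?_
  have e1 : ((T - t) ^ (-(ε + η))) ^ 2 = (T - t) ^ (-(2 * (ε + η))) := by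
    rw [pow_rpow hy]; congr 1; push_cast; ring
  have e2 : (((T - t) ^ (-ε)) ^ 2) ^ (n + 1 + N') * ((((T - t) ^ (-(ε + η))) ^ 2) ^ N')⁻¹ ≤ 1 := by
    rw [← pow_mul, ← pow_mul, pow_rpow hy, pow_rpow hy, ← Real.rpow_neg hy.le, ← Real.rpow_add hy]
    refine Real.rpow_le_one hy.le hy1 ?_
    push_cast; nlinarith
  have e3 : 1 ≤ (T - t) ^ (-(α + 2 * (ε + η))) := Real.one_le_rpow_of_pos_of_le_one_of_nonpos hy hy1 (by linarith)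
  have e4 : (T - t) ^ (-(2 * (ε + η))) * (T - t) ^ (-α) = (T - t) ^ (-(α + 2 * (ε + η))) := by
    rw [← Real.rpow_add hy]; congr 1; ring
  calc ((T - t) ^ (-(ε + η))) ^ 2 * (∫ w, f t x w) + K' * 2 ^ n * (((T - t) ^ (-ε)) ^ 2) ^ (n + 1 + N') *
        ((((T - t) ^ (-(ε + η))) ^ 2) ^ N')⁻¹ * P
      = (T - t) ^ (-(2 * (ε + η))) * (∫ w, f t x w) + K' * 2 ^ n * P * ((((T - t) ^ (-ε)) ^ 2) ^ (n + 1 + N') *
        ((((T - t) ^ (-(ε + η))) ^ 2) ^ N')⁻¹) := by rw [e1]; ring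
    _ ≤ (T - t) ^ (-(2 * (ε + η))) * (C0 * (T - t) ^ (-α)) + K' * 2 ^ n * P * 1 := by gcongr
    _ = C0 * (T - t) ^ (-(α + 2 * (ε + η))) + K' * 2 ^ n * P * 1 := by rw [← e4]; ring
    _ ≤ C0 * (T - t) ^ (-(α + 2 * (ε + η))) + K' * 2 ^ n * P * (T - t) ^ (-(α + 2 * (ε + η))) := by gcongr
    _ = _ := by ring

end Pool.Agent.H821.BZ
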