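import Pool.Agent.H821.BZ.Op2

/-! Moment bounds. -/

set_option autoImplicit false
open MeasureTheory Metric Set
open scoped ENNReal Real InnerProductSpace Pointwise

namespace Pool.Agent.H821.BZ

variable {d : ℕ}

lemma φ_le_one (N : ℕ) (v : V d) : φ N v ≤ 1 := by
  unfold φ
  refine inv_le_one_of_one_le₀ (one_le_pow₀ ?_)
  have := sq_nonneg ‖v‖; linarith

lemma integrable_φ {n : ℕ} (hn : (d:ℝ) < 2 * n) : Integrable (φ (d := d) n) := by
  have h := integrable_rpow_neg_one_add_norm_sq (E := V d) (μ := volume) (r := 2 * n) (by simpa using hn)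
  refine h.congr (Filter.Eventually.of_forall fun x => ?_)
  simp only [φ]
  rw [show (-(2 * (n:ℝ)) / 2) = -(n:ℝ) by ring, Real.rpow_neg (by positivity), Real.rpow_natCast]

/-- the weight times one power -/
lemma φ_succ (n : ℕ) (v : V d) : φ (n + 1) v * (1 + ‖v‖ ^ 2) = φ n v := by
  unfold φ
  have : 0 < 1 + ‖v‖ ^ 2 := by positivity
  rw [pow_succ]; field_simp

lemma one_add_rpow_le {a x : ℝ} (ha2 : a ≤ 2) (hx : 0 ≤ x) : (1 + x) ^ a ≤ 2 * (1 + x ^ 2) := by
  calc (1 + x) ^ a ≤ (1 + x) ^ (2:ℝ) := Real.rpow_le_rpow_of_exponent_le (by linarith) ha2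
    _ = (1 + x) ^ 2 := by norm_cast
    _ ≤ 2 * (1 + x ^ 2) := by nlinarith [sq_nonneg (1 - x)]

/-- uniform moment bound -/
theorem mom_le (hd : 2 ≤ d) {γ a : ℝ} (hγ : γ ≤ 0) (hγd : 0 < d + γ) (ha2 : a ≤ 2) {N : ℕ}
    (hN : (d:ℝ) + 3 ≤ 2 * N) :
    ∃ K1 : ℝ, 0 ≤ K1 ∧ ∀ (f : V d → ℝ) (m : ℝ), 0 ≤ m → (∀ w, f w ≤ m * φ N w) → ∀ v,
      mom γ a f v ≤ ENNReal.ofReal (K1 * m) := by
  have : Nontrivial (Fin d) := Fin.nontrivial_iff_two_le.2 hd
  have : Nonempty (Fin d) := inferInstance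
  have : Nontrivial (V d) := inferInstance
  obtain ⟨n, rfl⟩ : ∃ n, N = n + 1 := by
    rcases N with _ | n
    · exfalso; push_cast at hN; have : (0:ℝ) ≤ d := by positivity
      linarith
    · exact ⟨n, rfl⟩
  have hn : (d:ℝ) < 2 * n := by push_cast at hN; linarith
  have hφi := integrable_φ (d := d) hn
  have hgi := integrable_norm_rpow_exp (d := d) (q := γ) (b := 1) hγd one_pos
  set P := ∫ w : V d, φ n w with hP
  set W := ∫ u : V d, ‖u‖ ^ γ * Real.exp (-1 * ‖u‖ ^ 2) with hW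
  have hP0 : 0 ≤ P := integral_nonneg fun w => (φ_pos n w).le
  have hW0 : 0 ≤ W := integral_nonneg fun w => by positivity
  refine ⟨Real.exp 1 * W + 3 * P, by positivity, fun f m hm hf v => ?_⟩
  have hgv : Integrable (fun w : V d => ‖w - v‖ ^ γ * Real.exp (-1 * ‖w - v‖ ^ 2)) :=
    hgi.comp_sub_right v
  have hint : Integrable (fun w : V d => m * (Real.exp 1 * (‖w - v‖ ^ γ * Real.exp (-1 * ‖w - v‖ ^ 2)) + 3 * φ n w)) :=
    ((hgv.const_mul _).add (hφi.const_mul _)).const_mul _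
  have hval : ∫ w : V d, m * (Real.exp 1 * (‖w - v‖ ^ γ * Real.exp (-1 * ‖w - v‖ ^ 2)) + 3 * φ n w) =
      (Real.exp 1 * W + 3 * P) * m := by
    rw [integral_const_mul, integral_add (hgv.const_mul _) (hφi.const_mul _), integral_const_mul, integral_const_mul,
      integral_sub_right_eq_self (fun u : V d => ‖u‖ ^ γ * Real.exp (-1 * ‖u‖ ^ 2)) v]
    ring
  rw [← hval, ofReal_integral_eq_lintegral_ofReal hint (Filter.Eventually.of_forall fun w => by
    have := (φ_pos n w).le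
    simp only [Pi.zero_apply]; positivity)]
  unfold mom
  refine lintegral_mono fun w => ENNReal.ofReal_le_ofReal ?_
  have h1 : 0 ≤ ‖w - v‖ ^ γ := by positivity
  have h2 : 0 ≤ (1 + ‖w‖) ^ a := by positivity
  have h3 := one_add_rpow_le ha2 (norm_nonneg w)
  have h4 := φ_succ n w
  have h5 := φ_pos (n + 1) w
  have h5' := φ_pos n w
  have h6 := φ_le_one (n + 1) w
  have h7 : φ (n + 1) w ≤ φ n w := by
    rw [← h4]; nlinarith [mul_nonneg h5.le (sq_nonneg ‖w‖)]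
  have h8 : φ (n + 1) w * ‖w - v‖ ^ γ ≤ Real.exp 1 * (‖w - v‖ ^ γ * Real.exp (-1 * ‖w - v‖ ^ 2)) + φ n w := by
    rcases le_total ‖w - v‖ 1 with h | h
    · have h9 : 1 ≤ Real.exp 1 * Real.exp (-1 * ‖w - v‖ ^ 2) := by
        rw [← Real.exp_add]
        exact Real.one_le_exp (by nlinarith [norm_nonneg (w - v)])
      have h10 : ‖w - v‖ ^ γ ≤ ‖w - v‖ ^ γ * (Real.exp 1 * Real.exp (-1 * ‖w - v‖ ^ 2)) :=
        le_mul_of_one_le_right h1 h9
      nlinarith [mul_le_mul_of_nonneg_right h6 h1]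
    · have h9 : ‖w - v‖ ^ γ ≤ 1 := Real.rpow_le_one_of_one_le_of_nonpos h hγ
      have h10 : 0 ≤ Real.exp 1 * (‖w - v‖ ^ γ * Real.exp (-1 * ‖w - v‖ ^ 2)) := by positivity
      nlinarith [mul_le_mul_of_nonneg_left h9 h5.le]
  have h11 : φ (n + 1) w * (1 + ‖w‖) ^ a ≤ 2 * φ n w := by
    nlinarith [mul_le_mul_of_nonneg_left h3 h5.le]
  calc f w * (‖w - v‖ ^ γ + (1 + ‖w‖) ^ a) ≤ (m * φ (n + 1) w) * (‖w - v‖ ^ γ + (1 + ‖w‖) ^ a) :=
        mul_le_mul_of_nonneg_right (hf w) (by positivity)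
    _ = m * (φ (n + 1) w * ‖w - v‖ ^ γ + φ (n + 1) w * (1 + ‖w‖) ^ a) := by ring
    _ ≤ _ := mul_le_mul_of_nonneg_left (by linarith) hm

/-- mass and energy bounds -/
theorem hydro_le {N : ℕ} (hN : (d:ℝ) + 3 ≤ 2 * N) :
    ∃ P : ℝ, 0 ≤ P ∧ ∀ (f : V d → ℝ) (m : ℝ), 0 ≤ m → (∀ w, 0 ≤ f w) → (∀ w, f w ≤ m * φ N w) →
      ∫ w, f w ≤ P * m ∧ ∫ w, f w * ‖w‖ ^ 2 ≤ P * m := by
  obtain ⟨n, rfl⟩ : ∃ n, N = n + 1 := by
    rcases N with _ | n
    · exfalso; push_cast at hN; have : (0:ℝ) ≤ d := by positivity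
      linarith
    · exact ⟨n, rfl⟩
  have hn : (d:ℝ) < 2 * n := by push_cast at hN; linarith
  have hφi := integrable_φ (d := d) hn
  refine ⟨∫ w : V d, φ n w, integral_nonneg fun w => (φ_pos n w).le, fun f m hm hf0 hf => ?_⟩
  have key : ∀ w, f w * (1 + ‖w‖ ^ 2) ≤ m * φ n w := fun w => by
    rw [← φ_succ n w, ← mul_assoc]
    exact mul_le_mul_of_nonneg_right (hf w) (by positivity)
  have hval : (∫ w : V d, φ n w) * m = ∫ w : V d, m * φ n w := by rw [integral_const_mul]; ring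
  rw [hval]
  constructor
  · refine integral_mono_of_nonneg (Filter.Eventually.of_forall hf0) (hφi.const_mul m)
      (Filter.Eventually.of_forall fun w => ?_)
    have := key w
    have h1 := mul_nonneg (hf0 w) (sq_nonneg ‖w‖)
    simp only; linarith
  · refine integral_mono_of_nonneg (Filter.Eventually.of_forall fun w => ?_) (hφi.const_mul m)
      (Filter.Eventually.of_forall fun w => ?_)
    · exact mul_nonneg (hf0 w) (sq_nonneg _)
    · have := key w
      have h1 := hf0 w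
      simp only; linarith

end Pool.Agent.H821.BZ
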