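import Pool.Agent.H821.BZ.Est5

/-! The collision operator with grazing collisions removed. -/

set_option autoImplicit false
open MeasureTheory Metric Set
open scoped ENNReal Real InnerProductSpace Pointwise

namespace Pool.Agent.H821.BZ

variable {d : ℕ}

/-- post-collisional velocity `v'` -/
noncomputable def vP (v w σ : V d) : V d := (1/2:ℝ) • (v + w) + (‖v - w‖ / 2) • σ

/-- post-collisional velocity `v'_*` -/
noncomputable def vPs (v w σ : V d) : V d := (1/2:ℝ) • (v + w) - (‖v - w‖ / 2) • σ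

/-- cosine of the deviation angle -/
noncomputable def cosD (v w σ : V d) : ℝ := ⟪vP v w σ - vPs v w σ, v - w⟫_ℝ / ‖v - w‖ ^ 2

/-- the collision operator in which the grazing collisions `cos θ > 1 - ε` are removed -/
noncomputable def Qcut (γ : ℝ) (b : ℝ → ℝ) (ε : ℝ) (f : V d → ℝ) (v : V d) : ℝ :=
  ∫ w : V d, ∫ σ : Sp d, (if cosD v w σ ≤ 1 - ε then
    (f (vPs v w σ) * f (vP v w σ) - f w * f v) * (‖v - w‖ ^ γ * b (cosD v w σ)) else 0) ∂(sm d)

lemma vP_add (v u σ : V d) : vP v (v + u) σ = v + T σ u := by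
  unfold vP T
  rw [sub_add_cancel_left, norm_neg]
  module

lemma vPs_add (v u σ : V d) : vPs v (v + u) σ = v + T (-σ) u := by
  unfold vPs T
  rw [sub_add_cancel_left, norm_neg]
  module

lemma cosD_add (v u σ : V d) : cosD v (v + u) σ = -(⟪u, σ⟫_ℝ / ‖u‖) := by
  unfold cosD
  have h1 : vP v (v + u) σ - vPs v (v + u) σ = ‖u‖ • σ := by
    unfold vP vPs
    rw [sub_add_cancel_left, norm_neg]
    module
  rw [h1, sub_add_cancel_left, norm_neg, inner_smul_left, inner_neg_right, real_inner_comm u σ]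
  simp only [conj_trivial]
  rcases eq_or_ne ‖u‖ 0 with h | h
  · rw [h]; simp
  · field_simp

open Classical in
/-- the kernel, as a function of `⟪u, σ⟫ / ‖u‖`, `u = v_* - v` -/
noncomputable def β0 (b : ℝ → ℝ) (ε : ℝ) (c : ℝ) : ℝ := if (-1 < c ∧ c < 1) ∧ -c ≤ 1 - ε then b (-c) else 0

open Classical in
/-- symmetrised kernel -/
noncomputable def βs (b : ℝ → ℝ) (ε : ℝ) (c : ℝ) : ℝ :=
  (if 0 < c then β0 b ε c else 0) + (if 0 ≤ c then β0 b ε (-c) else 0)

/-- the hypotheses on the angular part of the kernel -/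
structure IsAng (p K : ℝ) (b : ℝ → ℝ) : Prop where
  meas : Measurable b
  nonneg : ∀ c, -1 ≤ c → c < 1 → 0 ≤ b c
  bound : ∀ c, -1 ≤ c → c < 1 → b c ≤ K * ((1 - c) / 2) ^ (-p)

lemma measurable_β0 {b : ℝ → ℝ} (hb : Measurable b) (ε : ℝ) : Measurable (β0 b ε) := by
  unfold β0
  refine Measurable.ite ?_ (hb.comp measurable_neg) measurable_const
  exact (measurableSet_Ioi.inter measurableSet_Iio).inter (measurableSet_le measurable_neg measurable_const)

lemma β0_nonneg {p K : ℝ} {b : ℝ → ℝ} (hb : IsAng p K b) (ε c : ℝ) : 0 ≤ β0 b ε c := by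
  unfold β0
  split_ifs with h
  · exact hb.nonneg _ (by linarith [h.1.2]) (by linarith [h.1.1])
  · exact le_refl _

lemma β0_le {p K : ℝ} (hp : 0 ≤ p) {b : ℝ → ℝ} (hb : IsAng p K b) {ε : ℝ} (hε : 0 < ε) (c : ℝ) :
    β0 b ε c ≤ |K| * (ε / 2) ^ (-p) := by
  unfold β0
  split_ifs with h
  · refine (hb.bound _ (by linarith [h.1.2]) (by linarith [h.1.1])).trans ?_
    have h1 : ε / 2 ≤ (1 - -c) / 2 := by linarith [h.2]
    have h2 : 0 < (1 - -c) / 2 := by linarith
    calc K * ((1 - -c) / 2) ^ (-p) ≤ |K| * ((1 - -c) / 2) ^ (-p) := by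
          gcongr; exact le_abs_self K
      _ ≤ |K| * (ε / 2) ^ (-p) := by
          refine mul_le_mul_of_nonneg_left ?_ (abs_nonneg _)
          exact Real.rpow_le_rpow_of_nonpos (by positivity) h1 (by linarith)
  · positivity

lemma isKer_βs {p K : ℝ} (hp : 0 ≤ p) {b : ℝ → ℝ} (hb : IsAng p K b) {ε : ℝ} (hε : 0 < ε) :
    IsKer p (2 * (|K| * 2 ^ p)) (βs b ε) := by
  refine ⟨?_, ?_, ?_, ?_, ?_⟩
  · unfold βs
    refine Measurable.add ?_ ?_
    · exact Measurable.ite measurableSet_Ioi (measurable_β0 hb.meas ε) measurable_const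
    · exact Measurable.ite measurableSet_Ici ((measurable_β0 hb.meas ε).comp measurable_neg) measurable_const
  · intro c
    unfold βs
    have h1 := β0_nonneg hb ε c
    have h2 := β0_nonneg hb ε (-c)
    split_ifs <;> linarith
  · intro c hc
    unfold βs at hc
    by_contra hcon
    apply hc
    rw [not_and_or] at hcon
    rcases hcon with h | h
    · push Not at h
      rw [if_neg (by linarith), if_neg (by linarith), add_zero]
    · push Not at h
      have e1 : β0 b ε c = 0 := by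
        unfold β0; rw [if_neg]; rintro ⟨⟨_, h2⟩, _⟩; linarith
      have e2 : β0 b ε (-c) = 0 := by
        unfold β0; rw [if_neg]; rintro ⟨⟨h2, _⟩, _⟩; linarith
      rw [e1, e2]; simp
  · intro c hc0 hc1
    have h1c : 0 < 1 - c := by linarith
    have key : ∀ x : ℝ, (1 - c) / 2 ≤ (1 - x) / 2 → -1 ≤ x → x < 1 → b x ≤ |K| * 2 ^ p * (1 - c) ^ (-p) := by
      intro x hx hx1 hx2
      refine (hb.bound x hx1 hx2).trans ?_
      have h3 : 0 < (1 - x) / 2 := by linarith
      calc K * ((1 - x) / 2) ^ (-p) ≤ |K| * ((1 - x) / 2) ^ (-p) := by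
            gcongr; exact le_abs_self K
        _ ≤ |K| * ((1 - c) / 2) ^ (-p) := by
            refine mul_le_mul_of_nonneg_left ?_ (abs_nonneg _)
            exact Real.rpow_le_rpow_of_nonpos (by positivity) hx (by linarith)
        _ = |K| * 2 ^ p * (1 - c) ^ (-p) := by
            rw [Real.div_rpow h1c.le (by norm_num), Real.rpow_neg (by norm_num : (0:ℝ) ≤ 2), div_inv_eq_mul]; ring
    have hpos : 0 ≤ |K| * 2 ^ p * (1 - c) ^ (-p) := by positivity
    have a1 : β0 b ε c ≤ |K| * 2 ^ p * (1 - c) ^ (-p) := by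
      unfold β0
      split_ifs with h
      · exact key (-c) (by linarith) (by linarith) (by linarith [h.1.1])
      · exact hpos
    have a2 : β0 b ε (-c) ≤ |K| * 2 ^ p * (1 - c) ^ (-p) := by
      unfold β0
      split_ifs with h
      · rw [neg_neg]; exact key c le_rfl (by linarith) hc1
      · exact hpos
    unfold βs
    have h3 : (if 0 < c then β0 b ε c else 0) ≤ |K| * 2 ^ p * (1 - c) ^ (-p) := by
      split_ifs <;> assumption
    have h4 : (if 0 ≤ c then β0 b ε (-c) else 0) ≤ |K| * 2 ^ p * (1 - c) ^ (-p) := by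
      split_ifs <;> assumption
    linarith
  · refine ⟨|K| * (ε / 2) ^ (-p) + |K| * (ε / 2) ^ (-p), fun c => ?_⟩
    have hpos : 0 ≤ |K| * (ε / 2) ^ (-p) := by positivity
    unfold βs
    refine add_le_add ?_ ?_
    · split_ifs
      · exact β0_le hp hb hε _
      · exact hpos
    · split_ifs
      · exact β0_le hp hb hε _
      · exact hpos

/-- symmetrisation -/
lemma symm_int (γ : ℝ) {b : ℝ → ℝ} {p K : ℝ} (hb : IsAng p K b) (ε : ℝ) {F : Sp d → V d → ℝ≥0∞}
    (hF : Measurable (fun q : Sp d × V d => F q.1 q.2))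
    (hsym : ∀ σ u, F (rot (LinearIsometryEquiv.neg ℝ) σ) u = F σ u) :
    ∫⁻ σ : Sp d, (∫⁻ u : V d, ENNReal.ofReal (kern γ (β0 b ε) σ u) * F σ u) ∂(sm d) =
      ∫⁻ σ : Sp d, (∫⁻ u : V d, ENNReal.ofReal (kern γ (βs b ε) σ u) * F σ u) ∂(sm d) := by
  classical
  set g1 : ℝ → ℝ := fun c => if 0 < c then β0 b ε c else 0 with hg1
  set g2 : ℝ → ℝ := fun c => if c ≤ 0 then β0 b ε c else 0 with hg2
  set g3 : ℝ → ℝ := fun c => if 0 ≤ c then β0 b ε (-c) else 0 with hg3
  have m1 : Measurable g1 := Measurable.ite measurableSet_Ioi (measurable_β0 hb.meas ε) measurable_const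
  have m2 : Measurable g2 := Measurable.ite measurableSet_Iic (measurable_β0 hb.meas ε) measurable_const
  have m3 : Measurable g3 := Measurable.ite measurableSet_Ici ((measurable_β0 hb.meas ε).comp measurable_neg) measurable_const
  have n1 : ∀ c, 0 ≤ g1 c := fun c => by
    have := β0_nonneg hb ε c
    simp only [hg1]; split_ifs <;> linarith
  have n2 : ∀ c, 0 ≤ g2 c := fun c => by
    have := β0_nonneg hb ε c
    simp only [hg2]; split_ifs <;> linarith
  have n3 : ∀ c, 0 ≤ g3 c := fun c => by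
    have := β0_nonneg hb ε (-c)
    simp only [hg3]; split_ifs <;> linarith
  have e12 : ∀ c, β0 b ε c = g1 c + g2 c := fun c => by
    simp only [hg1, hg2]
    rcases lt_or_ge 0 c with h | h
    · rw [if_pos h, if_neg (by linarith), add_zero]
    · rw [if_neg (by linarith), if_pos h, zero_add]
  have e23 : ∀ c, g2 (-c) = g3 c := fun c => by
    simp only [hg2, hg3, Left.neg_nonpos_iff]
  have mF : ∀ {g : ℝ → ℝ}, Measurable g → Measurable (fun q : Sp d × V d => ENNReal.ofReal (kern γ g q.1 q.2) * F q.1 q.2) :=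
    fun hg => (measurable_kern' γ hg).mul hF
  have split : ∀ {g g' : ℝ → ℝ}, Measurable g → (∀ c, 0 ≤ g c) → (∀ c, 0 ≤ g' c) →
      ∫⁻ σ : Sp d, (∫⁻ u : V d, ENNReal.ofReal (kern γ (fun c => g c + g' c) σ u) * F σ u) ∂(sm d) =
      ∫⁻ σ : Sp d, (∫⁻ u : V d, ENNReal.ofReal (kern γ g σ u) * F σ u) ∂(sm d) +
      ∫⁻ σ : Sp d, (∫⁻ u : V d, ENNReal.ofReal (kern γ g' σ u) * F σ u) ∂(sm d) := by
    intro g g' hg hg0 hg0'
    rw [← lintegral_add_left (mF hg).lintegral_prod_right']
    refine lintegral_congr fun σ => ?_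
    simp only
    rw [← lintegral_add_left (meas_slice (F := fun σ u => ENNReal.ofReal (kern γ g σ u) * F σ u) (mF hg) σ)]
    refine lintegral_congr fun u => ?_
    rw [← add_mul]
    congr 1
    unfold kern
    rw [← ENNReal.ofReal_add (mul_nonneg (by positivity) (hg0 _)) (mul_nonneg (by positivity) (hg0' _)), ← mul_add]
  have flip : ∫⁻ σ : Sp d, (∫⁻ u : V d, ENNReal.ofReal (kern γ g2 σ u) * F σ u) ∂(sm d) =
      ∫⁻ σ : Sp d, (∫⁻ u : V d, ENNReal.ofReal (kern γ g3 σ u) * F σ u) ∂(sm d) := by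
    rw [← lintegral_rot (LinearIsometryEquiv.neg ℝ) (mF m2).lintegral_prod_right']
    refine lintegral_congr fun σ => lintegral_congr fun u => ?_
    simp only
    rw [hsym]
    congr 2
    unfold kern
    rw [rot_coe, ← e23]
    simp only [LinearIsometryEquiv.coe_neg, inner_neg_right, neg_div]
  have h0 : β0 b ε = fun c => g1 c + g2 c := funext e12
  have hs : βs b ε = fun c => g1 c + g3 c := rfl
  rw [h0, hs, split m1 n1 n2, split m1 n1 n3, flip]

end Pool.Agent.H821.BZ
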