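import Pool.Agent.H821.BZ.Cancel

/-! The weights. -/

set_option autoImplicit false
open MeasureTheory Metric Set
open scoped ENNReal Real InnerProductSpace Pointwise

namespace Pool.Agent.H821.BZ

variable {d : ℕ}

/-- the weight `(1 + |v|²)^{-N}` -/
noncomputable def φ (N : ℕ) (v : V d) : ℝ := ((1 + ‖v‖ ^ 2) ^ N)⁻¹

lemma φ_pos (N : ℕ) (v : V d) : 0 < φ N v := by unfold φ; positivity

lemma continuous_φ (N : ℕ) : Continuous (φ (d := d) N) := by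
  unfold φ
  refine Continuous.inv₀ (by fun_prop) fun v => by positivity

/-- the set of the `h` such that `v + h` is not much smaller than `v` -/
def χ (v h : V d) : Prop := ‖v‖ < 1 ∨ ‖v‖ ^ 2 / 2 ≤ ‖v + h‖ ^ 2

lemma taylor (N : ℕ) : ∃ C : ℝ, 0 ≤ C ∧ ∀ y : ℝ, |y| ≤ 1/4 → ((1 + y) ^ N)⁻¹ ≤ 1 - N * y + C * y ^ 2 := by
  induction N with
  | zero => exact ⟨0, le_refl _, fun y _ => by simp⟩
  | succ N ih =>
    obtain ⟨C, hC, h⟩ := ih
    refine ⟨2 * N + 2 + 2 * C, by positivity, fun y hy => ?_⟩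
    obtain ⟨hy1, hy2⟩ := abs_le.1 hy
    have h1 : (1 + y)⁻¹ ≤ 1 - y + 4/3 * y ^ 2 := by
      rw [inv_le_iff_one_le_mul₀ (by linarith)]
      nlinarith [sq_nonneg y, mul_nonneg (sq_nonneg y) (by linarith : (0:ℝ) ≤ y + 1/4)]
    have h2 := h y hy
    have h3 : 0 < ((1 + y) ^ N)⁻¹ := by
      have : 0 < 1 + y := by linarith
      positivity
    have h4 : 0 < (1 + y)⁻¹ := by
      have : 0 < 1 + y := by linarith
      positivity
    have h5 : ((1 + y) ^ (N + 1))⁻¹ ≤ (1 - N * y + C * y ^ 2) * (1 - y + 4/3 * y ^ 2) := by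
      rw [pow_succ, mul_inv]
      exact mul_le_mul h2 h1 h4.le (h3.le.trans h2)
    refine h5.trans ?_
    push_cast
    have hN : (0:ℝ) ≤ N := by positivity
    have e : (1 - N * y + C * y ^ 2) * (1 - y + 4/3 * y ^ 2) =
      1 - (N + 1) * y + y ^ 2 * (4/3 + N + C - 4/3 * N * y - C * y + 4/3 * C * y ^ 2) := by ring
    rw [e]
    have hy3 : y ^ 2 ≤ 1/16 := by nlinarith
    have : 4/3 + N + C - 4/3 * N * y - C * y + 4/3 * C * y ^ 2 ≤ N + 2 + 2 * C + N := by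
      nlinarith [mul_nonneg hN (by linarith : (0:ℝ) ≤ y + 1/4), mul_nonneg hC (by linarith : (0:ℝ) ≤ y + 1/4),
        mul_nonneg hC (by linarith : (0:ℝ) ≤ 1/16 - y ^ 2)]
    nlinarith [mul_le_mul_of_nonneg_left this (sq_nonneg y)]

lemma norm_add_sq' (v h : V d) : ‖v + h‖ ^ 2 = ‖v‖ ^ 2 + 2 * ⟪v, h⟫_ℝ + ‖h‖ ^ 2 :=
  norm_add_sq_real v h

open Classical in
/-- second differences of the weight -/
theorem secdiff (N : ℕ) : ∃ C : ℝ, 0 ≤ C ∧ ∀ v h : V d,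
    (if χ v h then φ N (v + h) else 0) + (if χ v (-h) then φ N (v + -h) else 0) ≤
      φ N v * (2 + C * min 1 (‖h‖ ^ 2 / (1 + ‖v‖ ^ 2))) := by
  obtain ⟨C, hC, hT⟩ := taylor N
  refine ⟨max (64 * (2 * 2 ^ N)) (8 * C), by positivity, fun v h => ?_⟩
  set A := 1 + ‖v‖ ^ 2 with hA
  have hA0 : 0 < A := by positivity
  have hφ : φ N v = (A ^ N)⁻¹ := rfl
  have hφ0 := φ_pos N v
  -- crude bound
  have crude : ∀ h : V d, (if χ v h then φ N (v + h) else 0) ≤ 2 ^ N * φ N v := by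
    intro h
    split_ifs with hc
    · have h1 : A / 2 ≤ 1 + ‖v + h‖ ^ 2 := by
        rcases hc with hc | hc
        · have : ‖v‖ ^ 2 < 1 := by
            have := norm_nonneg v; nlinarith
          have := sq_nonneg ‖v + h‖
          rw [hA]; linarith
        · rw [hA]; linarith
      unfold φ
      rw [← hA]
      calc ((1 + ‖v + h‖ ^ 2) ^ N)⁻¹ ≤ ((A / 2) ^ N)⁻¹ := by gcongr
        _ = 2 ^ N * (A ^ N)⁻¹ := by rw [div_pow, inv_div]; rfl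
    · positivity
  by_cases hbig : 1 / 64 ≤ ‖h‖ ^ 2 / A
  · have h1 := crude h
    have h2 := crude (-h)
    have h3 : 1 / 64 ≤ min 1 (‖h‖ ^ 2 / A) := le_min (by norm_num) hbig
    have h4 : 64 * (2 * 2 ^ N) * (1/64) ≤ max (64 * (2 * 2 ^ N)) (8 * C) * min 1 (‖h‖ ^ 2 / A) :=
      mul_le_mul (le_max_left _ _) h3 (by norm_num) (by positivity)
    have h5 : 2 * 2 ^ N ≤ 2 + max (64 * (2 * 2 ^ N)) (8 * C) * min 1 (‖h‖ ^ 2 / A) := by linarith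
    nlinarith [mul_le_mul_of_nonneg_left h5 hφ0.le]
  · push Not at hbig
    have hX : ‖h‖ ^ 2 < A / 64 := by
      rw [div_lt_iff₀ hA0] at hbig; linarith
    have hmin : min 1 (‖h‖ ^ 2 / A) = ‖h‖ ^ 2 / A := min_eq_right (by linarith)
    rw [hmin]
    set y := 2 * ⟪v, h⟫_ℝ / A with hy
    have hcs : |⟪v, h⟫_ℝ| ≤ ‖v‖ * ‖h‖ := abs_real_inner_le_norm v h
    have hsq : ⟪v, h⟫_ℝ ^ 2 ≤ ‖v‖ ^ 2 * ‖h‖ ^ 2 := by
      rw [← sq_abs, ← mul_pow]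
      exact pow_le_pow_left₀ (abs_nonneg _) hcs 2
    have hy2 : y ^ 2 ≤ 4 * (‖h‖ ^ 2 / A) := by
      rw [hy, div_pow, mul_pow]
      rw [div_le_iff₀ (by positivity)]
      have : 4 * (‖h‖ ^ 2 / A) * A ^ 2 = 4 * (‖h‖ ^ 2 * A) := by field_simp
      rw [this]
      nlinarith [sq_nonneg ‖h‖]
    have hy1 : |y| ≤ 1/4 := by
      apply abs_le_of_sq_le_sq _ (by norm_num)
      have : 4 * (‖h‖ ^ 2 / A) < 4 * (1/64) := by linarith
      norm_num; linarith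
    have one : ∀ (g : V d) (y : ℝ), |y| ≤ 1/4 → y = 2 * ⟪v, g⟫_ℝ / A →
        (if χ v g then φ N (v + g) else 0) ≤ φ N v * ((1 + y) ^ N)⁻¹ := by
      intro g y hy1 hy
      have hy1' := (abs_le.1 hy1).1
      have hpos : 0 < 1 + y := by linarith
      split_ifs
      · unfold φ
        rw [← hA, ← mul_inv, ← mul_pow]
        have : A * (1 + y) ≤ 1 + ‖v + g‖ ^ 2 := by
          rw [norm_add_sq', hy, hA]
          have e : (1 + ‖v‖ ^ 2) * (1 + 2 * ⟪v, g⟫_ℝ / (1 + ‖v‖ ^ 2)) = 1 + ‖v‖ ^ 2 + 2 * ⟪v, g⟫_ℝ := by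
            field_simp
          rw [e]
          have := sq_nonneg ‖g‖
          linarith
        gcongr
      · positivity
    have h1 := one h y hy1 hy
    have h2 := one (-h) (-y) (by rwa [abs_neg]) (by rw [hy, inner_neg_right]; ring)
    have h3 := hT y hy1
    have h4 := hT (-y) (by rwa [abs_neg])
    have h5 : ((1 + y) ^ N)⁻¹ + ((1 + -y) ^ N)⁻¹ ≤ 2 + 8 * C * (‖h‖ ^ 2 / A) := by
      nlinarith [mul_le_mul_of_nonneg_left hy2 hC]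
    have h6 : 8 * C * (‖h‖ ^ 2 / A) ≤ max (64 * (2 * 2 ^ N)) (8 * C) * (‖h‖ ^ 2 / A) :=
      mul_le_mul_of_nonneg_right (le_max_right _ _) (by positivity)
    nlinarith [mul_le_mul_of_nonneg_left (h5.trans (by linarith : 2 + 8 * C * (‖h‖ ^ 2 / A) ≤
      2 + max (64 * (2 * 2 ^ N)) (8 * C) * (‖h‖ ^ 2 / A))) hφ0.le]

/-- the weight at the other post-collisional velocity -/
theorem regionII (N : ℕ) (v z h : V d) (hzh : ⟪z, h⟫_ℝ = 0) (hz : z ≠ 0) (hχ : ¬ χ v h) :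
    φ N (v + z) ≤ 256 ^ N * φ N v * (‖h‖ ^ 2 / ‖z‖ ^ 2) ^ N ∧ 1/4 ≤ ‖h‖ := by
  unfold χ at hχ
  push Not at hχ
  obtain ⟨hv1, hv2⟩ := hχ
  have hz0 : 0 < ‖z‖ := norm_pos_iff.2 hz
  have hlow : ‖v‖ / 4 ≤ ‖h‖ := by
    have h1 : ‖v‖ ≤ ‖v + h‖ + ‖h‖ := by
      have := norm_sub_le (v + h) h; rwa [add_sub_cancel_right] at this
    have h2 : ‖v + h‖ ≤ 3/4 * ‖v‖ := by
      refine (sq_le_sq₀ (norm_nonneg _) (by positivity)).1 ?_
      nlinarith [sq_nonneg ‖v‖]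
    linarith
  have hid : ‖v + z‖ ^ 2 + ‖v + h‖ ^ 2 = ‖v‖ ^ 2 + ‖v + z + h‖ ^ 2 := by
    rw [norm_add_sq', norm_add_sq', norm_add_sq' (v + z) h, norm_add_sq' v z, inner_add_left, hzh]; ring
  have h8 : ‖z‖ ^ 2 / 8 ≤ ‖v + z‖ ^ 2 := by
    by_cases hc : 2 * ‖v‖ ≤ ‖z‖
    · have h1 : ‖z‖ ≤ ‖v + z‖ + ‖v‖ := by
        have := norm_sub_le (v + z) v; rwa [add_sub_cancel_left] at this
      have h2 : ‖z‖ / 2 ≤ ‖v + z‖ := by linarith
      nlinarith [norm_nonneg (v + z)]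
    · push Not at hc
      have := sq_nonneg ‖v + z + h‖
      nlinarith [norm_nonneg z, norm_nonneg v]
  refine ⟨?_, by linarith⟩
  unfold φ
  have h1 : ((1 + ‖v + z‖ ^ 2) ^ N)⁻¹ ≤ ((‖z‖ ^ 2 / 8) ^ N)⁻¹ := by
    gcongr; linarith
  refine h1.trans ?_
  rw [← inv_pow, ← inv_pow, ← mul_pow, ← mul_pow]
  refine pow_le_pow_left₀ (by positivity) ?_ N
  rw [inv_div]
  have h2 : 1 + ‖v‖ ^ 2 ≤ 32 * ‖h‖ ^ 2 := by nlinarith
  rw [div_le_iff₀ (by positivity)]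
  have h3 : 256 * (1 + ‖v‖ ^ 2)⁻¹ * (‖h‖ ^ 2 / ‖z‖ ^ 2) * ‖z‖ ^ 2 = 256 * ‖h‖ ^ 2 / (1 + ‖v‖ ^ 2) := by
    field_simp
  rw [h3, le_div_iff₀ (by positivity)]
  linarith

end Pool.Agent.H821.BZ
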