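import Pool.Agent.H821.BZ.Est5

/-! A Povzner type inequality for the kernels in the new variable. -/

set_option autoImplicit false
open MeasureTheory Metric Set
open scoped ENNReal Real InnerProductSpace Pointwise

namespace Pool.Agent.H821.BZ

variable {d : ℕ}

/-- the test function, as a function of `|u|²` -/
noncomputable def Fr (n : ℕ) (t : ℝ) : ℝ := ((max 1 t) ^ n)⁻¹

lemma Fr_pos (n : ℕ) (t : ℝ) : 0 < Fr n t := by
  unfold Fr
  have : 0 < max 1 t := lt_of_lt_of_le one_pos (le_max_left _ _)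
  positivity

lemma continuous_Fr (n : ℕ) : Continuous (Fr n) := by
  unfold Fr
  refine Continuous.inv₀ (by fun_prop) fun t => ?_
  have : 0 < max 1 t := lt_of_lt_of_le one_pos (le_max_left _ _)
  positivity

lemma Fr_mul (n : ℕ) {μ t : ℝ} (h0 : 0 ≤ μ) (h1 : μ ≤ 1) : Fr n (μ * t) * μ ^ n ≤ Fr n t := by
  unfold Fr
  have h2 : 0 < max 1 t := lt_of_lt_of_le one_pos (le_max_left _ _)
  have h3 : 0 < max 1 (μ * t) := lt_of_lt_of_le one_pos (le_max_left _ _)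
  have h4 : μ * max 1 t ≤ max 1 (μ * t) := by
    rcases le_total 1 t with h | h
    · rw [max_eq_right h]; exact le_max_right _ _
    · rw [max_eq_left h, mul_one]; exact h1.trans (le_max_left _ _)
  rw [inv_mul_le_iff₀ (by positivity), ← div_eq_mul_inv, le_div_iff₀ (by positivity), ← mul_pow]
  exact pow_le_pow_left₀ (by positivity) h4 n

lemma Fr_mul' (n : ℕ) {μ t : ℝ} (h0 : 0 ≤ μ) (h1 : μ ≤ 1) : Fr n (μ * t) * μ ^ (n + 1) ≤ μ * Fr n t := by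
  have := Fr_mul n (t := t) h0 h1
  rw [pow_succ]
  nlinarith [mul_le_mul_of_nonneg_left this h0]

/-- integrability of the test function -/
lemma integrable_Fr [Nontrivial (V d)] {n : ℕ} {γ : ℝ} (hγ : 0 ≤ γ) (hn : d + γ < 2 * n) :
    Integrable (fun u : V d => ‖u‖ ^ γ * Fr n (‖u‖ ^ 2)) := by
  have h := integrable_rpow_neg_one_add_norm_sq (E := V d) (μ := volume) (r := 2 * n - γ) (by simp; linarith)
  refine Integrable.mono' (h.const_mul (2 ^ n)) ?_ (Filter.Eventually.of_forall fun u => ?_)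
  · have : Measurable (fun u : V d => ‖u‖ ^ γ * Fr n (‖u‖ ^ 2)) :=
      (measurable_norm.pow_const γ).mul ((continuous_Fr n).measurable.comp (measurable_norm.pow_const 2))
    exact this.aestronglyMeasurable
  · have hF := Fr_pos n (‖u‖ ^ 2)
    rw [Real.norm_eq_abs, abs_of_nonneg (by positivity)]
    have hu := norm_nonneg u
    have hA : 0 < 1 + ‖u‖ ^ 2 := by positivity
    have h1 : ‖u‖ ^ γ ≤ (1 + ‖u‖ ^ 2) ^ (γ / 2) := by
      have : ‖u‖ ^ γ = (‖u‖ ^ 2) ^ (γ / 2) := by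
        rw [← Real.rpow_natCast ‖u‖ 2, ← Real.rpow_mul hu]; congr 1; push_cast; ring
      rw [this]
      exact Real.rpow_le_rpow (by positivity) (by linarith) (by positivity)
    have h2 : Fr n (‖u‖ ^ 2) ≤ 2 ^ n * ((1 + ‖u‖ ^ 2) ^ n)⁻¹ := by
      unfold Fr
      have h3 : (1 + ‖u‖ ^ 2) / 2 ≤ max 1 (‖u‖ ^ 2) := by
        rcases le_total 1 (‖u‖ ^ 2) with h | h
        · rw [max_eq_right h]; linarith
        · rw [max_eq_left h]; linarith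
      calc ((max 1 (‖u‖ ^ 2)) ^ n)⁻¹ ≤ (((1 + ‖u‖ ^ 2) / 2) ^ n)⁻¹ := by gcongr
        _ = 2 ^ n * ((1 + ‖u‖ ^ 2) ^ n)⁻¹ := by rw [div_pow, inv_div]; rfl
    calc ‖u‖ ^ γ * Fr n (‖u‖ ^ 2) ≤ (1 + ‖u‖ ^ 2) ^ (γ / 2) * (2 ^ n * ((1 + ‖u‖ ^ 2) ^ n)⁻¹) :=
          mul_le_mul h1 h2 hF.le (by positivity)
      _ = 2 ^ n * (1 + ‖u‖ ^ 2) ^ (-(2 * n - γ) / 2) := by
          rw [show (-(2 * (n:ℝ) - γ) / 2) = γ / 2 + -(n:ℝ) by ring, Real.rpow_add hA, Real.rpow_neg hA.le (n:ℝ), Real.rpow_natCast]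
          ring

/-- the integral of the kernel in the new variable against a power of `τ²` -/
noncomputable def PP (d : ℕ) (γ : ℝ) (β : ℝ → ℝ) (n : ℕ) (e : V d) : ℝ≥0∞ :=
  ∫⁻ σ : Sp d, ENNReal.ofReal (kk d γ β ⟪e, (σ : V d)⟫_ℝ * (⟪e, (σ : V d)⟫_ℝ ^ 2) ^ n) ∂(sm d)

lemma PP_rep [Nontrivial (V d)] {γ : ℝ} {β : ℝ → ℝ} (hβm : Measurable β) (hβ0 : ∀ c, 0 ≤ β c) (hβ1 : β (-1) = 0)
    (n : ℕ) (e : V d) (he : ‖e‖ = 1) :
    (∫⁻ u : V d, ENNReal.ofReal (‖u‖ ^ γ * Fr n (‖u‖ ^ 2))) * PP d γ β (n + 1) e ≤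
      ∫⁻ σ : Sp d, (∫⁻ u : V d, ENNReal.ofReal (‖u‖ ^ γ * β (⟪u, (σ : V d)⟫_ℝ / ‖u‖) *
        ((1 + ⟪u, (σ : V d)⟫_ℝ / ‖u‖) / 2 * Fr n (‖u‖ ^ 2)))) ∂(sm d) := by
  have hGm : Measurable (fun u : V d => ENNReal.ofReal (‖u‖ ^ γ * Fr n (‖u‖ ^ 2))) :=
    ((measurable_norm.pow_const γ).mul ((continuous_Fr n).measurable.comp (measurable_norm.pow_const 2))).ennreal_ofReal
  have hkm : Measurable (fun τ => ENNReal.ofReal (kk d γ β τ * (τ ^ 2) ^ (n + 1))) := by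
    have := measurable_kk (d := d) (γ := γ) hβm
    fun_prop
  have hae0 : ∀ᵐ u : V d, u ≠ 0 := by
    rw [ae_iff]; simp
  unfold PP
  rw [← sep hGm hkm e he]
  refine lintegral_mono fun σ => ?_
  have hσ : ‖(σ : V d)‖ = 1 := by simp
  -- the test function in terms of both post-collisional velocities
  set Θ : V d → V d → ℝ≥0∞ := fun z h => ENNReal.ofReal (Fr n (‖z‖ ^ 2) * (‖z‖ ^ 2 / (‖z‖ ^ 2 + ‖h‖ ^ 2)) ^ (n + 1)) with hΘ
  have hm := master hσ hβ1 γ Θ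
  have e1 : ∫⁻ u : V d, ENNReal.ofReal (‖u‖ ^ γ * Fr n (‖u‖ ^ 2)) *
      ENNReal.ofReal (kk d γ β (⟪u, (σ : V d)⟫_ℝ / ‖u‖) * ((⟪u, (σ : V d)⟫_ℝ / ‖u‖) ^ 2) ^ (n + 1)) =
      ∫⁻ z : V d, ENNReal.ofReal (‖z‖ ^ γ * kk d γ β (⟪z, (σ : V d)⟫_ℝ / ‖z‖)) * Θ z (hh (σ : V d) z) := by
    refine lintegral_congr_ae (hae0.mono fun z hz => ?_)
    simp only [hΘ]
    set τ := ⟪z, (σ : V d)⟫_ℝ / ‖z‖ with hτ
    have hz0 : 0 < ‖z‖ := norm_pos_iff.2 hz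
    rw [← ENNReal.ofReal_mul (by have := Fr_pos n (‖z‖ ^ 2); positivity),
      ← ENNReal.ofReal_mul (mul_nonneg (by positivity) (kk_nonneg hβ0 _))]
    congr 1
    by_cases h0 : 0 < τ
    · have hin : 0 < ⟪z, (σ : V d)⟫_ℝ := by
        rw [hτ, lt_div_iff₀ hz0, zero_mul] at h0; exact h0
      have hn := norm_hh_sq hσ hin
      rw [← hτ] at hn
      have e2 : ‖z‖ ^ 2 / (‖z‖ ^ 2 + ‖hh (σ : V d) z‖ ^ 2) = τ ^ 2 := by
        rw [hn]; field_simp; ring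
      rw [e2]; ring
    · have : kk d γ β τ = 0 := by unfold kk; rw [if_neg h0]
      rw [this]; ring
  rw [e1, ← hm]
  refine lintegral_mono_ae (hae0.mono fun u hu => ?_)
  simp only [hΘ]
  set c := ⟪u, (σ : V d)⟫_ℝ / ‖u‖ with hc
  have hu0 : 0 < ‖u‖ := norm_pos_iff.2 hu
  have hc1 : |c| ≤ 1 := by
    rw [hc, abs_div, abs_norm]
    refine div_le_one_of_le₀ ?_ (norm_nonneg _)
    have := abs_real_inner_le_norm u (σ : V d)
    rwa [hσ, mul_one] at this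
  obtain ⟨hc1a, hc1b⟩ := abs_le.1 hc1
  have hTz : ‖T (σ : V d) u‖ ^ 2 = (1 + c) / 2 * ‖u‖ ^ 2 := by
    rw [norm_T_sq hσ, hc]; field_simp
  have hTh : ‖T (-(σ : V d)) u‖ ^ 2 = (1 - c) / 2 * ‖u‖ ^ 2 := by
    have hσ' : ‖-(σ : V d)‖ = 1 := by rw [norm_neg]; exact hσ
    rw [norm_T_sq hσ', inner_neg_right, hc]; field_simp; ring
  have hratio : ‖T (σ : V d) u‖ ^ 2 / (‖T (σ : V d) u‖ ^ 2 + ‖T (-(σ : V d)) u‖ ^ 2) = (1 + c) / 2 := by
    rw [hTz, hTh, ← add_mul, show (1 + c) / 2 + (1 - c) / 2 = 1 by ring, one_mul]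
    field_simp
  rw [hratio, hTz, ← ENNReal.ofReal_mul (mul_nonneg (by positivity) (hβ0 _))]
  refine ENNReal.ofReal_le_ofReal ?_
  refine mul_le_mul_of_nonneg_left ?_ (mul_nonneg (by positivity) (hβ0 _))
  exact Fr_mul' n (by linarith) (by linarith)

/-- the Povzner type inequality -/
theorem povz (hd : 2 ≤ d) {p K γ : ℝ} {β : ℝ → ℝ} (hβ : IsKer p K β) {n : ℕ} (hγ : 0 ≤ γ) (hn : d + γ < 2 * n)
    (e : V d) (he : ‖e‖ = 1) :
    PP d γ β (n + 1) e + PP d γ (fun c => β (-c)) (n + 1) e ≤ BB d β e := by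
  have : Nontrivial (Fin d) := Fin.nontrivial_iff_two_le.2 hd
  have : Nonempty (Fin d) := inferInstance
  have : Nontrivial (V d) := inferInstance
  have hβ1 : β (-1) = 0 := by
    by_contra h
    have := (hβ.supp _ h).1; norm_num at this
  have hβ2 : β 1 = 0 := by
    by_contra h
    have := (hβ.supp _ h).2; exact lt_irrefl _ this
  set W := ∫⁻ u : V d, ENNReal.ofReal (‖u‖ ^ γ * Fr n (‖u‖ ^ 2)) with hW
  have hGm : Measurable (fun u : V d => ENNReal.ofReal (‖u‖ ^ γ * Fr n (‖u‖ ^ 2))) :=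
    ((measurable_norm.pow_const γ).mul ((continuous_Fr n).measurable.comp (measurable_norm.pow_const 2))).ennreal_ofReal
  have hWtop : W ≠ ⊤ :=
    ne_top_of_le_ne_top (integrable_Fr (d := d) hγ hn).2.ne (lintegral_mono fun u => Real.ofReal_le_enorm _)
  have hW0 : W ≠ 0 := by
    rw [hW, Ne, lintegral_eq_zero_iff hGm]
    intro h
    have hae0 : ∀ᵐ u : V d, u ≠ 0 := by
      rw [ae_iff]; simp
    have h2 : ∀ᵐ u : V d, False := by
      filter_upwards [h, hae0] with u hu hu0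
      have h3 : 0 < ‖u‖ := norm_pos_iff.2 hu0
      have h4 := Fr_pos n (‖u‖ ^ 2)
      have : (0:ℝ≥0∞) < ENNReal.ofReal (‖u‖ ^ γ * Fr n (‖u‖ ^ 2)) := by
        simp only [ENNReal.ofReal_pos]; positivity
      simp only [Pi.zero_apply] at hu
      rw [hu] at this; exact lt_irrefl _ this
    rw [Filter.eventually_false_iff_eq_bot, ae_eq_bot] at h2
    exact NeZero.ne _ h2
  have hcoe : Measurable (fun q : Sp d × V d => ⟪q.2, (q.1 : V d)⟫_ℝ / ‖q.2‖) :=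
    (measurable_snd.inner (measurable_subtype_coe.comp measurable_fst)).div measurable_snd.norm
  have mm : ∀ (sg : ℝ) {g : ℝ → ℝ}, Measurable g → Measurable (fun q : Sp d × V d => ENNReal.ofReal (‖q.2‖ ^ γ * g (⟪q.2, (q.1 : V d)⟫_ℝ / ‖q.2‖) *
        ((1 + sg * (⟪q.2, (q.1 : V d)⟫_ℝ / ‖q.2‖)) / 2 * Fr n (‖q.2‖ ^ 2)))) := by
    intro sg g hg
    have h1 : Measurable (fun q : Sp d × V d => ‖q.2‖ ^ γ * g (⟪q.2, (q.1 : V d)⟫_ℝ / ‖q.2‖)) := measurable_kern γ hg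
    have h2 : Measurable (fun q : Sp d × V d => Fr n (‖q.2‖ ^ 2)) :=
      (continuous_Fr n).measurable.comp (measurable_snd.norm.pow_const 2)
    have h3 : Measurable (fun q : Sp d × V d => (1 + sg * (⟪q.2, (q.1 : V d)⟫_ℝ / ‖q.2‖)) / 2) :=
      ((hcoe.const_mul sg).const_add 1).div_const 2
    exact (h1.mul (h3.mul h2)).ennreal_ofReal
  have r1 := PP_rep (d := d) (γ := γ) hβ.meas hβ.nonneg hβ1 n e he
  have r2 := PP_rep (d := d) (γ := γ) (β := fun c => β (-c)) (hβ.meas.comp measurable_neg) (fun c => hβ.nonneg _)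
    (by simpa using hβ2) n e he
  rw [← hW] at r1 r2
  -- flip
  have flip : ∫⁻ σ : Sp d, (∫⁻ u : V d, ENNReal.ofReal (‖u‖ ^ γ * β (-(⟪u, (σ : V d)⟫_ℝ / ‖u‖)) *
        ((1 + ⟪u, (σ : V d)⟫_ℝ / ‖u‖) / 2 * Fr n (‖u‖ ^ 2)))) ∂(sm d) =
      ∫⁻ σ : Sp d, (∫⁻ u : V d, ENNReal.ofReal (‖u‖ ^ γ * β (⟪u, (σ : V d)⟫_ℝ / ‖u‖) *
        ((1 + (-1) * (⟪u, (σ : V d)⟫_ℝ / ‖u‖)) / 2 * Fr n (‖u‖ ^ 2)))) ∂(sm d) := by
    have hm0 : Measurable (fun σ : Sp d => ∫⁻ u : V d, ENNReal.ofReal (‖u‖ ^ γ * β (⟪u, (σ : V d)⟫_ℝ / ‖u‖) *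
        ((1 + (-1) * (⟪u, (σ : V d)⟫_ℝ / ‖u‖)) / 2 * Fr n (‖u‖ ^ 2)))) := (mm (-1) hβ.meas).lintegral_prod_right'
    rw [← lintegral_rot (LinearIsometryEquiv.neg ℝ) hm0]
    refine lintegral_congr fun σ => lintegral_congr fun u => ?_
    simp only [rot_coe, LinearIsometryEquiv.coe_neg, inner_neg_right, neg_div]
    congr 3
    ring
  rw [flip] at r2
  have hsum : W * (PP d γ β (n + 1) e + PP d γ (fun c => β (-c)) (n + 1) e) ≤ W * BB d β e := by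
    rw [mul_add]
    refine (add_le_add r1 r2).trans ?_
    have hm1 : Measurable (fun q : Sp d × V d => ENNReal.ofReal (‖q.2‖ ^ γ * β (⟪q.2, (q.1 : V d)⟫_ℝ / ‖q.2‖) *
        ((1 + (⟪q.2, (q.1 : V d)⟫_ℝ / ‖q.2‖)) / 2 * Fr n (‖q.2‖ ^ 2)))) := by
      have := mm 1 hβ.meas
      simpa only [one_mul] using this
    rw [← lintegral_add_left hm1.lintegral_prod_right']
    unfold BB
    rw [← sep hGm hβ.meas.ennreal_ofReal e he]
    refine lintegral_mono fun σ => ?_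
    simp only
    rw [← lintegral_add_left (meas_slice (F := fun (σ : Sp d) (u : V d) => ENNReal.ofReal (‖u‖ ^ γ * β (⟪u, (σ : V d)⟫_ℝ / ‖u‖) *
        ((1 + (⟪u, (σ : V d)⟫_ℝ / ‖u‖)) / 2 * Fr n (‖u‖ ^ 2)))) hm1 σ)]
    refine lintegral_mono fun u => ?_
    simp only
    set c := ⟪u, (σ : V d)⟫_ℝ / ‖u‖ with hc
    have hF := Fr_pos n (‖u‖ ^ 2)
    have hb := hβ.nonneg c
    by_cases h0 : β c = 0
    · rw [h0]; simp
    · obtain ⟨h1, h2⟩ := hβ.supp c h0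
      have h3 : 0 ≤ 1 - c := by linarith
      rw [← ENNReal.ofReal_add (by positivity) (mul_nonneg (by positivity) (mul_nonneg (by linarith) hF.le)),
        ← ENNReal.ofReal_mul (by positivity)]
      refine ENNReal.ofReal_le_ofReal (le_of_eq ?_)
      ring
  exact (ENNReal.mul_le_mul_iff_right hW0 hWtop).1 hsum

end Pool.Agent.H821.BZ
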