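import Pool.Agent.H821.BZ.Mom
import Pool.Agent.H821.BZ.Bar

/-! Solutions; the estimate at a touching point. -/

set_option autoImplicit false
open MeasureTheory Metric Set Filter Topology
open scoped ENNReal Real InnerProductSpace Pointwise

namespace Pool.Agent.H821.BZ

variable {d : ℕ}

/-- classical solutions -/
structure IsSol (γ : ℝ) (b : ℝ → ℝ) (T : ℝ) (f : ℝ → V d → V d → ℝ) : Prop where
  nonneg : ∀ t ∈ Ico 0 T, ∀ x v, 0 ≤ f t x v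
  periodic : ∀ t ∈ Ico 0 T, ∀ (n : Fin d → ℤ) (x v : V d), f t (x + zv n) v = f t x v
  cont : ContinuousOn (fun p : ℝ × V d × V d => f p.1 p.2.1 p.2.2) (Ico 0 T ×ˢ univ)
  decay : ∀ t₂ ∈ Ico 0 T, ∀ q : ℕ, ∃ C, ∀ t ∈ Icc 0 t₂, ∀ x v : V d, f t x v ≤ C * ((1 + ‖v‖) ^ q)⁻¹
  diff : ∀ t ∈ Ioo 0 T, ∀ x v : V d, DifferentiableAt ℝ (fun p : ℝ × V d => f p.1 p.2 v) (t, x)
  eqn : ∀ t ∈ Ioo 0 T, ∀ x v : V d, Tendsto (fun ε => Qcut γ b ε (f t x) v) (𝓝[>] 0)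
    (𝓝 (fderiv ℝ (fun p : ℝ × V d => f p.1 p.2 v) (t, x) (1, v)))

section
variable {γ T : ℝ} {b : ℝ → ℝ} {f : ℝ → V d → V d → ℝ}

lemma IsSol.measurable (h : IsSol γ b T f) {t : ℝ} (ht : t ∈ Ico 0 T) (x : V d) : Measurable (f t x) := by
  have h1 : Continuous (fun v : V d => f t x v) := by
    rw [← continuousOn_univ]
    exact h.cont.comp (f := fun v : V d => (t, x, v)) (s := univ)
      (continuous_const.prodMk (continuous_const.prodMk continuous_id)).continuousOn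
      (fun v _ => ⟨ht, mem_univ _⟩)
  exact h1.measurable

lemma IsSol.decayφ (h : IsSol γ b T f) {t₂ : ℝ} (ht : t₂ ∈ Ico 0 T) (N : ℕ) :
    ∃ C, 0 ≤ C ∧ ∀ t ∈ Icc 0 t₂, ∀ x v : V d, f t x v ≤ C * φ N v := by
  obtain ⟨C, hC⟩ := h.decay t₂ ht (2 * N)
  refine ⟨|C|, abs_nonneg _, fun t ht x v => (hC t ht x v).trans ?_⟩
  calc C * ((1 + ‖v‖) ^ (2 * N))⁻¹ ≤ |C| * ((1 + ‖v‖) ^ (2 * N))⁻¹ :=
        mul_le_mul_of_nonneg_right (le_abs_self C) (by positivity)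
    _ ≤ |C| * φ N v := mul_le_mul_of_nonneg_left (φ_lower N v) (abs_nonneg _)

lemma IsSol.timecont (h : IsSol γ b T f) {t₀ : ℝ} (ht₀ : t₀ ∈ Ioo 0 T) (x v : V d) :
    Tendsto (fun t => f t x v) (𝓝[<] t₀) (𝓝 (f t₀ x v)) := by
  have h1 := h.cont (t₀, x, v) ⟨⟨ht₀.1.le, ht₀.2⟩, mem_univ _⟩
  have h2 : ContinuousWithinAt (fun t => f t x v) (Ico 0 T) t₀ :=
    h1.comp (f := fun t => (t, x, v)) (s := Ico 0 T)
      ((continuous_id.prodMk continuous_const).continuousWithinAt) (fun t ht => ⟨ht, mem_univ _⟩)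
  refine h2.mono_left (le_inf inf_le_left ?_)
  rw [le_principal_iff]
  exact mem_of_superset (Ico_mem_nhdsLT ht₀.1) fun t ht => ⟨ht.1, ht.2.trans ht₀.2⟩
end

lemma rel_le_mom (γ a : ℝ) {f : V d → ℝ} (hf0 : ∀ w, 0 ≤ f w) (v : V d) :
    ∫⁻ z : V d, ENNReal.ofReal (‖z‖ ^ γ) * ENNReal.ofReal (f (v + z)) ≤ mom γ a f v := by
  rw [mom_shift]
  refine lintegral_mono fun z => ?_
  rw [← ENNReal.ofReal_mul (by positivity)]
  refine ENNReal.ofReal_le_ofReal ?_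
  have h1 := hf0 (v + z)
  have h2 : 0 ≤ (1 + ‖v + z‖) ^ a := by positivity
  nlinarith [mul_nonneg h1 h2]

/-- the equation at a touching point -/
theorem touch (hd : 2 ≤ d) {s K γ a : ℝ} (hs0 : 0 < s) (hs1 : s < 1) (hsa : 2 * s < a) (ha2 : a ≤ 2)
    (hγ : γ ≤ 0) (hγd : 0 < d + γ) {N : ℕ} (hN : (d:ℝ) + 3 ≤ 2 * N) :
    ∃ C : ℝ, 0 ≤ C ∧ ∀ b : ℝ → ℝ, IsAng ((d - 1) / 2 + s) K b → ∀ (T : ℝ) (f : ℝ → V d → V d → ℝ),
      IsSol γ b T f → ∀ t ∈ Ioo 0 T, ∀ (x v : V d) (m : ℝ), (∀ w, f t x w ≤ m * φ N w) → f t x v = m * φ N v →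
      fderiv ℝ (fun p : ℝ × V d => f p.1 p.2 v) (t, x) (1, v) ≤ C * f t x v * (mom γ a (f t x) v).toReal := by
  have hp : 0 ≤ ((d:ℝ) - 1) / 2 + s := by
    have : (2:ℝ) ≤ d := by exact_mod_cast hd
    linarith
  obtain ⟨C, hC, hest⟩ := est (K := 2 * (|K| * 2 ^ (((d:ℝ) - 1) / 2 + s))) hd hs1 hsa (by linarith) ha2 hγ hγd hN
  obtain ⟨K1, hK1, hmom⟩ := mom_le hd hγ hγd ha2 hN
  refine ⟨C, hC, fun b hb T f hf t ht x v m hle hv => ?_⟩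
  have htI : t ∈ Ico 0 T := ⟨ht.1.le, ht.2⟩
  have hfm := hf.measurable htI x
  have hf0 : ∀ w, 0 ≤ f t x w := hf.nonneg t htI x
  have hm : 0 ≤ m := by
    have := hf0 v; rw [hv] at this
    exact nonneg_of_mul_nonneg_left this (φ_pos N v)
  have hmt : mom γ a (f t x) v ≠ ⊤ := ne_top_of_le_ne_top ENNReal.ofReal_ne_top (hmom (f t x) m hm hle v)
  have hR : ENNReal.ofReal (C * f t x v) * mom γ a (f t x) v ≠ ⊤ := ENNReal.mul_ne_top ENNReal.ofReal_ne_top hmt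
  have hval : (ENNReal.ofReal (C * f t x v) * mom γ a (f t x) v).toReal = C * f t x v * (mom γ a (f t x) v).toReal := by
    rw [ENNReal.toReal_mul, ENNReal.toReal_ofReal (mul_nonneg hC (hf0 v))]
  rw [← hval]
  refine le_of_tendsto (hf.eqn t ht x v) ?_
  filter_upwards [self_mem_nhdsWithin] with ε hε
  exact Qcut_le hd hp hb hε hfm hf0 v hR (hest _ (isKer_βs hp hb hε) (f t x) hfm hf0 m v hle hv)
    (ne_top_of_le_ne_top hmt (rel_le_mom γ a hf0 v))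

/-- unweighted moment -/
noncomputable def mom0 (γ : ℝ) (f : V d → ℝ) (v : V d) : ℝ≥0∞ := ∫⁻ w : V d, ENNReal.ofReal (f w * ‖w - v‖ ^ γ)

lemma mom0_le_mom (γ a : ℝ) {f : V d → ℝ} (hf0 : ∀ w, 0 ≤ f w) (v : V d) : mom0 γ f v ≤ mom γ a f v := by
  unfold mom0 mom
  refine lintegral_mono fun w => ENNReal.ofReal_le_ofReal ?_
  have h1 := hf0 w
  have h2 : 0 ≤ (1 + ‖w‖) ^ a := by positivity
  nlinarith [mul_nonneg h1 h2]

lemma mom0_eq (γ : ℝ) (f : V d → ℝ) (v : V d) :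
    mom0 γ f v = ∫⁻ z : V d, ENNReal.ofReal (‖z‖ ^ γ) * ENNReal.ofReal (f (v + z)) := by
  unfold mom0
  rw [← lintegral_add_left_eq_self (fun w => ENNReal.ofReal (f w * ‖w - v‖ ^ γ)) v]
  refine lintegral_congr fun z => ?_
  rw [← ENNReal.ofReal_mul (by positivity), add_sub_cancel_left, mul_comm]

/-- the equation at a maximum point -/
theorem touch0 (hd : 2 ≤ d) {s K γ : ℝ} (hs0 : 0 < s) (hs1 : s < 1) (hγ : γ ≤ 0) (hγd : 0 < d + γ) :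
    ∃ C : ℝ, 0 ≤ C ∧ ∀ b : ℝ → ℝ, IsAng ((d - 1) / 2 + s) K b → ∀ (T : ℝ) (f : ℝ → V d → V d → ℝ),
      IsSol γ b T f → ∀ t ∈ Ioo 0 T, ∀ (x v : V d), (∀ w, f t x w ≤ f t x v) →
      fderiv ℝ (fun p : ℝ × V d => f p.1 p.2 v) (t, x) (1, v) ≤ C * f t x v * (mom0 γ (f t x) v).toReal := by
  have hp : 0 ≤ ((d:ℝ) - 1) / 2 + s := by
    have : (2:ℝ) ≤ d := by exact_mod_cast hd
    linarith
  obtain ⟨C, hC, hest⟩ := est0 (K := 2 * (|K| * 2 ^ (((d:ℝ) - 1) / 2 + s))) hd hs1 hγd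
  obtain ⟨K1, hK1, hmom⟩ := mom_le (a := 2) (N := d + 3) hd hγ hγd le_rfl (by push_cast; linarith [(by positivity : (0:ℝ) ≤ d)])
  refine ⟨C, hC, fun b hb T f hf t ht x v hle => ?_⟩
  have htI : t ∈ Ico 0 T := ⟨ht.1.le, ht.2⟩
  have hfm := hf.measurable htI x
  have hf0 : ∀ w, 0 ≤ f t x w := hf.nonneg t htI x
  obtain ⟨m, hm, hmle⟩ := hf.decayφ htI (d + 3)
  have hmt0 : mom γ 2 (f t x) v ≠ ⊤ := ne_top_of_le_ne_top ENNReal.ofReal_ne_top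
    (hmom (f t x) m hm (hmle t ⟨htI.1, le_rfl⟩ x) v)
  have hmt : mom0 γ (f t x) v ≠ ⊤ := ne_top_of_le_ne_top hmt0 (mom0_le_mom γ 2 hf0 v)
  have hR : ENNReal.ofReal (C * f t x v) * mom0 γ (f t x) v ≠ ⊤ := ENNReal.mul_ne_top ENNReal.ofReal_ne_top hmt
  have hval : (ENNReal.ofReal (C * f t x v) * mom0 γ (f t x) v).toReal = C * f t x v * (mom0 γ (f t x) v).toReal := by
    rw [ENNReal.toReal_mul, ENNReal.toReal_ofReal (mul_nonneg hC (hf0 v))]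
  rw [← hval]
  refine le_of_tendsto (hf.eqn t ht x v) ?_
  filter_upwards [self_mem_nhdsWithin] with ε hε
  exact Qcut_le hd hp hb hε hfm hf0 v hR (hest _ (isKer_βs hp hb hε) (f t x) hfm hf0 v hle)
    (by rw [← mom0_eq]; exact hmt)

/-- the moments are continuous from the left -/
lemma mom_left (hd : 2 ≤ d) {γ a : ℝ} (hγ : γ ≤ 0) (hγd : 0 < d + γ) (ha2 : a ≤ 2) {b : ℝ → ℝ} {T : ℝ}
    {f : ℝ → V d → V d → ℝ} (h : IsSol γ b T f) {t₀ : ℝ} (ht₀ : t₀ ∈ Ioo 0 T) (x v : V d) :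
    Tendsto (fun t => mom γ a (f t x) v) (𝓝[<] t₀) (𝓝 (mom γ a (f t₀ x) v)) := by
  have hN : (d:ℝ) + 3 ≤ 2 * ((d + 3 : ℕ) : ℝ) := by push_cast; linarith [(by positivity : (0:ℝ) ≤ d)]
  obtain ⟨K1, hK1, hmom⟩ := mom_le (a := a) (N := d + 3) hd hγ hγd ha2 hN
  obtain ⟨m, hm, hmle⟩ := h.decayφ (t₂ := t₀) ⟨ht₀.1.le, ht₀.2⟩ (d + 3)
  have hIco : Ico 0 t₀ ∈ 𝓝[<] t₀ := Ico_mem_nhdsLT ht₀.1
  unfold mom
  refine tendsto_lintegral_filter_of_dominated_convergence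
    (fun w => ENNReal.ofReal ((m * φ (d + 3) w) * (‖w - v‖ ^ γ + (1 + ‖w‖) ^ a))) ?_ ?_ ?_ ?_
  · filter_upwards [hIco] with t ht
    refine (Measurable.mul (h.measurable ⟨ht.1, ht.2.trans ht₀.2⟩ x) ?_).ennreal_ofReal
    fun_prop
  · filter_upwards [hIco] with t ht
    refine Eventually.of_forall fun w => ENNReal.ofReal_le_ofReal ?_
    exact mul_le_mul_of_nonneg_right (hmle t ⟨ht.1, ht.2.le⟩ x w) (by positivity)
  · exact ne_top_of_le_ne_top ENNReal.ofReal_ne_top (hmom (fun w => m * φ (d + 3) w) m hm (fun w => le_rfl) v)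
  · refine Eventually.of_forall fun w => ?_
    exact ENNReal.tendsto_ofReal ((h.timecont ht₀ x w).mul_const _)

lemma mom0_left (hd : 2 ≤ d) {γ : ℝ} (hγ : γ ≤ 0) (hγd : 0 < d + γ) {b : ℝ → ℝ} {T : ℝ}
    {f : ℝ → V d → V d → ℝ} (h : IsSol γ b T f) {t₀ : ℝ} (ht₀ : t₀ ∈ Ioo 0 T) (x v : V d) :
    Tendsto (fun t => mom0 γ (f t x) v) (𝓝[<] t₀) (𝓝 (mom0 γ (f t₀ x) v)) := by
  have hN : (d:ℝ) + 3 ≤ 2 * ((d + 3 : ℕ) : ℝ) := by push_cast; linarith [(by positivity : (0:ℝ) ≤ d)]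
  obtain ⟨K1, hK1, hmom⟩ := mom_le (a := 2) (N := d + 3) hd hγ hγd le_rfl hN
  obtain ⟨m, hm, hmle⟩ := h.decayφ (t₂ := t₀) ⟨ht₀.1.le, ht₀.2⟩ (d + 3)
  have hIco : Ico 0 t₀ ∈ 𝓝[<] t₀ := Ico_mem_nhdsLT ht₀.1
  unfold mom0
  refine tendsto_lintegral_filter_of_dominated_convergence
    (fun w => ENNReal.ofReal ((m * φ (d + 3) w) * (‖w - v‖ ^ γ))) ?_ ?_ ?_ ?_
  · filter_upwards [hIco] with t ht
    refine (Measurable.mul (h.measurable ⟨ht.1, ht.2.trans ht₀.2⟩ x) ?_).ennreal_ofReal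
    fun_prop
  · filter_upwards [hIco] with t ht
    refine Eventually.of_forall fun w => ENNReal.ofReal_le_ofReal ?_
    exact mul_le_mul_of_nonneg_right (hmle t ⟨ht.1, ht.2.le⟩ x w) (by positivity)
  · exact ne_top_of_le_ne_top ENNReal.ofReal_ne_top ((mom0_le_mom γ 2 (fun w => mul_nonneg hm (φ_pos _ _).le) v).trans
      (hmom (fun w => m * φ (d + 3) w) m hm (fun w => le_rfl) v))
  · refine Eventually.of_forall fun w => ?_
    exact ENNReal.tendsto_ofReal ((h.timecont ht₀ x w).mul_const _)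

end Pool.Agent.H821.BZ
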