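import Mathlib

/-! Surface measure of the unit sphere: invariance, zonal integrals. -/

set_option autoImplicit false
open MeasureTheory Metric Set
open scoped ENNReal Real InnerProductSpace Pointwise

namespace Pool.Agent.H821.BZ

/-- the space of velocities -/
abbrev V (d : ℕ) := EuclideanSpace ℝ (Fin d)
/-- the unit sphere -/
abbrev Sp (d : ℕ) := sphere (0 : V d) 1
/-- surface measure of the unit sphere -/
noncomputable abbrev sm (d : ℕ) : Measure (Sp d) := (volume : Measure (V d)).toSphere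

variable {d : ℕ}

/-- a linear isometry acting on the sphere -/
noncomputable def rot (R : V d ≃ₗᵢ[ℝ] V d) (σ : Sp d) : Sp d :=
  ⟨R σ, by simp⟩

lemma continuous_rot (R : V d ≃ₗᵢ[ℝ] V d) : Continuous (rot R) :=
  Continuous.subtype_mk (R.continuous.comp continuous_subtype_val) _

lemma rot_coe (R : V d ≃ₗᵢ[ℝ] V d) (σ : Sp d) : ((rot R σ : Sp d) : V d) = R σ := rfl

lemma rot_symm (R : V d ≃ₗᵢ[ℝ] V d) (σ : Sp d) : rot R (rot R.symm σ) = σ := by
  apply Subtype.ext; simp [rot_coe]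

lemma measurePreserving_rot (R : V d ≃ₗᵢ[ℝ] V d) : MeasurePreserving (rot R) (sm d) (sm d) := by
  refine ⟨(continuous_rot R).measurable, ?_⟩
  ext s hs
  rw [Measure.map_apply (continuous_rot R).measurable hs,
    Measure.toSphere_apply' _ hs, Measure.toSphere_apply' _ ((continuous_rot R).measurable hs)]
  congr 1
  have : Ioo (0:ℝ) 1 • ((↑) '' (rot R ⁻¹' s) : Set (V d)) = R ⁻¹' (Ioo (0:ℝ) 1 • ((↑) '' s : Set (V d))) := by
    ext x
    simp only [Set.mem_smul, Set.mem_image, Set.mem_preimage]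
    constructor
    · rintro ⟨r, hr, y, ⟨σ, hσ, rfl⟩, rfl⟩
      exact ⟨r, hr, _, ⟨rot R σ, hσ, rfl⟩, by simp [rot_coe]⟩
    · rintro ⟨r, hr, y, ⟨σ, hσ, rfl⟩, h⟩
      refine ⟨r, hr, _, ⟨rot R.symm σ, ?_, rfl⟩, ?_⟩
      · rw [rot_symm]; exact hσ
      · rw [rot_coe]
        have := congrArg R.symm h
        simpa using this
  rw [this]
  exact (R.measurePreserving.measure_preimage_equiv (f := R.toHomeomorph.toMeasurableEquiv) _)

lemma lintegral_rot (R : V d ≃ₗᵢ[ℝ] V d) {g : Sp d → ℝ≥0∞} (hg : Measurable g) :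
    ∫⁻ σ, g (rot R σ) ∂(sm d) = ∫⁻ σ, g σ ∂(sm d) :=
  (measurePreserving_rot R).lintegral_comp hg

/-- two unit vectors are exchanged by a linear isometry -/
lemma exists_isom (e e' : V d) (he : ‖e‖ = 1) (he' : ‖e'‖ = 1) :
    ∃ R : V d ≃ₗᵢ[ℝ] V d, R e = e' :=
  ⟨(ℝ ∙ (e - e'))ᗮ.reflection, Submodule.reflection_sub (by rw [he, he'])⟩

lemma zonal_eq (e e' : V d) (he : ‖e‖ = 1) (he' : ‖e'‖ = 1) {g : ℝ → ℝ≥0∞} (hg : Measurable g) :
    ∫⁻ σ : Sp d, g ⟪e, (σ : V d)⟫_ℝ ∂(sm d) = ∫⁻ σ : Sp d, g ⟪e', (σ : V d)⟫_ℝ ∂(sm d) := by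
  obtain ⟨R, hR⟩ := exists_isom e e' he he'
  have hm : Measurable (fun σ : Sp d => g ⟪e', (σ : V d)⟫_ℝ) :=
    hg.comp (by fun_prop)
  rw [← lintegral_rot R hm]
  refine lintegral_congr fun σ => ?_
  rw [rot_coe, ← hR, LinearIsometryEquiv.inner_map_map]

lemma zonal_vol_eq (e e' : V d) (he : ‖e‖ = 1) (he' : ‖e'‖ = 1) {g : V d → V d → ℝ≥0∞}
    (hinv : ∀ (R : V d ≃ₗᵢ[ℝ] V d) (u w : V d), g (R u) (R w) = g u w) :
    ∫⁻ u : V d, g u e = ∫⁻ u : V d, g u e' := by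
  obtain ⟨R, hR⟩ := exists_isom e e' he he'
  rw [← (R.measurePreserving.lintegral_comp_emb R.toHomeomorph.measurableEmbedding (fun u => g u e'))]
  refine lintegral_congr fun u => ?_
  rw [← hR, hinv]

end Pool.Agent.H821.BZ
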