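import Pool.Agent.H821.BZ.Sph

/-! Finiteness of singular zonal integrals. -/

set_option autoImplicit false
open MeasureTheory Metric Set
open scoped ENNReal Real InnerProductSpace Pointwise

namespace Pool.Agent.H821.BZ

variable {d : ℕ}

lemma rpow_le_exp {x κ : ℝ} (hx : 0 ≤ x) (hκ : 0 ≤ κ) :
    x ^ κ ≤ (2 * κ) ^ κ * Real.exp (x / 2) := by
  rcases hκ.eq_or_lt with rfl | hκ
  · simp; positivity
  · have h1 : x / (2 * κ) ≤ Real.exp (x / (2 * κ)) := by
      have := Real.add_one_le_exp (x / (2 * κ)); linarith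
    have h2 : (x / (2 * κ)) ^ κ ≤ (Real.exp (x / (2 * κ))) ^ κ :=
      Real.rpow_le_rpow (by positivity) h1 hκ.le
    rw [← Real.exp_mul, Real.div_rpow hx (by positivity)] at h2
    have h3 : x / (2 * κ) * κ = x / 2 := by field_simp
    rw [h3, div_le_iff₀ (by positivity)] at h2
    linarith [h2]

lemma ae_coord_ne : ∀ᵐ u : V d, ∀ j, u j ≠ 0 := by
  rw [ae_all_iff]
  intro j
  have h : ∀ᵐ x : Fin d → ℝ, x j ≠ 0 := by
    have := Measure.pi_hyperplane (fun _ : Fin d => (volume : Measure ℝ)) j (0:ℝ)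
    rw [ae_iff]
    simpa [volume_pi] using this
  exact (PiLp.volume_preserving_ofLp (Fin d)).quasiMeasurePreserving.ae h

lemma integrable_abs_rpow_exp {α : ℝ} (hα : α < 1) :
    Integrable (fun t : ℝ => |t| ^ (-α) * Real.exp (-(1/2) * t ^ 2)) := by
  have h := (integrable_fun_norm_addHaar (E := ℝ) (F := ℝ) volume
    (f := fun y => y ^ (-α) * Real.exp (-(1/2) * y ^ 2))).2 (by
      simpa using integrableOn_rpow_mul_exp_neg_mul_sq (b := 1/2) (by norm_num) (s := -α) (by linarith))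
  refine h.congr (Filter.Eventually.of_forall fun t => ?_)
  simp [Real.norm_eq_abs]

/-- the bound by a product over the coordinates -/
lemma zonal_pointwise (hd : 2 ≤ d) {κ : ℝ} (hκ0 : 0 ≤ κ) (i0 : Fin d) (u : V d) (hu : ∀ j, u j ≠ 0)
    (hc : 0 ≤ u i0 / ‖u‖) :
    Real.exp (-‖u‖ ^ 2) * (1 - u i0 / ‖u‖) ^ (-κ) ≤
      (2 * (2 * κ)) ^ κ * ∏ j, (if j = i0 then Real.exp (-(1/2) * (u j) ^ 2) else
        |u j| ^ (-(2 * κ / (d - 1))) * Real.exp (-(1/2) * (u j) ^ 2)) := by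
  classical
  have hd1 : (0:ℝ) < d - 1 := by
    have : (2:ℝ) ≤ d := by exact_mod_cast hd
    linarith
  have hn2 : ‖u‖ ^ 2 = ∑ j, (u j) ^ 2 := by
    rw [EuclideanSpace.norm_sq_eq]; simp
  have hnpos : 0 < ‖u‖ := by
    have h1 : 0 < (u i0) ^ 2 := by have := hu i0; positivity
    have h2 : (u i0) ^ 2 ≤ ‖u‖ ^ 2 := by
      rw [hn2]; exact Finset.single_le_sum (f := fun j => (u j) ^ 2) (fun j _ => sq_nonneg _) (Finset.mem_univ i0)
    by_contra h
    have : ‖u‖ = 0 := le_antisymm (not_lt.1 h) (norm_nonneg _)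
    rw [this] at h2; nlinarith
  set c := u i0 / ‖u‖ with hcdef
  -- 1 - c ≥ u_j²/(2|u|²)
  have key : ∀ j, j ≠ i0 → (u j) ^ 2 / (2 * ‖u‖ ^ 2) ≤ 1 - c := by
    intro j hj
    have h1 : (u i0) ^ 2 + (u j) ^ 2 ≤ ‖u‖ ^ 2 := by
      rw [hn2]
      have : ∑ k ∈ ({i0, j} : Finset (Fin d)), (u k) ^ 2 ≤ ∑ k, (u k) ^ 2 :=
        Finset.sum_le_sum_of_subset_of_nonneg (Finset.subset_univ _) (fun _ _ _ => sq_nonneg _)
      rwa [Finset.sum_pair (Ne.symm hj)] at this
    have hc1 : u i0 = c * ‖u‖ := by rw [hcdef]; field_simp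
    rw [hc1] at h1
    have hcle : c ≤ 1 := by
      by_contra hlt
      push Not at hlt
      have h5 : 1 < c ^ 2 := by nlinarith
      nlinarith [sq_nonneg (u j), mul_pos (sub_pos.2 h5) (pow_pos hnpos 2)]
    rw [div_le_iff₀ (by positivity)]
    nlinarith [mul_pos hnpos hnpos, mul_nonneg (sub_nonneg.2 hcle) (mul_pos hnpos hnpos).le,
      mul_nonneg (mul_nonneg (sub_nonneg.2 hcle) (sub_nonneg.2 hcle)) (mul_pos hnpos hnpos).le]
  obtain ⟨j0, hj0⟩ : ∃ j0 : Fin d, j0 ≠ i0 := by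
    have : Nontrivial (Fin d) := Fin.nontrivial_iff_two_le.2 hd
    exact exists_ne i0
  have h1c : 0 < 1 - c := by
    refine lt_of_lt_of_le ?_ (key j0 hj0)
    have := hu j0
    positivity
  set α : ℝ := 2 * κ / (d - 1) with hα
  have hα0 : 0 ≤ α := by positivity
  -- (1-c)^{-κ} as a product
  have hcard : ((Finset.univ.erase i0).card : ℝ) = d - 1 := by
    rw [Finset.card_erase_of_mem (Finset.mem_univ _), Finset.card_univ, Fintype.card_fin]
    rw [Nat.cast_sub (by omega)]; simp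
  have e1 : (1 - c) ^ (-κ) = ∏ j ∈ Finset.univ.erase i0, (1 - c) ^ (-(α / 2)) := by
    rw [Finset.prod_const, ← Real.rpow_natCast, ← Real.rpow_mul h1c.le, hcard, hα]
    congr 1; field_simp
  have e2 : (1 - c) ^ (-κ) ≤ ∏ j ∈ Finset.univ.erase i0, ((2 * ‖u‖ ^ 2) ^ (α / 2) * |u j| ^ (-α)) := by
    rw [e1]
    refine Finset.prod_le_prod (fun j _ => by positivity) (fun j hj => ?_)
    have hj' : j ≠ i0 := Finset.ne_of_mem_erase hj
    have huj := hu j
    have h2 : (1 - c) ^ (-(α / 2)) ≤ ((u j) ^ 2 / (2 * ‖u‖ ^ 2)) ^ (-(α / 2)) :=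
      Real.rpow_le_rpow_of_nonpos (by positivity) (key j hj') (by linarith)
    refine h2.trans (le_of_eq ?_)
    rw [Real.rpow_neg (by positivity), Real.div_rpow (by positivity) (by positivity), inv_div,
      ← sq_abs (u j), ← Real.rpow_natCast (|u j|) 2, ← Real.rpow_mul (abs_nonneg _), Real.rpow_neg (abs_nonneg _)]
    have : ((2:ℕ):ℝ) * (α / 2) = α := by push_cast; ring
    rw [this]; rfl
  have e3 : ∏ j ∈ Finset.univ.erase i0, ((2 * ‖u‖ ^ 2) ^ (α / 2) * |u j| ^ (-α)) =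
      (2 * ‖u‖ ^ 2) ^ κ * ∏ j ∈ Finset.univ.erase i0, |u j| ^ (-α) := by
    rw [Finset.prod_mul_distrib, Finset.prod_const, ← Real.rpow_natCast, ← Real.rpow_mul (by positivity), hcard]
    congr 2
    rw [hα]; field_simp
  have e4 : (2 * ‖u‖ ^ 2) ^ κ ≤ (2 * (2 * κ)) ^ κ * Real.exp (‖u‖ ^ 2 / 2) := by
    have := rpow_le_exp (x := ‖u‖ ^ 2) (by positivity) hκ0
    rw [Real.mul_rpow (by norm_num) (by positivity), Real.mul_rpow (x := 2) (y := 2 * κ) (by norm_num) (by positivity)]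
    rw [mul_assoc]
    exact mul_le_mul_of_nonneg_left this (by positivity)
  have e5 : ∏ j, (if j = i0 then Real.exp (-(1/2) * (u j) ^ 2) else
        |u j| ^ (-α) * Real.exp (-(1/2) * (u j) ^ 2)) =
      Real.exp (-(1/2) * ‖u‖ ^ 2) * ∏ j ∈ Finset.univ.erase i0, |u j| ^ (-α) := by
    rw [hn2, Finset.mul_sum, Real.exp_sum, ← Finset.mul_prod_erase Finset.univ _ (Finset.mem_univ i0),
      ← Finset.mul_prod_erase Finset.univ (fun j => Real.exp (-(1/2) * (u j) ^ 2)) (Finset.mem_univ i0)]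
    rw [if_pos rfl, mul_assoc, ← Finset.prod_mul_distrib]
    congr 1
    refine Finset.prod_congr rfl fun j hj => ?_
    rw [if_neg (Finset.ne_of_mem_erase hj), mul_comm]
  rw [e5]
  have hP : 0 ≤ ∏ j ∈ Finset.univ.erase i0, |u j| ^ (-α) := Finset.prod_nonneg fun j _ => by positivity
  calc Real.exp (-‖u‖ ^ 2) * (1 - c) ^ (-κ)
      ≤ Real.exp (-‖u‖ ^ 2) * ((2 * ‖u‖ ^ 2) ^ κ * ∏ j ∈ Finset.univ.erase i0, |u j| ^ (-α)) :=
        mul_le_mul_of_nonneg_left (e2.trans_eq e3) (by positivity)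
    _ ≤ Real.exp (-‖u‖ ^ 2) * (((2 * (2 * κ)) ^ κ * Real.exp (‖u‖ ^ 2 / 2)) * ∏ j ∈ Finset.univ.erase i0, |u j| ^ (-α)) := by
        gcongr
    _ = (2 * (2 * κ)) ^ κ * (Real.exp (-(1/2) * ‖u‖ ^ 2) * ∏ j ∈ Finset.univ.erase i0, |u j| ^ (-α)) := by
        have : Real.exp (-(1/2) * ‖u‖ ^ 2) = Real.exp (-‖u‖ ^ 2) * Real.exp (‖u‖ ^ 2 / 2) := by
          rw [← Real.exp_add]; congr 1; ring
        rw [this]; ring

/-- singular zonal integrals are finite -/
theorem zonal_finite (hd : 2 ≤ d) {κ : ℝ} (hκ0 : 0 ≤ κ) (hκ : 2 * κ < d - 1) :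
    ∃ C : ℝ≥0∞, C ≠ ⊤ ∧ ∀ e : V d, ‖e‖ = 1 →
      ∫⁻ σ : Sp d, (if 0 ≤ ⟪e, (σ : V d)⟫_ℝ then ENNReal.ofReal ((1 - ⟪e, (σ : V d)⟫_ℝ) ^ (-κ)) else 0)
        ∂(sm d) ≤ C := by
  classical
  have : Nontrivial (Fin d) := Fin.nontrivial_iff_two_le.2 hd
  have : Nonempty (Fin d) := inferInstance
  have : Nontrivial (V d) := inferInstance
  obtain ⟨i0⟩ : Nonempty (Fin d) := inferInstance
  set g : ℝ → ℝ≥0∞ := fun c => if 0 ≤ c then ENNReal.ofReal ((1 - c) ^ (-κ)) else 0 with hg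
  have hgm : Measurable g := by
    refine Measurable.ite measurableSet_Ici ?_ measurable_const
    fun_prop
  set e0 : V d := EuclideanSpace.single i0 1 with he0
  have he0n : ‖e0‖ = 1 := by simp [he0]
  set Z : ℝ≥0∞ := ∫⁻ σ : Sp d, g ⟪e0, (σ : V d)⟫_ℝ ∂(sm d) with hZ
  refine ⟨Z, ?_, fun e he => (zonal_eq e e0 he he0n hgm).le⟩
  -- the Gaussian
  set G : V d → ℝ≥0∞ := fun u => ENNReal.ofReal (Real.exp (-‖u‖ ^ 2)) with hG
  have hGm : Measurable G := by rw [hG]; fun_prop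
  set W : ℝ≥0∞ := ∫⁻ u : V d, G u * g ⟪‖u‖⁻¹ • u, e0⟫_ℝ with hW
  have hae0 : ∀ᵐ u : V d, u ≠ 0 := by
    rw [ae_iff]; simp
  have h1 : Z * ∫⁻ u : V d, G u = (sm d) univ * W := by
    calc Z * ∫⁻ u : V d, G u = ∫⁻ u : V d, Z * G u := (lintegral_const_mul _ hGm).symm
      _ = ∫⁻ u : V d, ∫⁻ σ : Sp d, G u * g ⟪‖u‖⁻¹ • u, (σ : V d)⟫_ℝ ∂(sm d) := by
          refine lintegral_congr_ae (hae0.mono fun u hu => ?_)
          have hn : ‖(‖u‖⁻¹ • u)‖ = 1 := by
            rw [norm_smul, norm_inv, norm_norm, inv_mul_cancel₀ (norm_ne_zero_iff.2 hu)]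
          have hm : Measurable (fun σ : Sp d => g ⟪‖u‖⁻¹ • u, (σ : V d)⟫_ℝ) := hgm.comp (by fun_prop)
          simp only
          rw [lintegral_const_mul (G u) hm, mul_comm]
          congr 1
          exact (zonal_eq e0 _ he0n hn hgm)
      _ = ∫⁻ σ : Sp d, (∫⁻ u : V d, G u * g ⟪‖u‖⁻¹ • u, (σ : V d)⟫_ℝ) ∂(sm d) := by
          refine lintegral_lintegral_swap ?_
          refine Measurable.aemeasurable ?_
          refine (hGm.comp measurable_fst).mul (hgm.comp ?_)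
          exact Measurable.inner ((measurable_fst.norm.inv).smul measurable_fst) (measurable_subtype_coe.comp measurable_snd)
      _ = ∫⁻ σ : Sp d, W ∂(sm d) := by
          refine lintegral_congr fun σ => ?_
          refine zonal_vol_eq (σ : V d) e0 (by simp) he0n
            (g := fun u w => G u * g ⟪‖u‖⁻¹ • u, w⟫_ℝ) ?_
          intro R u w
          simp only [hG, LinearIsometryEquiv.norm_map]
          congr 2
          rw [← LinearIsometryEquiv.inner_map_map R (‖u‖⁻¹ • u) w, map_smul]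
      _ = (sm d) univ * W := by rw [lintegral_const, mul_comm]
  have hWfin : W ≠ ⊤ := by
    set α : ℝ := 2 * κ / (d - 1) with hα
    have hd1 : (0:ℝ) < d - 1 := by
      have : (2:ℝ) ≤ d := by exact_mod_cast hd
      linarith
    have hα1 : α < 1 := by rw [hα, div_lt_one hd1]; exact hκ
    set F : (Fin d → ℝ) → ℝ := fun x => ∏ j, (if j = i0 then Real.exp (-(1/2) * (x j) ^ 2) else
        |x j| ^ (-α) * Real.exp (-(1/2) * (x j) ^ 2)) with hF
    have hFint : Integrable F := by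
      have := Integrable.fintype_prod (𝕜 := ℝ) (μ := fun _ : Fin d => (volume : Measure ℝ))
        (f := fun j (t : ℝ) => if j = i0 then Real.exp (-(1/2) * t ^ 2) else
          |t| ^ (-α) * Real.exp (-(1/2) * t ^ 2)) (fun j => by
            by_cases h : j = i0
            · simp only [h, if_true]
              exact integrable_exp_neg_mul_sq (by norm_num)
            · simp only [h, if_false]
              exact integrable_abs_rpow_exp hα1)
      exact this
    have hFint2 : Integrable (fun u : V d => (2 * (2 * κ)) ^ κ * F (u.ofLp)) := by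
      refine Integrable.const_mul ?_ _
      exact (PiLp.volume_preserving_ofLp (Fin d)).integrable_comp_of_integrable hFint
    have hle : W ≤ ∫⁻ u : V d, ENNReal.ofReal ((2 * (2 * κ)) ^ κ * F (u.ofLp)) := by
      refine lintegral_mono_ae (ae_coord_ne.mono fun u hu => ?_)
      have hc : ⟪‖u‖⁻¹ • u, e0⟫_ℝ = u i0 / ‖u‖ := by
        rw [inner_smul_left, he0, EuclideanSpace.inner_single_right]
        simp [div_eq_inv_mul]
      simp only [hg, hc, hG]
      by_cases h0 : 0 ≤ u i0 / ‖u‖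
      · rw [if_pos h0, ← ENNReal.ofReal_mul (Real.exp_nonneg _)]
        exact ENNReal.ofReal_le_ofReal (zonal_pointwise hd hκ0 i0 u hu h0)
      · rw [if_neg h0, mul_zero]; exact zero_le
    exact ne_top_of_le_ne_top hFint2.2.ne (hle.trans (lintegral_mono fun u => Real.ofReal_le_enorm _))
  have hGpos : ∫⁻ u : V d, G u ≠ 0 := by
    rw [Ne, lintegral_eq_zero_iff hGm]
    intro h
    have h2 : ∀ᵐ u : V d, False := h.mono fun u hu => by
      have : (0:ℝ≥0∞) < G u := by rw [hG]; simp [Real.exp_pos]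
      simp only [Pi.zero_apply] at hu
      rw [hu] at this; exact lt_irrefl _ this
    rw [Filter.eventually_false_iff_eq_bot, ae_eq_bot] at h2
    exact NeZero.ne _ h2
  intro hZtop
  rw [hZtop, ENNReal.top_mul hGpos] at h1
  exact (ENNReal.mul_ne_top (measure_ne_top _ _) hWfin) h1.symm

end Pool.Agent.H821.BZ
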